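import Pool.Agent.Work.MP_833881_lp.Num
import Pool.Agent.Work.MP_833881_lb.EXP
import Pool.Agent.Work.MP_833881_lb.DEG

/-!
# Block A1: degrees and expansion
-/

namespace Pool.Agent.Work.MP_833881_lp

open Finset Pool.Agent.Work.MP_833881_lc Pool.Agent.Work.MP_833881_lb
open scoped Classical

noncomputable section

namespace A1

variable {C a n : ℕ}

/-- DEG -/
theorem num_deg (hP : Par2 C a n) :
    ((n ^ 2 : ℕ) : ℝ) * (sa C a : ℝ) ^ (r0 C + cc C) / 2 ^ (sa C a) ≤ 1 / 32 := by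
  have h1 : 32 * (n ^ 2 * sa C a ^ (r0 C + cc C)) ≤ 2 ^ (sa C a) := by
    have ha := hP.par.a_ge
    have hC := hP.par.hC
    have hk : sa C a ^ (r0 C + cc C) ≤ a := by
      refine le_trans ?_ (hP.pw (r0 C + cc C) (by unfold kk rp; omega))
      refine le_trans (Nat.pow_le_pow_left (by omega) _) (Nat.le_mul_of_pos_left _ (by positivity))
    have hn2 : n ^ 2 ≤ a ^ (2 * C) := by
      rw [Nat.mul_comm, pow_mul]
      exact Nat.pow_le_pow_left hP.par.hn 2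
    calc 32 * (n ^ 2 * sa C a ^ (r0 C + cc C)) ≤ a * (a ^ (2 * C) * a) :=
          Nat.mul_le_mul (by omega) (Nat.mul_le_mul hn2 hk)
      _ = a ^ (2 * C + 2) := by ring
      _ ≤ a ^ (10 * C) := Nat.pow_le_pow_right (by omega) (by omega)
      _ ≤ 2 ^ (sa C a) := hP.par.pow_lt
  have h2 : (32 : ℝ) * (((n ^ 2 : ℕ) : ℝ) * (sa C a : ℝ) ^ (r0 C + cc C)) ≤ 2 ^ (sa C a) := by
    exact_mod_cast h1
  rw [div_le_div_iff₀ (by positivity) (by norm_num)]
  linarith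

/-- EXP -/
theorem num_exp (hP : Par2 C a n) (h q : ℕ) (hh : n ≤ 2 * h) (hq : q ≤ 700 * (n / a ^ 2)) :
    ((n ^ 2 : ℕ) : ℝ) * 2 ^ (sa C a) * ((sa C a : ℝ) * q / (2 * h)) ^ (cc C) ≤ 1 / a := by
  have ha := hP.par.a_ge
  have ha0 : (0 : ℝ) < a := by exact_mod_cast (by omega : 0 < a)
  have hn0 : 0 < n := hP.n_pos
  have hh0 : (0 : ℝ) < 2 * h := by
    have : 0 < 2 * h := by omega
    exact_mod_cast this
  have h1 : sa C a * q * a ≤ n := by
    have h2 : 700 * sa C a ≤ a := by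
      have := hP.par.a1
      omega
    calc sa C a * q * a ≤ sa C a * (700 * (n / a ^ 2)) * a := by
          apply Nat.mul_le_mul_right
          apply Nat.mul_le_mul_left
          exact hq
      _ = 700 * sa C a * ((n / a ^ 2) * a) := by ring
      _ ≤ a * ((n / a ^ 2) * a) := Nat.mul_le_mul_right _ h2
      _ = n / a ^ 2 * a ^ 2 := by ring
      _ ≤ n := hP.par.Wn
  have h2 : (sa C a : ℝ) * q / (2 * h) ≤ 1 / a := by
    rw [div_le_div_iff₀ hh0 ha0, one_mul]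
    have : sa C a * q * a ≤ 2 * h := h1.trans hh
    exact_mod_cast this
  have h3 : ((sa C a : ℝ) * q / (2 * h)) ^ (cc C) ≤ (1 / (a : ℝ)) ^ (cc C) :=
    pow_le_pow_left₀ (by positivity) h2 _
  have h4 : n ^ 2 * 2 ^ (sa C a) ≤ a ^ (22 * C) := by
    have hn2 : n ^ 2 ≤ a ^ (2 * C) := by
      rw [Nat.mul_comm, pow_mul]
      exact Nat.pow_le_pow_left hP.par.hn 2
    calc n ^ 2 * 2 ^ (sa C a) ≤ a ^ (2 * C) * a ^ (20 * C) := Nat.mul_le_mul hn2 hP.par.pow_ge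
      _ = a ^ (22 * C) := by rw [← pow_add]; congr 1; ring
  have h5 : ((n ^ 2 : ℕ) : ℝ) * 2 ^ (sa C a) ≤ (a : ℝ) ^ (22 * C) := by exact_mod_cast h4
  calc ((n ^ 2 : ℕ) : ℝ) * 2 ^ (sa C a) * ((sa C a : ℝ) * q / (2 * h)) ^ (cc C)
      ≤ (a : ℝ) ^ (22 * C) * (1 / (a : ℝ)) ^ (cc C) := mul_le_mul h5 h3 (by positivity) (by positivity)
    _ = 1 / a := by
      unfold cc
      rw [pow_succ, ← mul_assoc, ← mul_pow, mul_one_div_cancel ha0.ne', one_pow, one_mul]

end A1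

open A1

theorem stmt_A1 : Stmt_A1 := by
  intro C
  obtain ⟨a0, ha0⟩ := par2_ex C
  refine ⟨a0, ?_⟩
  intro a n L U J h hl P0 E0 hS
  have hP := ha0 a n hS.rg
  have hage := hP.par.a_ge
  have hsge := hP.par.s_ge
  have hh := hS.hh
  have hnp := hP.n_pos
  have hh1 : 1 ≤ h := by omega
  have hcc1 : 1 ≤ r0 C + cc C := by unfold cc; omega
  have h1 : pr (fun ω : Fin (n ^ 2) → Fin (sa C a) → Fin h × Bool =>
      ∃ i, alive hl (∅ : Finset (Edge (n ^ 2) n)) ω i < r0 C + cc C) ≤ 1 / 32 :=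
    (stmt_DEG (n ^ 2) n h (sa C a) hl (r0 C + cc C) hh1 (by omega) hcc1).trans (num_deg hP)
  have h2 : pr (fun ω : Fin (n ^ 2) → Fin (sa C a) → Fin h × Bool =>
      ∃ q ∈ Finset.Icc 1 (700 * (n / a ^ 2)), ∃ A : Finset (Fin (n ^ 2)), A.card = q ∧
        (univ.filter (fun j => ∃ i ∈ A, ∃ l, (ω i l).2 = true ∧ hl (ω i l).1 = j)).card + cc C * q <
          ∑ i ∈ A, alive hl (∅ : Finset (Edge (n ^ 2) n)) ω i) ≤ 1 / 32 := by
    refine (pr_exists_le _ _).trans ?_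
    have hx : (1 : ℝ) / a ≤ 1 / 64 := by
      have : (64 : ℝ) ≤ a := by exact_mod_cast (by omega : 64 ≤ a)
      exact one_div_le_one_div_of_le (by norm_num) this
    have hx0 : (0 : ℝ) ≤ 1 / a := by positivity
    refine (Finset.sum_le_sum (g := fun q => (1 / (a : ℝ)) ^ q) ?_).trans ?_
    · intro q hq
      have hq2 := (Finset.mem_Icc.1 hq).2
      refine (stmt_EXP (n ^ 2) n h (sa C a) hl (cc C) q hS.inj hh1).trans ?_
      exact pow_le_pow_left₀ (by positivity) (num_exp hP h q hh hq2) _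
    · refine (ST2.geom _ hx0 (by linarith) _).trans ?_
      linarith
  refine (pr_mono ?_).trans ((pr_or _ _).trans (add_le_add h1 h2) |>.trans (by norm_num))
  intro ω hω
  by_contra hcon
  push Not at hcon
  obtain ⟨g1, g2⟩ := hcon
  apply hω
  refine ⟨g1, fun A hA => ?_⟩
  by_cases hA0 : A.card = 0
  · rw [Finset.card_eq_zero.1 hA0]
    simp
  · exact g2 A.card (Finset.mem_Icc.2 ⟨by omega, hA⟩) A rfl

end

end Pool.Agent.Work.MP_833881_lp
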