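import Pool.Agent.Work.MP_833881_lp.Num
import Pool.Agent.Work.MP_833881_lb.HOL

/-!
# Block A2: holes
-/

namespace Pool.Agent.Work.MP_833881_lp

open Finset Pool.Agent.Work.MP_833881_lc Pool.Agent.Work.MP_833881_lb
open scoped Classical

noncomputable section

namespace A2

variable {C a n : ℕ}

/-- the exponents -/
theorem num_exps (hP : Par2 C a n) :
    n / a ^ 3 + 4 * sa C a * x0 C a n + sa C a + 4 ≤ n / (16 * a) := by
  have ha := hP.par.a_ge
  set K := n / (16 * a) with hK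
  set W := n / a ^ 2 with hW
  set Z := n / a ^ 3 with hZ
  set s := sa C a with hs
  have hEW : a * W ≤ 16 * (K + 1) := by
    have h2 : n < K * (16 * a) + 16 * a := by
      have h3 := Nat.div_add_mod n (16 * a)
      have h4 : n % (16 * a) < 16 * a := Nat.mod_lt _ (by omega)
      have h5 : 16 * a * (n / (16 * a)) = K * (16 * a) := by rw [hK]; ring
      omega
    have h3 : W * a ^ 2 ≤ n := hP.par.Wn
    have h4 : a * (a * W) < a * (16 * (K + 1)) := by
      calc a * (a * W) = W * a ^ 2 := by ring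
        _ ≤ n := h3
        _ < K * (16 * a) + 16 * a := h2
        _ = a * (16 * (K + 1)) := by ring
    exact (Nat.lt_of_mul_lt_mul_left h4).le
  have hZW : Z ≤ W := hP.zw
  have hsW : s ≤ W := by
    have h2 := hP.par.Za
    have h3 := hP.par.a1
    omega
  have hW1 : 1 ≤ W := hP.w_pos
  have h10 := hP.C_le
  have h5 : 1000 * (s + 2) ^ 2 * W ≤ a * W := Nat.mul_le_mul_right _ hP.par.a2
  have hx : x0 C a n ≤ (3 * s + 7) * W := by
    have : x0 C a n = (26 * C + 7) * Z := rfl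
    rw [this]
    exact Nat.mul_le_mul (by omega) hZW
  have h6 : 4 * s * x0 C a n ≤ 4 * s * ((3 * s + 7) * W) := Nat.mul_le_mul_left _ hx
  have h7 : 16 * (Z + 4 * s * x0 C a n + s + 4 + 1) ≤ 1000 * (s + 2) ^ 2 * W := by
    have h9 : 5 ≤ 5 * W := by omega
    calc 16 * (Z + 4 * s * x0 C a n + s + 4 + 1)
        ≤ 16 * (W + 4 * s * ((3 * s + 7) * W) + W + 5 * W) := by omega
      _ = (192 * s ^ 2 + 448 * s + 112) * W := by ring
      _ ≤ 1000 * (s + 2) ^ 2 * W := Nat.mul_le_mul_right _ (by nlinarith)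
  omega

/-- HOL -/
theorem num_hol (hP : Par2 C a n) (h N : ℕ) (hh : n ≤ 2 * h) (hh' : h ≤ n) (hN : n ^ 2 ≤ 2 * a * N) :
    (2 : ℝ) ^ (n / a ^ 3) * 2 ^ (4 * sa C a * x0 C a n) * h *
      (2 ^ (n / (16 * a) - 1) * (1 - 1 / (4 * (h : ℝ))) ^ N) ≤ 1 / 32 := by
  have ha := hP.par.a_ge
  have hn0 : 0 < n := hP.n_pos
  have hh0 : 0 < h := by omega
  have hhR : (0 : ℝ) < h := by exact_mod_cast hh0
  have haR : (0 : ℝ) < a := by exact_mod_cast (by omega : 0 < a)
  have hnR : (0 : ℝ) < n := by exact_mod_cast hn0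
  have hexp := num_exps hP
  set K : ℕ := n / (16 * a) with hK
  -- the exponential
  have h1 : (1 - 1 / (4 * (h : ℝ))) ^ N ≤ (1 / 2) ^ (2 * K) := by
    have h2 : 1 - 1 / (4 * (h : ℝ)) ≤ Real.exp (-(1 / (4 * (h : ℝ)))) := Real.one_sub_le_exp_neg _
    have h3 : 0 ≤ 1 - 1 / (4 * (h : ℝ)) := by
      have h4 : (1 : ℝ) ≤ h := by exact_mod_cast hh0
      rw [sub_nonneg, div_le_one (by positivity)]
      linarith
    have h4 : ((2 * K : ℕ) : ℝ) ≤ N * (1 / (4 * (h : ℝ))) := by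
      have h5 : K * (16 * a) ≤ n := Nat.div_mul_le_self _ _
      have h5' : (K : ℝ) * (16 * a) ≤ n := by exact_mod_cast h5
      have h6 : (n : ℝ) ^ 2 ≤ 2 * a * N := by exact_mod_cast hN
      have h7 : (h : ℝ) ≤ n := by exact_mod_cast hh'
      rw [mul_one_div, le_div_iff₀ (by positivity)]
      have h8 : (K : ℝ) * (16 * a) * n ≤ 2 * a * N := by
        calc (K : ℝ) * (16 * a) * n ≤ n * n := mul_le_mul_of_nonneg_right h5' hnR.le
          _ = (n : ℝ) ^ 2 := by ring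
          _ ≤ _ := h6
      have h9 : (K : ℝ) * 8 * n ≤ N := by
        have h10 : 2 * (a : ℝ) * ((K : ℝ) * 8 * n) ≤ 2 * a * N := by
          calc 2 * (a : ℝ) * ((K : ℝ) * 8 * n) = (K : ℝ) * (16 * a) * n := by ring
            _ ≤ _ := h8
        exact le_of_mul_le_mul_left h10 (by positivity)
      push_cast
      calc 2 * (K : ℝ) * (4 * h) = (K : ℝ) * 8 * h := by ring
        _ ≤ (K : ℝ) * 8 * n := mul_le_mul_of_nonneg_left h7 (by positivity)
        _ ≤ N := h9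
    calc (1 - 1 / (4 * (h : ℝ))) ^ N ≤ (Real.exp (-(1 / (4 * (h : ℝ))))) ^ N :=
          pow_le_pow_left₀ h3 h2 N
      _ = Real.exp (-(N * (1 / (4 * (h : ℝ))))) := by
          rw [← Real.exp_nat_mul]; congr 1; ring
      _ ≤ Real.exp (-((2 * K : ℕ) : ℝ)) := Real.exp_le_exp.mpr (by linarith)
      _ = (Real.exp (-1)) ^ (2 * K) := by
          rw [← Real.exp_nat_mul]; congr 1; ring
      _ ≤ (1 / 2) ^ (2 * K) := by
          apply pow_le_pow_left₀ (Real.exp_pos _).le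
          have := Real.exp_neg_one_lt_half
          linarith
  have hh2 : (h : ℝ) ≤ 2 ^ (sa C a) := by
    have : h ≤ 2 ^ (sa C a) := hh'.trans hP.par.n2s
    exact_mod_cast this
  have hexp2 : n / a ^ 3 + 4 * sa C a * x0 C a n + sa C a + (K - 1) + 5 ≤ 2 * K := by
    generalize n / a ^ 3 + 4 * sa C a * x0 C a n + sa C a = M at hexp ⊢
    omega
  calc (2 : ℝ) ^ (n / a ^ 3) * 2 ^ (4 * sa C a * x0 C a n) * h *
      (2 ^ (K - 1) * (1 - 1 / (4 * (h : ℝ))) ^ N)
      ≤ (2 : ℝ) ^ (n / a ^ 3) * 2 ^ (4 * sa C a * x0 C a n) * 2 ^ (sa C a) *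
      (2 ^ (K - 1) * (1 / 2) ^ (2 * K)) := by
        apply mul_le_mul
        · exact mul_le_mul_of_nonneg_left hh2 (by positivity)
        · exact mul_le_mul_of_nonneg_left h1 (by positivity)
        · apply mul_nonneg (by positivity)
          apply pow_nonneg
          have h4 : (1 : ℝ) ≤ h := by exact_mod_cast hh0
          rw [sub_nonneg, div_le_one (by positivity)]
          linarith
        · positivity
    _ = 2 ^ (n / a ^ 3 + 4 * sa C a * x0 C a n + sa C a + (K - 1)) * (1 / 2) ^ (2 * K) := by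
        rw [pow_add, pow_add, pow_add]; ring
    _ ≤ 2 ^ (n / a ^ 3 + 4 * sa C a * x0 C a n + sa C a + (K - 1)) *
        (1 / 2) ^ (n / a ^ 3 + 4 * sa C a * x0 C a n + sa C a + (K - 1) + 5) := by
        apply mul_le_mul_of_nonneg_left _ (by positivity)
        exact pow_le_pow_of_le_one (by norm_num) (by norm_num) hexp2
    _ = 1 / 32 := by
        rw [pow_add (1 / 2 : ℝ), ← mul_assoc, ← mul_pow]
        norm_num

end A2

open A2

theorem stmt_A2 : Stmt_A2 := by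
  intro C
  obtain ⟨a0, ha0⟩ := par2_ex C
  refine ⟨a0, ?_⟩
  intro a n L U J h hl P0 E0 hS
  have hP := ha0 a n hS.rg
  have hage := hP.par.a_ge
  have hsge := hP.par.s_ge
  have hh := hS.hh
  have hnp := hP.n_pos
  have hh1 : 1 ≤ h := by omega
  have hhn : h ≤ n := by
    have := Fintype.card_le_of_injective hl hS.inj
    simpa using this
  have hhR : (0 : ℝ) < h := by exact_mod_cast hh1
  have hLR : ((L.card : ℕ) : ℝ) ≤ 2 ^ (n / a ^ 3) := by exact_mod_cast hS.hL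
  have hK1 : 1 ≤ n / (16 * a) := le_trans (by omega) ((Nat.le_add_left 4 _).trans (num_exps hP))
  have hfac : (0 : ℝ) ≤ 1 - 1 / (4 * (h : ℝ)) := by
    have h4 : (1 : ℝ) ≤ h := by exact_mod_cast hh1
    rw [sub_nonneg, div_le_one (by positivity)]
    linarith
  have hone : (1 : ℝ) ≤ 2 ^ (n / a ^ 3) * 2 ^ (4 * sa C a * x0 C a n) := by
    have h4 : (1 : ℝ) ≤ 2 ^ (n / a ^ 3) := one_le_pow₀ (by norm_num)
    have h5 : (1 : ℝ) ≤ 2 ^ (4 * sa C a * x0 C a n) := one_le_pow₀ (by norm_num)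
    nlinarith
  set Ξ : Finset (Finset (Edge (n ^ 2) n)) := univ.filter (fun ξ => ξ.card ≤ x0 C a n) with hΞ
  have hXi : ((Ξ.card : ℕ) : ℝ) ≤ 2 ^ (4 * sa C a * x0 C a n) :=
    (count_le n (x0 C a n)).trans (hP.M2 _)
  have hLX : (((L ×ˢ Ξ).card : ℕ) : ℝ) ≤ 2 ^ (n / a ^ 3) * 2 ^ (4 * sa C a * x0 C a n) := by
    rw [Finset.card_product, Nat.cast_mul]
    exact mul_le_mul hLR hXi (by positivity) (by positivity)
  have h3 : pr (fun ω : Fin (n ^ 2) → Fin (sa C a) → Fin h × Bool =>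
      ∃ x ∈ (univ : Finset (Fin h)),
        ((E1 hl P0 ω).filter (fun e => e.2 = hl x ∧ e ∉ (∅ : Finset (Edge (n ^ 2) n)))).card ≤
          n / (16 * a) - 1) ≤ 1 / 32 := by
    have hN : ∀ x : Fin h, n ^ 2 - n ≤ (univ.filter (fun i : Fin (n ^ 2) => i ∉ P0 ∧
        (i, hl x) ∉ (∅ : Finset (Edge (n ^ 2) n)))).card := by
      intro x
      have h4 : (univ.filter (fun i : Fin (n ^ 2) => i ∉ P0 ∧ (i, hl x) ∉ (∅ : Finset (Edge (n ^ 2) n)))) =
          P0ᶜ := by
        ext i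
        simp
      rw [h4, Finset.card_compl, Fintype.card_fin]
      have := hS.hP0
      omega
    have hN2 : n ^ 2 ≤ 2 * a * (n ^ 2 - n) := by
      have hna := hP.par.n_ge
      have h4 : 2 * n ≤ n ^ 2 := by
        rw [pow_two]
        exact Nat.mul_le_mul_right _ (by omega)
      have h5 : n ^ 2 ≤ 2 * (n ^ 2 - n) := by omega
      calc n ^ 2 ≤ 2 * (n ^ 2 - n) := h5
        _ ≤ 2 * a * (n ^ 2 - n) := Nat.mul_le_mul_right _ (by omega)
    refine le_trans (pr_exists_le_card _ _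
      (2 ^ (n / (16 * a) - 1) * (1 - 1 / (4 * (h : ℝ))) ^ (n ^ 2 - n)) ?_) ?_
    · intro x _
      exact stmt_HOL (n ^ 2) n h (sa C a) hl P0 ∅ x (n ^ 2 - n) (n / (16 * a) - 1) (by omega) (hN x)
    · rw [Finset.card_univ, Fintype.card_fin]
      refine le_trans ?_ (num_hol hP h _ hh hhn hN2)
      have h5 : (0 : ℝ) ≤ 2 ^ (n / (16 * a) - 1) * (1 - 1 / (4 * (h : ℝ))) ^ (n ^ 2 - n) :=
        mul_nonneg (by positivity) (pow_nonneg hfac _)
      apply mul_le_mul_of_nonneg_right _ h5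
      exact le_mul_of_one_le_left hhR.le hone
  -- the least number
  obtain ⟨N0, hN0, hN0'⟩ : ∃ N0 : ℕ, n ^ 2 ≤ 2 * a * N0 ∧ ∀ N, n ^ 2 ≤ 2 * a * N → N0 ≤ N := by
    have hex : ∃ N : ℕ, n ^ 2 ≤ 2 * a * N := ⟨n ^ 2, Nat.le_mul_of_pos_left _ (by omega)⟩
    exact ⟨Nat.find hex, Nat.find_spec hex, fun N hN => Nat.find_min' hex hN⟩
  have h6 : pr (fun ω : Fin (n ^ 2) → Fin (sa C a) → Fin h × Bool =>
      ∃ p ∈ (L ×ˢ Ξ) ×ˢ (univ : Finset (Fin h)),
        n ^ 2 ≤ 2 * a * (univ.filter (fun i : Fin (n ^ 2) => i ∉ P0 ∧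
          (i, hl p.2) ∉ Pos p.1.1 (E0 ∪ p.1.2))).card ∧
        ((E1 hl P0 ω).filter (fun e => e.2 = hl p.2 ∧ e ∉ Pos p.1.1 (E0 ∪ p.1.2))).card ≤
          n / (16 * a) - 1) ≤ 1 / 32 := by
    refine le_trans (pr_exists_le_card _ _
      (2 ^ (n / (16 * a) - 1) * (1 - 1 / (4 * (h : ℝ))) ^ N0) ?_) ?_
    · intro p _
      by_cases hp : n ^ 2 ≤
          2 * a * (univ.filter (fun i : Fin (n ^ 2) => i ∉ P0 ∧
            (i, hl p.2) ∉ Pos p.1.1 (E0 ∪ p.1.2))).card
      · refine le_trans (pr_mono (fun ω hω => hω.2)) ?_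
        exact stmt_HOL (n ^ 2) n h (sa C a) hl P0 (Pos p.1.1 (E0 ∪ p.1.2)) p.2 N0
          (n / (16 * a) - 1) (by omega) (hN0' _ hp)
      · rw [pr_false (fun ω hω => hp hω.1)]
        exact mul_nonneg (by positivity) (pow_nonneg hfac _)
    · refine le_trans ?_ (num_hol hP h _ hh hhn hN0)
      apply mul_le_mul_of_nonneg_right _ (mul_nonneg (by positivity) (pow_nonneg hfac _))
      rw [Finset.card_product, Nat.cast_mul, Finset.card_univ, Fintype.card_fin]
      exact mul_le_mul_of_nonneg_right hLX hhR.le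
  refine (pr_mono ?_).trans ((pr_or _ _).trans (add_le_add h3 h6) |>.trans (by norm_num))
  intro ω hω
  by_contra hcon
  push Not at hcon
  obtain ⟨g1, g2⟩ := hcon
  apply hω
  refine ⟨fun x => ?_, fun D hD ξ hξ x hx => ?_⟩
  · have h7 := g1 x (Finset.mem_univ x)
    have h8 : ((E1 hl P0 ω).filter (fun e => e.2 = hl x ∧ e ∉ (∅ : Finset (Edge (n ^ 2) n)))) =
        ((E1 hl P0 ω).filter (fun e => e.2 = hl x)) := by
      ext e
      simp
    rw [h8] at h7
    omega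
  · have h7 := g2 ((D, ξ), x) (Finset.mem_product.2 ⟨Finset.mem_product.2 ⟨hD,
      Finset.mem_filter.2 ⟨Finset.mem_univ _, hξ⟩⟩, Finset.mem_univ _⟩) hx
    show n / (16 * a) ≤ _
    have h8 : n / (16 * a) - 1 <
      ((E1 hl P0 ω).filter (fun e => e.2 = hl x ∧ e ∉ Pos D (E0 ∪ ξ))).card := h7
    omega

end

end Pool.Agent.Work.MP_833881_lp
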