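import Pool.Agent.Work.MP_833881_lp.Interface
import Pool.Agent.Work.MP_833881_lb.ST2A

/-!
# Numerical toolkit

`Par2 C a n` collects what holds for `a ≥ a₀(C)`: `hP.par : ST2.Par C a n` (lemmas in `lb/ST2A.lean`: `a_ge`, `s_ge`, `Wn`,
`Zle`, `aZ`, `Za`, `Zn`, `n2s`, `n_ge`, `M4`, ...) and `hP.big`.
-/

namespace Pool.Agent.Work.MP_833881_lp

open Finset Pool.Agent.Work.MP_833881_lc Pool.Agent.Work.MP_833881_lb
open scoped Classical

noncomputable section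

/-- the parameters are large -/
structure Par2 (C a n : ℕ) : Prop where
  par : ST2.Par C a n
  big : 2 ^ 60 * (sa C a + 2) ^ (kk C + 60) ≤ a

theorem par2_ex (C : ℕ) : ∃ a0 : ℕ, ∀ a n : ℕ, Rg C a0 a n → Par2 C a n := by
  by_cases hC : 1 ≤ C
  · obtain ⟨a1, ha1⟩ := ST2.growth C (rr C + cc C + 2) hC
    obtain ⟨a2, ha2⟩ := ST2.growth C (kk C + 100) hC
    refine ⟨max a1 a2, fun a n h => ⟨⟨h.hC, ha1 a ((le_max_left _ _).trans h.ha), h.h6, h.hn⟩, ?_⟩⟩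
    refine le_trans ?_ (ha2 a ((le_max_right _ _).trans h.ha))
    have h1 : 10 ≤ sa C a := by
      unfold sa
      nlinarith [Nat.zero_le (Nat.log 2 a), Nat.zero_le (C * Nat.log 2 a)]
    have h2 : 2 ^ 60 ≤ (sa C a + 2) ^ 40 := by
      calc 2 ^ 60 ≤ 12 ^ 40 := by norm_num
        _ ≤ (sa C a + 2) ^ 40 := Nat.pow_le_pow_left (by omega) 40
    calc 2 ^ 60 * (sa C a + 2) ^ (kk C + 60) ≤ (sa C a + 2) ^ 40 * (sa C a + 2) ^ (kk C + 60) :=
          Nat.mul_le_mul_right _ h2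
      _ = (sa C a + 2) ^ (kk C + 100) := by rw [← pow_add]; congr 1; omega
      _ ≤ 1000 * (sa C a + 2) ^ (kk C + 100) := Nat.le_mul_of_pos_left _ (by norm_num)
  · exact ⟨0, fun a n h => absurd h.hC hC⟩

variable {C a n : ℕ}

theorem Par2.C_le (hP : Par2 C a n) : 10 * C ≤ sa C a := by
  unfold sa
  have := hP.par.hC
  nlinarith [Nat.zero_le (Nat.log 2 a), Nat.zero_le (C * Nat.log 2 a)]

/-- powers of `s + 2` with constant factors are at most `a` -/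
theorem Par2.pw (hP : Par2 C a n) (k : ℕ) (hk : k ≤ kk C + 60) : 2 ^ 60 * (sa C a + 2) ^ k ≤ a :=
  (Nat.mul_le_mul_left _ (Nat.pow_le_pow_right (by omega) hk)).trans hP.big

/-- the same with the number `s ^ kk` -/
theorem Par2.pwk (hP : Par2 C a n) : 2 ^ 60 * (sa C a + 2) ^ 60 * sa C a ^ kk C ≤ a := by
  refine le_trans ?_ hP.big
  rw [mul_assoc]
  apply Nat.mul_le_mul_left
  rw [Nat.add_comm (kk C) 60, pow_add]
  exact Nat.mul_le_mul_left _ (Nat.pow_le_pow_left (by omega) _)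

theorem Par2.a_pos (hP : Par2 C a n) : 0 < a := by
  have := hP.par.a_ge
  omega

theorem Par2.a_ge (hP : Par2 C a n) : 2 ^ 60 ≤ a := by
  have := hP.pw 0 (by omega)
  rwa [pow_zero, mul_one] at this

theorem Par2.n_pos (hP : Par2 C a n) : 0 < n := by
  have := hP.par.n_ge
  have := hP.a_pos
  omega

theorem Par2.z_pos (hP : Par2 C a n) : 1 ≤ n / a ^ 3 := by
  have := hP.par.Za
  have := hP.a_pos
  omega

theorem Par2.w_pos (hP : Par2 C a n) : 1 ≤ n / a ^ 2 := by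
  have h1 := hP.par.aZ
  have h2 := hP.z_pos
  have h3 := hP.a_pos
  nlinarith

theorem Par2.zw (hP : Par2 C a n) : n / a ^ 3 ≤ n / a ^ 2 :=
  (Nat.le_mul_of_pos_left _ hP.a_pos).trans hP.par.aZ

/-- `#edges + 1 ≤ n ^ 4` -/
theorem Par2.M4n (hP : Par2 C a n) : n ^ 2 * n + 1 ≤ n ^ 4 := by
  have h1 := hP.par.n_ge
  have h2 := hP.par.a_ge
  have h3 : n ^ 4 = n * (n ^ 2 * n) := by ring
  rw [h3]
  have hn0 : 0 < n := by omega
  have h4 : 1 ≤ n ^ 2 * n := Nat.succ_le_of_lt (by positivity)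
  nlinarith

/-- `(#edges + 1) ^ k ≤ a ^ (4 C k)` -/
theorem Par2.Mk (hP : Par2 C a n) (k : ℕ) : ((n ^ 2 * n + 1 : ℕ) : ℝ) ^ k ≤ (a : ℝ) ^ (4 * C * k) := by
  have h1 : n ^ 2 * n + 1 ≤ a ^ (4 * C) := by
    refine hP.M4n.trans ?_
    rw [Nat.mul_comm, pow_mul]
    exact Nat.pow_le_pow_left hP.par.hn 4
  have h2 : ((n ^ 2 * n + 1 : ℕ) : ℝ) ≤ (a : ℝ) ^ (4 * C) := by exact_mod_cast h1
  rw [pow_mul]
  exact pow_le_pow_left₀ (by positivity) h2 k

/-- `(#edges + 1) ^ k ≤ 2 ^ (4 s k)` -/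
theorem Par2.M2 (hP : Par2 C a n) (k : ℕ) : ((n ^ 2 * n + 1 : ℕ) : ℝ) ^ k ≤ (2 : ℝ) ^ (4 * sa C a * k) := by
  have h2 : ((n ^ 2 * n + 1 : ℕ) : ℝ) ≤ (2 : ℝ) ^ (4 * sa C a) := by exact_mod_cast hP.par.M4
  rw [pow_mul]
  exact pow_le_pow_left₀ (by positivity) h2 k

/-- the probability of one edge -/
theorem Par2.q_le (hP : Par2 C a n) (h : ℕ) (hh : n ≤ 2 * h) : (sa C a : ℝ) / (2 * h) ≤ sa C a / n := by
  have h1 := hP.n_pos
  have h2 : (n : ℝ) ≤ 2 * h := by exact_mod_cast hh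
  have h3 : (0 : ℝ) < n := by exact_mod_cast h1
  exact div_le_div_of_nonneg_left (Nat.cast_nonneg _) h3 h2

/-- the number of small sets of edges -/
theorem count_le (n k : ℕ) :
    (((univ.filter (fun ξ : Finset (Edge (n ^ 2) n) => ξ.card ≤ k)).card : ℕ) : ℝ) ≤
      ((n ^ 2 * n + 1 : ℕ) : ℝ) ^ k := by
  have h1 := ST2.count_small (β := Edge (n ^ 2) n) k
  rw [Fintype.card_prod, Fintype.card_fin, Fintype.card_fin] at h1
  exact_mod_cast h1

end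

end Pool.Agent.Work.MP_833881_lp
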