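import Pool.Agent.Work.MP_833881_lp.Interface
import Pool.Agent.Work.MP_833881_lp.Num
import Pool.Agent.Work.MP_833881_lb.RSN

/-!
# Block A3: pigeons (helper19)
-/

namespace Pool.Agent.Work.MP_833881_lp

open Finset Pool.Agent.Work.MP_833881_lc Pool.Agent.Work.MP_833881_lb
open scoped Classical

theorem stmt_A3 (hCHN : Stmt_CHN) (hP2 : Stmt_P2) (hN3 : Stmt_N3) (hEN : Stmt_ENAB) : Stmt_A3 := by
  intro C
  obtain ⟨a1, ha1⟩ := hN3 C
  refine ⟨max a1 1, ?_⟩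
  intro a n L U J h hl P0 E0 hS
  have hR : Rg C a1 a n := ⟨hS.rg.hC, (le_max_left _ _).trans hS.rg.ha, hS.rg.h6, hS.rg.hn⟩
  have ha0 : 1 ≤ a := (le_max_right _ _).trans hS.rg.ha
  obtain ⟨n1, n2, n3, n4, n5, n6⟩ := ha1 a n h hR hS.hh
  have hn0 : 1 ≤ n := (Nat.one_le_pow _ _ ha0).trans hS.rg.h6
  have hh1 : 1 ≤ h := by
    have := hS.hh
    omega
  have hk : 1 ≤ kk C := by
    unfold kk cc
    omega
  -- the heavy edges
  have hex : ∀ (D : Line (Edge (n ^ 2) n)) (ξ : Finset (Edge (n ^ 2) n)), ∃ Hv : Finset (Edge (n ^ 2) n),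
      Hv.card ≤ a * sa C a * (xx C a n + 1) ∧
      pr (fun ω : Fin (n ^ 2) → Fin (sa C a) → Fin h × Bool =>
        n / a ^ 2 ≤ (univ.filter (fun i => i ∉ P0 ∧ alive hl (Pos D (E0 ∪ ξ)) ω i < kk C)).card ∧
        (univ.filter (fun i => i ∉ P0 ∧ alive hl (Pos D (E0 ∪ ξ)) ω i = 0 ∧ ∀ l, (ω i l).2 = true →
          ∀ v, enab D (E0 ∪ ξ) (i, hl (ω i l).1) = some v → v ∈ E1 hl P0 ω → v ∈ Hv ∨ v.1 = i)).card ≤
            xx C a n / 8) ≤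
      (1 / 2 : ℝ) ^ (n / a ^ 2 / 2) + (3 / 4 : ℝ) ^ xx C a n +
        (150 * ((sa C a : ℝ) / (2 * h)) * sa C a + 3 / (a : ℝ)) ^ (xx C a n / 24) :=
    fun D ξ => hP2 (n ^ 2) n h (sa C a) hl P0 (Pos D (E0 ∪ ξ)) (enab D (E0 ∪ ξ)) (kk C) a (n / a ^ 2) (xx C a n)
      hS.inj hh1 n4 hk ha0 n1 n2
  choose Hv hHc hHp using hex
  have hL : (L.card : ℝ) ≤ (2 : ℝ) ^ (n / a ^ 3) := by exact_mod_cast hS.hL
  have hq : (0 : ℝ) ≤ (sa C a : ℝ) / (2 * h) := by positivity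
  -- first event
  have hev1 : pr (fun ω : Fin (n ^ 2) → Fin (sa C a) → Fin h × Bool => ∃ D ∈ L,
      ∃ ξ ∈ univ.filter (fun ξ : Finset (Edge (n ^ 2) n) => ξ.card ≤ 3 * (n / a ^ 3)),
        IsCh (Hv D) (E1 hl P0 ω) (uu C a n) ξ ∅) ≤ 1 / 32 := by
    refine (pr_exists_le_card L _ (((n ^ 2 * n + 1 : ℕ) : ℝ) ^ (3 * (n / a ^ 3)) *
      (2 * ((a * sa C a * (xx C a n + 1) : ℕ) : ℝ) * ((sa C a : ℝ) / (2 * h))) ^ uu C a n) ?_).trans ?_
    · intro D _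
      refine (pr_exists_le_card _ _ ((2 * ((a * sa C a * (xx C a n + 1) : ℕ) : ℝ) *
        ((sa C a : ℝ) / (2 * h))) ^ uu C a n) ?_).trans ?_
      · intro ξ _
        exact hCHN _ _ (fun ω => E1 hl P0 ω) (Hv D) _ _ _ ξ hq
          (fun F => stmt_RSN (n ^ 2) n h (sa C a) hl P0 F hS.inj hh1) (hHc D)
      · exact mul_le_mul_of_nonneg_right (count_le n _) (by positivity)
    · refine le_trans (mul_le_mul_of_nonneg_right hL ?_) (le_trans (le_of_eq ?_) n6)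
      · positivity
      · exact (mul_assoc _ _ _).symm
  -- second event
  have hev2 : pr (fun ω : Fin (n ^ 2) → Fin (sa C a) → Fin h × Bool => ∃ D ∈ L,
      ∃ ξ ∈ univ.filter (fun ξ : Finset (Edge (n ^ 2) n) => ξ.card ≤ x0 C a n),
        (n / a ^ 2 ≤ (univ.filter (fun i => i ∉ P0 ∧ alive hl (Pos D (E0 ∪ ξ)) ω i < kk C)).card ∧
        (univ.filter (fun i => i ∉ P0 ∧ alive hl (Pos D (E0 ∪ ξ)) ω i = 0 ∧ ∀ l, (ω i l).2 = true →
          ∀ v, enab D (E0 ∪ ξ) (i, hl (ω i l).1) = some v → v ∈ E1 hl P0 ω → v ∈ Hv D ξ ∨ v.1 = i)).card ≤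
            xx C a n / 8)) ≤ 1 / 32 := by
    refine (pr_exists_le_card L _ (((n ^ 2 * n + 1 : ℕ) : ℝ) ^ x0 C a n *
      ((1 / 2 : ℝ) ^ (n / a ^ 2 / 2) + (3 / 4 : ℝ) ^ xx C a n +
        (150 * ((sa C a : ℝ) / (2 * h)) * sa C a + 3 / (a : ℝ)) ^ (xx C a n / 24))) ?_).trans ?_
    · intro D _
      refine (pr_exists_le_card _ _ _ (fun ξ _ => hHp D ξ)).trans ?_
      exact mul_le_mul_of_nonneg_right (count_le n _) (by positivity)
    · refine le_trans (mul_le_mul_of_nonneg_right hL ?_) (le_trans (le_of_eq ?_) n5)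
      · positivity
      · exact (mul_assoc _ _ _).symm
  refine (pr_mono ?_).trans ((pr_or _ _).trans ((add_le_add hev1 hev2).trans (by norm_num)))
  intro ω hω
  by_contra hcon
  rw [not_or] at hcon
  obtain ⟨hc1, hc2⟩ := hcon
  apply hω
  intro D hD
  refine ⟨Hv D, ?_, ?_⟩
  · intro ξ hξ hch
    exact hc1 ⟨D, hD, ξ, Finset.mem_filter.2 ⟨Finset.mem_univ _, hξ⟩, hch⟩
  · intro ξ hξ
    by_contra hcon2
    rw [not_or, not_lt, not_lt] at hcon2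
    exact hc2 ⟨D, hD, ξ, Finset.mem_filter.2 ⟨Finset.mem_univ _, hξ⟩, hcon2.1, hcon2.2.trans n3⟩

end Pool.Agent.Work.MP_833881_lp
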