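import Pool.Agent.Work.MP_833881_lp.Num
import Pool.Agent.Work.MP_833881_lb.RSN

/-!
# Block A4a: forced edges
-/

namespace Pool.Agent.Work.MP_833881_lp

open Finset Pool.Agent.Work.MP_833881_lc Pool.Agent.Work.MP_833881_lb
open scoped Classical

noncomputable section

namespace A4a

variable {C a n : ℕ}

theorem sub_run {m n : ℕ} (D : Line (Edge m n)) (S : Finset (Edge m n)) (k : ℕ) : S ⊆ run D S k := by
  induction k with
  | zero => exact subset_rfl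
  | succ k ih =>
    show S ⊆ St D (run D S k)
    unfold St
    split_ifs
    · exact ih.trans (Finset.subset_insert _ _)
    · exact ih

/-- `(2 s / n)^z` is small -/
theorem num_z (hP : Par2 C a n) (h : ℕ) (hh : n ≤ 2 * h) :
    (2 : ℝ) ^ (n / a ^ 3) * ((sa C a : ℝ) / (2 * h)) ^ (n / a ^ 3) ≤ 1 / 64 := by
  have hn := hP.n_pos
  have hnr : (0 : ℝ) < n := by exact_mod_cast hn
  have h1 := hP.q_le h hh
  have h2 : (0 : ℝ) ≤ (sa C a : ℝ) / (2 * h) := by positivity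
  have h3 : 2 * ((sa C a : ℝ) / (2 * h)) ≤ 1 / 64 := by
    have h4 : 128 * sa C a ≤ n := by
      have e1 := hP.par.a1
      have e2 := hP.par.n_ge
      omega
    have h5 : (128 : ℝ) * sa C a ≤ n := by exact_mod_cast h4
    have h6 : (sa C a : ℝ) / n ≤ 1 / 128 := by
      rw [div_le_div_iff₀ hnr (by norm_num)]
      linarith
    linarith
  rw [← mul_pow]
  calc (2 * ((sa C a : ℝ) / (2 * h))) ^ (n / a ^ 3) ≤ (1 / 64) ^ (n / a ^ 3) :=
        pow_le_pow_left₀ (by positivity) h3 _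
    _ ≤ (1 / 64) ^ 1 := pow_le_pow_of_le_one (by norm_num) (by norm_num) hP.z_pos
    _ = 1 / 64 := pow_one _

/-- the number of sets `F` against `q^g` -/
theorem num_run (hP : Par2 C a n) (h : ℕ) (hh : n ≤ 2 * h) :
    (2 : ℝ) ^ (n / a ^ 3) * (((n ^ 2 * n + 1 : ℕ) : ℝ) ^ (8 * (n / a ^ 2)) *
      ((sa C a : ℝ) / (2 * h)) ^ (40 * (n / a ^ 2) + n / a ^ 3)) ≤ 1 / 64 := by
  have hn := hP.n_pos
  have hnr : (0 : ℝ) < n := by exact_mod_cast hn
  have h1 := hP.q_le h hh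
  have h2 : (0 : ℝ) ≤ (sa C a : ℝ) / (2 * h) := by positivity
  set q : ℝ := (sa C a : ℝ) / (2 * h) with hq
  have h3 : ((n ^ 2 * n + 1 : ℕ) : ℝ) * q ^ 5 ≤ 1 := by
    have e1 : ((n ^ 2 * n + 1 : ℕ) : ℝ) ≤ (n : ℝ) ^ 4 := by exact_mod_cast hP.M4n
    have e2 : q ^ 5 ≤ ((sa C a : ℝ) / n) ^ 5 := pow_le_pow_left₀ h2 h1 5
    have e3 : sa C a ^ 5 ≤ n := by
      have f1 := hP.pw 5 (by omega)
      have f2 := hP.par.n_ge
      have f3 : sa C a ^ 5 ≤ (sa C a + 2) ^ 5 := Nat.pow_le_pow_left (by omega) _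
      have f4 : (sa C a + 2) ^ 5 ≤ 2 ^ 60 * (sa C a + 2) ^ 5 := Nat.le_mul_of_pos_left _ (by norm_num)
      omega
    have e4 : (sa C a : ℝ) ^ 5 ≤ n := by exact_mod_cast e3
    calc ((n ^ 2 * n + 1 : ℕ) : ℝ) * q ^ 5 ≤ (n : ℝ) ^ 4 * ((sa C a : ℝ) / n) ^ 5 :=
          mul_le_mul e1 e2 (by positivity) (by positivity)
      _ = (sa C a : ℝ) ^ 5 / n := by
          field_simp
      _ ≤ 1 := by
          rw [div_le_one hnr]
          exact e4
  have h4 : ((n ^ 2 * n + 1 : ℕ) : ℝ) ^ (8 * (n / a ^ 2)) * q ^ (40 * (n / a ^ 2)) ≤ 1 := by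
    have e1 : q ^ (40 * (n / a ^ 2)) = (q ^ 5) ^ (8 * (n / a ^ 2)) := by
      rw [← pow_mul]
      congr 1
      ring
    rw [e1, ← mul_pow]
    exact pow_le_one₀ (by positivity) h3
  have h5 := num_z hP h hh
  rw [← hq] at h5
  calc (2 : ℝ) ^ (n / a ^ 3) * (((n ^ 2 * n + 1 : ℕ) : ℝ) ^ (8 * (n / a ^ 2)) *
      q ^ (40 * (n / a ^ 2) + n / a ^ 3))
      = (((n ^ 2 * n + 1 : ℕ) : ℝ) ^ (8 * (n / a ^ 2)) * q ^ (40 * (n / a ^ 2))) *
        ((2 : ℝ) ^ (n / a ^ 3) * q ^ (n / a ^ 3)) := by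
        rw [pow_add]
        ring
    _ ≤ 1 * (1 / 64) := mul_le_mul h4 h5 (by positivity) (by norm_num)
    _ = 1 / 64 := one_mul _

end A4a

open A4a

theorem stmt_A4a : Stmt_A4a := by
  intro C
  obtain ⟨a0, ha0⟩ := par2_ex C
  refine ⟨a0, ?_⟩
  intro a n L U J h hl P0 E0 hS
  have hP := ha0 a n hS.rg
  have hh := hS.hh
  have hnp := hP.n_pos
  have hh1 : 1 ≤ h := by omega
  have hhR : (0 : ℝ) < h := by exact_mod_cast hh1
  have hLR : ((L.card : ℕ) : ℝ) ≤ 2 ^ (n / a ^ 3) := by exact_mod_cast hS.hL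
  have hq0 : (0 : ℝ) ≤ (sa C a : ℝ) / (2 * h) := by positivity
  have hq1 : (sa C a : ℝ) / (2 * h) ≤ 1 := by
    rw [div_le_one (by positivity)]
    have e1 := hP.par.a1
    have e2 := hP.par.n_ge
    have e3 : sa C a ≤ 2 * h := by omega
    exact_mod_cast e3
  have hE01 : ∀ (ω : Fin (n ^ 2) → Fin (sa C a) → Fin h × Bool), ∀ e ∈ E1 hl P0 ω, e ∉ E0 := by
    intro ω e he h0
    exact (Finset.mem_filter.1 he).2.1 (hS.hE0 e h0)
  have h1 : pr (fun ω : Fin (n ^ 2) → Fin (sa C a) → Fin h × Bool =>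
      ∃ D ∈ L, Fo D E0 ⊆ E0 ∪ E1 hl P0 ω ∧ n / a ^ 3 < (Fo D E0 \ E0).card) ≤ 1 / 64 := by
    refine (pr_exists_le_card L _ (((sa C a : ℝ) / (2 * h)) ^ (n / a ^ 3)) ?_).trans
      ((mul_le_mul_of_nonneg_right hLR (by positivity)).trans (num_z hP h hh))
    intro D _
    by_cases hc : n / a ^ 3 < (Fo D E0 \ E0).card
    · refine (pr_mono (q := fun ω => Fo D E0 \ E0 ⊆ E1 hl P0 ω) ?_).trans
        ((stmt_RSN (n ^ 2) n h (sa C a) hl P0 (Fo D E0 \ E0) hS.inj hh1).trans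
          (pow_le_pow_of_le_one hq0 hq1 hc.le))
      rintro ω ⟨hω, -⟩ e he
      obtain ⟨he1, he2⟩ := Finset.mem_sdiff.1 he
      exact (Finset.mem_union.1 (hω he1)).resolve_left he2
    · rw [pr_false (fun ω hω => hc hω.2)]
      positivity
  set Ξ : Finset (Finset (Edge (n ^ 2) n)) := univ.filter (fun ξ => ξ.card ≤ 8 * (n / a ^ 2)) with hΞ
  have h2 : pr (fun ω : Fin (n ^ 2) → Fin (sa C a) → Fin h × Bool =>
      ∃ p ∈ L ×ˢ Ξ, run p.1 (E0 ∪ p.2) (40 * (n / a ^ 2) + n / a ^ 3) ⊆ E0 ∪ E1 hl P0 ω ∧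
        (run p.1 (E0 ∪ p.2) (40 * (n / a ^ 2) + n / a ^ 3)).card =
          (E0 ∪ p.2).card + (40 * (n / a ^ 2) + n / a ^ 3)) ≤ 1 / 64 := by
    refine (pr_exists_le_card (L ×ˢ Ξ) _
      (((sa C a : ℝ) / (2 * h)) ^ (40 * (n / a ^ 2) + n / a ^ 3)) ?_).trans ?_
    · intro p _
      by_cases hc : (run p.1 (E0 ∪ p.2) (40 * (n / a ^ 2) + n / a ^ 3)).card =
          (E0 ∪ p.2).card + (40 * (n / a ^ 2) + n / a ^ 3)
      · have hsub := sub_run p.1 (E0 ∪ p.2) (40 * (n / a ^ 2) + n / a ^ 3)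
        have hcard : (run p.1 (E0 ∪ p.2) (40 * (n / a ^ 2) + n / a ^ 3) \ (E0 ∪ p.2)).card =
            40 * (n / a ^ 2) + n / a ^ 3 := by
          rw [Finset.card_sdiff_of_subset hsub, hc, Nat.add_sub_cancel_left]
        have h3 := stmt_RSN (n ^ 2) n h (sa C a) hl P0
          (run p.1 (E0 ∪ p.2) (40 * (n / a ^ 2) + n / a ^ 3) \ (E0 ∪ p.2)) hS.inj hh1
        rw [hcard] at h3
        refine (pr_mono ?_).trans h3
        rintro ω ⟨hω, -⟩ e he
        obtain ⟨he1, he2⟩ := Finset.mem_sdiff.1 he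
        exact (Finset.mem_union.1 (hω he1)).resolve_left (fun h => he2 (Finset.mem_union_left _ h))
      · rw [pr_false (fun ω hω => hc hω.2)]
        positivity
    · refine le_trans ?_ (num_run hP h hh)
      rw [Finset.card_product, Nat.cast_mul, ← mul_assoc]
      apply mul_le_mul_of_nonneg_right _ (by positivity)
      exact mul_le_mul hLR (count_le n _) (Nat.cast_nonneg _) (by positivity)
  refine (pr_mono ?_).trans ((pr_or _ _).trans (add_le_add h1 h2) |>.trans (by norm_num))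
  intro ω hω
  by_contra hcon
  push Not at hcon
  obtain ⟨g1, g2⟩ := hcon
  apply hω
  refine ⟨fun D hD hF => g1 D hD hF, fun D hD F hF hr => ?_⟩
  exact g2 (D, F) (Finset.mem_product.2 ⟨hD, Finset.mem_filter.2 ⟨Finset.mem_univ _, hF⟩⟩) hr.1 hr.2

end

end Pool.Agent.Work.MP_833881_lp
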