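import Pool.Agent.Work.MP_833881_lp.Num
import Pool.Agent.Work.MP_833881_lb.RSN
import Pool.Agent.Work.MP_833881_lb.NEG
import Pool.Agent.Work.MP_833881_lb.WLD

/-!
# Block A4b: negative terms
-/

namespace Pool.Agent.Work.MP_833881_lp

open Finset Pool.Agent.Work.MP_833881_lc Pool.Agent.Work.MP_833881_lb
open scoped Classical

noncomputable section

namespace A4b

variable {C a n : ℕ}

theorem num (hP : Par2 C a n) (h : ℕ) (hh : n ≤ 2 * h) :
    (2 : ℝ) ^ (n / a ^ 3) * (4 * ((sa C a : ℝ) / (2 * h))) ^ (n / a ^ 3) ≤ 1 / 16 := by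
  have hn := hP.n_pos
  have hnr : (0 : ℝ) < n := by exact_mod_cast hn
  have h1 := hP.q_le h hh
  have h2 : (0 : ℝ) ≤ (sa C a : ℝ) / (2 * h) := by positivity
  have h3 : 2 * (4 * ((sa C a : ℝ) / (2 * h))) ≤ 1 / 16 := by
    have h4 : 128 * sa C a ≤ n := by
      have e1 := hP.par.a1
      have e2 := hP.par.n_ge
      omega
    have h5 : (128 : ℝ) * sa C a ≤ n := by exact_mod_cast h4
    have h6 : (sa C a : ℝ) / n ≤ 1 / 128 := by
      rw [div_le_div_iff₀ hnr (by norm_num)]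
      linarith
    linarith
  rw [← mul_pow]
  calc (2 * (4 * ((sa C a : ℝ) / (2 * h)))) ^ (n / a ^ 3) ≤ (1 / 16) ^ (n / a ^ 3) :=
        pow_le_pow_left₀ (by positivity) h3 _
    _ ≤ (1 / 16) ^ 1 := pow_le_pow_of_le_one (by norm_num) (by norm_num) hP.z_pos
    _ = 1 / 16 := pow_one _

end A4b

open A4b

theorem stmt_A4b : Stmt_A4b := by
  intro C
  obtain ⟨a0, ha0⟩ := par2_ex C
  refine ⟨a0, ?_⟩
  intro a n L U J h hl P0 E0 hS
  have hP := ha0 a n hS.rg
  have hh := hS.hh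
  have hnp := hP.n_pos
  have hh1 : 1 ≤ h := by omega
  have hhR : (0 : ℝ) < h := by exact_mod_cast hh1
  have hLR : ((L.card : ℕ) : ℝ) ≤ 2 ^ (n / a ^ 3) := by exact_mod_cast hS.hL
  set q : ℝ := (sa C a : ℝ) / (2 * h) with hq
  have hq0 : (0 : ℝ) ≤ q := by positivity
  have hq1 : q ≤ 1 := by
    rw [hq, div_le_one (by positivity)]
    have e1 := hP.par.a1
    have e2 := hP.par.n_ge
    have e3 : sa C a ≤ 2 * h := by omega
    exact_mod_cast e3
  obtain ⟨z, hz⟩ : ∃ z, z = n / a ^ 3 := ⟨_, rfl⟩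
  have key : ∀ D ∈ L, pr (fun ω : Fin (n ^ 2) → Fin (sa C a) → Fin h × Bool =>
      ¬ ((∃ t ∈ D, ∀ l ∈ t, l.2 = false ∧ l.1 ∉ E0 ∪ E1 hl P0 ω) ∨
    ∃ W : Finset (Edge (n ^ 2) n), W.card ≤ 2 * z ∧ (∀ e f, NN D e f → e ∉ E0 → f ∉ E0 → e ∈ W ∨ f ∈ W) ∧
      ∀ W' ⊆ W, PtN D E0 W' ⊆ E1 hl P0 ω → (PtN D E0 W').card ≤ z)) ≤ (4 * q) ^ z := by
    intro D hD
    let Q : Finset (Finset (Edge (n ^ 2) n)) :=
      univ.filter (fun A => ∃ e f, NN D e f ∧ e ∉ E0 ∧ f ∉ E0 ∧ A = {e, f})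
    have hQ : ∀ A ∈ Q, ∃ e f, NN D e f ∧ e ∉ E0 ∧ f ∉ E0 ∧ A = {e, f} := fun A hA => (Finset.mem_filter.1 hA).2
    have hQne : ∀ A ∈ Q, A.Nonempty := by
      intro A hA
      obtain ⟨e, f, -, -, -, rfl⟩ := hQ A hA
      exact Finset.insert_nonempty _ _
    have hQc : ∀ A ∈ Q, A.card ≤ 2 := by
      intro A hA
      obtain ⟨e, f, -, -, -, rfl⟩ := hQ A hA
      exact Finset.card_le_two
    obtain ⟨R, hR1, hR2, hR3⟩ := WLD_max Q hQne
    by_cases hRz : z ≤ R.card
    · obtain ⟨R', hR', hR'c⟩ := Finset.exists_subset_card_eq hRz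
      have h1 := NEGaux.many (s := sa C a) stmt_RSN hl P0 hS.inj hh1 R' z hR'c
        (fun A hA B hB => hR2 A (hR' hA) B (hR' hB)) (fun A hA => hQc A (hR1 (hR' hA)))
      refine (pr_mono ?_).trans (h1.trans (pow_le_pow_left₀ (by positivity) (by
        rw [← hq]
        linarith) _))
      intro ω hω A hA hdis
      apply hω
      left
      obtain ⟨e, f, hef, he, hf, rfl⟩ := hQ A (hR1 (hR' hA))
      have hdis' := Finset.disjoint_left.1 hdis
      refine ⟨_, hef.2, ?_⟩
      intro l hl'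
      rcases Finset.mem_insert.1 hl' with h | h
      · rw [h]
        refine ⟨rfl, fun h' => ?_⟩
        rcases Finset.mem_union.1 h' with h' | h'
        · exact he h'
        · exact hdis' (Finset.mem_insert_self _ _) h'
      · rw [Finset.mem_singleton.1 h]
        refine ⟨rfl, fun h' => ?_⟩
        rcases Finset.mem_union.1 h' with h' | h'
        · exact hf h'
        · exact hdis' (Finset.mem_insert_of_mem (Finset.mem_singleton_self _)) h'
    · push Not at hRz
      have hW : (R.biUnion id).card ≤ 2 * z := by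
        calc (R.biUnion id).card ≤ R.card * 2 :=
              Finset.card_biUnion_le_card_mul _ _ _ fun A hA => hQc A (hR1 hA)
          _ ≤ 2 * z := by omega
      have h1 : ∀ ω : Fin (n ^ 2) → Fin (sa C a) → Fin h × Bool,
          (¬ ((∃ t ∈ D, ∀ l ∈ t, l.2 = false ∧ l.1 ∉ E0 ∪ E1 hl P0 ω) ∨
            ∃ W : Finset (Edge (n ^ 2) n), W.card ≤ 2 * z ∧
              (∀ e f, NN D e f → e ∉ E0 → f ∉ E0 → e ∈ W ∨ f ∈ W) ∧
              ∀ W' ⊆ W, PtN D E0 W' ⊆ E1 hl P0 ω → (PtN D E0 W').card ≤ z)) →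
          ∃ W' ∈ (R.biUnion id).powerset, PtN D E0 W' ⊆ E1 hl P0 ω ∧ z < (PtN D E0 W').card := by
        intro ω hω
        by_contra hcon
        push Not at hcon
        apply hω
        right
        refine ⟨R.biUnion id, hW, ?_, fun W' hW' h2 => hcon W' (Finset.mem_powerset.2 hW') h2⟩
        intro e f hef he hf
        have h2 := hR3 {e, f} (Finset.mem_filter.2 ⟨Finset.mem_univ _, e, f, hef, he, hf, rfl⟩)
        obtain ⟨x, hx1, hx2⟩ := Finset.not_disjoint_iff.1 h2
        rcases Finset.mem_insert.1 hx1 with h | h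
        · left; rw [← h]; exact hx2
        · right; rw [← Finset.mem_singleton.1 h]; exact hx2
      refine (pr_mono h1).trans ((pr_exists_le_card _ _ (q ^ z) ?_).trans ?_)
      · intro W' _
        by_cases hc : z < (PtN D E0 W').card
        · refine (pr_mono (q := fun ω => PtN D E0 W' ⊆ E1 hl P0 ω) (fun ω hω => hω.1)).trans
            ((stmt_RSN (n ^ 2) n h (sa C a) hl P0 _ hS.inj hh1).trans ?_)
          rw [← hq]
          exact pow_le_pow_of_le_one hq0 hq1 hc.le
        · rw [pr_false (fun ω hω => hc hω.2)]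
          positivity
      · rw [Finset.card_powerset, mul_pow]
        apply mul_le_mul_of_nonneg_right _ (by positivity)
        have h2 : 2 ^ (R.biUnion id).card ≤ 4 ^ z := by
          calc 2 ^ (R.biUnion id).card ≤ 2 ^ (2 * z) := Nat.pow_le_pow_right (by norm_num) hW
            _ = 4 ^ z := by rw [pow_mul]; norm_num
        exact_mod_cast h2
  rw [hz] at key
  refine (pr_mono ?_).trans ((pr_exists_le_card L _ _ key).trans
    ((mul_le_mul_of_nonneg_right hLR (by positivity)).trans (num hP h hh)))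
  intro ω hω
  by_contra hcon
  push Not at hcon
  apply hω
  intro D hD
  have h1 := hcon D hD
  by_contra h2
  exact h2 (h1.imp (fun h => h) (fun h => h))

end

end Pool.Agent.Work.MP_833881_lp
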