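import Pool.Agent.Work.MP_833881_lp.Num
import Pool.Agent.Work.MP_833881_lb.MUL
import Pool.Agent.Work.MP_833881_lb.ST2

/-!
# Block A5a: exceptional edges and neighbourhoods
-/

namespace Pool.Agent.Work.MP_833881_lp

open Finset Pool.Agent.Work.MP_833881_lc Pool.Agent.Work.MP_833881_lb
open scoped Classical

noncomputable section

namespace A5a

variable {C a n : ℕ}

/-- single edges -/
theorem num1 (hP : Par2 C a n) (h Q : ℕ) (hh : n ≤ 2 * h) (hQ : Q * a ^ 5 ≤ n ^ 2) :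
    (2 : ℝ) ^ (n / a ^ 3) * (3 * (Q : ℝ) / (n / a ^ 3 : ℕ) * ((sa C a : ℝ) / (2 * h)) ^ 1) ^ (n / a ^ 3) ≤
      1 / 32 := by
  have ha := hP.par.a_ge
  have hn0 : a ≤ n := hP.par.n_ge
  have hhn : 0 < 2 * h := by omega
  have hh0 : (0 : ℝ) < 2 * h := by exact_mod_cast hhn
  set Z := n / a ^ 3 with hZ
  set s := sa C a with hs'
  have hZ1 : 1 ≤ Z := hP.z_pos
  have hZ0 : (0 : ℝ) < (Z : ℝ) := by exact_mod_cast hZ1
  have h1 : 192 * Q * s ≤ Z * (2 * h) := by
    have h2 : 192 * Q * s * a ^ 5 ≤ Z * (2 * h) * a ^ 5 := by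
      calc 192 * Q * s * a ^ 5 = 192 * s * (Q * a ^ 5) := by ring
        _ ≤ 192 * s * n ^ 2 := Nat.mul_le_mul_left _ hQ
        _ = 192 * s * n * n := by ring
        _ ≤ 192 * s * n * (2 * a ^ 3 * Z) := Nat.mul_le_mul_left _ hP.par.Zn
        _ = (384 * s) * (a ^ 3 * n * Z) := by ring
        _ ≤ a ^ 2 * (a ^ 3 * n * Z) := by
            apply Nat.mul_le_mul_right
            have h3 : 384 * s ≤ a := by
              have := hP.par.a1
              omega
            refine h3.trans ?_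
            exact Nat.le_self_pow (by norm_num) a
        _ = Z * n * a ^ 5 := by ring
        _ ≤ Z * (2 * h) * a ^ 5 := by
            apply Nat.mul_le_mul_right
            apply Nat.mul_le_mul_left
            exact hh
    exact Nat.le_of_mul_le_mul_right h2 (by positivity)
  have h2 : 3 * (Q : ℝ) / (Z : ℝ) * ((s : ℝ) / (2 * h)) ^ 1 ≤ 1 / 64 := by
    rw [pow_one, div_mul_div_comm, div_le_div_iff₀ (by positivity) (by norm_num)]
    have h3 : (192 : ℝ) * Q * s ≤ Z * (2 * h) := by exact_mod_cast h1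
    linarith
  rw [← mul_pow]
  calc (2 * (3 * (Q : ℝ) / (Z : ℝ) * ((s : ℝ) / (2 * h)) ^ 1)) ^ Z ≤ (1 / 32) ^ Z := by
        apply pow_le_pow_left₀ (by positivity)
        linarith
    _ ≤ (1 / 32) ^ 1 := pow_le_pow_of_le_one (by norm_num) (by norm_num) hZ1
    _ = 1 / 32 := pow_one _

/-- one neighbourhood -/
theorem num2 (hP : Par2 C a n) (h Q B : ℕ) (hh : n ≤ 2 * h) (hB : 1 ≤ B) (hQ : Q * a ^ 5 ≤ B * n) :
    3 * (Q : ℝ) / (2 * C * B : ℕ) * ((sa C a : ℝ) / (2 * h)) ^ 1 ≤ 1 / (a : ℝ) ^ 4 := by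
  have ha := hP.par.a_ge
  have hC := hP.par.hC
  have hn0 : a ≤ n := hP.par.n_ge
  have hhn : 0 < 2 * h := by omega
  have hh0 : (0 : ℝ) < 2 * h := by exact_mod_cast hhn
  have hap : (0 : ℝ) < a := by exact_mod_cast hP.a_pos
  have hCB : 0 < 2 * C * B := Nat.mul_pos (by omega) (by omega)
  have hCB' : (0 : ℝ) < ((2 * C * B : ℕ) : ℝ) := by exact_mod_cast hCB
  rw [pow_one, div_mul_div_comm, div_le_div_iff₀ (by positivity) (by positivity)]
  have h1 : 3 * Q * sa C a * a ^ 4 ≤ 1 * (2 * C * B * (2 * h)) := by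
    have h2 : 3 * Q * sa C a * a ^ 4 * a ≤ 1 * (2 * C * B * (2 * h)) * a := by
      calc 3 * Q * sa C a * a ^ 4 * a = 3 * sa C a * (Q * a ^ 5) := by ring
        _ ≤ 3 * sa C a * (B * n) := Nat.mul_le_mul_left _ hQ
        _ ≤ a * (B * n) := by
            apply Nat.mul_le_mul_right
            have := hP.par.a1
            omega
        _ ≤ a * (B * (2 * h)) := Nat.mul_le_mul_left _ (Nat.mul_le_mul_left _ hh)
        _ = 1 * (1 * B * (2 * h)) * a := by ring
        _ ≤ 1 * (2 * C * B * (2 * h)) * a := by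
            apply Nat.mul_le_mul_right
            apply Nat.mul_le_mul_left
            apply Nat.mul_le_mul_right
            apply Nat.mul_le_mul_right
            omega
    exact Nat.le_of_mul_le_mul_right h2 hP.a_pos
  exact_mod_cast h1

/-- the union bound -/
theorem num3 (hP : Par2 C a n) (B : ℕ) (hB : n / a ^ 3 ≤ B) :
    (2 : ℝ) ^ (n / a ^ 3) * ((n ^ 2 * n + 1 : ℕ) : ℝ) ^ B * (1 / (a : ℝ) ^ 4) ^ (2 * C * B) ≤ 1 / 32 := by
  have hap : (0 : ℝ) < a := by exact_mod_cast hP.a_pos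
  have ha := hP.par.a_ge
  have har : (64 : ℝ) ≤ a := by exact_mod_cast (by omega : 64 ≤ a)
  have hC := hP.par.hC
  have hz := hP.z_pos
  have h1 : (2 : ℝ) ^ (n / a ^ 3) ≤ 2 ^ B := pow_le_pow_right₀ (by norm_num) hB
  have h2 := hP.Mk B
  have h3 : (1 / (a : ℝ) ^ 4) ^ (2 * C * B) = (1 / a) ^ (8 * C * B) := by
    rw [one_div, one_div, inv_pow, inv_pow, ← pow_mul]
    congr 2
    ring
  rw [h3]
  calc (2 : ℝ) ^ (n / a ^ 3) * ((n ^ 2 * n + 1 : ℕ) : ℝ) ^ B * (1 / (a : ℝ)) ^ (8 * C * B)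
      ≤ 2 ^ B * (a : ℝ) ^ (4 * C * B) * (1 / (a : ℝ)) ^ (8 * C * B) := by
        apply mul_le_mul_of_nonneg_right _ (by positivity)
        exact mul_le_mul h1 h2 (by positivity) (by positivity)
    _ = 2 ^ B * (1 / (a : ℝ)) ^ (4 * C * B) := by
        have h4 : 8 * C * B = 4 * C * B + 4 * C * B := by ring
        rw [h4, pow_add, mul_assoc, ← mul_assoc ((a : ℝ) ^ (4 * C * B)), ← mul_pow,
          mul_one_div_cancel hap.ne', one_pow, one_mul]
    _ ≤ 2 ^ B * (1 / (a : ℝ)) ^ B := by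
        apply mul_le_mul_of_nonneg_left _ (by positivity)
        apply pow_le_pow_of_le_one (by positivity)
        · rw [div_le_one hap]
          linarith
        · exact Nat.le_mul_of_pos_left _ (by omega)
    _ = (2 / (a : ℝ)) ^ B := by
        rw [← mul_pow]
        congr 1
        ring
    _ ≤ (1 / 32) ^ B := by
        apply pow_le_pow_left₀ (by positivity)
        rw [div_le_div_iff₀ hap (by norm_num)]
        linarith
    _ ≤ (1 / 32) ^ 1 := pow_le_pow_of_le_one (by norm_num) (by norm_num) (hz.trans hB)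
    _ = 1 / 32 := pow_one _

theorem PP_symm {m n : ℕ} {D : Line (Edge m n)} {e f : Edge m n} (h : PP D e f) : PP D f e :=
  ⟨h.1.symm, h.2.1.symm, by rw [Finset.pair_comm]; exact h.2.2⟩

/-- the neighbourhood of `F` -/
theorem nbh {m n a : ℕ} {D : Line (Edge m n)} {X : Finset (Edge m n)}
    (hdeg : ∀ e, e ∉ X → (univ.filter (fun f => f ∉ X ∧ PP D e f)).card * a ^ 5 ≤ n) (F : Finset (Edge m n)) :
    (univ.filter (fun e => e ∉ X ∧ ∃ f ∈ F, f ∉ X ∧ PP D e f)).card * a ^ 5 ≤ F.card * n := by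
  have h1 : univ.filter (fun e => e ∉ X ∧ ∃ f ∈ F, f ∉ X ∧ PP D e f) ⊆
      (F.filter (fun f => f ∉ X)).biUnion (fun f => univ.filter (fun e => e ∉ X ∧ PP D f e)) := by
    intro e he
    obtain ⟨-, h2, f, hf, h3, h4⟩ := Finset.mem_filter.1 he
    exact Finset.mem_biUnion.2 ⟨f, Finset.mem_filter.2 ⟨hf, h3⟩, Finset.mem_filter.2 ⟨Finset.mem_univ _, h2,
      PP_symm h4⟩⟩
  calc (univ.filter (fun e => e ∉ X ∧ ∃ f ∈ F, f ∉ X ∧ PP D e f)).card * a ^ 5
      ≤ (∑ f ∈ F.filter (fun f => f ∉ X), (univ.filter (fun e => e ∉ X ∧ PP D f e)).card) * a ^ 5 :=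
        Nat.mul_le_mul_right _ ((Finset.card_le_card h1).trans Finset.card_biUnion_le)
    _ = ∑ f ∈ F.filter (fun f => f ∉ X), (univ.filter (fun e => e ∉ X ∧ PP D f e)).card * a ^ 5 :=
        Finset.sum_mul _ _ _
    _ ≤ (F.filter (fun f => f ∉ X)).card * n := by
        rw [← smul_eq_mul]
        exact Finset.sum_le_card_nsmul _ _ _ (fun f hf => hdeg f (Finset.mem_filter.1 hf).2)
    _ ≤ F.card * n := Nat.mul_le_mul_right _ (Finset.card_filter_le _ _)

end A5a

open A5a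

theorem stmt_A5a : Stmt_A5a := by
  intro C
  obtain ⟨a0, ha0⟩ := par2_ex C
  refine ⟨a0, ?_⟩
  intro a n L U J h hl P0 E0 hS
  have hP := ha0 a n hS.rg
  have hh := hS.hh
  have hnp := hP.n_pos
  have hap := hP.a_pos
  have hh1 : 1 ≤ h := by omega
  have hhR : (0 : ℝ) < h := by exact_mod_cast hh1
  have hLR : ((L.card : ℕ) : ℝ) ≤ 2 ^ (n / a ^ 3) := by exact_mod_cast hS.hL
  have hz1 := hP.z_pos
  have hC := hP.par.hC
  -- exceptional edges
  have h1 : pr (fun ω : Fin (n ^ 2) → Fin (sa C a) → Fin h × Bool =>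
      ∃ D ∈ L, n / a ^ 3 ≤ (U D ∩ E1 hl P0 ω).card) ≤ 1 / 32 := by
    refine (pr_exists_le _ _).trans ?_
    have hb : ∀ D ∈ L, pr (fun ω : Fin (n ^ 2) → Fin (sa C a) → Fin h × Bool =>
        n / a ^ 3 ≤ (U D ∩ E1 hl P0 ω).card) ≤ (1 / 32) / 2 ^ (n / a ^ 3) := by
      intro D hD
      rw [le_div_iff₀ (by positivity), mul_comm]
      refine le_trans (mul_le_mul_of_nonneg_left ((pr_mono (fun ω hω =>
        ST2.hasDisj_of_card (U D) (E1 hl P0 ω) hω)).trans (stmt_MUL (n ^ 2) n h (sa C a) hl P0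
        ((U D).image (fun e => ({e} : Finset (Edge (n ^ 2) n)))) (n / a ^ 3) 1 hS.inj hh1 hz1
        (fun A hA => by
          obtain ⟨x, _, rfl⟩ := Finset.mem_image.1 hA
          exact Finset.card_singleton x))) (by positivity)) ?_
      refine num1 hP h _ hh ?_
      refine le_trans (Nat.mul_le_mul_right _ Finset.card_image_le) (hS.light.hU D hD)
    refine (Finset.sum_le_card_nsmul L _ _ hb).trans ?_
    rw [nsmul_eq_mul]
    have h8 : ((L.card : ℕ) : ℝ) * (1 / 32 / 2 ^ (n / a ^ 3)) ≤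
        2 ^ (n / a ^ 3) * (1 / 32 / 2 ^ (n / a ^ 3)) := mul_le_mul_of_nonneg_right hLR (by positivity)
    refine h8.trans (le_of_eq ?_)
    rw [mul_div_cancel₀]
    positivity
  -- neighbourhoods
  obtain ⟨B, hB⟩ : ∃ B, B = 48 * (n / a ^ 2) + n / a ^ 3 := ⟨_, rfl⟩
  have hBz : n / a ^ 3 ≤ B := by rw [hB]; exact Nat.le_add_left _ _
  have hB1 : 1 ≤ B := hz1.trans hBz
  set Ξ : Finset (Finset (Edge (n ^ 2) n)) := univ.filter (fun ξ => ξ.card ≤ B) with hΞ
  let NF : Line (Edge (n ^ 2) n) → Finset (Edge (n ^ 2) n) → Finset (Edge (n ^ 2) n) := fun D F =>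
    univ.filter (fun e => e ∉ XX (U D) (J D) ∧ ∃ f ∈ F, f ∉ XX (U D) (J D) ∧ PP D e f)
  have h2 : pr (fun ω : Fin (n ^ 2) → Fin (sa C a) → Fin h × Bool =>
      ∃ p ∈ L ×ˢ Ξ, 2 * C * B ≤ (NF p.1 p.2 ∩ E1 hl P0 ω).card) ≤ 1 / 32 := by
    refine (pr_exists_le_card (L ×ˢ Ξ) _ ((1 / (a : ℝ) ^ 4) ^ (2 * C * B)) ?_).trans ?_
    · intro p hp
      obtain ⟨hp1, hp2⟩ := Finset.mem_product.1 hp
      refine (pr_mono (fun ω hω => ST2.hasDisj_of_card (NF p.1 p.2) (E1 hl P0 ω) hω)).trans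
        ((stmt_MUL (n ^ 2) n h (sa C a) hl P0
          ((NF p.1 p.2).image (fun e => ({e} : Finset (Edge (n ^ 2) n)))) (2 * C * B) 1 hS.inj hh1
          (Nat.mul_pos (by omega) (by omega)) (fun A hA => by
            obtain ⟨x, _, rfl⟩ := Finset.mem_image.1 hA
            exact Finset.card_singleton x)).trans ?_)
      apply pow_le_pow_left₀ (by positivity)
      refine num2 hP h _ B hh hB1 ?_
      refine (Nat.mul_le_mul_right _ Finset.card_image_le).trans ?_
      refine (nbh (hS.light.deg p.1 hp1) p.2).trans ?_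
      exact Nat.mul_le_mul_right _ (Finset.mem_filter.1 hp2).2
    · refine le_trans ?_ (num3 hP B hBz)
      apply mul_le_mul_of_nonneg_right _ (by positivity)
      rw [Finset.card_product, Nat.cast_mul]
      exact mul_le_mul hLR (count_le n _) (Nat.cast_nonneg _) (by positivity)
  refine (pr_mono ?_).trans ((pr_or _ _).trans (add_le_add h1 h2) |>.trans (by norm_num))
  intro ω hω
  by_contra hcon
  push Not at hcon
  obtain ⟨g1, g2⟩ := hcon
  apply hω
  refine ⟨fun D hD => ⟨(U D ∩ E1 hl P0 ω).image Prod.fst, J D, ?_, ?_⟩, fun D hD F hF => ?_⟩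
  · have e1 : ((U D ∩ E1 hl P0 ω).image Prod.fst).card ≤ n / a ^ 3 := Finset.card_image_le.trans (g1 D hD).le
    have e2 : (J D).card ≤ n / a ^ 3 := by
      rw [Nat.le_div_iff_mul_le (by positivity)]
      refine le_trans (Nat.mul_le_mul_left _ ?_) (hS.light.hJ D hD)
      exact Nat.pow_le_pow_right hap (by norm_num)
    omega
  · intro e he heX
    rcases Finset.mem_union.1 heX with h3 | h3
    · exact Or.inl (Finset.mem_image.2 ⟨e, Finset.mem_inter.2 ⟨h3, he⟩, rfl⟩)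
    · exact Or.inr (Finset.mem_filter.1 h3).2
  · rw [← hB] at hF ⊢
    have h3 := g2 (D, F) (Finset.mem_product.2 ⟨hD, Finset.mem_filter.2 ⟨Finset.mem_univ _, hF⟩⟩)
    refine le_trans (Finset.card_le_card ?_) h3.le
    intro e he
    obtain ⟨h4, h5⟩ := Finset.mem_filter.1 he
    exact Finset.mem_inter.2 ⟨Finset.mem_filter.2 ⟨Finset.mem_univ _, h5⟩, h4⟩

end

end Pool.Agent.Work.MP_833881_lp
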