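import Pool.Agent.Work.MP_833881_lp.Interface

/-!
# Block CHD: if there is no long chain, all heavy edges in `G` can be registered (helper19)
-/

namespace Pool.Agent.Work.MP_833881_lp

open Finset Pool.Agent.Work.MP_833881_lc Pool.Agent.Work.MP_833881_lb
open scoped Classical

set_option linter.unusedSectionVars false

theorem chd_aux {V : Type} [DecidableEq V] (G : Finset V) (Hv : Finset V → Finset V) :
    ∀ (u : ℕ) (ξ Z : Finset V), ¬ IsCh Hv G u ξ Z →
      ∃ ξ0 ⊆ G, ξ0.card ≤ u ∧ ∀ f ∈ Hv (ξ ∪ ξ0), f ∈ G → f ∈ ξ0 ∪ Z := by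
  intro u
  induction u with
  | zero => intro ξ Z h; exact absurd trivial h
  | succ u ih =>
    intro ξ Z h
    by_cases hex : ∃ f ∈ Hv ξ, f ∈ G ∧ f ∉ Z
    · obtain ⟨f, hf, hfG, hfZ⟩ := hex
      have h1 : ¬ IsCh Hv G u (insert f ξ) (insert f Z) := fun h2 => h ⟨f, hf, hfG, hfZ, Or.inr h2⟩
      obtain ⟨ξ0, h0, hc, hall⟩ := ih _ _ h1
      refine ⟨insert f ξ0, Finset.insert_subset hfG h0, (Finset.card_insert_le _ _).trans (by omega), ?_⟩
      intro f' hf' hf'G
      have e : ξ ∪ insert f ξ0 = insert f ξ ∪ ξ0 := by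
        rw [Finset.union_insert, Finset.insert_union]
      rw [e] at hf'
      have h3 := hall f' hf' hf'G
      rw [Finset.mem_union, Finset.mem_insert] at h3 ⊢
      tauto
    · push Not at hex
      refine ⟨∅, Finset.empty_subset _, by simp, ?_⟩
      intro f hf hfG
      rw [Finset.union_empty] at hf
      rw [Finset.empty_union]
      exact hex f hf hfG

theorem stmt_CHD : Stmt_CHD := by
  intro V _ G Hv u ξ
  refine ⟨?_, ?_⟩
  · intro G' ξ' Z hG
    induction u generalizing ξ' Z with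
    | zero => intro _; exact trivial
    | succ u ih =>
      rintro ⟨f, hf, hfG, hfZ, hc⟩
      refine ⟨f, hf, hG hfG, hfZ, ?_⟩
      rcases hc with hc | hc
      · exact Or.inl (ih _ _ hc)
      · exact Or.inr (ih _ _ hc)
  · intro h
    obtain ⟨ξ0, h0, hc, hall⟩ := chd_aux G Hv u ξ ∅ h
    exact ⟨ξ0, h0, hc, by simpa using hall⟩

end Pool.Agent.Work.MP_833881_lp
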