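import Pool.Agent.Work.MP_833881_lp.Interface

/-!
# Block CHN: long chains of heavy edges are improbable (helper19)
-/

namespace Pool.Agent.Work.MP_833881_lp

open Finset Pool.Agent.Work.MP_833881_lc Pool.Agent.Work.MP_833881_lb
open scoped Classical

set_option linter.unusedSectionVars false

theorem chn_aux {Ω V : Type} [Fintype Ω] [DecidableEq V] (G : Ω → Finset V)
    (Hv : Finset V → Finset V) (q : ℝ) (h0 : ℕ) (hq : 0 ≤ q)
    (hG : ∀ F : Finset V, pr (fun ω => F ⊆ G ω) ≤ q ^ F.card) (hH : ∀ ξ', (Hv ξ').card ≤ h0) :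
    ∀ (u : ℕ) (ξ Z : Finset V), pr (fun ω => Z ⊆ G ω ∧ IsCh Hv (G ω) u ξ Z) ≤
      (2 * (h0 : ℝ)) ^ u * q ^ (Z.card + u) := by
  intro u
  induction u with
  | zero =>
    intro ξ Z
    refine (pr_mono (q := fun ω => Z ⊆ G ω) (fun ω h => h.1)).trans ?_
    simpa using hG Z
  | succ u ih =>
    intro ξ Z
    have h1 : pr (fun ω => Z ⊆ G ω ∧ IsCh Hv (G ω) (u + 1) ξ Z) ≤
        pr (fun ω => ∃ f ∈ (Hv ξ).filter (fun f => f ∉ Z),
          ((insert f Z ⊆ G ω ∧ IsCh Hv (G ω) u ξ (insert f Z)) ∨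
          (insert f Z ⊆ G ω ∧ IsCh Hv (G ω) u (insert f ξ) (insert f Z)))) := by
      refine pr_mono ?_
      rintro ω ⟨hZ, f, hf, hfG, hfZ, hc⟩
      have hins : insert f Z ⊆ G ω := Finset.insert_subset hfG hZ
      refine ⟨f, Finset.mem_filter.2 ⟨hf, hfZ⟩, ?_⟩
      rcases hc with hc | hc
      · exact Or.inl ⟨hins, hc⟩
      · exact Or.inr ⟨hins, hc⟩
    refine h1.trans ?_
    refine (pr_exists_le_card _ _ (2 * ((2 * (h0 : ℝ)) ^ u * q ^ (Z.card + 1 + u))) ?_).trans ?_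
    · intro f hf
      have hfZ := (Finset.mem_filter.1 hf).2
      have hcard : (insert f Z).card = Z.card + 1 := Finset.card_insert_of_notMem hfZ
      refine (pr_or _ _).trans ?_
      have e1 := ih ξ (insert f Z)
      have e2 := ih (insert f ξ) (insert f Z)
      rw [hcard] at e1 e2
      linarith
    · have hc : (((Hv ξ).filter (fun f => f ∉ Z)).card : ℝ) ≤ h0 := by
        exact_mod_cast (Finset.card_filter_le _ _).trans (hH ξ)
      have hpos : 0 ≤ 2 * ((2 * (h0 : ℝ)) ^ u * q ^ (Z.card + 1 + u)) := by positivity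
      calc (((Hv ξ).filter (fun f => f ∉ Z)).card : ℝ) * (2 * ((2 * (h0 : ℝ)) ^ u * q ^ (Z.card + 1 + u)))
          ≤ h0 * (2 * ((2 * (h0 : ℝ)) ^ u * q ^ (Z.card + 1 + u))) :=
            mul_le_mul_of_nonneg_right hc hpos
        _ = (2 * (h0 : ℝ)) ^ (u + 1) * q ^ (Z.card + (u + 1)) := by
            rw [show Z.card + (u + 1) = Z.card + 1 + u by ring, pow_succ (2 * (h0 : ℝ)) u]
            ring

theorem stmt_CHN : Stmt_CHN := by
  intro Ω V _ _ G Hv q h0 u ξ hq hG hH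
  have h := chn_aux G Hv q h0 hq hG hH u ξ ∅
  refine (pr_mono (q := fun ω => ∅ ⊆ G ω ∧ IsCh Hv (G ω) u ξ ∅)
    (fun ω h => ⟨Finset.empty_subset _, h⟩)).trans (h.trans (le_of_eq ?_))
  rw [Finset.card_empty, Nat.zero_add, mul_pow (2 * (h0 : ℝ)) q u]

end Pool.Agent.Work.MP_833881_lp
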