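import Pool.Agent.Work.MP_833881_lp.Interface

/-!
# Block CLO: closure under forced edges
-/

namespace Pool.Agent.Work.MP_833881_lp

open Finset Pool.Agent.Work.MP_833881_lc Pool.Agent.Work.MP_833881_lb
open scoped Classical

noncomputable section

namespace CLO

variable {m n : ℕ}

theorem Fo_mono {D : Line (Edge m n)} {S S' : Finset (Edge m n)} (h : S ⊆ S') : Fo D S ⊆ Fo D S' := by
  intro v hv
  obtain ⟨-, t, ht, h1, h2⟩ := Finset.mem_filter.1 hv
  exact Finset.mem_filter.2 ⟨Finset.mem_univ _, t, ht, h1, fun l hl hne => ⟨(h2 l hl hne).1, h (h2 l hl hne).2⟩⟩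

theorem sat_of_Fo {E0 E1 M M' : Finset (Edge m n)} {D : Line (Edge m n)} {v : Edge m n} (hv : v ∈ Fo D M)
    (hM : M ⊆ M') (h : v ∉ E0 ∪ E1 ∨ ∃ e ∈ M', e ≠ v ∧ (e.1 = v.1 ∨ e.2 = v.2)) : satD (E0 ∪ E1) M' D := by
  obtain ⟨-, t, ht, h1, h2⟩ := Finset.mem_filter.1 hv
  refine ⟨t, ht, fun l hl => ?_⟩
  by_cases hne : l = (v, false)
  · rw [hne]
    exact ⟨fun h' => by simp at h', fun _ => h⟩
  · obtain ⟨h3, h4⟩ := h2 l hl hne
    exact ⟨fun _ => hM h4, fun h' => by rw [h3] at h'; exact absurd h' (by decide)⟩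

theorem sat_Tr {E0 E1 M : Finset (Edge m n)} {D : Line (Edge m n)} (h : satD (E0 ∪ E1) M D) (k : ℕ) :
    Tr E0 E1 D k M := by
  cases k with
  | zero => exact h
  | succ k => exact Or.inl h

theorem step {E0 E1 M : Finset (Edge m n)} {D : Line (Edge m n)} {K : ℕ} {v : Edge m n}
    (hGP : GP E0 E1 D K M) (hv : v ∈ Fo D M) (hvM : v ∉ M) (hK : (M \ E0).card < K) :
    GP E0 E1 D K (insert v M) ∧ v ∈ E0 ∪ E1 := by
  obtain ⟨hM, h1, h2⟩ := hGP
  have hvE : v ∈ E0 ∪ E1 := by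
    by_contra h
    exact h2 (sat_Tr (sat_of_Fo hv subset_rfl (Or.inl h)) _)
  obtain ⟨k, hk⟩ : ∃ k, K - (M \ E0).card = k + 1 := ⟨K - (M \ E0).card - 1, by omega⟩
  rw [hk] at h2
  have h3 : ∃ e : Edge m n, e.1 = v.1 ∧ IsM E0 E1 (insert e M) ∧ ¬ Tr E0 E1 D k (insert e M) := by
    by_contra hcon
    push Not at hcon
    exact h2 (Or.inr (Or.inl ⟨v.1, fun e he hMe => hcon e he hMe⟩))
  obtain ⟨e, he, hMe, hne⟩ := h3
  have hev : e = v := by
    by_contra hcon
    exact hne (sat_Tr (sat_of_Fo hv (Finset.subset_insert _ _)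
      (Or.inr ⟨e, Finset.mem_insert_self _ _, hcon, Or.inl he⟩)) _)
  rw [hev] at hMe hne
  have hv0 : v ∉ E0 := fun h => hvM (hM.sup h)
  have hc : (insert v M \ E0).card = (M \ E0).card + 1 := by
    rw [Finset.insert_sdiff_of_notMem _ hv0, Finset.card_insert_of_notMem (fun h => hvM (Finset.mem_sdiff.1 h).1)]
  refine ⟨⟨hMe, by omega, ?_⟩, hvE⟩
  rw [hc]
  have : K - ((M \ E0).card + 1) = k := by omega
  rw [this]
  exact hne

end CLO

open CLO

theorem stmt_CLO : Stmt_CLO := by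
  intro m n E0 E1 M F D g K hGP hEF hcl hbud hrun
  have claim : ∀ k, k ≤ g → GP E0 E1 D K (M ∪ run D (E0 ∪ F) k) ∧
      ((M ∪ run D (E0 ∪ F) k) \ E0).card ≤ (M \ E0).card + k ∧ run D (E0 ∪ F) k ⊆ E0 ∪ E1 ∧
      E0 ∪ F ⊆ run D (E0 ∪ F) k ∧ (∀ S, E0 ∪ F ⊆ S → Fo D S ⊆ S → run D (E0 ∪ F) k ⊆ S) ∧
      (run D (E0 ∪ F) k).card ≤ (E0 ∪ F).card + k ∧
      ((∃ k' < k, Fo D (run D (E0 ∪ F) k') ⊆ run D (E0 ∪ F) k') ∨
        (run D (E0 ∪ F) k).card = (E0 ∪ F).card + k) := by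
    intro k
    induction k with
    | zero =>
      intro _
      have h0 : run D (E0 ∪ F) 0 = E0 ∪ F := rfl
      rw [h0, Finset.union_eq_left.2 hEF]
      exact ⟨hGP, le_rfl, hEF.trans hGP.1.sub, subset_rfl, fun S hS _ => hS, le_rfl, Or.inr rfl⟩
    | succ k ih =>
      intro hk
      obtain ⟨i1, i2, i3, i4, i5, i6, i7⟩ := ih (by omega)
      by_cases hne : (Fo D (run D (E0 ∪ F) k) \ run D (E0 ∪ F) k).Nonempty
      · have hr : run D (E0 ∪ F) (k + 1) = insert hne.choose (run D (E0 ∪ F) k) := by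
          show St D (run D (E0 ∪ F) k) = _
          unfold St
          rw [dif_pos hne]
        obtain ⟨hv1, hv2⟩ := Finset.mem_sdiff.1 hne.choose_spec
        obtain ⟨v, hv⟩ : ∃ v, v = hne.choose := ⟨_, rfl⟩
        rw [← hv] at hr hv1 hv2
        rw [hr, Finset.union_insert]
        have hc1 : (insert v (run D (E0 ∪ F) k)).card = (run D (E0 ∪ F) k).card + 1 :=
          Finset.card_insert_of_notMem hv2
        have hmain : GP E0 E1 D K (insert v (M ∪ run D (E0 ∪ F) k)) ∧ v ∈ E0 ∪ E1 := by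
          by_cases hvM : v ∈ M ∪ run D (E0 ∪ F) k
          · rw [Finset.insert_eq_of_mem hvM]
            exact ⟨i1, i1.1.sub hvM⟩
          · exact step i1 (Fo_mono Finset.subset_union_right hv1) hvM (by omega)
        refine ⟨hmain.1, ?_, Finset.insert_subset hmain.2 i3, i4.trans (Finset.subset_insert _ _), ?_, by omega, ?_⟩
        · have h1 : insert v (M ∪ run D (E0 ∪ F) k) \ E0 ⊆ insert v ((M ∪ run D (E0 ∪ F) k) \ E0) := by
            intro x hx
            obtain ⟨hx1, hx2⟩ := Finset.mem_sdiff.1 hx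
            rcases Finset.mem_insert.1 hx1 with h | h
            · rw [h]; exact Finset.mem_insert_self _ _
            · exact Finset.mem_insert_of_mem (Finset.mem_sdiff.2 ⟨h, hx2⟩)
          have h2 := (Finset.card_le_card h1).trans (Finset.card_insert_le _ _)
          omega
        · intro S hS hS2
          exact Finset.insert_subset (hS2 (Fo_mono (i5 S hS hS2) hv1)) (i5 S hS hS2)
        · rcases i7 with ⟨k', hk', h⟩ | h
          · exact Or.inl ⟨k', by omega, h⟩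
          · right; omega
      · have hr : run D (E0 ∪ F) (k + 1) = run D (E0 ∪ F) k := by
          show St D (run D (E0 ∪ F) k) = _
          unfold St
          rw [dif_neg hne]
        rw [hr]
        refine ⟨i1, by omega, i3, i4, i5, by omega, Or.inl ⟨k, by omega, ?_⟩⟩
        rw [Finset.not_nonempty_iff_eq_empty, Finset.sdiff_eq_empty_iff_subset] at hne
        exact hne
  obtain ⟨-, -, h3, -, -, -, h7⟩ := claim g le_rfl
  have h8 : ∃ k' < g, Fo D (run D (E0 ∪ F) k') ⊆ run D (E0 ∪ F) k' := by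
    rcases h7 with h | h
    · exact h
    · exact absurd ⟨h3, h⟩ hrun
  obtain ⟨k', hk', hclosed⟩ := h8
  obtain ⟨j1, -, -, j4, j5, j6, -⟩ := claim k' hk'.le
  have hMr : M ⊆ run D (E0 ∪ F) k' := hcl _ j4 hclosed
  rw [Finset.union_eq_right.2 hMr] at j1
  refine ⟨run D (E0 ∪ F) k', j1, hMr, hclosed, ?_, j5⟩
  have e1 := Finset.card_sdiff_add_card_eq_card (Finset.subset_union_left.trans j4 : E0 ⊆ run D (E0 ∪ F) k')
  have e2 := Finset.card_union_le E0 F
  omega

end

end Pool.Agent.Work.MP_833881_lp
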