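import Pool.Agent.Work.MP_833881_lp.Interface

/-!
# Block DET: no refutation in a world
-/

namespace Pool.Agent.Work.MP_833881_lp

open Finset Pool.Agent.Work.MP_833881_lc Pool.Agent.Work.MP_833881_lb
open scoped Classical

noncomputable section

theorem stmt_DET (hG : Stmt_GAME) (hH : Stmt_HALL) (hL : Stmt_LFM) : Stmt_DET := by
  intro m n p L X E0 E1 hW hp π hπ hπL
  have hw1 := hp.w1
  have hzw := hp.zw
  have hM0 : IsM E0 E1 E0 := ⟨Finset.subset_union_left, subset_rfl, hW.mat⟩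
  have htr : Tr E0 E1 ∅ (88 * p.w + 2 * p.z + 1) E0 :=
    hG.2.2.2 m n E0 E1 (88 * p.w + 2 * p.z + 1) π hM0 (by omega) hπ
      (fun D hD h => hL m n p L X E0 E1 hW hp D (hπL D hD) h)
  refine hH m n E0 E1 E0 ∅ ∅ p.c p.Sx p.T 0 (88 * p.w + 2 * p.z + 1) hM0 hW.sep hW.exp
    (by rw [Finset.sdiff_self, Finset.card_empty]) ?_ ?_ ?_ ?_ ?_ htr
  · intro i hi
    have h1 := hW.deg_ge i (fun h => by
      obtain ⟨e, he, h2⟩ := Finset.mem_image.1 h
      exact hi e he h2)
    have h2 : (opts E1 i).filter (fun j => (i, j) ∉ (∅ : Finset (Edge m n)) ∧ ∀ e ∈ E0, e.2 ≠ j) = opts E1 i :=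
      Finset.filter_true_of_mem (fun j hj => ⟨Finset.notMem_empty _, fun e he h =>
        (hW.sep e he (i, j) (mem_opts.1 hj)).2 h⟩)
    rw [h2]
    exact hp.r.trans h1
  · intro j hj
    have h1 := hW.hole_ge j (fun h => by
      obtain ⟨e, he, h2⟩ := Finset.mem_image.1 h
      exact hj e he h2)
    have h2 : E1.filter (fun e => e.2 = j ∧ e ∉ (∅ : Finset (Edge m n))) = E1.filter (fun e => e.2 = j) :=
      Finset.filter_congr (fun e _ => ⟨fun h => h.1, fun h => ⟨h, Finset.notMem_empty _⟩⟩)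
    rw [h2]
    exact h1
  · rintro M _ _ _ ⟨t, ht, -⟩
    exact absurd ht (Finset.notMem_empty _)
  · have := hp.S
    omega
  · have := hp.hT
    rw [Nat.add_mul] at this
    omega

end

end Pool.Agent.Work.MP_833881_lp
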