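import Pool.Agent.Work.MP_833881_lp.Interface

/-!
# Block EN1: one tuple of weak coordinates
-/

namespace Pool.Agent.Work.MP_833881_lp

open Finset Pool.Agent.Work.MP_833881_lc Pool.Agent.Work.MP_833881_lb
open scoped Classical

noncomputable section

theorem EN1aux.pr_true {Ω : Type} [Fintype Ω] [Nonempty Ω] {p : Ω → Prop} (h : ∀ ω, p ω) : pr p = 1 := by
  unfold pr
  rw [Finset.filter_true_of_mem (fun ω _ => h ω), Finset.card_univ, div_self]
  exact_mod_cast Fintype.card_ne_zero

theorem stmt_EN1 : Stmt_EN1 := by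
  intro ι α V _ _ _ _ ρ mem en q k t hq hF hinj hne
  set F : Finset V := univ.image (fun r => (t r).2) with hFdef
  let p1 : ι → α → Prop := fun c x => ∀ r, (t r).1 = c → (t r).2 ∈ en c x
  let p2 : ι → α → Prop := fun c x => ∀ v ∈ F, ρ v = c → mem v x
  have hE : pr (fun ω : ι → α => ∀ r, (t r).2 ∈ en (t r).1 (ω (t r).1) ∧ mem (t r).2 (ω (ρ (t r).2))) ≤
      pr (fun ω : ι → α => ∀ c, p1 c (ω c) ∧ p2 c (ω c)) := by
    refine pr_mono (fun ω h c => ⟨fun r hr => ?_, fun v hv hc => ?_⟩)
    · subst hr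
      exact (h r).1
    · obtain ⟨r, -, hr⟩ := Finset.mem_image.1 hv
      subst hc
      rw [← hr]
      exact (h r).2
  refine hE.trans ?_
  rw [pr_forall (fun c x => p1 c x ∧ p2 c x)]
  have hc : ∀ c, pr (fun x => p1 c x ∧ p2 c x) = pr (p1 c) * pr (p2 c) := by
    intro c
    by_cases h : ∃ r, (t r).1 = c
    · obtain ⟨r, hr⟩ := h
      have h2 : ∀ x, p2 c x := by
        intro x v hv hvc
        obtain ⟨r', -, hr'⟩ := Finset.mem_image.1 hv
        exact absurd (by rw [hr, ← hvc, ← hr']) (hne r' r)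
      rw [EN1aux.pr_true h2, mul_one]
      congr 1
      funext x
      exact propext ⟨fun h => h.1, fun h => ⟨h, h2 x⟩⟩
    · have h1 : ∀ x, p1 c x := fun x r hr => absurd ⟨r, hr⟩ h
      rw [EN1aux.pr_true h1, one_mul]
      congr 1
      funext x
      exact propext ⟨fun h => h.2, fun h => ⟨h1 x, h⟩⟩
  rw [Finset.prod_congr rfl (fun c _ => hc c), Finset.prod_mul_distrib]
  have h1 : ∏ c, pr (p1 c) = ∏ r, pr (fun x : α => (t r).2 ∈ en (t r).1 x) := by
    symm
    refine Fintype.prod_of_injective (fun r => (t r).1) hinj _ _ ?_ ?_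
    · intro c hcr
      refine EN1aux.pr_true (fun x r hr => absurd ⟨r, hr⟩ hcr)
    · intro r
      show pr (fun x : α => (t r).2 ∈ en (t r).1 x) = pr (p1 (t r).1)
      congr 1
      funext x
      refine propext ⟨fun h r' hr' => ?_, fun h => h r rfl⟩
      have : r' = r := hinj hr'
      subst this
      exact h
  have h2 : ∏ c, pr (p2 c) ≤ q ^ F.card := by
    rw [← pr_forall]
    refine le_trans (pr_mono (fun ω h v hv => ?_)) (hF F)
    exact h (ρ v) v hv rfl
  rw [h1]
  exact mul_le_mul_of_nonneg_left h2 (Finset.prod_nonneg (fun r _ => pr_nonneg _))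

end

end Pool.Agent.Work.MP_833881_lp
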