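import Pool.Agent.Work.MP_833881_lp.Interface

/-!
# Block EN2: the sum over all tuples (helper19)
-/

namespace Pool.Agent.Work.MP_833881_lp

open Finset Pool.Agent.Work.MP_833881_lc Pool.Agent.Work.MP_833881_lb
open scoped Classical

theorem en2_step {ι V : Type} [Fintype ι] [Fintype V] (P : ι → V → ℝ) (q θ Y : ℝ)
    (hP : ∀ i v, 0 ≤ P i v) (hq : 0 ≤ q) (hθ : ∀ v, ∑ i, P i v ≤ θ)
    (hY : ∑ i, ∑ v, P i v ≤ Y) (Z : Finset V) :
    ∑ x : ι × V, P x.1 x.2 * q ^ (insert x.2 Z).card ≤ q ^ Z.card * (q * Y + Z.card * θ) := by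
  have h1 : ∀ x : ι × V, P x.1 x.2 * q ^ (insert x.2 Z).card ≤
      q ^ Z.card * (q * P x.1 x.2 + if x.2 ∈ Z then P x.1 x.2 else 0) := by
    intro x
    by_cases hx : x.2 ∈ Z
    · rw [Finset.insert_eq_of_mem hx, if_pos hx]
      have e1 : 0 ≤ q ^ Z.card * (q * P x.1 x.2) := mul_nonneg (by positivity) (mul_nonneg hq (hP _ _))
      have e2 : q ^ Z.card * (q * P x.1 x.2 + P x.1 x.2) =
        P x.1 x.2 * q ^ Z.card + q ^ Z.card * (q * P x.1 x.2) := by ring
      linarith
    · rw [Finset.card_insert_of_notMem hx, if_neg hx, add_zero, pow_succ]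
      exact le_of_eq (by ring)
  refine (Finset.sum_le_sum (fun x _ => h1 x)).trans ?_
  rw [← Finset.mul_sum, Finset.sum_add_distrib, ← Finset.mul_sum]
  refine mul_le_mul_of_nonneg_left ?_ (by positivity)
  refine add_le_add ?_ ?_
  · refine mul_le_mul_of_nonneg_left ?_ hq
    rw [Fintype.sum_prod_type]
    exact hY
  · rw [Fintype.sum_prod_type_right]
    have h2 : ∀ v, (∑ i, if v ∈ Z then P i v else 0) ≤ if v ∈ Z then θ else 0 := by
      intro v
      by_cases hv : v ∈ Z
      · simp only [if_pos hv]
        exact hθ v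
      · simp only [if_neg hv]
        simp
    refine (Finset.sum_le_sum (fun v _ => h2 v)).trans ?_
    rw [← Finset.sum_filter, Finset.sum_const, nsmul_eq_mul]
    have : (univ.filter (fun v => v ∈ Z)) = Z := by ext v; simp
    rw [this]

theorem stmt_EN2 : Stmt_EN2 := by
  intro ι V _ _ P q θ Y hP hq hθ0 hY0 hθ hY k
  induction k with
  | zero => simp
  | succ k ih =>
    have hk : (0 : ℝ) ≤ q * Y + k * θ := by positivity
    rw [← (Fin.consEquiv (fun _ : Fin (k + 1) => ι × V)).sum_comp, Fintype.sum_prod_type_right]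
    have h1 : ∀ t : Fin k → ι × V,
        ∑ x : ι × V, (∏ r, P ((Fin.consEquiv (fun _ : Fin (k + 1) => ι × V)) (x, t) r).1
          ((Fin.consEquiv (fun _ : Fin (k + 1) => ι × V)) (x, t) r).2) *
          q ^ (univ.image (fun r => ((Fin.consEquiv (fun _ : Fin (k + 1) => ι × V)) (x, t) r).2)).card ≤
        ((∏ r, P (t r).1 (t r).2) * q ^ (univ.image (fun r => (t r).2)).card) * (q * Y + k * θ) := by
      intro t
      have h2 : ∀ x : ι × V, (∏ r, P ((Fin.consEquiv (fun _ : Fin (k + 1) => ι × V)) (x, t) r).1
          ((Fin.consEquiv (fun _ : Fin (k + 1) => ι × V)) (x, t) r).2) *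
          q ^ (univ.image (fun r => ((Fin.consEquiv (fun _ : Fin (k + 1) => ι × V)) (x, t) r).2)).card =
          (∏ r, P (t r).1 (t r).2) * (P x.1 x.2 * q ^ (insert x.2 (univ.image (fun r => (t r).2))).card) := by
        intro x
        have e1 : (univ.image (fun r => ((Fin.consEquiv (fun _ : Fin (k + 1) => ι × V)) (x, t) r).2)) =
            insert x.2 (univ.image (fun r => (t r).2)) := by
          ext v
          simp only [Finset.mem_image, Finset.mem_insert, Finset.mem_univ, true_and]
          rw [Fin.exists_fin_succ]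
          simp only [Fin.consEquiv_apply, Fin.cons_zero, Fin.cons_succ]
          constructor
          · rintro (h | h)
            · exact Or.inl h.symm
            · exact Or.inr h
          · rintro (h | h)
            · exact Or.inl h.symm
            · exact Or.inr h
        rw [e1, Fin.prod_univ_succ]
        simp only [Fin.consEquiv_apply, Fin.cons_zero, Fin.cons_succ]
        ring
      rw [Finset.sum_congr rfl (fun x _ => h2 x), ← Finset.mul_sum, mul_assoc]
      refine mul_le_mul_of_nonneg_left ?_ (Finset.prod_nonneg (fun r _ => hP _ _))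
      refine (en2_step P q θ Y hP hq hθ hY _).trans ?_
      refine mul_le_mul_of_nonneg_left ?_ (by positivity)
      have hc : ((univ.image (fun r => (t r).2)).card : ℝ) ≤ k := by
        have := Finset.card_image_le (s := (univ : Finset (Fin k))) (f := fun r => (t r).2)
        rw [Finset.card_univ, Fintype.card_fin] at this
        exact_mod_cast this
      have := mul_le_mul_of_nonneg_right hc hθ0
      linarith
    refine (Finset.sum_le_sum (fun t _ => h1 t)).trans ?_
    rw [← Finset.sum_mul, pow_succ]
    have h3 : q * Y + k * θ ≤ q * Y + ((k + 1 : ℕ) : ℝ) * θ := by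
      push_cast
      linarith
    refine mul_le_mul (ih.trans ?_) h3 hk ?_
    · exact pow_le_pow_left₀ hk h3 k
    · positivity

end Pool.Agent.Work.MP_833881_lp
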