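import Pool.Agent.Work.MP_833881_lp.Interface

/-!
# Block EN3: an independent set in a functional digraph (helper19)
-/

namespace Pool.Agent.Work.MP_833881_lp

open Finset Pool.Agent.Work.MP_833881_lc Pool.Agent.Work.MP_833881_lb
open scoped Classical

theorem stmt_EN3 : Stmt_EN3 := by
  intro ι W g κ
  induction κ generalizing W with
  | zero => intro _ _; exact ⟨∅, Finset.empty_subset _, rfl, by simp⟩
  | succ κ ih =>
    intro hg hc
    have hWpos : 0 < W.card := by omega
    have hsum : ∑ i ∈ W, (W.filter (fun j => g j = i)).card ≤ W.card := by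
      rw [← Finset.card_biUnion]
      · apply Finset.card_le_card
        intro j hj
        obtain ⟨i, _, hi⟩ := Finset.mem_biUnion.1 hj
        exact (Finset.mem_filter.1 hi).1
      · intro i _ i' _ hii
        rw [Function.onFun, Finset.disjoint_left]
        intro j h1 h2
        exact hii ((Finset.mem_filter.1 h1).2.symm.trans (Finset.mem_filter.1 h2).2)
    have hex : ∃ i ∈ W, (W.filter (fun j => g j = i)).card ≤ 1 := by
      by_contra hcon
      push Not at hcon
      have : ∑ i ∈ W, 2 ≤ ∑ i ∈ W, (W.filter (fun j => g j = i)).card :=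
        Finset.sum_le_sum (fun i hi => hcon i hi)
      rw [Finset.sum_const, smul_eq_mul] at this
      omega
    obtain ⟨i, hi, hi1⟩ := hex
    have hR : (insert i (insert (g i) (W.filter (fun j => g j = i)))).card ≤ 3 := by
      refine (Finset.card_insert_le _ _).trans ?_
      have := Finset.card_insert_le (g i) (W.filter (fun j => g j = i))
      omega
    have hW' := Finset.le_card_sdiff (insert i (insert (g i) (W.filter (fun j => g j = i)))) W
    obtain ⟨W1, h1, h2, h3⟩ := ih (W \ insert i (insert (g i) (W.filter (fun j => g j = i))))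
      (fun j hj => hg j (Finset.mem_sdiff.1 hj).1) (by omega)
    have hi1 : i ∉ W1 := fun h => (Finset.mem_sdiff.1 (h1 h)).2 (Finset.mem_insert_self _ _)
    refine ⟨insert i W1, ?_, ?_, ?_⟩
    · exact Finset.insert_subset hi (h1.trans Finset.sdiff_subset)
    · rw [Finset.card_insert_of_notMem hi1, h2]
    · intro j hj
      rcases Finset.mem_insert.1 hj with rfl | hj
      · rw [Finset.mem_insert, not_or]
        refine ⟨hg _ hi, fun h => (Finset.mem_sdiff.1 (h1 h)).2 ?_⟩
        exact Finset.mem_insert_of_mem (Finset.mem_insert_self _ _)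
      · rw [Finset.mem_insert, not_or]
        refine ⟨fun h => (Finset.mem_sdiff.1 (h1 hj)).2 ?_, h3 j hj⟩
        refine Finset.mem_insert_of_mem (Finset.mem_insert_of_mem ?_)
        exact Finset.mem_filter.2 ⟨(Finset.mem_sdiff.1 (h1 hj)).1, h⟩

end Pool.Agent.Work.MP_833881_lp
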