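import Pool.Agent.Work.MP_833881_lp.Interface

/-!
# Block ENAB: enablers and strong positive literals (helper19)
-/

namespace Pool.Agent.Work.MP_833881_lp

open Finset Pool.Agent.Work.MP_833881_lc Pool.Agent.Work.MP_833881_lb
open scoped Classical

set_option linter.unusedSectionVars false

theorem enab_spec {m n : ℕ} (D : Line (Edge m n)) (T : Finset (Edge m n)) (e v : Edge m n)
    (h : enab D T e = some v) :
    v ≠ e ∧ v ∉ T ∧ ({(e, true), (v, false)} : Finset (Edge m n × Bool)) ∈ D := by
  unfold enab at h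
  split_ifs at h with h1 h2
  have h3 := h2.choose_spec
  have h4 : h2.choose = v := Option.some.inj h
  rw [h4] at h3
  exact h3

/-- Either there is a term with positive partners only, or the enabler exists. -/
theorem enab_cases {m n : ℕ} (D : Line (Edge m n)) (hD : ∀ t ∈ D, t.card ≤ 2) (T : Finset (Edge m n))
    (e : Edge m n) (he : e ∈ Pos D T) :
    (∃ t ∈ D, (e, true) ∈ t ∧ ∀ l ∈ t, l ≠ (e, true) → l.1 ≠ e ∧ l.2 = true ∧ l.1 ∈ T) ∨
      ∃ v, enab D T e = some v := by
  by_cases h1 : ∃ t ∈ D, (e, true) ∈ t ∧ ∀ l ∈ t, l ≠ (e, true) → l.1 ≠ e ∧ l.2 = true ∧ l.1 ∈ T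
  · exact Or.inl h1
  · right
    obtain ⟨t, ht, het, hall⟩ := (Finset.mem_filter.1 he).2
    have h2 : ∃ l ∈ t, l ≠ (e, true) ∧ l.2 = false := by
      by_contra hcon
      push Not at hcon
      apply h1
      refine ⟨t, ht, het, ?_⟩
      intro l hl hne
      have hl2 : l.2 = true := by simpa using hcon l hl hne
      exact ⟨(hall l hl hne).1, hl2, (hall l hl hne).2.1 hl2⟩
    obtain ⟨l, hl, hne, hl2⟩ := h2
    have hte : t = {(e, true), (l.1, false)} := by
      have hl' : l = (l.1, false) := Prod.ext rfl hl2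
      have hsub : ({(e, true), (l.1, false)} : Finset (Edge m n × Bool)) ⊆ t := by
        intro x hx
        rcases Finset.mem_insert.1 hx with rfl | hx
        · exact het
        · rw [Finset.mem_singleton] at hx
          rw [hx, ← hl']
          exact hl
      refine (Finset.eq_of_subset_of_card_le hsub ?_).symm
      rw [Finset.card_pair]
      · exact hD t ht
      · intro h
        rw [Prod.mk.injEq] at h
        exact absurd h.2 (by simp)
    have h3 : ∃ v, v ≠ e ∧ v ∉ T ∧ ({(e, true), (v, false)} : Finset (Edge m n × Bool)) ∈ D :=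
      ⟨l.1, (hall l hl hne).1, (hall l hl hne).2.2 hl2, by rw [← hte]; exact ht⟩
    refine ⟨h3.choose, ?_⟩
    unfold enab
    rw [if_neg h1, dif_pos h3]

theorem stmt_ENAB : Stmt_ENAB := by
  intro m n D hD
  refine ⟨?_, ?_, ?_, ?_⟩
  · intro T e h
    exact (enab_spec D T e e h).1 rfl
  · intro T e v h
    exact (enab_spec D T e v h).2.1
  · intro T G Z e he hv
    rcases enab_cases D hD T e he with ⟨t, ht, het, hall⟩ | ⟨v, hev⟩
    · refine ⟨t, ht, het, ?_⟩
      intro l hl hne
      obtain ⟨h1, h2, h3⟩ := hall l hl hne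
      refine ⟨h1, fun _ => h3, fun h4 => ?_⟩
      rw [h2] at h4
      exact absurd h4 (by simp)
    · obtain ⟨h1, h2, h3⟩ := enab_spec D T e v hev
      refine ⟨_, h3, by simp, ?_⟩
      intro l hl hne
      have hl' : l = (v, false) := by
        rcases Finset.mem_insert.1 hl with hl | hl
        · exact absurd hl hne
        · exact Finset.mem_singleton.1 hl
      rw [hl']
      refine ⟨h1, fun h4 => absurd h4 (by simp), fun _ => ⟨h2, fun h5 => hv v hev h5⟩⟩
  · intro E0 T e he hv T' hT hT'
    rcases enab_cases D hD T e he with ⟨t, ht, het, hall⟩ | ⟨v, hev⟩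
    · refine Finset.mem_filter.2 ⟨Finset.mem_univ _, t, ht, het, ?_⟩
      intro l hl hne
      obtain ⟨h1, h2, h3⟩ := hall l hl hne
      refine ⟨h1, fun _ => hT h3, fun h4 => ?_⟩
      rw [h2] at h4
      exact absurd h4 (by simp)
    · obtain ⟨h1, h2, h3⟩ := enab_spec D T e v hev
      refine Finset.mem_filter.2 ⟨Finset.mem_univ _, _, h3, by simp, ?_⟩
      intro l hl hne
      have hl' : l = (v, false) := by
        rcases Finset.mem_insert.1 hl with hl | hl
        · exact absurd hl hne
        · exact Finset.mem_singleton.1 hl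
      rw [hl']
      refine ⟨h1, fun h4 => absurd h4 (by simp), fun _ h5 => ?_⟩
      rcases Finset.mem_union.1 (hT' h5) with h6 | h6
      · exact hv v hev h6
      · exact h2 h6

end Pool.Agent.Work.MP_833881_lp
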