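import Pool.Agent.Work.MP_833881_lp.Interface

/-!
# Block ENB: many weak coordinates are improbable
-/

namespace Pool.Agent.Work.MP_833881_lp

open Finset Pool.Agent.Work.MP_833881_lc Pool.Agent.Work.MP_833881_lb
open scoped Classical

theorem ENB_factorial (κ : ℕ) (y : ℝ) (hy : 0 ≤ y) (hκ : 1 ≤ κ) :
    y ^ κ / (κ.factorial : ℝ) ≤ (3 * y / κ) ^ κ := by
  have h2 : (κ : ℝ) ^ κ / (κ.factorial : ℝ) ≤ 3 ^ κ := by
    refine (Real.pow_div_factorial_le_exp (κ : ℝ) (Nat.cast_nonneg _) κ).trans ?_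
    have h4 : Real.exp (κ : ℝ) = Real.exp 1 ^ κ := by
      rw [← Real.exp_nat_mul, mul_one]
    rw [h4]
    have h5 : Real.exp 1 ≤ 3 := by
      have := Real.exp_one_lt_d9
      linarith
    exact pow_le_pow_left₀ (Real.exp_pos 1).le h5 κ
  have hz0 : (0 : ℝ) < κ := by exact_mod_cast hκ
  have hf : (0 : ℝ) < (κ.factorial : ℝ) := by exact_mod_cast Nat.factorial_pos κ
  calc y ^ κ / (κ.factorial : ℝ) = (y / κ) ^ κ * ((κ : ℝ) ^ κ / (κ.factorial : ℝ)) := by
        rw [div_pow]
        field_simp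
    _ ≤ (y / κ) ^ κ * 3 ^ κ := mul_le_mul_of_nonneg_left h2 (by positivity)
    _ = (3 * y / κ) ^ κ := by
        rw [← mul_pow]
        congr 1
        ring

theorem stmt_ENB (hEN1 : Stmt_EN1) (hEN2 : Stmt_EN2) (hEN3 : Stmt_EN3) : Stmt_ENB := by
  intro ι α V _ _ _ _ _ ρ mem en q θ Y κ hq hθ hY hκ hen hpr h1 h2
  set P : ι → V → ℝ := fun i v => pr (fun x : α => v ∈ en i x) with hP
  set E : (Fin κ → ι × V) → (ι → α) → Prop := fun t ω =>
    ∀ r, (t r).2 ∈ en (t r).1 (ω (t r).1) ∧ mem (t r).2 (ω (ρ (t r).2)) with hE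
  set T : Finset (Fin κ → ι × V) := univ.filter (fun t =>
    Function.Injective (fun r => (t r).1) ∧ ∀ r r', ρ (t r).2 ≠ (t r').1) with hT
  have hfac : (0 : ℝ) < (κ.factorial : ℝ) := by exact_mod_cast Nat.factorial_pos κ
  have key : ∀ ω : ι → α,
      3 * κ ≤ (univ.filter (fun i => ∃ v ∈ en i (ω i), mem v (ω (ρ v)))).card →
      κ.factorial ≤ (T.filter (fun t => E t ω)).card := by
    intro ω hω
    set W := univ.filter (fun i => ∃ v ∈ en i (ω i), mem v (ω (ρ v))) with hW
    have hv : ∀ i : ι, ∃ v : V, i ∈ W → v ∈ en i (ω i) ∧ mem v (ω (ρ v)) := by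
      intro i
      by_cases hi : i ∈ W
      · obtain ⟨v, h3, h4⟩ := (Finset.mem_filter.1 hi).2
        exact ⟨v, fun _ => ⟨h3, h4⟩⟩
      · have hne : Nonempty V := by
          obtain ⟨j, hj⟩ : W.Nonempty := by
            rw [← Finset.card_pos]
            omega
          obtain ⟨v, -, -⟩ := (Finset.mem_filter.1 hj).2
          exact ⟨v⟩
        exact ⟨hne.some, fun h => absurd h hi⟩
    choose v hv using hv
    obtain ⟨W1, hW1, hcard, hind⟩ := hEN3 ι W (fun i => ρ (v i)) κ
      (fun i hi => hen i _ _ (hv i hi).1) hω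
    have e : Fin κ ≃ W1 := (Finset.equivFinOfCardEq hcard).symm
    have hf : Function.Injective (fun (π : Equiv.Perm (Fin κ)) (r : Fin κ) =>
        (((e (π r) : W1) : ι), v ((e (π r) : W1) : ι))) := by
      intro π π' h
      ext r
      have h3 := congrFun h r
      simp only [Prod.mk.injEq] at h3
      have h4 := e.injective (Subtype.ext h3.1)
      rw [h4]
    have h5 : (univ.image (fun (π : Equiv.Perm (Fin κ)) (r : Fin κ) =>
        (((e (π r) : W1) : ι), v ((e (π r) : W1) : ι)))).card = κ.factorial := by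
      rw [Finset.card_image_of_injective _ hf, Finset.card_univ, Fintype.card_perm,
        Fintype.card_fin]
    rw [← h5]
    apply Finset.card_le_card
    intro t ht
    obtain ⟨π, -, rfl⟩ := Finset.mem_image.1 ht
    refine Finset.mem_filter.2 ⟨Finset.mem_filter.2 ⟨Finset.mem_univ _, ?_, ?_⟩, ?_⟩
    · intro r r' h
      exact π.injective (e.injective (Subtype.ext h))
    · intro r r' h
      have h6 := hind _ (e (π r)).2
      simp only at h h6
      rw [h] at h6
      exact h6 (e (π r')).2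
    · intro r
      exact hv _ (hW1 (e (π r)).2)
  have h3 := pr_le_avg
    (p := fun ω : ι → α => 3 * κ ≤ (univ.filter (fun i => ∃ v ∈ en i (ω i), mem v (ω (ρ v)))).card)
    (g := fun ω => (∑ t ∈ T, if E t ω then (1 : ℝ) else 0) / κ.factorial)
    (fun ω => div_nonneg (Finset.sum_nonneg fun t _ => by split_ifs <;> norm_num) hfac.le)
    (fun ω hω => by
      rw [le_div_iff₀ hfac, one_mul, ← Finset.sum_filter, Finset.sum_const, nsmul_eq_mul, mul_one]
      exact_mod_cast key ω hω)
  refine h3.trans ?_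
  have h4 : (∑ ω : ι → α, (∑ t ∈ T, if E t ω then (1 : ℝ) else 0) / κ.factorial) /
      Fintype.card (ι → α) = (∑ t ∈ T, pr (E t)) / κ.factorial := by
    rw [← Finset.sum_div, Finset.sum_comm, div_div, mul_comm, ← div_div, Finset.sum_div]
    congr 1
    apply Finset.sum_congr rfl
    intro t _
    rw [pr_eq (E t), ← Finset.sum_filter]
    simp
  rw [h4]
  have h5 : ∑ t ∈ T, pr (E t) ≤ (q * Y + κ * θ) ^ κ := by
    calc ∑ t ∈ T, pr (E t) ≤ ∑ t ∈ T, (∏ r, P (t r).1 (t r).2) *
          q ^ (univ.image (fun r => (t r).2)).card := by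
          apply Finset.sum_le_sum
          intro t ht
          obtain ⟨h6, h7⟩ := (Finset.mem_filter.1 ht).2
          exact hEN1 ι α V ρ mem en q κ t hq hpr h6 h7
      _ ≤ ∑ t : Fin κ → ι × V, (∏ r, P (t r).1 (t r).2) *
          q ^ (univ.image (fun r => (t r).2)).card := by
          apply Finset.sum_le_sum_of_subset_of_nonneg (Finset.subset_univ _)
          intro t _ _
          exact mul_nonneg (Finset.prod_nonneg fun r _ => pr_nonneg _) (pow_nonneg hq _)
      _ ≤ (q * Y + κ * θ) ^ κ :=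
          hEN2 ι V P q θ Y (fun i v => pr_nonneg _) hq hθ hY h1 h2 κ
  calc (∑ t ∈ T, pr (E t)) / κ.factorial ≤ (q * Y + κ * θ) ^ κ / κ.factorial :=
        div_le_div_of_nonneg_right h5 hfac.le
    _ ≤ (3 * (q * Y + κ * θ) / κ) ^ κ := ENB_factorial κ _ (by positivity) hκ

end Pool.Agent.Work.MP_833881_lp
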