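import Pool.Agent.Work.MP_833881_lp.Interface
import Pool.Agent.Work.MP_833881_lb.FIN

/-!
# Block FIN: the final assembly
-/

namespace Pool.Agent.Work.MP_833881_lp

open Finset Pool.Agent.Work.MP_833881_lc Pool.Agent.Work.MP_833881_lb
open scoped Classical

noncomputable section

theorem stmt_FIN (hDET : Stmt_DET) (hWLD : Stmt_WLD) (hNOK : Stmt_NOK) : Stmt_MAIN := by
  intro ε δ hε hδ
  obtain ⟨K0, hK0⟩ := exists_nat_gt (max (5 / ε) (4 / δ))
  let K : ℕ := max 6 K0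
  have hK6 : 6 ≤ K := le_max_left _ _
  have hKK : (K0 : ℝ) ≤ (K : ℝ) := by exact_mod_cast le_max_right 6 K0
  have hKpos : (0 : ℝ) < (K : ℝ) := by exact_mod_cast (by omega : 0 < K)
  have hKε : (K : ℝ)⁻¹ * ((5 : ℕ) : ℝ) ≤ ε := by
    have h1 : 5 / ε ≤ (K : ℝ) := (le_max_left _ _).trans (hK0.le.trans hKK)
    rw [div_le_iff₀ hε] at h1
    rw [inv_mul_le_iff₀ hKpos]
    push_cast
    exact h1
  have hKδ : (K : ℝ)⁻¹ * ((4 : ℕ) : ℝ) ≤ δ := by
    have h1 : 4 / δ ≤ (K : ℝ) := (le_max_right _ _).trans (hK0.le.trans hKK)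
    rw [div_le_iff₀ hδ] at h1
    rw [inv_mul_le_iff₀ hKpos]
    push_cast
    exact h1
  obtain ⟨a1, ha1⟩ := hWLD (2 * K)
  obtain ⟨a2, ha2⟩ := hNOK (2 * K)
  let B : ℕ := max (max a1 a2) 24
  have hB24 : 24 ≤ B := le_max_right _ _
  have hBa1 : a1 ≤ B := (le_max_left _ _).trans (le_max_left _ _)
  have hBa2 : a2 ≤ B := (le_max_right _ _).trans (le_max_left _ _)
  refine ⟨B ^ K, fun n hn π hπ hU => ?_⟩
  have hK0' : K ≠ 0 := by omega
  have hn1 : 1 ≤ n := le_trans (Nat.one_le_pow _ _ (by omega)) hn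
  have hnR : (1 : ℝ) ≤ (n : ℝ) := by exact_mod_cast hn1
  have hn0 : (0 : ℝ) < (n : ℝ) := by linarith
  let x : ℝ := (n : ℝ) ^ ((K : ℝ)⁻¹)
  have hx0 : 0 ≤ x := Real.rpow_nonneg hn0.le _
  have hxK : x ^ K = n := Real.rpow_inv_natCast_pow hn0.le hK0'
  let a : ℕ := ⌊x⌋₊
  have hax : (a : ℝ) ≤ x := Nat.floor_le hx0
  have hxa : x < (a : ℝ) + 1 := Nat.lt_floor_add_one x
  have hBx : (B : ℝ) ≤ x := by
    by_contra hcon
    push Not at hcon
    have h1 : x ^ K < (B : ℝ) ^ K := pow_lt_pow_left₀ hcon hx0 hK0'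
    rw [hxK] at h1
    have h2 : ((B ^ K : ℕ) : ℝ) ≤ (n : ℝ) := by exact_mod_cast hn
    push_cast at h2
    linarith
  have hBa : B ≤ a := Nat.le_floor hBx
  have ha24 : 24 ≤ a := hB24.trans hBa
  have haK : a ^ K ≤ n := by
    have h1 : (a : ℝ) ^ K ≤ x ^ K := pow_le_pow_left₀ (Nat.cast_nonneg _) hax K
    rw [hxK] at h1
    exact_mod_cast h1
  have ha6 : a ^ 6 ≤ n := (Nat.pow_le_pow_right (by omega) hK6).trans haK
  have hnaC : n ≤ a ^ (2 * K) := by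
    have h1 : x ^ K ≤ ((a : ℝ) + 1) ^ K := pow_le_pow_left₀ hx0 hxa.le K
    rw [hxK] at h1
    have h2 : n ≤ (a + 1) ^ K := by exact_mod_cast h1
    have h3 : a + 1 ≤ a ^ 2 := by nlinarith
    exact h2.trans (by rw [pow_mul]; exact Nat.pow_le_pow_left h3 K)
  by_contra hcon
  push Not at hcon
  have hx5 : x ^ 5 ≤ (n : ℝ) ^ ε := by
    change ((n : ℝ) ^ ((K : ℝ)⁻¹)) ^ 5 ≤ (n : ℝ) ^ ε
    rw [← Real.rpow_mul_natCast hn0.le]
    exact Real.rpow_le_rpow_of_exponent_le hnR hKε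
  have hx4 : x ^ 4 ≤ (n : ℝ) ^ δ := by
    change ((n : ℝ) ^ ((K : ℝ)⁻¹)) ^ 4 ≤ (n : ℝ) ^ δ
    rw [← Real.rpow_mul_natCast hn0.le]
    exact Real.rpow_le_rpow_of_exponent_le hnR hKδ
  have ha5 : ((a ^ 5 : ℕ) : ℝ) ≤ (n : ℝ) ^ ε := by
    push_cast
    exact (pow_le_pow_left₀ (Nat.cast_nonneg _) hax 5).trans hx5
  have hexp : Real.exp ((n : ℝ) ^ (1 - δ)) ≤ 2 ^ (n / a ^ 3) := by
    refine FIN_exp n a x _ (by omega) hax ha6 ?_
    refine (mul_le_mul_of_nonneg_left hx4 (Real.rpow_nonneg hn0.le _)).trans ?_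
    rw [← Real.rpow_add hn0]
    simp
  choose! U J hU1 hJ1 hU2 using hU
  let L : Finset (Line (Edge (n ^ 2) n)) := π.toFinset
  have hLc : L.card ≤ 2 ^ (n / a ^ 3) := by
    have h1 : L.card ≤ π.length := List.toFinset_card_le π
    have h2 : (π.length : ℝ) ≤ 2 ^ (n / a ^ 3) := hcon.le.trans hexp
    have h3 : π.length ≤ 2 ^ (n / a ^ 3) := by exact_mod_cast h2
    exact h1.trans h3
  have hone : ∀ k : ℕ, (k : ℝ) ≤ (n : ℝ) ^ (1 - ε) → k * a ^ 5 ≤ n := by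
    intro k hk
    have h2 : ((k * a ^ 5 : ℕ) : ℝ) ≤ (n : ℝ) := by
      rw [Nat.cast_mul]
      refine (mul_le_mul hk ha5 (Nat.cast_nonneg _) (Real.rpow_nonneg hn0.le _)).trans ?_
      rw [← Real.rpow_add hn0]
      have h3 : (1 : ℝ) - ε + ε = 1 := by ring
      rw [h3, Real.rpow_one]
    exact_mod_cast h2
  have hsp : Light L a U J := by
    refine ⟨fun D hD t ht => (hπ.dnf D (List.mem_toFinset.1 hD) t ht).2, fun D hD => ?_, fun D hD => ?_,
      fun D hD e he => ?_⟩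
    · have h1 := hU1 D (List.mem_toFinset.1 hD)
      have h2 : (((U D).card * a ^ 5 : ℕ) : ℝ) ≤ ((n ^ 2 : ℕ) : ℝ) := by
        rw [Nat.cast_mul]
        refine (mul_le_mul h1 ha5 (Nat.cast_nonneg _) (Real.rpow_nonneg hn0.le _)).trans ?_
        rw [← Real.rpow_add hn0]
        have h3 : (2 : ℝ) - ε + ε = ((2 : ℕ) : ℝ) := by
          push_cast
          ring
        rw [h3, Real.rpow_natCast]
        push_cast
        exact le_rfl
      exact_mod_cast h2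
    · exact hone _ (hJ1 D (List.mem_toFinset.1 hD))
    · apply hone
      have he1 : e ∉ U D := fun h => he (Finset.mem_union_left _ h)
      have he2 : e.2 ∉ J D := fun h =>
        he (Finset.mem_union_right _ (Finset.mem_filter.2 ⟨Finset.mem_univ _, h⟩))
      refine le_trans ?_ (hU2 D (List.mem_toFinset.1 hD) e he1 he2)
      have h1 : (univ.filter (fun f => f ∉ XX (U D) (J D) ∧ PP D e f)) ⊆
          (univ.filter (fun y : Fin (n ^ 2) × Fin n => y ∉ U D ∧ y.2 ∉ J D ∧ e.1 ≠ y.1 ∧ e.2 ≠ y.2 ∧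
          ({(e, true), (y, true)} : Finset ((Fin (n ^ 2) × Fin n) × Bool)) ∈ D)) := by
        intro f hf
        obtain ⟨-, h2, h3, h4, h5⟩ := Finset.mem_filter.1 hf
        refine Finset.mem_filter.2 ⟨Finset.mem_univ _, fun h => h2 (Finset.mem_union_left _ h), fun h =>
          h2 (Finset.mem_union_right _ (Finset.mem_filter.2 ⟨Finset.mem_univ _, h⟩)), h3, h4, h5⟩
      exact_mod_cast Finset.card_le_card h1
  obtain ⟨E0, E1, hW⟩ := ha1 a n L U J ⟨by omega, hBa1.trans hBa, ha6, hnaC⟩ hLc hsp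
  exact hDET (n ^ 2) n (prm (2 * K) a n) L (fun D => XX (U D) (J D)) E0 E1 hW
    (ha2 a n ⟨by omega, hBa2.trans hBa, ha6, hnaC⟩) π hπ (fun D hD => List.mem_toFinset.2 hD)

end

end Pool.Agent.Work.MP_833881_lp
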