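import Pool.Agent.Work.MP_833881_lp.Interface

/-!
# Block GAME: the truth game
-/

namespace Pool.Agent.Work.MP_833881_lp

open Finset Pool.Agent.Work.MP_833881_lc Pool.Agent.Work.MP_833881_lb
open scoped Classical

noncomputable section

namespace GAME

variable {m n : ℕ} {E0 E1 M M' : Finset (Edge m n)} {D A B : Line (Edge m n)} {k k' K : ℕ}

theorem isM_sub (h : M ⊆ M') (hM' : IsM E0 E1 M') (h0 : E0 ⊆ M) : IsM E0 E1 M :=
  ⟨h.trans hM'.sub, h0, fun e he f hf => hM'.mat e (h he) f (h hf)⟩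

theorem mono : ∀ (k : ℕ) (M M' : Finset (Edge m n)), M ⊆ M' → IsM E0 E1 M' → E0 ⊆ M →
    Tr E0 E1 D k M → Tr E0 E1 D k M' := by
  intro k
  induction k with
  | zero => intro M M' h _ _ h1; exact satD_mono h h1
  | succ k ih =>
    intro M M' h hM' h0 h1
    rcases h1 with h1 | ⟨i, h1⟩ | ⟨j, h1⟩
    · exact Or.inl (satD_mono h h1)
    · refine Or.inr (Or.inl ⟨i, fun e he hM2 => ?_⟩)
      have hs : insert e M ⊆ insert e M' := Finset.insert_subset_insert e h
      have h0' : E0 ⊆ insert e M := h0.trans (Finset.subset_insert _ _)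
      exact ih _ _ hs hM2 h0' (h1 e he (isM_sub hs hM2 h0'))
    · refine Or.inr (Or.inr ⟨j, fun e he hM2 => ?_⟩)
      have hs : insert e M ⊆ insert e M' := Finset.insert_subset_insert e h
      have h0' : E0 ⊆ insert e M := h0.trans (Finset.subset_insert _ _)
      exact ih _ _ hs hM2 h0' (h1 e he (isM_sub hs hM2 h0'))

theorem tr_succ : ∀ (k : ℕ) (M : Finset (Edge m n)), Tr E0 E1 D k M → Tr E0 E1 D (k + 1) M := by
  intro k
  induction k with
  | zero => intro M h; exact Or.inl h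
  | succ k ih =>
    intro M h
    rcases h with h1 | ⟨i, h1⟩ | ⟨j, h1⟩
    · exact Or.inl h1
    · exact Or.inr (Or.inl ⟨i, fun e he hM => ih _ (h1 e he hM)⟩)
    · exact Or.inr (Or.inr ⟨j, fun e he hM => ih _ (h1 e he hM)⟩)

theorem tr_le (h : k ≤ k') (h1 : Tr E0 E1 D k M) : Tr E0 E1 D k' M := by
  induction h with
  | refl => exact h1
  | step _ ih => exact tr_succ _ _ ih

theorem gp_insert (hG : GP E0 E1 D K M) (hc : (M \ E0).card < K) {e : Edge m n}
    (he : IsM E0 E1 (insert e M)) (ht : ¬ Tr E0 E1 D (K - (M \ E0).card - 1) (insert e M)) :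
    GP E0 E1 D K (insert e M) ∧ (insert e M \ E0).card ≤ (M \ E0).card + 1 := by
  by_cases heM : e ∈ M
  · rw [Finset.insert_eq_of_mem heM]
    exact ⟨hG, Nat.le_succ _⟩
  · have h0 : e ∉ E0 := fun h => heM (hG.1.sup h)
    have h1 : (insert e M \ E0).card = (M \ E0).card + 1 := by
      rw [Finset.insert_sdiff_of_notMem _ h0, Finset.card_insert_of_notMem]
      exact fun h => heM (Finset.mem_sdiff.1 h).1
    refine ⟨⟨he, by omega, ?_⟩, by omega⟩
    rwa [h1, ← Nat.sub_sub]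

theorem pigeon (hG : GP E0 E1 D K M) (hc : (M \ E0).card < K) (i : Fin m) :
    ∃ e : Edge m n, e.1 = i ∧ GP E0 E1 D K (insert e M) ∧ (insert e M \ E0).card ≤ (M \ E0).card + 1 := by
  have h1 := hG.2.2
  obtain ⟨q, hq⟩ : ∃ q, K - (M \ E0).card = q + 1 := ⟨K - (M \ E0).card - 1, by omega⟩
  rw [hq] at h1
  by_contra hcon
  push Not at hcon
  refine h1 (Or.inr (Or.inl ⟨i, fun e he hM => ?_⟩))
  by_contra h2
  have h3 := gp_insert hG hc hM (by rw [hq]; exact h2)
  exact absurd h3.2 (not_le.2 (hcon e he h3.1))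

theorem hole (hG : GP E0 E1 D K M) (hc : (M \ E0).card < K) (j : Fin n) :
    ∃ e : Edge m n, e.2 = j ∧ GP E0 E1 D K (insert e M) ∧ (insert e M \ E0).card ≤ (M \ E0).card + 1 := by
  have h1 := hG.2.2
  obtain ⟨q, hq⟩ : ∃ q, K - (M \ E0).card = q + 1 := ⟨K - (M \ E0).card - 1, by omega⟩
  rw [hq] at h1
  by_contra hcon
  push Not at hcon
  refine h1 (Or.inr (Or.inr ⟨j, fun e he hM => ?_⟩))
  by_contra h2
  have h3 := gp_insert hG hc hM (by rw [hq]; exact h2)
  exact absurd h3.2 (not_le.2 (hcon e he h3.1))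

theorem cov_pigeons (hG : GP E0 E1 D K M) (KP : Finset (Fin m)) (hc : (M \ E0).card + KP.card ≤ K) :
    ∃ M', GP E0 E1 D K M' ∧ M ⊆ M' ∧ Cov M' KP ∅ ∧ (M' \ E0).card ≤ (M \ E0).card + KP.card := by
  induction KP using Finset.induction_on with
  | empty => exact ⟨M, hG, subset_rfl, ⟨by simp, by simp⟩, by simp⟩
  | insert i KP hi ih =>
    rw [Finset.card_insert_of_notMem hi] at hc
    obtain ⟨M1, h1, h2, h3, h4⟩ := ih (by omega)
    obtain ⟨e, he, h5, h6⟩ := pigeon h1 (by omega) i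
    refine ⟨insert e M1, h5, h2.trans (Finset.subset_insert _ _), ⟨?_, by simp⟩, ?_⟩
    · intro x hx
      rcases Finset.mem_insert.1 hx with rfl | hx
      · exact ⟨e, Finset.mem_insert_self _ _, he⟩
      · obtain ⟨f, hf, hf2⟩ := h3.1 x hx
        exact ⟨f, Finset.mem_insert_of_mem hf, hf2⟩
    · rw [Finset.card_insert_of_notMem hi]
      omega

theorem cov_all (hG : GP E0 E1 D K M) (KP : Finset (Fin m)) (KH : Finset (Fin n))
    (hc : (M \ E0).card + KP.card + KH.card ≤ K) :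
    ∃ M', GP E0 E1 D K M' ∧ M ⊆ M' ∧ Cov M' KP KH ∧ (M' \ E0).card ≤ (M \ E0).card + KP.card + KH.card := by
  induction KH using Finset.induction_on with
  | empty => exact cov_pigeons hG KP hc
  | insert j KH hj ih =>
    rw [Finset.card_insert_of_notMem hj] at hc
    obtain ⟨M1, h1, h2, h3, h4⟩ := ih (by omega)
    obtain ⟨e, he, h5, h6⟩ := hole h1 (by omega) j
    refine ⟨insert e M1, h5, h2.trans (Finset.subset_insert _ _), ⟨?_, ?_⟩, ?_⟩
    · intro x hx
      obtain ⟨f, hf, hf2⟩ := h3.1 x hx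
      exact ⟨f, Finset.mem_insert_of_mem hf, hf2⟩
    · intro x hx
      rcases Finset.mem_insert.1 hx with rfl | hx
      · exact ⟨e, Finset.mem_insert_self _ _, he⟩
      · obtain ⟨f, hf, hf2⟩ := h3.2 x hx
        exact ⟨f, Finset.mem_insert_of_mem hf, hf2⟩
    · rw [Finset.card_insert_of_notMem hj]
      omega

/-- Composition of strategies. -/
theorem comp (k' : ℕ) : ∀ (k : ℕ) (M : Finset (Edge m n)), IsM E0 E1 M → Tr E0 E1 A k M →
    (∀ M', IsM E0 E1 M' → M ⊆ M' → satD (E0 ∪ E1) M' A → Tr E0 E1 D k' M') → Tr E0 E1 D (k + k') M := by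
  intro k
  induction k with
  | zero => intro M hM h h1; rw [Nat.zero_add]; exact h1 M hM subset_rfl h
  | succ k ih =>
    intro M hM h h1
    have e1 : k + 1 + k' = (k + k') + 1 := by omega
    rcases h with h | ⟨i, h⟩ | ⟨j, h⟩
    · exact tr_le (Nat.le_add_left _ _) (h1 M hM subset_rfl h)
    · rw [e1]
      refine Or.inr (Or.inl ⟨i, fun e he hM' => ih _ hM' (h e he hM') fun M2 hM2 hs hsat => ?_⟩)
      exact h1 M2 hM2 ((Finset.subset_insert _ _).trans hs) hsat
    · rw [e1]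
      refine Or.inr (Or.inr ⟨j, fun e he hM' => ih _ hM' (h e he hM') fun M2 hM2 hs hsat => ?_⟩)
      exact h1 M2 hM2 ((Finset.subset_insert _ _).trans hs) hsat

theorem tr_two (hM : IsM E0 E1 E0) (h1 : Tr E0 E1 A K E0) (h2 : Tr E0 E1 B K E0)
    (hs : ∀ M, IsM E0 E1 M → satD (E0 ∪ E1) M A → satD (E0 ∪ E1) M B → satD (E0 ∪ E1) M D) :
    Tr E0 E1 D (2 * K) E0 := by
  rw [two_mul]
  refine comp K K E0 hM h1 fun M' hM' hsub hA => ?_
  have := comp (D := D) 0 K M' hM' (mono K E0 M' hsub hM' subset_rfl h2) fun M2 hM2 hsub2 hB =>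
    hs M2 hM2 (satD_mono hsub2 hA) hB
  rwa [Nat.add_zero] at this

theorem tr_axiom (hM : IsM E0 E1 E0) (hD : D ∈ ontoFPHP m n) : Tr E0 E1 D 1 E0 := by
  obtain ⟨KP, KH, h1, h2⟩ := wit_axiom (E0 := E0) (E1 := E1) hD ∅
  rcases KP.eq_empty_or_nonempty with rfl | ⟨i, hi⟩
  · rcases KH.eq_empty_or_nonempty with rfl | ⟨j, hj⟩
    · exact Or.inl (h2 E0 hM (Finset.empty_subset _) ⟨by simp, by simp⟩)
    · refine Or.inr (Or.inr ⟨j, fun e he hM' => ?_⟩)
      refine h2 _ hM' (Finset.empty_subset _) ⟨by simp, fun x hx => ⟨e, Finset.mem_insert_self _ _, ?_⟩⟩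
      rw [he]
      exact Finset.card_le_one.1 (by omega) j hj x hx
  · have hpos : 0 < KP.card := Finset.card_pos.2 ⟨i, hi⟩
    have hKH : KH = ∅ := Finset.card_eq_zero.1 (by omega)
    subst hKH
    refine Or.inr (Or.inl ⟨i, fun e he hM' => ?_⟩)
    refine h2 _ hM' (Finset.empty_subset _) ⟨fun x hx => ⟨e, Finset.mem_insert_self _ _, ?_⟩, by simp⟩
    rw [he]
    exact Finset.card_le_one.1 (by omega) i hi x hx

theorem all_tr (hM : IsM E0 E1 E0) (hK : 1 ≤ K) {π : List (Line (Edge m n))}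
    (hπ : IsRefutation 2 (ontoFPHP m n) π)
    (hLF : ∀ D ∈ π, Tr E0 E1 D (2 * K) E0 → Tr E0 E1 D K E0) : ∀ D ∈ π, Tr E0 E1 D K E0 := by
  have key : ∀ (k : ℕ) (pre : List (Line (Edge m n))) (D : Line (Edge m n)) (suf : List (Line (Edge m n))),
      pre.length = k → π = pre ++ D :: suf → Tr E0 E1 D K E0 := by
    intro k
    induction k using Nat.strong_induction_on with
    | _ k ih =>
      intro pre D suf hk hsplit
      have hDπ : D ∈ π := by rw [hsplit]; simp
      have hpre : ∀ E ∈ pre, Tr E0 E1 E K E0 := by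
        intro E hE
        obtain ⟨p, q, hpq⟩ := List.append_of_mem hE
        refine ih p.length ?_ p E (q ++ D :: suf) rfl ?_
        · rw [← hk, hpq]; simp
        · rw [hsplit, hpq]; simp
      have hinf := hπ.step pre D suf hsplit
      cases hinf with
      | ax h => exact tr_le hK (tr_axiom hM h)
      | @weak A D h1 h2 =>
        have := comp (D := D) 0 K E0 hM (hpre A h1) fun M2 hM2 hsub2 hB => sound_weak h2 hB
        rwa [Nat.add_zero] at this
      | @andI C C' s t h1 h2 =>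
        exact hLF _ hDπ (tr_two hM (hpre _ h1) (hpre _ h2) fun M _ h h' => sound_and h h')
      | @cut C C' t h1 h2 =>
        exact hLF _ hDπ (tr_two hM (hpre _ h1) (hpre _ h2) fun M hM h h' => sound_cut hM h h')
  intro D hD
  obtain ⟨p, q, hpq⟩ := List.append_of_mem hD
  exact key p.length p D q rfl hpq

end GAME

theorem stmt_GAME : Stmt_GAME := by
  refine ⟨?_, ?_, ?_, ?_⟩
  · intro m n E0 E1 M M' D k h1 h2 h3 h4
    exact GAME.mono k M M' h1 h2 h3 h4
  · intro m n E0 E1 M D k k' h h1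
    exact GAME.tr_le h h1
  · intro m n E0 E1 M D K KP KH h h1
    exact GAME.cov_all h KP KH h1
  · intro m n E0 E1 K π hM hK hπ h
    exact GAME.all_tr hM hK hπ h ∅ hπ.bot

end

end Pool.Agent.Work.MP_833881_lp
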