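import Pool.Agent.Work.MP_833881_lp.Interface

/-!
# Block HALL: with good edges only, the adversary survives `k` queries
-/

namespace Pool.Agent.Work.MP_833881_lp

open Finset Pool.Agent.Work.MP_833881_lc Pool.Agent.Work.MP_833881_lb
open scoped Classical

noncomputable section

namespace HALL

variable {m n : ℕ} {E0 E1 : Finset (Edge m n)}

/-- closure under pigeons with many holes in the neighbourhood -/
theorem clos {c S p : ℕ} (hsep : ∀ e ∈ E0, ∀ f ∈ E1, e.1 ≠ f.1 ∧ e.2 ≠ f.2)
    (hexp : ∀ A : Finset (Fin m), A.card ≤ S →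
      ∑ i ∈ A, (opts E1 i).card ≤ (A.biUnion (opts E1)).card + c * A.card)
    (I0 : Finset (Fin m)) (h0 : ∀ x ∈ I0, x ∉ E0.image Prod.fst) (hc : I0.card ≤ S)
    (hQ : (I0.biUnion (opts E1)).card + (2 * c + 1) * I0.card ≤
      ∑ i ∈ I0, (opts E1 i).card + (2 * c + 1) * p) (hS : 2 * p + 1 ≤ S) :
    ∃ I : Finset (Fin m), I0 ⊆ I ∧ (∀ x ∈ I, x ∉ E0.image Prod.fst) ∧ I.card ≤ 2 * p ∧
      ((I.biUnion (opts E1)).card + (2 * c + 1) * I.card ≤
        ∑ i ∈ I, (opts E1 i).card + (2 * c + 1) * p) ∧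
      ∀ i, i ∉ I → (opts E1 i ∩ I.biUnion (opts E1)).card ≤ 2 * c := by
  let Q : Finset (Fin m) → Prop := fun J => I0 ⊆ J ∧ (∀ x ∈ J, x ∉ E0.image Prod.fst) ∧ J.card ≤ S ∧
    (J.biUnion (opts E1)).card + (2 * c + 1) * J.card ≤ ∑ i ∈ J, (opts E1 i).card + (2 * c + 1) * p
  obtain ⟨I, hI, hmax⟩ := Finset.exists_max_image (univ.filter Q) Finset.card
    ⟨I0, Finset.mem_filter.2 ⟨Finset.mem_univ _, subset_rfl, h0, hc, hQ⟩⟩
  obtain ⟨hI1, hI2, hI3, hI4⟩ := (Finset.mem_filter.1 hI).2
  have hcard : I.card ≤ 2 * p := by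
    have h1 := hexp I hI3
    have h2 : (c + 1) * I.card ≤ (c + 1) * (2 * p) := by nlinarith
    exact Nat.le_of_mul_le_mul_left h2 (by omega)
  refine ⟨I, hI1, hI2, hcard, hI4, ?_⟩
  intro i hi
  by_cases hiE : i ∈ E0.image Prod.fst
  · have : opts E1 i = ∅ := by
      rw [Finset.eq_empty_iff_forall_notMem]
      intro j hj
      obtain ⟨e, he, he2⟩ := Finset.mem_image.1 hiE
      exact (hsep e he _ (mem_opts.1 hj)).1 he2
    simp [this]
  · by_contra hcon
    have hcon' : 2 * c + 1 ≤ (opts E1 i ∩ I.biUnion (opts E1)).card := by omega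
    have hQ' : Q (insert i I) := by
      refine ⟨hI1.trans (Finset.subset_insert _ _), ?_, ?_, ?_⟩
      · intro x hx
        rcases Finset.mem_insert.1 hx with rfl | hx
        · exact hiE
        · exact hI2 x hx
      · rw [Finset.card_insert_of_notMem hi]
        omega
      · rw [Finset.card_insert_of_notMem hi, Finset.sum_insert hi, Finset.biUnion_insert]
        have h1 := Finset.card_union_add_card_inter (opts E1 i) (I.biUnion (opts E1))
        nlinarith
    have h1 := hmax (insert i I) (Finset.mem_filter.2 ⟨Finset.mem_univ _, hQ'⟩)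
    rw [Finset.card_insert_of_notMem hi] at h1
    omega

/-- The invariant. -/
structure Inv (E0 E1 M0 P : Finset (Edge m n)) (c p : ℕ) (M : Finset (Edge m n)) : Prop where
  mat : IsM E0 E1 M
  sub : M0 ⊆ M
  new : ∀ e ∈ M, e ∉ M0 → e ∈ E1 ∧ e ∉ P
  ineq : (((M \ E0).image Prod.fst).biUnion (opts E1)).card + (2 * c + 1) * ((M \ E0).image Prod.fst).card ≤
    ∑ i ∈ (M \ E0).image Prod.fst, (opts E1 i).card + (2 * c + 1) * p
  card : ((M \ E0).image Prod.fst).card ≤ 2 * p
  clo : ∀ i, i ∉ (M \ E0).image Prod.fst →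
    (opts E1 i ∩ ((M \ E0).image Prod.fst).biUnion (opts E1)).card ≤ 2 * c

/-- cover a closed set of pigeons -/
theorem cover {M0 P : Finset (Edge m n)} {c S p : ℕ}
    (hsep : ∀ e ∈ E0, ∀ f ∈ E1, e.1 ≠ f.1 ∧ e.2 ≠ f.2)
    (hexp : ∀ A : Finset (Fin m), A.card ≤ S →
      ∑ i ∈ A, (opts E1 i).card ≤ (A.biUnion (opts E1)).card + c * A.card)
    {M : Finset (Edge m n)} {FH : Finset (Fin n)} (hM : IsM E0 E1 M) (hsub : M0 ⊆ M)
    (hnew : ∀ e ∈ M, e ∉ M0 → e ∈ E1 ∧ e ∉ P)
    (I0 : Finset (Fin m)) (hI0 : (M \ E0).image Prod.fst ⊆ I0)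
    (h0 : ∀ x ∈ I0, x ∉ E0.image Prod.fst) (hc : I0.card ≤ S)
    (hQ : (I0.biUnion (opts E1)).card + (2 * c + 1) * I0.card ≤
      ∑ i ∈ I0, (opts E1 i).card + (2 * c + 1) * p) (hS : 2 * p + 1 ≤ S)
    (hFH : ∀ e ∈ M, e ∈ E0 ∨ e.2 ∈ FH)
    (hP : ∀ i, (∃ e ∈ M, e.1 = i) ∨ c + 1 ≤ ((opts E1 i).filter (fun j => (i, j) ∉ P ∧ j ∉ FH)).card) :
    ∃ M', M ⊆ M' ∧ Inv E0 E1 M0 P c p M' ∧ ∀ i ∈ I0, ∃ e ∈ M', e.1 = i := by
  obtain ⟨I, hI1, hI2, hI3, hI4, hI5⟩ := clos hsep hexp I0 h0 hc hQ hS
  obtain ⟨N, hN1, hN2, hN3, hN4, hN5⟩ := cover_pigeons (P := P) hM hsep hexp hFH I (by omega)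
    (fun i _ => hP i)
  set M' := M ∪ N.filter (fun e => e.1 ∈ I) with hM'
  have hs1 : M ⊆ M' := Finset.subset_union_left
  have hs2 : M' ⊆ M ∪ N := Finset.union_subset_union subset_rfl (Finset.filter_subset _ _)
  have hcov : ∀ i ∈ I, ∃ e ∈ M', e.1 = i := by
    intro i hi
    obtain ⟨e, he, he2⟩ := hN5 i hi
    refine ⟨e, ?_, he2⟩
    rcases Finset.mem_union.1 he with h | h
    · exact Finset.mem_union_left _ h
    · exact Finset.mem_union_right _ (Finset.mem_filter.2 ⟨h, by rw [he2]; exact hi⟩)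
  have himg : (M' \ E0).image Prod.fst = I := by
    ext i
    constructor
    · intro hi
      obtain ⟨e, he, rfl⟩ := Finset.mem_image.1 hi
      obtain ⟨he1, he2⟩ := Finset.mem_sdiff.1 he
      rcases Finset.mem_union.1 he1 with h | h
      · exact hI1 (hI0 (Finset.mem_image.2 ⟨e, Finset.mem_sdiff.2 ⟨h, he2⟩, rfl⟩))
      · exact (Finset.mem_filter.1 h).2
    · intro hi
      obtain ⟨e, he, he2⟩ := hcov i hi
      refine Finset.mem_image.2 ⟨e, Finset.mem_sdiff.2 ⟨he, fun h => hI2 i hi ?_⟩, he2⟩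
      exact Finset.mem_image.2 ⟨e, h, he2⟩
  refine ⟨M', hs1, ⟨?_, hsub.trans hs1, ?_, ?_, ?_, ?_⟩, fun i hi => hcov i (hI1 hi)⟩
  · exact ⟨hs2.trans hN4.sub, hM.sup.trans hs1, fun e he f hf => hN4.mat e (hs2 he) f (hs2 hf)⟩
  · intro e he he0
    rcases Finset.mem_union.1 he with h | h
    · exact hnew e h he0
    · have h' := (Finset.mem_filter.1 h).1
      exact ⟨hN1 h', hN3 e h'⟩
  · rw [himg]; exact hI4
  · rw [himg]; exact hI3
  · rw [himg]; exact hI5

theorem main {M0 P : Finset (Edge m n)} {D : Line (Edge m n)} {c S T : ℕ}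
    (hG : ∀ (E0 E1 M M' : Finset (Edge m n)) (D : Line (Edge m n)) (k : ℕ), M ⊆ M' → IsM E0 E1 M' →
      E0 ⊆ M → Tr E0 E1 D k M → Tr E0 E1 D k M')
    (hsep : ∀ e ∈ E0, ∀ f ∈ E1, e.1 ≠ f.1 ∧ e.2 ≠ f.2)
    (hexp : ∀ A : Finset (Fin m), A.card ≤ S →
      ∑ i ∈ A, (opts E1 i).card ≤ (A.biUnion (opts E1)).card + c * A.card)
    (hP : ∀ i, (∀ e ∈ M0, e.1 ≠ i) →
      3 * c + 2 ≤ ((opts E1 i).filter (fun j => (i, j) ∉ P ∧ ∀ e ∈ M0, e.2 ≠ j)).card)
    (hH : ∀ j, (∀ e ∈ M0, e.2 ≠ j) → T ≤ (E1.filter (fun e => e.2 = j ∧ e ∉ P)).card)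
    (hleaf : ∀ M, IsM E0 E1 M → M0 ⊆ M → (∀ e ∈ M, e ∉ M0 → e ∈ E1 ∧ e ∉ P) → ¬ satD (E0 ∪ E1) M D) :
    ∀ (k p : ℕ) (M : Finset (Edge m n)), Inv E0 E1 M0 P c p M → 2 * p + 2 * k + 1 ≤ S →
      2 * p + 2 * k + 1 ≤ T → ¬ Tr E0 E1 D k M := by
  intro k
  induction k with
  | zero => intro p M hI _ _ h; exact hleaf M hI.mat hI.sub hI.new h
  | succ k ih =>
    intro p M hI hS hT h
    have hIE0 : ∀ x ∈ (M \ E0).image Prod.fst, x ∉ E0.image Prod.fst := by
      intro x hx hx2
      obtain ⟨e, he, he2⟩ := Finset.mem_image.1 hx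
      obtain ⟨f, hf, hf2⟩ := Finset.mem_image.1 hx2
      obtain ⟨he3, he4⟩ := Finset.mem_sdiff.1 he
      have := hI.mat.mat e he3 f (hI.mat.sup hf) (Or.inl (he2.trans hf2.symm))
      exact he4 (this ▸ hf)
    have hunc : ∀ i, (∀ e ∈ M, e.1 ≠ i) → i ∉ (M \ E0).image Prod.fst ∧ i ∉ E0.image Prod.fst := by
      intro i hi
      refine ⟨fun h => ?_, fun h => ?_⟩
      · obtain ⟨e, he, he2⟩ := Finset.mem_image.1 h
        exact hi e (Finset.mem_sdiff.1 he).1 he2
      · obtain ⟨e, he, he2⟩ := Finset.mem_image.1 h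
        exact hi e (hI.mat.sup he) he2
    have hFH0 : ∀ e ∈ M, e ∈ E0 ∨ e.2 ∈ ((M \ E0).image Prod.fst).biUnion (opts E1) := by
      intro e he
      by_cases h0 : e ∈ E0
      · exact Or.inl h0
      · refine Or.inr (Finset.mem_biUnion.2 ⟨e.1, Finset.mem_image.2 ⟨e, Finset.mem_sdiff.2 ⟨he, h0⟩, rfl⟩, ?_⟩)
        rw [mem_opts]
        exact (Finset.mem_union.1 (hI.mat.sub he)).resolve_left h0
    have hins : ∀ i, i ∉ (M \ E0).image Prod.fst →
        ((insert i ((M \ E0).image Prod.fst)).biUnion (opts E1)).card +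
          (2 * c + 1) * (insert i ((M \ E0).image Prod.fst)).card ≤
        ∑ x ∈ insert i ((M \ E0).image Prod.fst), (opts E1 x).card + (2 * c + 1) * (p + 1) := by
      intro i hi
      rw [Finset.card_insert_of_notMem hi, Finset.sum_insert hi, Finset.biUnion_insert]
      have h1 := Finset.card_union_le (opts E1 i) (((M \ E0).image Prod.fst).biUnion (opts E1))
      have h2 := hI.ineq
      nlinarith
    -- the number of good options outside the used holes
    have hopt : ∀ (i : Fin m) (J : Finset (Fin n)), (∀ e ∈ M, e.1 ≠ i) → J.card ≤ 1 →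
        c + 1 ≤ ((opts E1 i).filter (fun j => (i, j) ∉ P ∧
          j ∉ ((M \ E0).image Prod.fst).biUnion (opts E1) ∪ J)).card := by
      intro i J hi hJ
      have h1 := hP i (fun e he => hi e (hI.sub he))
      have h2 := hI.clo i (hunc i hi).1
      have h3 : (opts E1 i).filter (fun j => (i, j) ∉ P ∧ ∀ e ∈ M0, e.2 ≠ j) ⊆
          ((opts E1 i).filter (fun j => (i, j) ∉ P ∧
            j ∉ ((M \ E0).image Prod.fst).biUnion (opts E1) ∪ J)) ∪
          ((opts E1 i ∩ ((M \ E0).image Prod.fst).biUnion (opts E1)) ∪ J) := by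
        intro j hj
        obtain ⟨hj1, hj2, _⟩ := Finset.mem_filter.1 hj
        by_cases h4 : j ∈ ((M \ E0).image Prod.fst).biUnion (opts E1)
        · exact Finset.mem_union_right _ (Finset.mem_union_left _ (Finset.mem_inter.2 ⟨hj1, h4⟩))
        · by_cases h5 : j ∈ J
          · exact Finset.mem_union_right _ (Finset.mem_union_right _ h5)
          · refine Finset.mem_union_left _ (Finset.mem_filter.2 ⟨hj1, hj2, fun h6 => ?_⟩)
            rcases Finset.mem_union.1 h6 with h6 | h6
            · exact h4 h6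
            · exact h5 h6
      have h4 := Finset.card_le_card h3
      have h5 := Finset.card_union_le ((opts E1 i).filter (fun j => (i, j) ∉ P ∧
            j ∉ ((M \ E0).image Prod.fst).biUnion (opts E1) ∪ J))
          ((opts E1 i ∩ ((M \ E0).image Prod.fst).biUnion (opts E1)) ∪ J)
      have h6 := Finset.card_union_le (opts E1 i ∩ ((M \ E0).image Prod.fst).biUnion (opts E1)) J
      omega
    -- covered: nothing changes
    have hcovered : ∀ e ∈ M, Tr E0 E1 D k (insert e M) → False := by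
      intro e he htr
      rw [Finset.insert_eq_of_mem he] at htr
      exact ih p M hI (by omega) (by omega) htr
    rcases h with h | ⟨i, h⟩ | ⟨j, h⟩
    · exact hleaf M hI.mat hI.sub hI.new h
    · by_cases hi : ∃ e ∈ M, e.1 = i
      · obtain ⟨e, he, he2⟩ := hi
        exact hcovered e he (h e he2 (by rw [Finset.insert_eq_of_mem he]; exact hI.mat))
      · push Not at hi
        obtain ⟨hi1, hi2⟩ := hunc i hi
        obtain ⟨M', h1, h2, h3⟩ := cover (M0 := M0) (P := P) (p := p + 1) hsep hexp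
          (FH := ((M \ E0).image Prod.fst).biUnion (opts E1) ∪ ∅) hI.mat hI.sub hI.new
          (insert i ((M \ E0).image Prod.fst)) (Finset.subset_insert _ _) (by
            intro x hx
            rcases Finset.mem_insert.1 hx with rfl | hx
            · exact hi2
            · exact hIE0 x hx) (by
            rw [Finset.card_insert_of_notMem hi1]
            have := hI.card
            omega) (hins i hi1) (by omega) (by simpa using hFH0) (by
            intro x
            by_cases hx : ∃ e ∈ M, e.1 = x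
            · exact Or.inl hx
            · push Not at hx
              exact Or.inr (hopt x ∅ hx (by simp)))
        obtain ⟨e, he, he2⟩ := h3 i (Finset.mem_insert_self _ _)
        have hs : insert e M ⊆ M' := Finset.insert_subset he h1
        have hM1 : IsM E0 E1 (insert e M) :=
          ⟨hs.trans h2.mat.sub, hI.mat.sup.trans (Finset.subset_insert _ _),
            fun a ha b hb => h2.mat.mat a (hs ha) b (hs hb)⟩
        exact ih (p + 1) M' h2 (by omega) (by omega)
          (hG E0 E1 _ M' D k hs h2.mat hM1.sup (h e he2 hM1))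
    · by_cases hj : ∃ e ∈ M, e.2 = j
      · obtain ⟨e, he, he2⟩ := hj
        exact hcovered e he (h e he2 (by rw [Finset.insert_eq_of_mem he]; exact hI.mat))
      · push Not at hj
        have h1 := hH j (fun e he => hj e (hI.sub he))
        have h2 : ∃ e ∈ E1.filter (fun e => e.2 = j ∧ e ∉ P), e.1 ∉ (M \ E0).image Prod.fst := by
          by_contra hcon
          push Not at hcon
          have h3 : (E1.filter (fun e => e.2 = j ∧ e ∉ P)).card ≤ ((M \ E0).image Prod.fst).card := by
            refine Finset.card_le_card_of_injOn Prod.fst (fun e he => hcon e he) ?_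
            intro e he f hf hef
            have he' := (Finset.mem_filter.1 he).2.1
            have hf' := (Finset.mem_filter.1 hf).2.1
            exact Prod.ext hef (he'.trans hf'.symm)
          have := hI.card
          omega
        obtain ⟨e, he, he2⟩ := h2
        obtain ⟨he3, he4, he5⟩ := Finset.mem_filter.1 he
        have he6 : e.1 ∉ E0.image Prod.fst := by
          intro h3
          obtain ⟨f, hf, hf2⟩ := Finset.mem_image.1 h3
          exact (hsep f hf e he3).1 hf2
        have he7 : ∀ f ∈ M, f.1 ≠ e.1 := by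
          intro f hf hfe
          by_cases h0 : f ∈ E0
          · exact he6 (Finset.mem_image.2 ⟨f, h0, hfe⟩)
          · exact he2 (Finset.mem_image.2 ⟨f, Finset.mem_sdiff.2 ⟨hf, h0⟩, hfe⟩)
        have heM : e ∉ M := fun h3 => he7 e h3 rfl
        have he0 : e ∉ E0 := fun h3 => heM (hI.mat.sup h3)
        have hM1 : IsM E0 E1 (insert e M) := by
          have h3 := hI.mat.union (N := {e}) (Finset.singleton_subset_iff.2 he3)
            (by
              intro a ha b hb _
              rw [Finset.mem_singleton.1 ha, Finset.mem_singleton.1 hb])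
            (by
              intro a ha b hb
              rw [Finset.mem_singleton.1 hb]
              exact ⟨he7 a ha, by rw [he4]; exact hj a ha⟩)
          rwa [Finset.union_comm, ← Finset.insert_eq] at h3
        have himg : (insert e M \ E0).image Prod.fst ⊆ insert e.1 ((M \ E0).image Prod.fst) := by
          rw [Finset.insert_sdiff_of_notMem _ he0, Finset.image_insert]
        obtain ⟨M', h4, h5, h6⟩ := cover (M0 := M0) (P := P) (p := p + 1) hsep hexp
          (FH := ((M \ E0).image Prod.fst).biUnion (opts E1) ∪ {j}) hM1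
          (hI.sub.trans (Finset.subset_insert _ _)) (by
            intro a ha ha0
            rcases Finset.mem_insert.1 ha with rfl | ha
            · exact ⟨he3, he5⟩
            · exact hI.new a ha ha0)
          (insert e.1 ((M \ E0).image Prod.fst)) himg (by
            intro x hx
            rcases Finset.mem_insert.1 hx with rfl | hx
            · exact he6
            · exact hIE0 x hx) (by
            rw [Finset.card_insert_of_notMem he2]
            have := hI.card
            omega) (hins e.1 he2) (by omega) (by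
            intro a ha
            rcases Finset.mem_insert.1 ha with rfl | ha
            · exact Or.inr (Finset.mem_union_right _ (Finset.mem_singleton.2 he4))
            · exact (hFH0 a ha).imp_right (fun h => Finset.mem_union_left _ h)) (by
            intro x
            by_cases hx : ∃ a ∈ M, a.1 = x
            · obtain ⟨a, ha, ha2⟩ := hx
              exact Or.inl ⟨a, Finset.mem_insert_of_mem ha, ha2⟩
            · push Not at hx
              exact Or.inr (hopt x {j} hx (by simp)))
        exact ih (p + 1) M' h5 (by omega) (by omega)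
          (hG E0 E1 _ M' D k h4 h5.mat hM1.sup (h e he4 hM1))

end HALL

theorem stmt_HALL (hG : Stmt_GAME) : Stmt_HALL := by
  intro m n E0 E1 M0 P D c S T B k hM0 hsep hexp hB hP hH hleaf hS hT htr
  have hcard : ((M0 \ E0).image Prod.fst).card ≤ B := Finset.card_image_le.trans hB
  obtain ⟨M', h1, h2, -⟩ := HALL.cover (M0 := M0) (P := P) (p := B) hsep hexp
    (FH := M0.image Prod.snd) hM0 subset_rfl (fun e he h => absurd he h)
    ((M0 \ E0).image Prod.fst) subset_rfl (by
      intro x hx hx2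
      obtain ⟨e, he, he2⟩ := Finset.mem_image.1 hx
      obtain ⟨f, hf, hf2⟩ := Finset.mem_image.1 hx2
      obtain ⟨he3, he4⟩ := Finset.mem_sdiff.1 he
      have := hM0.mat e he3 f (hM0.sup hf) (Or.inl (he2.trans hf2.symm))
      exact he4 (this ▸ hf)) (by omega) (by
      have h3 : (((M0 \ E0).image Prod.fst).biUnion (opts E1)).card ≤
        ∑ i ∈ (M0 \ E0).image Prod.fst, (opts E1 i).card := Finset.card_biUnion_le
      have h4 : (2 * c + 1) * ((M0 \ E0).image Prod.fst).card ≤ (2 * c + 1) * B :=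
        Nat.mul_le_mul_left _ hcard
      omega) (by omega) (fun e he => Or.inr (Finset.mem_image_of_mem _ he)) (by
      intro i
      by_cases hi : ∃ e ∈ M0, e.1 = i
      · exact Or.inl hi
      · push Not at hi
        refine Or.inr (le_trans (by omega : c + 1 ≤ 3 * c + 2) ((hP i hi).trans (Finset.card_le_card ?_)))
        intro j hj
        obtain ⟨hj1, hj2, hj3⟩ := Finset.mem_filter.1 hj
        refine Finset.mem_filter.2 ⟨hj1, hj2, fun h => ?_⟩
        obtain ⟨e, he, he2⟩ := Finset.mem_image.1 h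
        exact hj3 e he he2)
  exact HALL.main (hG.1 m n) hsep hexp hP hH hleaf k B M' h2 (by omega) (by omega)
    (hG.1 m n E0 E1 M0 M' D k h1 h2.mat hM0.sup htr)

end

end Pool.Agent.Work.MP_833881_lp
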