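import Pool.Agent.Work.MP_833881_lp.Interface

/-!
# Block HD: from `Pos D (ξ ∪ ξ0)` to `Pos D (E0 ∪ ξ)` (helper19)
-/

namespace Pool.Agent.Work.MP_833881_lp

open Finset Pool.Agent.Work.MP_833881_lc Pool.Agent.Work.MP_833881_lb
open scoped Classical

theorem stmt_HD : Stmt_HD := by
  intro a n D U E0 ξ ξ0 J w ha10 han hD hU hdeg hE0 hξ0 hw
  obtain ⟨NF, hNF⟩ : ∃ NF, NF = univ.filter (fun j : Fin n => a * (univ.filter (fun i : Fin (n ^ 2) =>
    (i, j) ∉ Pos D ((ξ ∪ (E0 ∩ XX U J)) ∪ ξ0))).card < n ^ 2) := ⟨_, rfl⟩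
  rw [← hNF] at hw
  refine ⟨NF ∪ J, lt_of_le_of_lt (Finset.card_union_le _ _) (by omega), ?_⟩
  intro j hjE hjX
  rw [Finset.mem_union, not_or] at hjX
  obtain ⟨hjN, hjJ⟩ := hjX
  obtain ⟨T, hT⟩ : ∃ T, T = (ξ ∪ (E0 ∩ XX U J)) ∪ ξ0 := ⟨_, rfl⟩
  have hA1 : n ^ 2 ≤ a * (univ.filter (fun i : Fin (n ^ 2) => (i, j) ∉ Pos D T)).card := by
    by_contra hcon
    rw [not_le, hT] at hcon
    exact hjN (by rw [hNF]; exact Finset.mem_filter.2 ⟨Finset.mem_univ _, hcon⟩)
  have hTE : T ⊆ E0 ∪ ξ := by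
    rw [hT]
    intro x hx
    rcases Finset.mem_union.1 hx with hx | hx
    · rcases Finset.mem_union.1 hx with hx | hx
      · exact Finset.mem_union_right _ hx
      · exact Finset.mem_union_left _ (Finset.mem_inter.1 hx).1
    · exact Finset.mem_union_left _ (hξ0 hx)
  -- the removed pigeons
  obtain ⟨G, hG⟩ : ∃ G, G = univ.filter (fun i : Fin (n ^ 2) => i ∉ E0.image Prod.fst ∧
      (i, j) ∉ Pos D (E0 ∪ ξ)) := ⟨_, rfl⟩
  rw [← hG]
  obtain ⟨B, hB⟩ : ∃ B, B = (E0.filter (fun f => f ∉ XX U J)).biUnion (fun f =>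
      univ.filter (fun e => e ∉ XX U J ∧ PP D f e)) := ⟨_, rfl⟩
  have hBc : B.card * a ^ 5 ≤ n * n := by
    have h1 : B.card ≤ ∑ f ∈ E0.filter (fun f => f ∉ XX U J),
        (univ.filter (fun e => e ∉ XX U J ∧ PP D f e)).card := by
      rw [hB]
      exact Finset.card_biUnion_le
    calc B.card * a ^ 5 ≤ (∑ f ∈ E0.filter (fun f => f ∉ XX U J),
        (univ.filter (fun e => e ∉ XX U J ∧ PP D f e)).card) * a ^ 5 := Nat.mul_le_mul_right _ h1
      _ = ∑ f ∈ E0.filter (fun f => f ∉ XX U J),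
        (univ.filter (fun e => e ∉ XX U J ∧ PP D f e)).card * a ^ 5 := by rw [Finset.sum_mul]
      _ ≤ ∑ f ∈ E0.filter (fun f => f ∉ XX U J), n :=
          Finset.sum_le_sum (fun f hf => hdeg f (Finset.mem_filter.1 hf).2)
      _ = (E0.filter (fun f => f ∉ XX U J)).card * n := by rw [Finset.sum_const, smul_eq_mul]
      _ ≤ n * n := Nat.mul_le_mul_right _ ((Finset.card_filter_le _ _).trans hE0)
  have hcov : (univ.filter (fun i : Fin (n ^ 2) => (i, j) ∉ Pos D T)) ⊆
      (G ∪ E0.image Prod.fst) ∪ (U.image Prod.fst ∪ B.image Prod.fst) := by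
    intro i hi
    have hiT : (i, j) ∉ Pos D T := (Finset.mem_filter.1 hi).2
    by_cases h1 : i ∈ E0.image Prod.fst
    · exact Finset.mem_union_left _ (Finset.mem_union_right _ h1)
    by_cases h2 : (i, j) ∉ Pos D (E0 ∪ ξ)
    · refine Finset.mem_union_left _ (Finset.mem_union_left _ ?_)
      rw [hG]
      exact Finset.mem_filter.2 ⟨Finset.mem_univ _, h1, h2⟩
    rw [not_not] at h2
    by_cases h3 : (i, j) ∈ U
    · exact Finset.mem_union_right _ (Finset.mem_union_left _ (Finset.mem_image.2 ⟨(i, j), h3, rfl⟩))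
    refine Finset.mem_union_right _ (Finset.mem_union_right _ (Finset.mem_image.2 ⟨(i, j), ?_, rfl⟩))
    have heX : (i, j) ∉ XX U J := by
      unfold XX
      rw [Finset.mem_union, not_or]
      exact ⟨h3, fun h => hjJ (Finset.mem_filter.1 h).2⟩
    obtain ⟨t, ht, het, hall⟩ := (Finset.mem_filter.1 h2).2
    have h4 : ∃ l ∈ t, l ≠ ((i, j), true) ∧ l.2 = true ∧ l.1 ∉ T := by
      by_contra hcon
      push Not at hcon
      apply hiT
      refine Finset.mem_filter.2 ⟨Finset.mem_univ _, t, ht, het, ?_⟩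
      intro l hl hne
      obtain ⟨k1, k2, k3⟩ := hall l hl hne
      exact ⟨k1, fun k4 => hcon l hl hne k4, fun k4 k5 => k3 k4 (hTE k5)⟩
    obtain ⟨l, hl, hne, hl2, hlT⟩ := h4
    have hlE : l.1 ∈ E0 := by
      rcases Finset.mem_union.1 ((hall l hl hne).2.1 hl2) with h | h
      · exact h
      · exact absurd (by rw [hT]; exact Finset.mem_union_left _ (Finset.mem_union_left _ h)) hlT
    have hlX : l.1 ∉ XX U J := fun h => hlT (by
      rw [hT]
      exact Finset.mem_union_left _ (Finset.mem_union_right _ (Finset.mem_inter.2 ⟨hlE, h⟩)))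
    have hl' : l = (l.1, true) := Prod.ext rfl hl2
    have hte : ({(l.1, true), ((i, j), true)} : Finset (Edge (n ^ 2) n × Bool)) = t := by
      refine Finset.eq_of_subset_of_card_le ?_ ?_
      · intro x hx
        rcases Finset.mem_insert.1 hx with rfl | hx
        · rw [← hl']; exact hl
        · rw [Finset.mem_singleton.1 hx]; exact het
      · rw [Finset.card_pair]
        · exact hD t ht
        · rw [← hl']; exact hne
    rw [hB]
    refine Finset.mem_biUnion.2 ⟨l.1, Finset.mem_filter.2 ⟨hlE, hlX⟩, Finset.mem_filter.2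
      ⟨Finset.mem_univ _, heX, ?_, ?_, by rw [hte]; exact ht⟩⟩
    · intro h
      exact h1 (Finset.mem_image.2 ⟨l.1, hlE, h⟩)
    · intro h
      exact hjE (Finset.mem_image.2 ⟨l.1, hlE, h⟩)
  have h5 := Finset.card_le_card hcov
  have h6 := Finset.card_union_le (G ∪ E0.image Prod.fst) (U.image Prod.fst ∪ B.image Prod.fst)
  have h7 := Finset.card_union_le G (E0.image Prod.fst)
  have h8 := Finset.card_union_le (U.image Prod.fst) (B.image Prod.fst)
  have h9 : (E0.image Prod.fst).card ≤ n := Finset.card_image_le.trans hE0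
  have h10 : (U.image Prod.fst).card ≤ U.card := Finset.card_image_le
  have h11 : (B.image Prod.fst).card ≤ B.card := Finset.card_image_le
  have h12 : (univ.filter (fun i : Fin (n ^ 2) => (i, j) ∉ Pos D T)).card ≤
      G.card + n + U.card + B.card := by omega
  have h13 : n ^ 2 ≤ a * (G.card + n + U.card + B.card) := hA1.trans (Nat.mul_le_mul_left _ h12)
  -- numbers
  have hapos : 0 < a := by omega
  have e1 : 2 * (a * n) * a ^ 5 ≤ 2 * n ^ 2 := by
    calc 2 * (a * n) * a ^ 5 = 2 * (a ^ 6 * n) := by ring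
      _ ≤ 2 * (n * n) := Nat.mul_le_mul_left _ (Nat.mul_le_mul_right _ han)
      _ = 2 * n ^ 2 := by ring
  have e2 : 2 * (a * U.card) * a ^ 5 ≤ 2 * a * n ^ 2 := by
    calc 2 * (a * U.card) * a ^ 5 = 2 * a * (U.card * a ^ 5) := by ring
      _ ≤ 2 * a * n ^ 2 := Nat.mul_le_mul_left _ hU
  have e3 : 2 * (a * B.card) * a ^ 5 ≤ 2 * a * n ^ 2 := by
    calc 2 * (a * B.card) * a ^ 5 = 2 * a * (B.card * a ^ 5) := by ring
      _ ≤ 2 * a * (n * n) := Nat.mul_le_mul_left _ hBc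
      _ = 2 * a * n ^ 2 := by ring
  have e4 : 2 + 2 * a + 2 * a ≤ a ^ 5 := by
    have : 10 ^ 4 ≤ a ^ 4 := Nat.pow_le_pow_left ha10 4
    have e : a ^ 5 = a ^ 4 * a := by ring
    rw [e]
    nlinarith
  have e5 : (2 * (a * n) + 2 * (a * U.card) + 2 * (a * B.card)) * a ^ 5 ≤ n ^ 2 * a ^ 5 := by
    calc (2 * (a * n) + 2 * (a * U.card) + 2 * (a * B.card)) * a ^ 5
        = 2 * (a * n) * a ^ 5 + 2 * (a * U.card) * a ^ 5 + 2 * (a * B.card) * a ^ 5 := by ring
      _ ≤ 2 * n ^ 2 + 2 * a * n ^ 2 + 2 * a * n ^ 2 := by omega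
      _ = n ^ 2 * (2 + 2 * a + 2 * a) := by ring
      _ ≤ n ^ 2 * a ^ 5 := Nat.mul_le_mul_left _ e4
  have e6 : 2 * (a * n) + 2 * (a * U.card) + 2 * (a * B.card) ≤ n ^ 2 :=
    Nat.le_of_mul_le_mul_right e5 (by positivity)
  have e7 : a * (G.card + n + U.card + B.card) = a * G.card + a * n + a * U.card + a * B.card := by ring
  rw [e7] at h13
  have e8 : 2 * a * G.card = 2 * (a * G.card) := by ring
  rw [e8]
  omega

end Pool.Agent.Work.MP_833881_lp
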