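import Pool.Agent.Work.MP_833881_lb.DetB
import Pool.Agent.Work.MP_833881_lb.Prob

/-!
# Lower bound for `R(2)` refutations of `onto-FPHP_n^{n^2}` whose positive 2-terms have small degree: definitions
and statements of the blocks

Pigeons are `Fin m`, holes are `Fin n`, variables (edges) are `Fin m × Fin n`. Notions from `MP_833881_lb`:
`Edge`, `opts`, `Pos`, `pr`, `Mt`, `M0`, `E1`, `alive`, `sa`, `cc`, `HasDisj` (Interface), `satD`, `IsM`, `Cov` (DetA).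
-/

namespace Pool.Agent.Work.MP_833881_lp

open Finset Pool.Agent.Work.MP_833881_lc Pool.Agent.Work.MP_833881_lb
open scoped Classical

set_option linter.unusedSectionVars false

noncomputable section

section defs

variable {m n : ℕ}

/-- `x_e ∧ x_f` is a term of `D`, and `e`, `f` are compatible (different pigeons and holes). -/
def PP (D : Line (Edge m n)) (e f : Edge m n) : Prop :=
  e.1 ≠ f.1 ∧ e.2 ≠ f.2 ∧ ({(e, true), (f, true)} : Finset (Edge m n × Bool)) ∈ D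

/-- `¬ x_e ∧ ¬ x_f` is a term of `D`, `e ≠ f`. -/
def NN (D : Line (Edge m n)) (e f : Edge m n) : Prop :=
  e ≠ f ∧ ({(e, false), (f, false)} : Finset (Edge m n × Bool)) ∈ D

/-- The edges that are forced to be true if the edges of `T` are true and `D` is not satisfied. -/
def Fo (D : Line (Edge m n)) (T : Finset (Edge m n)) : Finset (Edge m n) :=
  univ.filter (fun v => ∃ t ∈ D, (v, false) ∈ t ∧ ∀ l ∈ t, l ≠ (v, false) → l.2 = true ∧ l.1 ∈ T)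

/-- One step of the canonical closure. -/
def St (D : Line (Edge m n)) (S : Finset (Edge m n)) : Finset (Edge m n) :=
  if h : (Fo D S \ S).Nonempty then insert h.choose S else S

/-- The canonical closure process. -/
def run (D : Line (Edge m n)) (S : Finset (Edge m n)) : ℕ → Finset (Edge m n)
  | 0 => S
  | k + 1 => St D (run D S k)

/-- The `NN`-partners outside `E0` of the elements of `W` outside `E0`. -/
def PtN (D : Line (Edge m n)) (E0 W : Finset (Edge m n)) : Finset (Edge m n) :=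
  univ.filter (fun v => v ∉ E0 ∧ ∃ w ∈ W, w ∉ E0 ∧ NN D w v)

/-- Strong positive literals: the edges of `T` are true, `G` is the set of the free edges, `Z` are free edges known
to be determined. -/
def SPos (D : Line (Edge m n)) (T G Z : Finset (Edge m n)) (e : Edge m n) : Prop :=
  ∃ t ∈ D, (e, true) ∈ t ∧ ∀ l ∈ t, l ≠ (e, true) → l.1 ≠ e ∧ (l.2 = true → l.1 ∈ T) ∧
    (l.2 = false → l.1 ∉ T ∧ (l.1 ∈ G → l.1 ∈ Z ∨ l.1.1 = e.1))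

/-- A negative partner of the positive literal `e` of `D` in the context `T` (`none` if there is a term for `e` without
negative partner). -/
def enab (D : Line (Edge m n)) (T : Finset (Edge m n)) (e : Edge m n) : Option (Edge m n) :=
  if ∃ t ∈ D, (e, true) ∈ t ∧ ∀ l ∈ t, l ≠ (e, true) → l.1 ≠ e ∧ l.2 = true ∧ l.1 ∈ T then none
  else if h : ∃ v, v ≠ e ∧ v ∉ T ∧ ({(e, true), (v, false)} : Finset (Edge m n × Bool)) ∈ D then some h.choose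
  else none

/-- Chains of heavy edges of length `u`. -/
def IsCh {V : Type} [DecidableEq V] (Hv : Finset V → Finset V) (G : Finset V) : ℕ → Finset V → Finset V → Prop
  | 0, _, _ => True
  | u + 1, ξ, Z => ∃ f ∈ Hv ξ, f ∈ G ∧ f ∉ Z ∧
      (IsCh Hv G u ξ (insert f Z) ∨ IsCh Hv G u (insert f ξ) (insert f Z))

/-- The exceptional variables. -/
def XX (U : Finset (Edge m n)) (J : Finset (Fin n)) : Finset (Edge m n) := U ∪ univ.filter (fun e => e.2 ∈ J)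

/-- The pairs `{e, f}` of positive 2-terms outside `X` with `e ∈ S`. -/
def QP (D : Line (Edge m n)) (X S : Finset (Edge m n)) : Finset (Finset (Edge m n)) :=
  univ.filter (fun A => ∃ e f, e ∈ S ∧ e ∉ X ∧ f ∉ X ∧ PP D e f ∧ A = {e, f})

/-! ### The properties of a world -/

def FExc (L : Finset (Line (Edge m n))) (X : Line (Edge m n) → Finset (Edge m n)) (z : ℕ)
    (E1 : Finset (Edge m n)) : Prop :=
  ∀ D ∈ L, ∃ (KP : Finset (Fin m)) (KH : Finset (Fin n)), KP.card + KH.card ≤ 2 * z ∧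
    ∀ e ∈ E1, e ∈ X D → e.1 ∈ KP ∨ e.2 ∈ KH

def FFo (L : Finset (Line (Edge m n))) (z : ℕ) (E0 E1 : Finset (Edge m n)) : Prop :=
  ∀ D ∈ L, Fo D E0 ⊆ E0 ∪ E1 → (Fo D E0 \ E0).card ≤ z

def FRun (L : Finset (Line (Edge m n))) (b g : ℕ) (E0 E1 : Finset (Edge m n)) : Prop :=
  ∀ D ∈ L, ∀ F : Finset (Edge m n), F.card ≤ b →
    ¬ (run D (E0 ∪ F) g ⊆ E0 ∪ E1 ∧ (run D (E0 ∪ F) g).card = (E0 ∪ F).card + g)

def FNeg (L : Finset (Line (Edge m n))) (z : ℕ) (E0 E1 : Finset (Edge m n)) : Prop :=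
  ∀ D ∈ L, (∃ t ∈ D, ∀ l ∈ t, l.2 = false ∧ l.1 ∉ E0 ∪ E1) ∨
    ∃ W : Finset (Edge m n), W.card ≤ 2 * z ∧ (∀ e f, NN D e f → e ∉ E0 → f ∉ E0 → e ∈ W ∨ f ∈ W) ∧
      ∀ W' ⊆ W, PtN D E0 W' ⊆ E1 → (PtN D E0 W').card ≤ z

def FNb (L : Finset (Line (Edge m n))) (X : Line (Edge m n) → Finset (Edge m n)) (B c2 : ℕ)
    (E1 : Finset (Edge m n)) : Prop :=
  ∀ D ∈ L, ∀ F : Finset (Edge m n), F.card ≤ B →
    (E1.filter (fun e => e ∉ X D ∧ ∃ f ∈ F, f ∉ X D ∧ PP D e f)).card ≤ c2 * B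

def FPP (L : Finset (Line (Edge m n))) (X : Line (Edge m n) → Finset (Edge m n)) (z kM T1 : ℕ)
    (E1 : Finset (Edge m n)) : Prop :=
  ∀ D ∈ L, ∃ (V : Finset (Edge m n)) (Y : Finset (Fin m)), Y.card ≤ z ∧
    (∀ e ∈ E1, ∀ f ∈ E1, e ∉ X D → f ∉ X D → PP D e f → e ∈ V ∨ f ∈ V) ∧
    (∀ i, i ∉ Y → (V.filter (fun e => e.1 = i)).card ≤ kM) ∧
    ∀ j, (V.filter (fun e => e.2 = j)).card ≤ T1

def FPosP (L : Finset (Line (Edge m n))) (z w u x0 rp : ℕ) (E0 E1 : Finset (Edge m n)) : Prop :=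
  ∀ D ∈ L, ∃ Hv : Finset (Edge m n) → Finset (Edge m n),
    (∀ ξ : Finset (Edge m n), ξ.card ≤ 3 * z → ¬ IsCh Hv E1 u ξ ∅) ∧
    ∀ ξ : Finset (Edge m n), ξ.card ≤ x0 →
      (univ.filter (fun i => i ∉ E0.image Prod.fst ∧
        ((opts E1 i).filter (fun j => (i, j) ∉ Pos D (E0 ∪ ξ))).card < rp)).card < w ∨
      x0 < (univ.filter (fun i => i ∉ E0.image Prod.fst ∧
        ∀ j ∈ opts E1 i, SPos D (E0 ∪ ξ) E1 (Hv ξ) (i, j))).card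

def FPosH (L : Finset (Line (Edge m n))) (w x0 T : ℕ) (E0 E1 : Finset (Edge m n)) : Prop :=
  ∀ D ∈ L, ∀ ξ : Finset (Edge m n), ξ.card ≤ x0 →
    (∃ XH : Finset (Fin n), XH.card ≤ 2 * w ∧ ∀ j, j ∉ E0.image Prod.snd → j ∉ XH →
      T ≤ (E1.filter (fun e => e.2 = j ∧ e ∉ Pos D (E0 ∪ ξ))).card) ∨
    ∃ e ∈ E0, e ∈ Pos D (E0 ∪ ξ)

end defs

/-- The parameters of a world. -/
structure Prm where
  z : ℕ
  w : ℕ
  u : ℕ
  x0 : ℕ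
  c : ℕ
  c2 : ℕ
  kM : ℕ
  r0 : ℕ
  rp : ℕ
  T : ℕ
  T1 : ℕ
  Sx : ℕ

/-- The conditions on the parameters. -/
structure Prm.OK (p : Prm) : Prop where
  w1 : 1 ≤ p.w
  zw : p.z ≤ p.w
  zu : 7 * p.z + p.u ≤ p.w
  xu : 3 * p.z + p.u ≤ p.x0
  r : 3 * p.c + 2 ≤ p.r0
  gap : p.kM + p.r0 + 13 * (p.c + p.c2) ≤ p.rp
  hc : 1 ≤ p.c
  S : 700 * p.w ≤ p.Sx
  hT : p.T1 + (49 * p.c2 + 700) * p.w ≤ p.T

/-- A good pair of edge sets: `E0` is a matching whose edges are true, `E1` is the set of the free edges, all other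
edges are false; `L` is the set of lines, `X D` is the set of the exceptional variables of `D`. -/
structure World2 {m n : ℕ} (p : Prm) (L : Finset (Line (Edge m n))) (X : Line (Edge m n) → Finset (Edge m n))
    (E0 E1 : Finset (Edge m n)) : Prop where
  mat : ∀ e ∈ E0, ∀ f ∈ E0, (e.1 = f.1 ∨ e.2 = f.2) → e = f
  sep : ∀ e ∈ E0, ∀ f ∈ E1, e.1 ≠ f.1 ∧ e.2 ≠ f.2
  deg_ge : ∀ i, i ∉ E0.image Prod.fst → p.r0 ≤ (opts E1 i).card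
  hole_ge : ∀ j, j ∉ E0.image Prod.snd → p.T ≤ (E1.filter (fun e => e.2 = j)).card
  exp : ∀ A : Finset (Fin m), A.card ≤ p.Sx →
    ∑ i ∈ A, (opts E1 i).card ≤ (A.biUnion (opts E1)).card + p.c * A.card
  two : ∀ D ∈ L, ∀ t ∈ D, t.card ≤ 2
  exc : FExc L X p.z E1
  fo : FFo L p.z E0 E1
  runs : FRun L (8 * p.w) (40 * p.w + p.z) E0 E1
  neg : FNeg L p.z E0 E1
  posP : FPosP L p.z p.w p.u p.x0 p.rp E0 E1
  posH : FPosH L p.w p.x0 p.T E0 E1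
  pp : FPP L X p.z p.kM p.T1 E1
  nb : FNb L X (48 * p.w + p.z) p.c2 E1

/-! ## The deterministic part -/

section game

variable {m n : ℕ}

/-- The truth game: `Tr E0 E1 D k M` if the player can force `D` to be satisfied with `k` queries of pigeons and holes,
starting with the matching `M`. -/
def Tr (E0 E1 : Finset (Edge m n)) (D : Line (Edge m n)) : ℕ → Finset (Edge m n) → Prop
  | 0, M => satD (E0 ∪ E1) M D
  | k + 1, M => satD (E0 ∪ E1) M D ∨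
      (∃ i : Fin m, ∀ e : Edge m n, e.1 = i → IsM E0 E1 (insert e M) → Tr E0 E1 D k (insert e M)) ∨
      ∃ j : Fin n, ∀ e : Edge m n, e.2 = j → IsM E0 E1 (insert e M) → Tr E0 E1 D k (insert e M)

/-- A position in which `D` is not forced, with total budget `K`. -/
def GP (E0 E1 : Finset (Edge m n)) (D : Line (Edge m n)) (K : ℕ) (M : Finset (Edge m n)) : Prop :=
  IsM E0 E1 M ∧ (M \ E0).card ≤ K ∧ ¬ Tr E0 E1 D (K - (M \ E0).card) M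

/-- The result of the first four phases. -/
structure Base (p : Prm) (X E0 E1 : Finset (Edge m n)) (D : Line (Edge m n)) (Y : Finset (Fin m))
    (M ξ : Finset (Edge m n)) : Prop where
  gp : GP E0 E1 D (88 * p.w + 2 * p.z + 1) M
  card : (M \ E0).card ≤ 4 * p.w
  xi : ξ ⊆ M
  det : ∀ e ∈ E1, e ∈ X → e ∈ ξ ∨ ∃ f ∈ M, f ≠ e ∧ (f.1 = e.1 ∨ f.2 = e.2)
  nn : ∀ e f, NN D e f → e ∈ M ∨ f ∈ M
  rowY : ∀ i ∈ Y, ∃ e ∈ M, e.1 = i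
  rowP : ∀ i, (∀ e ∈ M, e.1 ≠ i) → p.rp ≤ ((opts E1 i).filter (fun j => (i, j) ∉ Pos D (E0 ∪ ξ))).card
  holeP : ∀ j, (∀ e ∈ M, e.2 ≠ j) → p.T ≤ (E1.filter (fun e => e.2 = j ∧ e ∉ Pos D (E0 ∪ ξ))).card

end game

/-- GAME: basic properties of the game and the induction along the refutation. -/
def Stmt_GAME : Prop :=
  (∀ (m n : ℕ) (E0 E1 M M' : Finset (Edge m n)) (D : Line (Edge m n)) (k : ℕ), M ⊆ M' → IsM E0 E1 M' →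
    E0 ⊆ M → Tr E0 E1 D k M → Tr E0 E1 D k M') ∧
  (∀ (m n : ℕ) (E0 E1 M : Finset (Edge m n)) (D : Line (Edge m n)) (k k' : ℕ), k ≤ k' →
    Tr E0 E1 D k M → Tr E0 E1 D k' M) ∧
  (∀ (m n : ℕ) (E0 E1 M : Finset (Edge m n)) (D : Line (Edge m n)) (K : ℕ) (KP : Finset (Fin m))
    (KH : Finset (Fin n)), GP E0 E1 D K M → (M \ E0).card + KP.card + KH.card ≤ K →
    ∃ M', GP E0 E1 D K M' ∧ M ⊆ M' ∧ Cov M' KP KH ∧ (M' \ E0).card ≤ (M \ E0).card + KP.card + KH.card) ∧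
  ∀ (m n : ℕ) (E0 E1 : Finset (Edge m n)) (K : ℕ) (π : List (Line (Edge m n))), IsM E0 E1 E0 → 1 ≤ K →
    IsRefutation 2 (ontoFPHP m n) π → (∀ D ∈ π, Tr E0 E1 D (2 * K) E0 → Tr E0 E1 D K E0) →
    Tr E0 E1 ∅ K E0

/-- HALL: with good edges only, the adversary survives `k` queries. -/
def Stmt_HALL : Prop := ∀ (m n : ℕ) (E0 E1 M0 P : Finset (Edge m n)) (D : Line (Edge m n)) (c S T B k : ℕ),
  IsM E0 E1 M0 → (∀ e ∈ E0, ∀ f ∈ E1, e.1 ≠ f.1 ∧ e.2 ≠ f.2) →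
  (∀ A : Finset (Fin m), A.card ≤ S →
    ∑ i ∈ A, (opts E1 i).card ≤ (A.biUnion (opts E1)).card + c * A.card) →
  (M0 \ E0).card ≤ B →
  (∀ i, (∀ e ∈ M0, e.1 ≠ i) →
    3 * c + 2 ≤ ((opts E1 i).filter (fun j => (i, j) ∉ P ∧ ∀ e ∈ M0, e.2 ≠ j)).card) →
  (∀ j, (∀ e ∈ M0, e.2 ≠ j) → T ≤ (E1.filter (fun e => e.2 = j ∧ e ∉ P)).card) →
  (∀ M, IsM E0 E1 M → M0 ⊆ M → (∀ e ∈ M, e ∉ M0 → e ∈ E1 ∧ e ∉ P) → ¬ satD (E0 ∪ E1) M D) →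
  2 * B + 3 * k + 1 ≤ S → 2 * B + 3 * k + 1 ≤ T → ¬ Tr E0 E1 D k M0

/-- CLO: closure under forced edges. -/
def Stmt_CLO : Prop := ∀ (m n : ℕ) (E0 E1 M F : Finset (Edge m n)) (D : Line (Edge m n)) (g K : ℕ),
  GP E0 E1 D K M → E0 ∪ F ⊆ M → (∀ S, E0 ∪ F ⊆ S → Fo D S ⊆ S → M ⊆ S) → (M \ E0).card + g ≤ K →
  ¬ (run D (E0 ∪ F) g ⊆ E0 ∪ E1 ∧ (run D (E0 ∪ F) g).card = (E0 ∪ F).card + g) →
  ∃ M', GP E0 E1 D K M' ∧ M ⊆ M' ∧ Fo D M' ⊆ M' ∧ (M' \ E0).card ≤ F.card + g ∧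
    ∀ S, E0 ∪ F ⊆ S → Fo D S ⊆ S → M' ⊆ S

/-- PRE: phases A, B, C, D. -/
def Stmt_PRE : Prop := ∀ (m n : ℕ) (p : Prm) (L : Finset (Line (Edge m n)))
  (X : Line (Edge m n) → Finset (Edge m n)) (E0 E1 : Finset (Edge m n)), World2 p L X E0 E1 → p.OK →
  ∀ D ∈ L, ¬ Tr E0 E1 D (88 * p.w + 2 * p.z + 1) E0 → ∀ Y : Finset (Fin m), Y.card ≤ p.z →
  ∃ M ξ, Base p (X D) E0 E1 D Y M ξ

/-- POT: closure and bad pigeons. -/
def Stmt_POT : Prop := ∀ (m n : ℕ) (p : Prm) (L : Finset (Line (Edge m n)))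
  (X : Line (Edge m n) → Finset (Edge m n)) (E0 E1 : Finset (Edge m n)), World2 p L X E0 E1 → p.OK →
  ∀ D ∈ L, ∀ (V : Finset (Edge m n)) (Y : Finset (Fin m)) (M0 ξ : Finset (Edge m n)),
  (∀ i, i ∉ Y → (V.filter (fun e => e.1 = i)).card ≤ p.kM) → Base p (X D) E0 E1 D Y M0 ξ →
  ∃ M, GP E0 E1 D (88 * p.w + 2 * p.z + 1) M ∧ M0 ⊆ M ∧ Fo D M ⊆ M ∧ (M \ E0).card ≤ 48 * p.w + p.z ∧
    ∀ i, (∀ e ∈ M, e.1 ≠ i) → p.r0 ≤ ((opts E1 i).filter (fun j => (i, j) ∉ Pos D (E0 ∪ ξ) ∧ (i, j) ∉ V ∧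
      (∀ e ∈ M, e.2 ≠ j) ∧ ∀ f ∈ M, ¬ PP D (i, j) f)).card

/-- LFM: the locality lemma. -/
def Stmt_LFM : Prop := ∀ (m n : ℕ) (p : Prm) (L : Finset (Line (Edge m n)))
  (X : Line (Edge m n) → Finset (Edge m n)) (E0 E1 : Finset (Edge m n)), World2 p L X E0 E1 → p.OK →
  ∀ D ∈ L, Tr E0 E1 D (2 * (88 * p.w + 2 * p.z + 1)) E0 → Tr E0 E1 D (88 * p.w + 2 * p.z + 1) E0

/-- DET: no refutation in a world. -/
def Stmt_DET : Prop := ∀ (m n : ℕ) (p : Prm) (L : Finset (Line (Edge m n)))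
  (X : Line (Edge m n) → Finset (Edge m n)) (E0 E1 : Finset (Edge m n)), World2 p L X E0 E1 → p.OK →
  ∀ π : List (Line (Edge m n)), IsRefutation 2 (ontoFPHP m n) π → ¬ ∀ D ∈ π, D ∈ L

/-! ## Chains -/

/-- CHN: long chains of heavy edges are improbable. -/
def Stmt_CHN : Prop := ∀ (Ω V : Type) [Fintype Ω] [DecidableEq V] (G : Ω → Finset V)
  (Hv : Finset V → Finset V) (q : ℝ) (h0 u : ℕ) (ξ : Finset V), 0 ≤ q →
  (∀ F : Finset V, pr (fun ω => F ⊆ G ω) ≤ q ^ F.card) → (∀ ξ', (Hv ξ').card ≤ h0) →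
  pr (fun ω => IsCh Hv (G ω) u ξ ∅) ≤ (2 * (h0 : ℝ) * q) ^ u

/-- CHD: if there is no long chain, all heavy edges in `G` can be registered. -/
def Stmt_CHD : Prop := ∀ (V : Type) [DecidableEq V] (G : Finset V) (Hv : Finset V → Finset V) (u : ℕ)
  (ξ : Finset V),
  (∀ (G' ξ' Z : Finset V), G' ⊆ G → IsCh Hv G' u ξ' Z → IsCh Hv G u ξ' Z) ∧
  (¬ IsCh Hv G u ξ ∅ → ∃ ξ0 ⊆ G, ξ0.card ≤ u ∧ ∀ f ∈ Hv (ξ ∪ ξ0), f ∈ G → f ∈ ξ0)

/-- ENAB: enablers and strong positive literals. -/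
def Stmt_ENAB : Prop := ∀ (m n : ℕ) (D : Line (Edge m n)), (∀ t ∈ D, t.card ≤ 2) →
  (∀ (T : Finset (Edge m n)) (e : Edge m n), enab D T e ≠ some e) ∧
  (∀ (T : Finset (Edge m n)) (e v : Edge m n), enab D T e = some v → v ∉ T) ∧
  (∀ (T G Z : Finset (Edge m n)) (e : Edge m n), e ∈ Pos D T →
    (∀ v, enab D T e = some v → v ∈ G → v ∈ Z ∨ v.1 = e.1) → SPos D T G Z e) ∧
  ∀ (E0 T : Finset (Edge m n)) (e : Edge m n), e ∈ Pos D T → (∀ v, enab D T e = some v → v ∉ E0) →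
    ∀ T' : Finset (Edge m n), T ⊆ T' → T' ⊆ E0 ∪ T → e ∈ Pos D T'

/-! ## Weak coordinates -/

/-- EN1: one tuple of coordinates and enablers. -/
def Stmt_EN1 : Prop := ∀ (ι α V : Type) [Fintype ι] [DecidableEq ι] [Fintype α] [Nonempty α] (ρ : V → ι)
  (mem : V → α → Prop) (en : ι → α → Finset V) (q : ℝ) (k : ℕ) (t : Fin k → ι × V), 0 ≤ q →
  (∀ F : Finset V, pr (fun ω : ι → α => ∀ v ∈ F, mem v (ω (ρ v))) ≤ q ^ F.card) →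
  Function.Injective (fun r => (t r).1) → (∀ r r', ρ (t r).2 ≠ (t r').1) →
  pr (fun ω : ι → α => ∀ r, (t r).2 ∈ en (t r).1 (ω (t r).1) ∧ mem (t r).2 (ω (ρ (t r).2))) ≤
    (∏ r, pr (fun x : α => (t r).2 ∈ en (t r).1 x)) * q ^ (univ.image (fun r => (t r).2)).card

/-- EN2: the sum over all tuples. -/
def Stmt_EN2 : Prop := ∀ (ι V : Type) [Fintype ι] [Fintype V] (P : ι → V → ℝ) (q θ Y : ℝ),
  (∀ i v, 0 ≤ P i v) → 0 ≤ q → 0 ≤ θ → 0 ≤ Y → (∀ v, ∑ i, P i v ≤ θ) → (∑ i, ∑ v, P i v ≤ Y) → ∀ k : ℕ,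
  ∑ t : Fin k → ι × V, (∏ r, P (t r).1 (t r).2) * q ^ (univ.image (fun r => (t r).2)).card ≤
    (q * Y + k * θ) ^ k

/-- EN3: an independent set in a functional digraph. -/
def Stmt_EN3 : Prop := ∀ (ι : Type) (W : Finset ι) (g : ι → ι) (κ : ℕ), (∀ i ∈ W, g i ≠ i) →
  3 * κ ≤ W.card → ∃ W1 ⊆ W, W1.card = κ ∧ ∀ i ∈ W1, g i ∉ W1

/-- ENB: many weak coordinates are improbable. -/
def Stmt_ENB : Prop := ∀ (ι α V : Type) [Fintype ι] [DecidableEq ι] [Fintype α] [Nonempty α] [Fintype V]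
  (ρ : V → ι) (mem : V → α → Prop) (en : ι → α → Finset V) (q θ Y : ℝ) (κ : ℕ), 0 ≤ q → 0 ≤ θ → 0 ≤ Y → 1 ≤ κ →
  (∀ i x, ∀ v ∈ en i x, ρ v ≠ i) →
  (∀ F : Finset V, pr (fun ω : ι → α => ∀ v ∈ F, mem v (ω (ρ v))) ≤ q ^ F.card) →
  (∀ v, ∑ i, pr (fun x : α => v ∈ en i x) ≤ θ) → (∑ i, ∑ v, pr (fun x : α => v ∈ en i x) ≤ Y) →
  pr (fun ω : ι → α => 3 * κ ≤ (univ.filter (fun i => ∃ v ∈ en i (ω i), mem v (ω (ρ v)))).card) ≤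
    (3 * (q * Y + κ * θ) / κ) ^ κ

/-- MK: upper tail. -/
def Stmt_MK : Prop := ∀ (ι α : Type) [Fintype ι] [DecidableEq ι] [Fintype α] [Nonempty α] (p : ι → α → Prop)
  (w : ℕ), ∑ i, pr (p i) ≤ (w : ℝ) / 4 →
  pr (fun ω : ι → α => w ≤ (univ.filter (fun i => p i (ω i))).card) ≤ (1 / 2 : ℝ) ^ (w / 2)

/-- LT: lower tail. -/
def Stmt_LT : Prop := ∀ (ι α : Type) [Fintype ι] [DecidableEq ι] [Fintype α] [Nonempty α] (p : ι → α → Prop)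
  (x : ℕ), (x : ℝ) ≤ ∑ i, pr (p i) →
  pr (fun ω : ι → α => (univ.filter (fun i => p i (ω i))).card ≤ x / 4) ≤ (3 / 4 : ℝ) ^ x

/-- P2: if many pigeons have few samples outside `A`, then many pigeons have no sample outside `A` and only
determined enablers. -/
def Stmt_P2 : Prop := ∀ (m n h s : ℕ) (hl : Fin h → Fin n) (P0 : Finset (Fin m)) (A : Finset (Edge m n))
  (φ : Edge m n → Option (Edge m n)) (k a w x : ℕ), Function.Injective hl → 1 ≤ h → 2 ≤ s → 1 ≤ k → 1 ≤ a →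
  24 ≤ x → 4 * s ^ k * x ≤ w →
  ∃ Hv : Finset (Edge m n), Hv.card ≤ a * s * (x + 1) ∧
    pr (fun ω : Fin m → Fin s → Fin h × Bool =>
      w ≤ (univ.filter (fun i => i ∉ P0 ∧ alive hl A ω i < k)).card ∧
      (univ.filter (fun i => i ∉ P0 ∧ alive hl A ω i = 0 ∧ ∀ l, (ω i l).2 = true →
        ∀ v, φ (i, hl (ω i l).1) = some v → v ∈ E1 hl P0 ω → v ∈ Hv ∨ v.1 = i)).card ≤ x / 8) ≤
      (1 / 2 : ℝ) ^ (w / 2) + (3 / 4 : ℝ) ^ x +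
        (150 * ((s : ℝ) / (2 * h)) * s + 3 / (a : ℝ)) ^ (x / 24)

/-- S1W: if many holes are almost contained in `A`, a forced edge is in `A` and its enabler is determined. -/
def Stmt_S1W : Prop := ∀ (m n : ℕ) (A : Finset (Edge m n)) (φ : Edge m n → Option (Edge m n)) (a w : ℕ),
  1 ≤ m → 4 ≤ a → 24 ≤ w → (∀ e, φ e ≠ some e) →
  w ≤ (univ.filter (fun j : Fin n => a * (univ.filter (fun i : Fin m => (i, j) ∉ A)).card < m)).card →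
  ∃ Hv : Finset (Edge m n), Hv.card ≤ a * w ∧
    pr (fun ω : Fin n → Bool × Fin m => ¬ ∃ j : Fin n, (ω j).1 = false ∧ ((ω j).2, j) ∈ A ∧
      ∀ v, φ ((ω j).2, j) = some v → v ∈ Mt ω → v ∈ Hv) ≤
      4 ^ (w / 8) * (3 / 4 : ℝ) ^ w + (144 / (m : ℝ) + 3 / (a : ℝ)) ^ (w / 24)

/-! ## The parameters

`n ≤ a ^ C`, `z = n / a ^ 3`, `w = n / a ^ 2`, `s = sa C a` samples, `c = cc C`. -/

/-- The number of good edges. -/
def r0 (C : ℕ) : ℕ := 3 * cc C + 2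

/-- The number of positive edges. -/
def rp (C : ℕ) : ℕ := 2 * C + r0 C + 13 * (cc C + 2 * C)

/-- The bound for `alive`. -/
def kk (C : ℕ) : ℕ := rp C + cc C

/-- The number of steps of chains, second stage. -/
def uu (C a n : ℕ) : ℕ := (26 * C + 4) * (n / a ^ 3)

/-- The size of contexts, second stage. -/
def x0 (C a n : ℕ) : ℕ := (26 * C + 7) * (n / a ^ 3)

/-- The size of contexts, first stage. -/
def k1 (C a n : ℕ) : ℕ := (26 * C + 9) * (n / a ^ 3)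

/-- The number of steps of chains, first stage. -/
def u1 (C a n : ℕ) : ℕ := (8 * (26 * C + 9) + 4) * (n / a ^ 3)

/-- The expected number of blocked pigeons. -/
def xx (C a n : ℕ) : ℕ := (n / a ^ 2) / (4 * sa C a ^ kk C)

/-- The parameters of the world. -/
def prm (C a n : ℕ) : Prm where
  z := n / a ^ 3
  w := n / a ^ 2
  u := uu C a n
  x0 := x0 C a n
  c := cc C
  c2 := 2 * C
  kM := 2 * C
  r0 := r0 C
  rp := rp C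
  T := n / (16 * a)
  T1 := n / (64 * a)
  Sx := 700 * (n / a ^ 2)

/-- `a ≥ a₀` is large, `a ^ 6 ≤ n ≤ a ^ C`. -/
structure Rg (C a0 a n : ℕ) : Prop where
  hC : 1 ≤ C
  ha : a0 ≤ a
  h6 : a ^ 6 ≤ n
  hn : n ≤ a ^ C

/-- The positive 2-terms of the lines of `L` have small degree outside `U`, `J`. -/
structure Light {m n : ℕ} (L : Finset (Line (Edge m n))) (a : ℕ) (U : Line (Edge m n) → Finset (Edge m n))
    (J : Line (Edge m n) → Finset (Fin n)) : Prop where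
  two : ∀ D ∈ L, ∀ t ∈ D, t.card ≤ 2
  hU : ∀ D ∈ L, (U D).card * a ^ 5 ≤ n ^ 2
  hJ : ∀ D ∈ L, (J D).card * a ^ 5 ≤ n
  deg : ∀ D ∈ L, ∀ e, e ∉ XX (U D) (J D) →
    (univ.filter (fun f => f ∉ XX (U D) (J D) ∧ PP D e f)).card * a ^ 5 ≤ n

/-- NOK: the parameters are fine. -/
def Stmt_NOK : Prop := ∀ C : ℕ, ∃ a0 : ℕ, ∀ a n : ℕ, Rg C a0 a n → (prm C a n).OK

/-- The data of the second stage. -/
structure Stg (C a0 a n : ℕ) (L : Finset (Line (Edge (n ^ 2) n)))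
    (U : Line (Edge (n ^ 2) n) → Finset (Edge (n ^ 2) n)) (J : Line (Edge (n ^ 2) n) → Finset (Fin n)) (h : ℕ)
    (hl : Fin h → Fin n) (P0 : Finset (Fin (n ^ 2))) (E0 : Finset (Edge (n ^ 2) n)) : Prop where
  rg : Rg C a0 a n
  hL : L.card ≤ 2 ^ (n / a ^ 3)
  light : Light L a U J
  inj : Function.Injective hl
  hh : n ≤ 2 * h
  hP0 : P0.card ≤ n
  hE0 : ∀ e ∈ E0, e.1 ∈ P0

/-- `A1`, degrees and expansion. -/
def Stmt_A1 : Prop := ∀ C : ℕ, ∃ a0 : ℕ, ∀ (a n : ℕ) (L : Finset (Line (Edge (n ^ 2) n)))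
  (U : Line (Edge (n ^ 2) n) → Finset (Edge (n ^ 2) n)) (J : Line (Edge (n ^ 2) n) → Finset (Fin n)) (h : ℕ)
  (hl : Fin h → Fin n) (P0 : Finset (Fin (n ^ 2))) (E0 : Finset (Edge (n ^ 2) n)),
  Stg C a0 a n L U J h hl P0 E0 →
  pr (fun ω : Fin (n ^ 2) → Fin (sa C a) → Fin h × Bool => ¬
    ((∀ i, r0 C + cc C ≤ alive hl (∅ : Finset (Edge (n ^ 2) n)) ω i) ∧
      ∀ A : Finset (Fin (n ^ 2)), A.card ≤ 700 * (n / a ^ 2) →
        ∑ i ∈ A, alive hl (∅ : Finset (Edge (n ^ 2) n)) ω i ≤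
        (univ.filter (fun j => ∃ i ∈ A, ∃ l, (ω i l).2 = true ∧ hl (ω i l).1 = j)).card + cc C * A.card)) ≤
    1 / 16

/-- `A2`, holes. -/
def Stmt_A2 : Prop := ∀ C : ℕ, ∃ a0 : ℕ, ∀ (a n : ℕ) (L : Finset (Line (Edge (n ^ 2) n)))
  (U : Line (Edge (n ^ 2) n) → Finset (Edge (n ^ 2) n)) (J : Line (Edge (n ^ 2) n) → Finset (Fin n)) (h : ℕ)
  (hl : Fin h → Fin n) (P0 : Finset (Fin (n ^ 2))) (E0 : Finset (Edge (n ^ 2) n)),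
  Stg C a0 a n L U J h hl P0 E0 →
  pr (fun ω : Fin (n ^ 2) → Fin (sa C a) → Fin h × Bool => ¬
    ((∀ x : Fin h, n / (16 * a) ≤ ((E1 hl P0 ω).filter (fun e => e.2 = hl x)).card) ∧
      ∀ D ∈ L, ∀ ξ : Finset (Edge (n ^ 2) n), ξ.card ≤ x0 C a n → ∀ x : Fin h,
        n ^ 2 ≤ 2 * a * (univ.filter (fun i : Fin (n ^ 2) => i ∉ P0 ∧ (i, hl x) ∉ Pos D (E0 ∪ ξ))).card →
        n / (16 * a) ≤ ((E1 hl P0 ω).filter (fun e => e.2 = hl x ∧ e ∉ Pos D (E0 ∪ ξ))).card)) ≤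
    1 / 16

/-- The property of `A3`. -/
def FAl {m n h s : ℕ} (L : Finset (Line (Edge m n))) (z w u x0 k : ℕ) (hl : Fin h → Fin n) (P0 : Finset (Fin m))
    (E0 : Finset (Edge m n)) (ω : Fin m → Fin s → Fin h × Bool) : Prop :=
  ∀ D ∈ L, ∃ Hv : Finset (Edge m n) → Finset (Edge m n),
    (∀ ξ : Finset (Edge m n), ξ.card ≤ 3 * z → ¬ IsCh Hv (E1 hl P0 ω) u ξ ∅) ∧
    ∀ ξ : Finset (Edge m n), ξ.card ≤ x0 →
      (univ.filter (fun i => i ∉ P0 ∧ alive hl (Pos D (E0 ∪ ξ)) ω i < k)).card < w ∨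
      x0 < (univ.filter (fun i => i ∉ P0 ∧ alive hl (Pos D (E0 ∪ ξ)) ω i = 0 ∧ ∀ l, (ω i l).2 = true →
        ∀ v, enab D (E0 ∪ ξ) (i, hl (ω i l).1) = some v → v ∈ E1 hl P0 ω → v ∈ Hv ξ ∨ v.1 = i)).card

/-- `A3`, pigeons. -/
def Stmt_A3 : Prop := ∀ C : ℕ, ∃ a0 : ℕ, ∀ (a n : ℕ) (L : Finset (Line (Edge (n ^ 2) n)))
  (U : Line (Edge (n ^ 2) n) → Finset (Edge (n ^ 2) n)) (J : Line (Edge (n ^ 2) n) → Finset (Fin n)) (h : ℕ)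
  (hl : Fin h → Fin n) (P0 : Finset (Fin (n ^ 2))) (E0 : Finset (Edge (n ^ 2) n)),
  Stg C a0 a n L U J h hl P0 E0 →
  pr (fun ω : Fin (n ^ 2) → Fin (sa C a) → Fin h × Bool => ¬
    FAl L (n / a ^ 3) (n / a ^ 2) (uu C a n) (x0 C a n) (kk C) hl P0 E0 ω) ≤ 1 / 16

/-- Numerical estimates for `A3`. -/
def Stmt_N3 : Prop := ∀ C : ℕ, ∃ a0 : ℕ, ∀ a n h : ℕ, Rg C a0 a n → n ≤ 2 * h →
  24 ≤ xx C a n ∧ 4 * sa C a ^ kk C * xx C a n ≤ n / a ^ 2 ∧ x0 C a n ≤ xx C a n / 8 ∧ 2 ≤ sa C a ∧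
  (2 : ℝ) ^ (n / a ^ 3) * ((n ^ 2 * n + 1 : ℕ) : ℝ) ^ x0 C a n * ((1 / 2 : ℝ) ^ (n / a ^ 2 / 2) +
    (3 / 4 : ℝ) ^ xx C a n + (150 * ((sa C a : ℝ) / (2 * h)) * sa C a + 3 / (a : ℝ)) ^ (xx C a n / 24)) ≤
    1 / 32 ∧
  (2 : ℝ) ^ (n / a ^ 3) * ((n ^ 2 * n + 1 : ℕ) : ℝ) ^ (3 * (n / a ^ 3)) *
    (2 * ((a * sa C a * (xx C a n + 1) : ℕ) : ℝ) * ((sa C a : ℝ) / (2 * h))) ^ uu C a n ≤ 1 / 32

/-- `A4`, forced edges (first form). -/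
def Stmt_A4a : Prop := ∀ C : ℕ, ∃ a0 : ℕ, ∀ (a n : ℕ) (L : Finset (Line (Edge (n ^ 2) n)))
  (U : Line (Edge (n ^ 2) n) → Finset (Edge (n ^ 2) n)) (J : Line (Edge (n ^ 2) n) → Finset (Fin n)) (h : ℕ)
  (hl : Fin h → Fin n) (P0 : Finset (Fin (n ^ 2))) (E0 : Finset (Edge (n ^ 2) n)),
  Stg C a0 a n L U J h hl P0 E0 →
  pr (fun ω : Fin (n ^ 2) → Fin (sa C a) → Fin h × Bool => ¬ (FFo L (n / a ^ 3) E0 (E1 hl P0 ω) ∧
    FRun L (8 * (n / a ^ 2)) (40 * (n / a ^ 2) + n / a ^ 3) E0 (E1 hl P0 ω))) ≤ 1 / 16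

/-- `A4`, negative terms. -/
def Stmt_A4b : Prop := ∀ C : ℕ, ∃ a0 : ℕ, ∀ (a n : ℕ) (L : Finset (Line (Edge (n ^ 2) n)))
  (U : Line (Edge (n ^ 2) n) → Finset (Edge (n ^ 2) n)) (J : Line (Edge (n ^ 2) n) → Finset (Fin n)) (h : ℕ)
  (hl : Fin h → Fin n) (P0 : Finset (Fin (n ^ 2))) (E0 : Finset (Edge (n ^ 2) n)),
  Stg C a0 a n L U J h hl P0 E0 →
  pr (fun ω : Fin (n ^ 2) → Fin (sa C a) → Fin h × Bool => ¬ FNeg L (n / a ^ 3) E0 (E1 hl P0 ω)) ≤ 1 / 16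

/-- `A5`, exceptional edges and neighbourhoods. -/
def Stmt_A5a : Prop := ∀ C : ℕ, ∃ a0 : ℕ, ∀ (a n : ℕ) (L : Finset (Line (Edge (n ^ 2) n)))
  (U : Line (Edge (n ^ 2) n) → Finset (Edge (n ^ 2) n)) (J : Line (Edge (n ^ 2) n) → Finset (Fin n)) (h : ℕ)
  (hl : Fin h → Fin n) (P0 : Finset (Fin (n ^ 2))) (E0 : Finset (Edge (n ^ 2) n)),
  Stg C a0 a n L U J h hl P0 E0 →
  pr (fun ω : Fin (n ^ 2) → Fin (sa C a) → Fin h × Bool => ¬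
    (FExc L (fun D => XX (U D) (J D)) (n / a ^ 3) (E1 hl P0 ω) ∧
      FNb L (fun D => XX (U D) (J D)) (48 * (n / a ^ 2) + n / a ^ 3) (2 * C) (E1 hl P0 ω))) ≤ 1 / 16

/-- `A5`, few disjoint positive pairs at a set of `z` pigeons. -/
def Stmt_PPR : Prop := ∀ C : ℕ, ∃ a0 : ℕ, ∀ (a n : ℕ) (L : Finset (Line (Edge (n ^ 2) n)))
  (U : Line (Edge (n ^ 2) n) → Finset (Edge (n ^ 2) n)) (J : Line (Edge (n ^ 2) n) → Finset (Fin n)) (h : ℕ)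
  (hl : Fin h → Fin n) (P0 : Finset (Fin (n ^ 2))) (E0 : Finset (Edge (n ^ 2) n)),
  Stg C a0 a n L U J h hl P0 E0 →
  pr (fun ω : Fin (n ^ 2) → Fin (sa C a) → Fin h × Bool => ∃ D ∈ L, ∃ Y : Finset (Fin (n ^ 2)),
    Y.card = n / a ^ 3 ∧ HasDisj (QP D (XX (U D) (J D)) (univ.filter (fun e => e.1 ∈ Y))) (C * (n / a ^ 3))
      (fun A => A ⊆ E1 hl P0 ω)) ≤ 1 / 32

/-- `A5`, few disjoint positive pairs at a hole. -/
def Stmt_PPH : Prop := ∀ C : ℕ, ∃ a0 : ℕ, ∀ (a n : ℕ) (L : Finset (Line (Edge (n ^ 2) n)))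
  (U : Line (Edge (n ^ 2) n) → Finset (Edge (n ^ 2) n)) (J : Line (Edge (n ^ 2) n) → Finset (Fin n)) (h : ℕ)
  (hl : Fin h → Fin n) (P0 : Finset (Fin (n ^ 2))) (E0 : Finset (Edge (n ^ 2) n)),
  Stg C a0 a n L U J h hl P0 E0 →
  pr (fun ω : Fin (n ^ 2) → Fin (sa C a) → Fin h × Bool => ∃ D ∈ L, ∃ j : Fin n,
    HasDisj (QP D (XX (U D) (J D)) (univ.filter (fun e => e.2 = j))) (n / (64 * a))
      (fun A => A ⊆ E1 hl P0 ω)) ≤ 1 / 32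

/-- PPD: the covering set of the positive pairs. -/
def Stmt_PPD : Prop := ∀ (m n : ℕ) (D : Line (Edge m n)) (X E1 : Finset (Edge m n)) (z C T1 : ℕ), 1 ≤ z → 1 ≤ T1 →
  (∀ Y : Finset (Fin m), Y.card = z →
    ¬ HasDisj (QP D X (univ.filter (fun e => e.1 ∈ Y))) (C * z) (fun A => A ⊆ E1)) →
  (∀ j : Fin n, ¬ HasDisj (QP D X (univ.filter (fun e => e.2 = j))) T1 (fun A => A ⊆ E1)) →
  ∃ (V : Finset (Edge m n)) (Y : Finset (Fin m)), Y.card ≤ z ∧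
    (∀ e ∈ E1, ∀ f ∈ E1, e ∉ X → f ∉ X → PP D e f → e ∈ V ∨ f ∈ V) ∧
    (∀ i, i ∉ Y → (V.filter (fun e => e.1 = i)).card ≤ 2 * C) ∧
    ∀ j, (V.filter (fun e => e.2 = j)).card ≤ T1

/-- Numerical estimates for `ST1`. -/
def Stmt_N1 : Prop := ∀ C : ℕ, ∃ a0 : ℕ, ∀ a n : ℕ, Rg C a0 a n → 24 ≤ n / a ^ 2 ∧ a * (n / a ^ 2) ≤ n ∧
  (2 : ℝ) ^ (n / a ^ 3) * ((n ^ 2 * n + 1 : ℕ) : ℝ) ^ (k1 C a n + u1 C a n) *
    (4 ^ (n / a ^ 2 / 8) * (3 / 4 : ℝ) ^ (n / a ^ 2) +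
      (144 / ((n ^ 2 : ℕ) : ℝ) + 3 / (a : ℝ)) ^ (n / a ^ 2 / 24)) ≤ 1 / (8 * n) ∧
  (2 : ℝ) ^ (n / a ^ 3) * ((n ^ 2 * n + 1 : ℕ) : ℝ) ^ k1 C a n *
    (2 * (n : ℝ) * (1 / ((n ^ 2 : ℕ) : ℝ))) ^ u1 C a n ≤ 1 / (8 * n)

/-- ST1: the choice of `H₀`, `H₁` and the forced edges. -/
def Stmt_ST1 : Prop := ∀ C : ℕ, ∃ a0 : ℕ, ∀ (a n : ℕ) (L : Finset (Line (Edge (n ^ 2) n)))
  (U : Line (Edge (n ^ 2) n) → Finset (Edge (n ^ 2) n)) (J : Line (Edge (n ^ 2) n) → Finset (Fin n)),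
  Rg C a0 a n → L.card ≤ 2 ^ (n / a ^ 3) → Light L a U J →
  ∃ ω : Fin n → Bool × Fin (n ^ 2),
    n ≤ 2 * (univ.filter (fun j => (ω j).1 = true)).card ∧
    Function.Injective (fun j => (ω j).2) ∧
    (∀ D ∈ L, (U D ∩ Mt ω).card < n / a ^ 3) ∧
    ∀ D ∈ L, ∀ ξ : Finset (Edge (n ^ 2) n), ξ.card ≤ k1 C a n →
      (∃ ξ0 ⊆ M0 ω, (univ.filter (fun j : Fin n =>
        a * (univ.filter (fun i : Fin (n ^ 2) => (i, j) ∉ Pos D (ξ ∪ ξ0))).card < n ^ 2)).card < n / a ^ 2) ∨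
      ∃ e ∈ M0 ω, e ∈ Pos D (M0 ω ∪ ξ)

/-- HD: from `Pos D (ξ ∪ ξ0)` to `Pos D (E0 ∪ ξ)`. -/
def Stmt_HD : Prop := ∀ (a n : ℕ) (D : Line (Edge (n ^ 2) n)) (U E0 ξ ξ0 : Finset (Edge (n ^ 2) n))
  (J : Finset (Fin n)) (w : ℕ), 10 ≤ a → a ^ 6 ≤ n → (∀ t ∈ D, t.card ≤ 2) → U.card * a ^ 5 ≤ n ^ 2 →
  (∀ e, e ∉ XX U J → (univ.filter (fun f => f ∉ XX U J ∧ PP D e f)).card * a ^ 5 ≤ n) → E0.card ≤ n →
  ξ0 ⊆ E0 →
  (univ.filter (fun j : Fin n =>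
    a * (univ.filter (fun i : Fin (n ^ 2) => (i, j) ∉ Pos D ((ξ ∪ (E0 ∩ XX U J)) ∪ ξ0))).card < n ^ 2)).card < w →
  ∃ XH : Finset (Fin n), XH.card < w + J.card + 1 ∧ ∀ j, j ∉ E0.image Prod.snd → j ∉ XH →
    n ^ 2 ≤ 2 * a * (univ.filter (fun i : Fin (n ^ 2) => i ∉ E0.image Prod.fst ∧
      (i, j) ∉ Pos D (E0 ∪ ξ))).card

/-- WP: from samples to edges. -/
def Stmt_WP : Prop := ∀ (m n h s : ℕ) (L : Finset (Line (Edge m n))) (z w u x0 rp c : ℕ) (hl : Fin h → Fin n)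
  (E0 : Finset (Edge m n)) (ω : Fin m → Fin s → Fin h × Bool), (∀ D ∈ L, ∀ t ∈ D, t.card ≤ 2) →
  (∀ i, i ∉ E0.image Prod.fst → alive hl (∅ : Finset (Edge m n)) ω i ≤
    (opts (E1 hl (E0.image Prod.fst) ω) i).card + c) →
  FAl L z w u x0 (rp + c) hl (E0.image Prod.fst) E0 ω →
  FPosP L z w u x0 rp E0 (E1 hl (E0.image Prod.fst) ω)

/-- WLD: existence of a world. -/
def Stmt_WLD : Prop := ∀ C : ℕ, ∃ a0 : ℕ, ∀ (a n : ℕ) (L : Finset (Line (Edge (n ^ 2) n)))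
  (U : Line (Edge (n ^ 2) n) → Finset (Edge (n ^ 2) n)) (J : Line (Edge (n ^ 2) n) → Finset (Fin n)),
  Rg C a0 a n → L.card ≤ 2 ^ (n / a ^ 3) → Light L a U J →
  ∃ E0 E1 : Finset (Edge (n ^ 2) n), World2 (prm C a n) L (fun D => XX (U D) (J D)) E0 E1

/-- MAIN: the lower bound. -/
def Stmt_MAIN : Prop := ∀ ε δ : ℝ, 0 < ε → 0 < δ → ∃ n0 : ℕ, ∀ n ≥ n0,
  ∀ π : List (Line (Fin (n ^ 2) × Fin n)), IsRefutation 2 (ontoFPHP (n ^ 2) n) π →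
    (∀ D ∈ π, ∃ (U : Finset (Fin (n ^ 2) × Fin n)) (J : Finset (Fin n)),
      (U.card : ℝ) ≤ (n : ℝ) ^ (2 - ε) ∧ (J.card : ℝ) ≤ (n : ℝ) ^ (1 - ε) ∧
      ∀ x : Fin (n ^ 2) × Fin n, x ∉ U → x.2 ∉ J →
        ((univ.filter (fun y : Fin (n ^ 2) × Fin n => y ∉ U ∧ y.2 ∉ J ∧ x.1 ≠ y.1 ∧ x.2 ≠ y.2 ∧
          ({(x, true), (y, true)} : Finset ((Fin (n ^ 2) × Fin n) × Bool)) ∈ D)).card : ℝ) ≤
            (n : ℝ) ^ (1 - ε)) →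
    Real.exp ((n : ℝ) ^ (1 - δ)) ≤ π.length

end

end Pool.Agent.Work.MP_833881_lp
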