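import Pool.Agent.Work.MP_833881_lp.POT

/-!
# Block LFM: the locality lemma
-/

namespace Pool.Agent.Work.MP_833881_lp

open Finset Pool.Agent.Work.MP_833881_lc Pool.Agent.Work.MP_833881_lb
open scoped Classical

noncomputable section

namespace LFM

variable {m n : ℕ}

theorem sat_Tr {E0 E1 M : Finset (Edge m n)} {D : Line (Edge m n)} (h : satD (E0 ∪ E1) M D) (k : ℕ) :
    Tr E0 E1 D k M := by
  cases k with
  | zero => exact h
  | succ k => exact Or.inl h

theorem pair_eq {α : Type} [DecidableEq α] {t : Finset α} {a b : α} (ha : a ∈ t) (hb : b ∈ t) (hab : a ≠ b)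
    (ht : t.card ≤ 2) : t = {a, b} := by
  symm
  apply Finset.eq_of_subset_of_card_le
  · intro x hx
    rcases Finset.mem_insert.1 hx with rfl | hx
    · exact ha
    · rw [Finset.mem_singleton.1 hx]
      exact hb
  · rw [Finset.card_pair hab]
    exact ht

end LFM

open LFM

theorem stmt_LFM (hG : Stmt_GAME) (hH : Stmt_HALL) (hPre : Stmt_PRE) (hPot : Stmt_POT) : Stmt_LFM := by
  intro m n p L X E0 E1 hW hp D hD htr
  by_contra hnot
  obtain ⟨gmono, -, -, -⟩ := hG
  obtain ⟨V, Y, hY, hV1, hV2, hV3⟩ := hW.pp D hD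
  obtain ⟨M0, ξ, hB⟩ := hPre m n p L X E0 E1 hW hp D hD hnot Y hY
  obtain ⟨M, h1, h2, h3, h4, h5⟩ := hPot m n p L X E0 E1 hW hp D hD V Y M0 ξ hV2 hB
  have hM := h1.1
  have hξM : E0 ∪ ξ ⊆ M := Finset.union_subset hM.sup (hB.xi.trans h2)
  have hnsat : ¬ satD (E0 ∪ E1) M D := fun h => h1.2.2 (sat_Tr h _)
  obtain ⟨P, hP⟩ : ∃ P, P = (Pos D (E0 ∪ ξ) ∪ V) ∪ univ.filter (fun e => ∃ f ∈ M, PP D e f) := ⟨_, rfl⟩
  have hP1 : ∀ e, e ∈ P ↔ (e ∈ Pos D (E0 ∪ ξ) ∨ e ∈ V) ∨ ∃ f ∈ M, PP D e f := by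
    intro e
    rw [hP, Finset.mem_union, Finset.mem_union, Finset.mem_filter]
    simp
  have hw1 := hp.w1
  have hzw := hp.zw
  have hfin := hH m n E0 E1 M P D p.c p.Sx (2 * (48 * p.w + p.z) + 3 * (2 * (88 * p.w + 2 * p.z + 1)) + 1)
    (48 * p.w + p.z) (2 * (88 * p.w + 2 * p.z + 1)) hM hW.sep hW.exp h4 ?_ ?_ ?_ (by
      have := hp.S
      omega) le_rfl
  · exact hfin (gmono m n E0 E1 E0 M D _ hM.sup hM subset_rfl htr)
  · -- pigeons
    intro i hi
    have e1 := h5 i hi
    have e2 := hp.r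
    have e3 : (opts E1 i).filter (fun j => (i, j) ∉ Pos D (E0 ∪ ξ) ∧ (i, j) ∉ V ∧
        (∀ e ∈ M, e.2 ≠ j) ∧ ∀ f ∈ M, ¬ PP D (i, j) f) ⊆
        (opts E1 i).filter (fun j => (i, j) ∉ P ∧ ∀ e ∈ M, e.2 ≠ j) := by
      intro j hj
      obtain ⟨f1, f2, f3, f4, f5⟩ := Finset.mem_filter.1 hj
      refine Finset.mem_filter.2 ⟨f1, fun h => ?_, f4⟩
      rcases (hP1 _).1 h with (h | h) | ⟨f, hf, h⟩
      · exact f2 h
      · exact f3 h
      · exact f5 f hf h
    have e4 := Finset.card_le_card e3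
    omega
  · -- holes
    intro j hj
    have e1 := hB.holeP j (fun e he => hj e (h2 he))
    have hincl : E1.filter (fun e => e.2 = j ∧ e ∉ Pos D (E0 ∪ ξ)) ⊆
        (E1.filter (fun e => e.2 = j ∧ e ∉ P) ∪ V.filter (fun e => e.2 = j)) ∪
        (E1.filter (fun e => e.2 = j ∧ e.1 ∈ (M \ E0).image Prod.fst) ∪
          E1.filter (fun e => e ∉ X D ∧ ∃ f ∈ M \ E0, f ∉ X D ∧ PP D e f)) := by
      intro e he
      obtain ⟨f1, f2, f3⟩ := Finset.mem_filter.1 he
      by_cases heV : e ∈ V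
      · exact Finset.mem_union_left _ (Finset.mem_union_right _ (Finset.mem_filter.2 ⟨heV, f2⟩))
      by_cases heN : ∃ f ∈ M, PP D e f
      · refine Finset.mem_union_right _ ?_
        obtain ⟨f, hf, hPP⟩ := heN
        have hf0 : f ∉ E0 ∪ ξ := fun h => f3 (POT.mem_Pos_of_PP hPP h)
        have hfE0 : f ∉ E0 := fun h => hf0 (Finset.mem_union_left _ h)
        have hfE1 : f ∈ E1 := (Finset.mem_union.1 (hM.sub hf)).resolve_left hfE0
        have hfX : f ∉ X D := by
          intro h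
          rcases hB.det f hfE1 h with h' | ⟨g, hg, hgf, hgs⟩
          · exact hf0 (Finset.mem_union_right _ h')
          · exact hgf (hM.mat g (h2 hg) f hf hgs)
        by_cases heX : e ∈ X D
        · refine Finset.mem_union_left _ (Finset.mem_filter.2 ⟨f1, f2, ?_⟩)
          rcases hB.det e f1 heX with h' | ⟨g, hg, -, hgs⟩
          · exact absurd f2 (hj e (h2 (hB.xi h')))
          · rcases hgs with h' | h'
            · refine Finset.mem_image.2 ⟨g, Finset.mem_sdiff.2 ⟨h2 hg, fun h0 => ?_⟩, h'⟩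
              exact (hW.sep g h0 e f1).1 h'
            · exact absurd (h'.trans f2) (hj g (h2 hg))
        · exact Finset.mem_union_right _ (Finset.mem_filter.2 ⟨f1, heX, f,
            Finset.mem_sdiff.2 ⟨hf, hfE0⟩, hfX, hPP⟩)
      · refine Finset.mem_union_left _ (Finset.mem_union_left _ (Finset.mem_filter.2 ⟨f1, f2, fun h => ?_⟩))
        rcases (hP1 _).1 h with (h | h) | h
        · exact f3 h
        · exact heV h
        · exact heN h
    have e2 := (Finset.card_le_card hincl).trans (Finset.card_union_le _ _)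
    have e3 := Finset.card_union_le (E1.filter (fun e => e.2 = j ∧ e ∉ P)) (V.filter (fun e => e.2 = j))
    have e4 := Finset.card_union_le (E1.filter (fun e => e.2 = j ∧ e.1 ∈ (M \ E0).image Prod.fst))
      (E1.filter (fun e => e ∉ X D ∧ ∃ f ∈ M \ E0, f ∉ X D ∧ PP D e f))
    have e5 := hV3 j
    have e6 := hW.nb D hD (M \ E0) h4
    have e7 : (E1.filter (fun e => e.2 = j ∧ e.1 ∈ (M \ E0).image Prod.fst)).card ≤ 48 * p.w + p.z := by
      have e70 : ((M \ E0).image Prod.fst).card ≤ (M \ E0).card := Finset.card_image_le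
      refine le_trans ?_ (e70.trans h4)
      refine Finset.card_le_card_of_injOn Prod.fst (fun e he => (Finset.mem_filter.1 he).2.2) ?_
      intro e he f hf hef
      exact Prod.ext hef ((Finset.mem_filter.1 he).2.1.trans (Finset.mem_filter.1 hf).2.1.symm)
    have e8 := hp.hT
    have e9 : p.c2 * (48 * p.w + p.z) ≤ 49 * p.c2 * p.w := by
      calc p.c2 * (48 * p.w + p.z) ≤ p.c2 * (49 * p.w) := Nat.mul_le_mul_left _ (by omega)
        _ = 49 * p.c2 * p.w := by ring
    rw [Nat.add_mul] at e8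
    omega
  · -- the leaf
    intro M' hM' hMM' hnew hsat
    obtain ⟨t, ht, htM⟩ := hsat
    have htwo := hW.two D hD t ht
    have hdet : ∀ e ∈ M', e ∉ M → e ∈ E1 → e ∉ X D := by
      intro e he heM heE heX
      rcases hB.det e heE heX with h' | ⟨g, hg, hge, hgs⟩
      · exact heM (h2 (hB.xi h'))
      · exact hge (hM'.mat g (hMM' (h2 hg)) e he hgs)
    have hboth : ∀ f, f ∈ M' → (f, false) ∈ t → False := by
      intro f hf hft
      have hs1 : satL (E0 ∪ E1) M' (f, true) := ⟨fun _ => hf, fun h => by simp at h⟩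
      have hs2 : satL (E0 ∪ E1) M' (neg (f, true)) := htM (f, false) hft
      exact not_sat_both hM' (f, true) hs1 hs2
    have keyA : ∀ v, (v, true) ∈ t → v ∉ M → False := by
      intro v hv hvM
      have hvM' : v ∈ M' := (htM _ hv).1 rfl
      obtain ⟨hvE, hvP⟩ := hnew v hvM' hvM
      have hvP' : v ∉ Pos D (E0 ∪ ξ) := fun h => hvP ((hP1 v).2 (Or.inl (Or.inl h)))
      have hex : ∃ l ∈ t, l ≠ (v, true) ∧ ¬ (l.1 ≠ v ∧ (l.2 = true → l.1 ∈ E0 ∪ ξ) ∧
          (l.2 = false → l.1 ∉ E0 ∪ ξ)) := by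
        by_contra hcon
        push Not at hcon
        exact hvP' (Finset.mem_filter.2 ⟨Finset.mem_univ _, t, ht, hv, fun l hl hne => hcon l hl hne⟩)
      obtain ⟨l, hl, hlne, hlbad⟩ := hex
      obtain ⟨f, b⟩ := l
      have hfv : f ≠ v := by
        intro h
        cases b with
        | true => exact hlne (by rw [h])
        | false => exact hboth v hvM' (by rw [← h]; exact hl)
      cases b with
      | false =>
        apply hlbad
        refine ⟨hfv, fun h => by simp at h, fun _ h => ?_⟩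
        exact hboth f (hMM' (hξM h)) hl
      | true =>
        have hfM' : f ∈ M' := (htM _ hl).1 rfl
        have htt := pair_eq hv hl (fun h => hfv (congrArg Prod.fst h).symm) htwo
        have hPP : PP D v f := by
          refine ⟨fun h => hfv (hM'.mat v hvM' f hfM' (Or.inl h)).symm,
            fun h => hfv (hM'.mat v hvM' f hfM' (Or.inr h)).symm, ?_⟩
          rw [← htt]
          exact ht
        by_cases hfM : f ∈ M
        · exact hvP ((hP1 v).2 (Or.inr ⟨f, hfM, hPP⟩))
        · obtain ⟨hfE, hfP⟩ := hnew f hfM' hfM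
          rcases hV1 v hvE f hfE (hdet v hvM' hvM hvE) (hdet f hfM' hfM hfE) hPP with h | h
          · exact hvP ((hP1 v).2 (Or.inl (Or.inr h)))
          · exact hfP ((hP1 f).2 (Or.inl (Or.inr h)))
    obtain ⟨l, hl, hln⟩ : ∃ l ∈ t, ¬ satL (E0 ∪ E1) M l := by
      by_contra hcon
      push Not at hcon
      exact hnsat ⟨t, ht, hcon⟩
    obtain ⟨v, b⟩ := l
    cases b with
    | true =>
      exact keyA v hl (fun h => hln ⟨fun _ => h, fun h' => by simp at h'⟩)
    | false =>
      have hvM : v ∉ M := fun h => hboth v (hMM' h) hl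
      have hvF : v ∉ Fo D M := fun h => hvM (h3 h)
      have hex : ∃ l ∈ t, l ≠ (v, false) ∧ ¬ (l.2 = true ∧ l.1 ∈ M) := by
        by_contra hcon
        push Not at hcon
        exact hvF (Finset.mem_filter.2 ⟨Finset.mem_univ _, t, ht, hl, fun l hl hne => hcon l hl hne⟩)
      obtain ⟨l', hl', hlne, hlbad⟩ := hex
      obtain ⟨f, b'⟩ := l'
      cases b' with
      | true => exact keyA f hl' (fun h => hlbad ⟨rfl, h⟩)
      | false =>
        have hfv : f ≠ v := fun h => hlne (by rw [h])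
        have htt := pair_eq hl hl' (fun h => hfv (congrArg Prod.fst h).symm) htwo
        have hNN : NN D v f := ⟨fun h => hfv h.symm, by rw [← htt]; exact ht⟩
        rcases hB.nn v f hNN with h | h
        · exact hvM (h2 h)
        · exact hboth f (hMM' (h2 h)) hl'

end

end Pool.Agent.Work.MP_833881_lp
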