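import Pool.Agent.Work.MP_833881_lp.Interface

/-!
# Block LT: lower tail (helper19)
-/

namespace Pool.Agent.Work.MP_833881_lp

open Finset Pool.Agent.Work.MP_833881_lc Pool.Agent.Work.MP_833881_lb
open scoped Classical

theorem lt_exp : Real.exp (-(3 / 4 : ℝ)) ≤ 1 / 2 := by
  have h := Real.quadratic_le_exp_of_nonneg (x := (3 / 4 : ℝ)) (by norm_num)
  rw [Real.exp_neg, inv_le_comm₀ (Real.exp_pos _) (by norm_num)]
  linarith

theorem stmt_LT : Stmt_LT := by
  intro ι α _ _ _ _ p x hx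
  have hcard : (0 : ℝ) < Fintype.card α := by exact_mod_cast Fintype.card_pos
  have h1 := pr_le_of_prod (p := fun ω : ι → α => (univ.filter (fun i => p i (ω i))).card ≤ x / 4)
    (fun i y => if p i y then (1 / 4 : ℝ) else 1) ((1 / 4 : ℝ) ^ (x / 4)) (by positivity)
    (fun i y => by split_ifs <;> norm_num) (by
      intro ω hω
      rw [Finset.prod_ite, Finset.prod_const, Finset.prod_const_one, mul_one]
      exact pow_le_pow_of_le_one (by norm_num) (by norm_num) hω)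
  have h2 : ∀ i, (∑ y, if p i y then (1 / 4 : ℝ) else 1) / Fintype.card α ≤
      Real.exp (-(3 / 4) * pr (p i)) := by
    intro i
    have h3 : (∑ y, if p i y then (1 / 4 : ℝ) else 1) / Fintype.card α = 1 - 3 / 4 * pr (p i) := by
      have h4 : ∀ y, (if p i y then (1 / 4 : ℝ) else 1) = 1 - 3 / 4 * (if p i y then 1 else 0) := by
        intro y
        split_ifs <;> norm_num
      rw [Finset.sum_congr rfl (fun y _ => h4 y), Finset.sum_sub_distrib, ← Finset.mul_sum,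
        Finset.sum_boole, Finset.sum_const, Finset.card_univ, nsmul_eq_mul, mul_one, sub_div,
        div_self hcard.ne', pr_eq (p i)]
      ring
    rw [h3]
    have := Real.add_one_le_exp (-(3 / 4) * pr (p i))
    linarith
  have h5 : ∏ i, ((∑ y, if p i y then (1 / 4 : ℝ) else 1) / Fintype.card α) ≤ (1 / 2 : ℝ) ^ x := by
    calc ∏ i, ((∑ y, if p i y then (1 / 4 : ℝ) else 1) / Fintype.card α)
        ≤ ∏ i, Real.exp (-(3 / 4) * pr (p i)) := by
          refine Finset.prod_le_prod (fun i _ => ?_) (fun i _ => h2 i)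
          refine div_nonneg (Finset.sum_nonneg (fun y _ => ?_)) hcard.le
          split_ifs <;> norm_num
      _ = Real.exp (-(3 / 4) * ∑ i, pr (p i)) := by
          rw [← Real.exp_sum, Finset.mul_sum]
      _ ≤ Real.exp (x * (-(3 / 4))) := by
          apply Real.exp_le_exp.2
          linarith
      _ = (Real.exp (-(3 / 4))) ^ x := by rw [← Real.exp_nat_mul]
      _ ≤ (1 / 2 : ℝ) ^ x := pow_le_pow_left₀ (Real.exp_pos _).le lt_exp x
  refine h1.trans ?_
  rw [div_le_iff₀ (by positivity)]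
  refine h5.trans ?_
  obtain ⟨q, r, hr, hxqr⟩ : ∃ q r, x / 4 = q ∧ x = 4 * q + r := ⟨x / 4, x % 4, rfl, by omega⟩
  rw [hr, hxqr, pow_add, pow_add, pow_mul, pow_mul]
  have e1 : (1 / 2 : ℝ) ^ r ≤ (3 / 4 : ℝ) ^ r := pow_le_pow_left₀ (by norm_num) (by norm_num) r
  have e2 : ((1 / 2 : ℝ) ^ 4) ^ q ≤ ((3 / 4 : ℝ) ^ 4) ^ q * (1 / 4 : ℝ) ^ q := by
    rw [← mul_pow]
    exact pow_le_pow_left₀ (by norm_num) (by norm_num) q
  calc ((1 / 2 : ℝ) ^ 4) ^ q * (1 / 2 : ℝ) ^ r
      ≤ (((3 / 4 : ℝ) ^ 4) ^ q * (1 / 4 : ℝ) ^ q) * (3 / 4 : ℝ) ^ r :=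
        mul_le_mul e2 e1 (by positivity) (by positivity)
    _ = ((3 / 4 : ℝ) ^ 4) ^ q * (3 / 4 : ℝ) ^ r * (1 / 4 : ℝ) ^ q := by ring

end Pool.Agent.Work.MP_833881_lp
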