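import Pool.Agent.Work.MP_833881_lp.Interface

/-!
# Block MK: upper tail
-/

namespace Pool.Agent.Work.MP_833881_lp

open Finset Pool.Agent.Work.MP_833881_lc Pool.Agent.Work.MP_833881_lb
open scoped Classical

noncomputable section

theorem stmt_MK : Stmt_MK := by
  intro ι α _ _ _ _ p w hw
  have hcard : (0 : ℝ) < Fintype.card α := by exact_mod_cast Fintype.card_pos
  have h1 := pr_le_of_prod (p := fun ω : ι → α => w ≤ (univ.filter (fun i => p i (ω i))).card)
    (fun i x => if p i x then (2 : ℝ) else 1) (2 ^ w) (by positivity)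
    (fun i x => by split_ifs <;> norm_num)
    (fun ω hω => by
      rw [Finset.prod_ite, Finset.prod_const, Finset.prod_const, one_pow, mul_one]
      exact pow_le_pow_right₀ (by norm_num) hω)
  have havg : ∀ i, (∑ x, if p i x then (2 : ℝ) else 1) / Fintype.card α ≤ Real.exp (pr (p i)) := by
    intro i
    have h2 : ∀ x, (if p i x then (2 : ℝ) else 1) = 1 + (if p i x then (1 : ℝ) else 0) := by
      intro x
      split_ifs <;> norm_num
    rw [Finset.sum_congr rfl (fun x _ => h2 x), Finset.sum_add_distrib, ← Finset.sum_filter, add_div,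
      Finset.sum_const, Finset.sum_const, Finset.card_univ, nsmul_eq_mul, nsmul_eq_mul, mul_one, mul_one,
      div_self hcard.ne']
    have h3 := Real.add_one_le_exp (pr (p i))
    rw [pr_eq (p i)] at h3 ⊢
    linarith
  have hprod : ∏ i, ((∑ x, if p i x then (2 : ℝ) else 1) / Fintype.card α) ≤ Real.exp ((w : ℝ) / 4) := by
    refine (Finset.prod_le_prod (fun i _ => ?_) (fun i _ => havg i)).trans ?_
    · refine div_nonneg (Finset.sum_nonneg (fun x _ => ?_)) hcard.le
      split_ifs <;> norm_num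
    · rw [← Real.exp_sum]
      exact Real.exp_le_exp.2 hw
  refine h1.trans ?_
  obtain ⟨j, hj⟩ : ∃ j, w = w / 2 + j := ⟨w - w / 2, by omega⟩
  have hj2 : w ≤ 2 * j := by omega
  have hjr : (w : ℝ) ≤ 2 * j := by exact_mod_cast hj2
  have h5 : Real.exp ((w : ℝ) / 4) ≤ 2 ^ j := by
    have h6 : Real.exp (1 / 2) ≤ 2 := by
      have h7 : Real.exp (1 / 2) ^ 2 = Real.exp 1 := by
        rw [← Real.exp_nat_mul]
        norm_num
      have h8 := Real.exp_one_lt_d9
      nlinarith [Real.exp_pos (1 / 2 : ℝ)]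
    calc Real.exp ((w : ℝ) / 4) ≤ Real.exp (j * (1 / 2)) := Real.exp_le_exp.2 (by linarith)
      _ = Real.exp (1 / 2) ^ j := by rw [Real.exp_nat_mul]
      _ ≤ 2 ^ j := pow_le_pow_left₀ (Real.exp_pos _).le h6 j
  rw [div_le_iff₀ (by positivity)]
  refine (hprod.trans h5).trans (le_of_eq ?_)
  have h9 : (2 : ℝ) ^ w = 2 ^ (w / 2) * 2 ^ j := by
    rw [← pow_add, ← hj]
  rw [h9, one_div, inv_pow, ← mul_assoc, inv_mul_cancel₀ (by positivity), one_mul]

end

end Pool.Agent.Work.MP_833881_lp
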