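import Pool.Agent.Work.MP_833881_lp.Num

/-!
# Block N1: the numbers of the first stage
-/

namespace Pool.Agent.Work.MP_833881_lp

open Finset Pool.Agent.Work.MP_833881_lc Pool.Agent.Work.MP_833881_lb
open scoped Classical

noncomputable section

theorem N1aux.half_pow {x y : ℕ} (h : x ≤ y) : (1 / 2 : ℝ) ^ y ≤ (1 / 2) ^ x :=
  pow_le_pow_of_le_one (by norm_num) (by norm_num) h

theorem N1aux.quad (s : ℕ) : 1 + 160 * s ^ 2 + s + 4 ≤ 200 * (s + 2) ^ 2 := by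
  nlinarith

theorem stmt_N1 : Stmt_N1 := by
  intro C
  obtain ⟨a0, ha0⟩ := par2_ex C
  refine ⟨a0, fun a n hR => ?_⟩
  have hP := ha0 a n hR
  have ha60 : 2 ^ 60 ≤ a := hP.a_ge
  have haz : a * (n / a ^ 3) ≤ n / a ^ 2 := hP.par.aZ
  have hza : a ≤ n / a ^ 3 := hP.par.Za
  have hz1 := hP.z_pos
  have hna : a ≤ n := hP.par.n_ge
  have hWn := hP.par.Wn
  have hs := hP.par.s_ge
  have hCs := hP.C_le
  have hpw := hP.pw 2 (by omega)
  have hn2s := hP.par.n2s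
  have hM2 := hP.M2
  have hM4n := hP.M4n
  set w := n / a ^ 2 with hw
  set z := n / a ^ 3 with hz
  set s := sa C a with hsdef
  have hw1 : a ≤ w := by nlinarith
  have hwbig : 2 ^ 60 ≤ w := ha60.trans hw1
  have haw : a * w ≤ n := by
    refine le_trans ?_ hWn
    rw [Nat.mul_comm w, sq]
    have : 1 ≤ a := by omega
    nlinarith [Nat.zero_le (a * w)]
  refine ⟨by omega, haw, ?_, ?_⟩
  · -- first inequality
    have hnpos : 0 < n := by omega
    have hsum : 4 ^ (w / 8) * (3 / 4 : ℝ) ^ w + (144 / ((n ^ 2 : ℕ) : ℝ) + 3 / (a : ℝ)) ^ (w / 24) ≤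
        2 * (1 / 2 : ℝ) ^ (w / 8) := by
      have h1 : 4 ^ (w / 8) * (3 / 4 : ℝ) ^ w ≤ (1 / 2 : ℝ) ^ (w / 8) := by
        have h11 : (3 / 4 : ℝ) ^ w ≤ (3 / 4) ^ (8 * (w / 8)) :=
          pow_le_pow_of_le_one (by norm_num) (by norm_num) (by omega)
        calc 4 ^ (w / 8) * (3 / 4 : ℝ) ^ w ≤ 4 ^ (w / 8) * (3 / 4) ^ (8 * (w / 8)) :=
              mul_le_mul_of_nonneg_left h11 (by positivity)
          _ = (4 * (3 / 4) ^ 8) ^ (w / 8) := by rw [pow_mul, mul_pow]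
          _ ≤ (1 / 2) ^ (w / 8) := pow_le_pow_left₀ (by norm_num) (by norm_num) _
      have h2 : (144 / ((n ^ 2 : ℕ) : ℝ) + 3 / (a : ℝ)) ^ (w / 24) ≤ (1 / 2 : ℝ) ^ (w / 8) := by
        have haR : (2 : ℝ) ^ 60 ≤ a := by exact_mod_cast ha60
        have hnR : (2 : ℝ) ^ 60 ≤ ((n ^ 2 : ℕ) : ℝ) := by
          have : 2 ^ 60 ≤ n ^ 2 := by nlinarith
          exact_mod_cast this
        have h21 : 144 / ((n ^ 2 : ℕ) : ℝ) ≤ 144 / 2 ^ 60 := by
          apply div_le_div_of_nonneg_left (by norm_num) (by norm_num) hnR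
        have h22 : 3 / (a : ℝ) ≤ 3 / 2 ^ 60 := by
          apply div_le_div_of_nonneg_left (by norm_num) (by norm_num) haR
        have h23 : 144 / ((n ^ 2 : ℕ) : ℝ) + 3 / (a : ℝ) ≤ (1 / 2) ^ 24 := by
          refine (add_le_add h21 h22).trans ?_
          norm_num
        calc (144 / ((n ^ 2 : ℕ) : ℝ) + 3 / (a : ℝ)) ^ (w / 24) ≤ ((1 / 2) ^ 24) ^ (w / 24) :=
              pow_le_pow_left₀ (by positivity) h23 _
          _ = (1 / 2) ^ (24 * (w / 24)) := by rw [pow_mul]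
          _ ≤ (1 / 2) ^ (w / 8) := N1aux.half_pow (by omega)
      linarith
    have hk : k1 C a n + u1 C a n = (9 * (26 * C + 9) + 4) * z := by
      unfold k1 u1
      rw [← hz]
      ring
    have hM : ((n ^ 2 * n + 1 : ℕ) : ℝ) ^ (k1 C a n + u1 C a n) ≤
        (2 : ℝ) ^ (4 * s * ((9 * (26 * C + 9) + 4) * z)) := by
      rw [← hk]
      exact hM2 _
    -- the exponent
    have hexp : z + 4 * s * ((9 * (26 * C + 9) + 4) * z) + (s + 4) ≤ w / 8 := by
      have e1 : 9 * (26 * C + 9) + 4 ≤ 40 * s := by omega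
      have e2 : z + 4 * s * ((9 * (26 * C + 9) + 4) * z) + (s + 4) ≤ (200 * (s + 2) ^ 2) * z := by
        have e3 : 4 * s * ((9 * (26 * C + 9) + 4) * z) ≤ 4 * s * ((40 * s) * z) :=
          Nat.mul_le_mul_left _ (Nat.mul_le_mul_right _ e1)
        have e4 : s + 4 ≤ (s + 4) * z := Nat.le_mul_of_pos_right _ hz1
        calc z + 4 * s * ((9 * (26 * C + 9) + 4) * z) + (s + 4) ≤
            z + 4 * s * ((40 * s) * z) + (s + 4) * z := by omega
          _ = (1 + 160 * s ^ 2 + s + 4) * z := by ring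
          _ ≤ (200 * (s + 2) ^ 2) * z := by
              apply Nat.mul_le_mul_right
              exact N1aux.quad s
      have e5 : 8 * ((200 * (s + 2) ^ 2) * z) ≤ w := by
        refine le_trans ?_ haz
        have e7 : 1600 * (s + 2) ^ 2 ≤ a := by
          have e8 : (1600 : ℕ) ≤ 2 ^ 60 := by norm_num
          exact (Nat.mul_le_mul_right _ e8).trans hpw
        calc 8 * ((200 * (s + 2) ^ 2) * z) = (1600 * (s + 2) ^ 2) * z := by ring
          _ ≤ a * z := Nat.mul_le_mul_right _ e7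
      omega
    have h8n : (8 * n : ℝ) ≤ 2 ^ (s + 3) := by
      have : 8 * n ≤ 2 ^ (s + 3) := by
        rw [pow_add]
        omega
      exact_mod_cast this
    have hfin : (2 : ℝ) ^ z * (2 : ℝ) ^ (4 * s * ((9 * (26 * C + 9) + 4) * z)) * (2 * (1 / 2 : ℝ) ^ (w / 8)) ≤
        1 / 2 ^ (s + 3) := by
      rw [← pow_add, le_div_iff₀ (by positivity)]
      have e6 : (2 : ℝ) ^ (z + 4 * s * ((9 * (26 * C + 9) + 4) * z)) * (2 * (1 / 2) ^ (w / 8)) * 2 ^ (s + 3) =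
          2 ^ (z + 4 * s * ((9 * (26 * C + 9) + 4) * z) + (s + 4)) * (1 / 2) ^ (w / 8) := by
        rw [pow_add (2 : ℝ) (z + 4 * s * ((9 * (26 * C + 9) + 4) * z)) (s + 4),
          show s + 4 = (s + 3) + 1 by rfl, pow_succ (2 : ℝ) (s + 3)]
        ring
      rw [e6]
      calc (2 : ℝ) ^ (z + 4 * s * ((9 * (26 * C + 9) + 4) * z) + (s + 4)) * (1 / 2) ^ (w / 8) ≤
          2 ^ (w / 8) * (1 / 2) ^ (w / 8) :=
            mul_le_mul_of_nonneg_right (pow_le_pow_right₀ (by norm_num) hexp) (by positivity)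
        _ = 1 := by rw [← mul_pow]; norm_num
    calc (2 : ℝ) ^ z * ((n ^ 2 * n + 1 : ℕ) : ℝ) ^ (k1 C a n + u1 C a n) *
        (4 ^ (w / 8) * (3 / 4 : ℝ) ^ w + (144 / ((n ^ 2 : ℕ) : ℝ) + 3 / (a : ℝ)) ^ (w / 24)) ≤
        (2 : ℝ) ^ z * (2 : ℝ) ^ (4 * s * ((9 * (26 * C + 9) + 4) * z)) * (2 * (1 / 2 : ℝ) ^ (w / 8)) :=
          mul_le_mul (mul_le_mul_of_nonneg_left hM (by positivity)) hsum (by positivity) (by positivity)
      _ ≤ 1 / 2 ^ (s + 3) := hfin
      _ ≤ 1 / (8 * n) := div_le_div_of_nonneg_left (by norm_num) (by positivity) h8n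
  · -- second inequality
    have hnR : (2 : ℝ) ^ 60 ≤ n := by
      have : 2 ^ 60 ≤ n := ha60.trans hna
      exact_mod_cast this
    have hn0 : (0 : ℝ) < n := lt_of_lt_of_le (by norm_num) hnR
    have hM : ((n ^ 2 * n + 1 : ℕ) : ℝ) ≤ (n : ℝ) ^ 4 := by exact_mod_cast hM4n
    have hu : u1 C a n = 8 * k1 C a n + 4 * z := by
      unfold u1 k1
      rw [← hz]
      ring
    have hb : 2 * (n : ℝ) * (1 / ((n ^ 2 : ℕ) : ℝ)) = 2 / n := by
      push_cast
      field_simp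
    rw [hb, hu, pow_add, pow_mul, pow_mul]
    have hq1 : (2 / (n : ℝ)) ^ 8 ≤ 1 / (n : ℝ) ^ 4 := by
      rw [div_pow, div_le_div_iff₀ (by positivity) (by positivity), one_mul]
      have : (2 : ℝ) ^ 8 ≤ n ^ 4 := by
        refine le_trans ?_ (pow_le_pow_left₀ (by norm_num) hnR 4)
        norm_num
      calc (2 : ℝ) ^ 8 * n ^ 4 ≤ n ^ 4 * n ^ 4 := mul_le_mul_of_nonneg_right this (by positivity)
        _ = n ^ 8 := by ring
    have hq2 : 2 * (2 / (n : ℝ)) ^ 4 ≤ 1 / (8 * n) := by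
      rw [div_pow, ← mul_div_assoc, div_le_div_iff₀ (by positivity) (by positivity), one_mul]
      have : (256 : ℝ) ≤ n ^ 3 := by
        refine le_trans ?_ (pow_le_pow_left₀ (by norm_num) hnR 3)
        norm_num
      calc (2 : ℝ) * 2 ^ 4 * (8 * n) = 256 * n := by ring
        _ ≤ n ^ 3 * n := mul_le_mul_of_nonneg_right this hn0.le
        _ = n ^ 4 := by ring
    have hq3 : 2 * (2 / (n : ℝ)) ^ 4 ≤ 1 := by
      refine hq2.trans ?_
      rw [div_le_one (by positivity)]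
      linarith
    have hA : ((n ^ 2 * n + 1 : ℕ) : ℝ) ^ k1 C a n * ((2 / (n : ℝ)) ^ 8) ^ k1 C a n ≤ 1 := by
      rw [← mul_pow]
      refine pow_le_one₀ (by positivity) ?_
      calc ((n ^ 2 * n + 1 : ℕ) : ℝ) * (2 / (n : ℝ)) ^ 8 ≤ (n : ℝ) ^ 4 * (1 / (n : ℝ) ^ 4) :=
            mul_le_mul hM hq1 (by positivity) (by positivity)
        _ = 1 := by field_simp
    have hB : (2 : ℝ) ^ z * ((2 / (n : ℝ)) ^ 4) ^ z ≤ 1 / (8 * n) := by
      rw [← mul_pow]
      calc (2 * (2 / (n : ℝ)) ^ 4) ^ z ≤ (2 * (2 / (n : ℝ)) ^ 4) ^ 1 :=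
            pow_le_pow_of_le_one (by positivity) hq3 hz1
        _ = 2 * (2 / (n : ℝ)) ^ 4 := pow_one _
        _ ≤ 1 / (8 * n) := hq2
    have hre : ∀ x y u v : ℝ, x * y * (u * v) = (y * u) * (x * v) := fun x y u v => by ring
    rw [hre]
    refine (mul_le_mul hA hB (by positivity) (by norm_num)).trans (le_of_eq ?_)
    rw [one_mul]

end

end Pool.Agent.Work.MP_833881_lp
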