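import Pool.Agent.Work.MP_833881_lp.Interface
import Pool.Agent.Work.MP_833881_lp.Num

/-!
# Block N3 (helper63): numerical estimates for A3
-/

set_option autoImplicit false

namespace Pool.Agent.Work.MP_833881_lp

open Finset Pool.Agent.Work.MP_833881_lc Pool.Agent.Work.MP_833881_lb
open scoped Classical

noncomputable section

namespace N3

/-- the main comparison of the exponents -/
theorem xx_ge {C a n : ℕ} (hP : Par2 C a n) :
    2 ^ 58 * (sa C a + 2) ^ 60 * (n / a ^ 3) ≤ xx C a n := by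
  have hs : 0 < sa C a := by have := hP.C_le; have := hP.par.hC; omega
  unfold xx
  rw [Nat.le_div_iff_mul_le (by positivity)]
  calc 2 ^ 58 * (sa C a + 2) ^ 60 * (n / a ^ 3) * (4 * sa C a ^ kk C)
      = (2 ^ 60 * (sa C a + 2) ^ 60 * sa C a ^ kk C) * (n / a ^ 3) := by ring
    _ ≤ a * (n / a ^ 3) := Nat.mul_le_mul_right _ hP.pwk
    _ ≤ n / a ^ 2 := hP.par.aZ

/-- the exponent to beat -/
theorem T8 {C a n : ℕ} (hP : Par2 C a n) :
    2 ^ 48 * (n / a ^ 3 + 4 * sa C a * x0 C a n + 8) ≤ xx C a n := by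
  refine le_trans ?_ (xx_ge hP)
  have h1 := hP.C_le
  have h2 := hP.z_pos
  have h3 : (sa C a + 2) ^ 2 ≤ (sa C a + 2) ^ 60 := Nat.pow_le_pow_right (by omega) (by norm_num)
  have h4 : n / a ^ 3 + 4 * sa C a * x0 C a n + 8 ≤ 2 ^ 10 * (sa C a + 2) ^ 2 * (n / a ^ 3) := by
    unfold x0
    generalize n / a ^ 3 = z at *
    generalize sa C a = s at *
    have h5 : 26 * C + 7 ≤ 3 * s + 7 := by omega
    have h6 : 4 * s * ((26 * C + 7) * z) ≤ 4 * s * ((3 * s + 7) * z) :=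
      Nat.mul_le_mul_left _ (Nat.mul_le_mul_right _ h5)
    have h7 : z + 4 * s * ((3 * s + 7) * z) + 8 ≤ 2 ^ 10 * (s + 2) ^ 2 * z := by
      have h8 : 8 ≤ 8 * z := by omega
      have h9 : z + 4 * s * ((3 * s + 7) * z) + 8 * z ≤ 2 ^ 10 * (s + 2) ^ 2 * z := by
        have : z + 4 * s * ((3 * s + 7) * z) + 8 * z = (9 + 4 * s * (3 * s + 7)) * z := by ring
        rw [this]
        apply Nat.mul_le_mul_right
        nlinarith
      omega
    omega
  calc 2 ^ 48 * (n / a ^ 3 + 4 * sa C a * x0 C a n + 8)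
      ≤ 2 ^ 48 * (2 ^ 10 * (sa C a + 2) ^ 2 * (n / a ^ 3)) := Nat.mul_le_mul_left _ h4
    _ = 2 ^ 58 * (sa C a + 2) ^ 2 * (n / a ^ 3) := by ring
    _ ≤ 2 ^ 58 * (sa C a + 2) ^ 60 * (n / a ^ 3) :=
        Nat.mul_le_mul_right _ (Nat.mul_le_mul_left _ h3)

theorem half_pow {k T : ℕ} (h : T ≤ k) : (1 / 2 : ℝ) ^ k ≤ (1 / 2 : ℝ) ^ T :=
  pow_le_pow_of_le_one (by norm_num) (by norm_num) h

theorem three_quarter {x T : ℕ} (h : 3 * T ≤ x) : (3 / 4 : ℝ) ^ x ≤ (1 / 2 : ℝ) ^ T := by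
  calc (3 / 4 : ℝ) ^ x ≤ (3 / 4 : ℝ) ^ (3 * T) :=
        pow_le_pow_of_le_one (by norm_num) (by norm_num) h
    _ = ((3 / 4 : ℝ) ^ 3) ^ T := by rw [pow_mul]
    _ ≤ (1 / 2 : ℝ) ^ T := pow_le_pow_left₀ (by norm_num) (by norm_num) T

end N3

open N3 in
theorem stmt_N3 : Stmt_N3 := by
  intro C
  obtain ⟨a0, ha0⟩ := par2_ex C
  refine ⟨a0, fun a n h hR hh => ?_⟩
  have hP := ha0 a n hR
  have hT := T8 hP
  have hC := hP.C_le
  have hC1 := hP.par.hC
  have hz := hP.z_pos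
  have hw := hP.w_pos
  have hn := hP.n_pos
  have haa := hP.a_ge
  have hapos := hP.a_pos
  have hs2 : 2 ≤ sa C a := by omega
  have ha64 : (64 : ℝ) ≤ a := by
    have : 64 ≤ a := by omega
    exact_mod_cast this
  have hsa : 2 ^ 60 * (sa C a + 2) ^ 2 ≤ a := hP.pw 2 (by omega)
  have hxw : 4 * sa C a ^ kk C * xx C a n ≤ n / a ^ 2 := by
    unfold xx; exact Nat.mul_div_le _ _
  have hwn : n / a ^ 2 * a ^ 2 ≤ n := Nat.div_mul_le_self _ _
  have hkk : 1 ≤ kk C := by unfold kk cc; omega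
  have hskk : sa C a ≤ sa C a ^ kk C := by
    calc sa C a = sa C a ^ 1 := (pow_one _).symm
      _ ≤ sa C a ^ kk C := Nat.pow_le_pow_right (by omega) hkk
  have hx1 : 24 ≤ xx C a n := by omega
  have hwx : xx C a n ≤ n / a ^ 2 := by
    refine le_trans ?_ hxw
    have : 1 ≤ 4 * sa C a ^ kk C := by omega
    nlinarith
  refine ⟨hx1, hxw, ?_, hs2, ?_, ?_⟩
  · rw [Nat.le_div_iff_mul_le (by norm_num)]
    have h1 : x0 C a n ≤ 4 * sa C a * x0 C a n := Nat.le_mul_of_pos_left _ (by omega)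
    omega
  · -- the first estimate
    obtain ⟨T, hTd⟩ : ∃ T : ℕ, T = n / a ^ 3 + 4 * sa C a * x0 C a n := ⟨_, rfl⟩
    rw [← hTd] at hT
    have e0 : (2 : ℝ) ^ (n / a ^ 3) * ((n ^ 2 * n + 1 : ℕ) : ℝ) ^ x0 C a n ≤ 2 ^ T := by
      rw [hTd, pow_add]
      exact mul_le_mul_of_nonneg_left (hP.M2 _) (by positivity)
    have e1 : (1 / 2 : ℝ) ^ (n / a ^ 2 / 2) ≤ (1 / 2 : ℝ) ^ (T + 8) := by
      apply half_pow
      rw [Nat.le_div_iff_mul_le (by norm_num)]
      omega
    have e2 : (3 / 4 : ℝ) ^ xx C a n ≤ (1 / 2 : ℝ) ^ (T + 8) := three_quarter (by omega)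
    have hq : 150 * ((sa C a : ℝ) / (2 * h)) * sa C a + 3 / (a : ℝ) ≤ 1 / 2 := by
      have h1 := hP.q_le h hh
      have hnr : (0 : ℝ) < n := by exact_mod_cast hn
      have har : (0 : ℝ) < a := by exact_mod_cast hapos
      have h2 : 150 * ((sa C a : ℝ) / (2 * h)) * sa C a ≤ 1 / 4 := by
        calc 150 * ((sa C a : ℝ) / (2 * h)) * sa C a ≤ 150 * ((sa C a : ℝ) / n) * sa C a := by
              apply mul_le_mul_of_nonneg_right _ (Nat.cast_nonneg _)
              exact mul_le_mul_of_nonneg_left h1 (by norm_num)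
          _ = 150 * (sa C a : ℝ) ^ 2 / n := by ring
          _ ≤ 1 / 4 := by
              rw [div_le_div_iff₀ hnr (by norm_num)]
              have h3 : 600 * sa C a ^ 2 ≤ n := by
                have h4 : a ≤ n := by
                  calc a = a ^ 1 := (pow_one _).symm
                    _ ≤ a ^ 6 := Nat.pow_le_pow_right hapos (by norm_num)
                    _ ≤ n := hR.h6
                have h5 : sa C a ^ 2 ≤ (sa C a + 2) ^ 2 := Nat.pow_le_pow_left (by omega) 2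
                have h6 : 600 * sa C a ^ 2 ≤ 2 ^ 60 * (sa C a + 2) ^ 2 :=
                  Nat.mul_le_mul (by norm_num) h5
                omega
              have h7 : 600 * (sa C a : ℝ) ^ 2 ≤ n := by exact_mod_cast h3
              linarith
      have h3 : 3 / (a : ℝ) ≤ 1 / 4 := by
        rw [div_le_div_iff₀ har (by norm_num)]
        linarith
      linarith
    have hq0 : 0 ≤ 150 * ((sa C a : ℝ) / (2 * h)) * sa C a + 3 / (a : ℝ) := by positivity
    have e3 : (150 * ((sa C a : ℝ) / (2 * h)) * sa C a + 3 / (a : ℝ)) ^ (xx C a n / 24) ≤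
        (1 / 2 : ℝ) ^ (T + 8) := by
      refine (pow_le_pow_left₀ hq0 hq _).trans (half_pow ?_)
      rw [Nat.le_div_iff_mul_le (by norm_num)]
      omega
    calc _ ≤ (2 : ℝ) ^ T * ((1 / 2 : ℝ) ^ (T + 8) + (1 / 2 : ℝ) ^ (T + 8) +
          (1 / 2 : ℝ) ^ (T + 8)) :=
          mul_le_mul e0 (add_le_add (add_le_add e1 e2) e3) (by positivity) (by positivity)
      _ = 3 * ((2 : ℝ) ^ T * (1 / 2 : ℝ) ^ T) * (1 / 2 : ℝ) ^ 8 := by rw [pow_add]; ring
      _ = 3 * (1 / 2 : ℝ) ^ 8 := by rw [← mul_pow]; norm_num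
      _ ≤ 1 / 32 := by norm_num
  · -- the second estimate
    have hnr : (0 : ℝ) < n := by exact_mod_cast hn
    have har : (0 : ℝ) < a := by exact_mod_cast hapos
    have ha1 : (1 : ℝ) ≤ a := by exact_mod_cast hapos
    have hb : 2 * ((a * sa C a * (xx C a n + 1) : ℕ) : ℝ) * ((sa C a : ℝ) / (2 * h)) ≤
        sa C a / a := by
      have h1 := hP.q_le h hh
      have h2 : 2 * (a * sa C a * (xx C a n + 1)) ≤ a * (n / a ^ 2) := by
        have h3 : sa C a * xx C a n * 4 ≤ n / a ^ 2 := by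
          refine le_trans ?_ hxw
          nlinarith [Nat.zero_le (xx C a n)]
        have h4 : sa C a * (xx C a n + 1) ≤ sa C a * (xx C a n * 2) :=
          Nat.mul_le_mul_left _ (by omega)
        have h5 : 2 * (sa C a * (xx C a n + 1)) ≤ n / a ^ 2 := by
          calc 2 * (sa C a * (xx C a n + 1)) ≤ 2 * (sa C a * (xx C a n * 2)) :=
                Nat.mul_le_mul_left _ h4
            _ = sa C a * xx C a n * 4 := by ring
            _ ≤ _ := h3
        calc 2 * (a * sa C a * (xx C a n + 1)) = a * (2 * (sa C a * (xx C a n + 1))) := by ring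
          _ ≤ a * (n / a ^ 2) := Nat.mul_le_mul_left _ h5
      have h3 : 2 * ((a * sa C a * (xx C a n + 1) : ℕ) : ℝ) ≤ (a : ℝ) * ((n / a ^ 2 : ℕ) : ℝ) := by
        exact_mod_cast h2
      have h4 : ((n / a ^ 2 : ℕ) : ℝ) * (a : ℝ) ^ 2 ≤ n := by exact_mod_cast hwn
      calc 2 * ((a * sa C a * (xx C a n + 1) : ℕ) : ℝ) * ((sa C a : ℝ) / (2 * h))
          ≤ ((a : ℝ) * ((n / a ^ 2 : ℕ) : ℝ)) * (sa C a / n) :=
            mul_le_mul h3 h1 (by positivity) (by positivity)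
        _ ≤ sa C a / a := by
            rw [mul_div_assoc', div_le_div_iff₀ hnr har]
            calc (a : ℝ) * ((n / a ^ 2 : ℕ) : ℝ) * sa C a * a =
                (((n / a ^ 2 : ℕ) : ℝ) * (a : ℝ) ^ 2) * sa C a := by ring
              _ ≤ n * sa C a := mul_le_mul_of_nonneg_right h4 (Nat.cast_nonneg _)
              _ = sa C a * n := by ring
    have hb0 : 0 ≤ 2 * ((a * sa C a * (xx C a n + 1) : ℕ) : ℝ) * ((sa C a : ℝ) / (2 * h)) := by
      positivity
    have hs1 : ((sa C a : ℝ) / a) ^ 2 ≤ 1 / a := by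
      rw [div_pow, div_le_div_iff₀ (by positivity) har, one_mul]
      have h1 : sa C a ^ 2 ≤ a := by
        have h5 : sa C a ^ 2 ≤ (sa C a + 2) ^ 2 := Nat.pow_le_pow_left (by omega) 2
        omega
      have h2 : (sa C a : ℝ) ^ 2 ≤ a := by exact_mod_cast h1
      nlinarith
    obtain ⟨z, hzd⟩ : ∃ z : ℕ, z = n / a ^ 3 := ⟨_, rfl⟩
    have e1 : (2 * ((a * sa C a * (xx C a n + 1) : ℕ) : ℝ) * ((sa C a : ℝ) / (2 * h))) ^ uu C a n ≤
        (1 / (a : ℝ)) ^ ((13 * C + 2) * z) := by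
      refine (pow_le_pow_left₀ hb0 hb _).trans ?_
      have : uu C a n = 2 * ((13 * C + 2) * z) := by unfold uu; rw [hzd]; ring
      rw [this, pow_mul]
      exact pow_le_pow_left₀ (by positivity) hs1 _
    have e2 := hP.Mk (3 * (n / a ^ 3))
    rw [← hzd] at e2 hz ⊢
    calc (2 : ℝ) ^ z * ((n ^ 2 * n + 1 : ℕ) : ℝ) ^ (3 * z) *
          (2 * ((a * sa C a * (xx C a n + 1) : ℕ) : ℝ) * ((sa C a : ℝ) / (2 * h))) ^ uu C a n
        ≤ (2 : ℝ) ^ z * (a : ℝ) ^ (4 * C * (3 * z)) * (1 / (a : ℝ)) ^ ((13 * C + 2) * z) := by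
          apply mul_le_mul _ e1 (by positivity) (by positivity)
          exact mul_le_mul_of_nonneg_left e2 (by positivity)
      _ = (2 : ℝ) ^ z * ((a : ℝ) ^ (12 * C * z) * (1 / (a : ℝ)) ^ (12 * C * z)) *
            (1 / (a : ℝ)) ^ ((C + 1) * z) * (1 / (a : ℝ)) ^ z := by
          have g1 : 4 * C * (3 * z) = 12 * C * z := by ring
          have g2 : (13 * C + 2) * z = 12 * C * z + (C + 1) * z + z := by ring
          rw [g1, g2, pow_add, pow_add]
          ring
      _ = (2 / (a : ℝ)) ^ z * (1 / (a : ℝ)) ^ ((C + 1) * z) := by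
          rw [← mul_pow, mul_one_div_cancel har.ne', one_pow, mul_one]
          have : (2 / (a : ℝ)) ^ z = (2 : ℝ) ^ z * (1 / (a : ℝ)) ^ z := by
            rw [← mul_pow, mul_one_div]
          rw [this]
          ring
      _ ≤ (2 / (a : ℝ)) ^ z * 1 := by
          apply mul_le_mul_of_nonneg_left _ (by positivity)
          apply pow_le_one₀ (by positivity)
          rw [div_le_one har]
          exact ha1
      _ = (2 / (a : ℝ)) ^ z := mul_one _
      _ ≤ (2 / (a : ℝ)) ^ 1 := by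
          apply pow_le_pow_of_le_one (by positivity) _ hz
          rw [div_le_one har]
          linarith
      _ ≤ 1 / 32 := by
          rw [pow_one, div_le_div_iff₀ har (by norm_num)]
          linarith

end

end Pool.Agent.Work.MP_833881_lp
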