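import Pool.Agent.Work.MP_833881_lp.Interface

/-!
# Block NOK: the parameters are fine (helper19)
-/

namespace Pool.Agent.Work.MP_833881_lp

open Finset Pool.Agent.Work.MP_833881_lc Pool.Agent.Work.MP_833881_lb
open scoped Classical

theorem stmt_NOK : Stmt_NOK := by
  intro C
  refine ⟨64 * (98 * C + 700), ?_⟩
  intro a n hR
  have ha : 64 * (98 * C + 700) ≤ a := hR.ha
  have ha0 : 0 < a := by omega
  have h2 : a ^ 2 ≤ n := (Nat.pow_le_pow_right ha0 (by norm_num)).trans hR.h6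
  have hw : 1 ≤ n / a ^ 2 := (Nat.one_le_div_iff (by positivity)).2 h2
  have hzw : a * (n / a ^ 3) ≤ n / a ^ 2 := by
    have e : n / a ^ 3 = n / a ^ 2 / a := by rw [Nat.div_div_eq_div_mul, pow_succ]
    rw [e]
    exact Nat.mul_div_le _ _
  have hz : (26 * C + 11) * (n / a ^ 3) ≤ n / a ^ 2 :=
    (Nat.mul_le_mul_right _ (by omega)).trans hzw
  have hz1 : n / a ^ 3 ≤ n / a ^ 2 := Nat.div_le_div_left (Nat.pow_le_pow_right ha0 (by norm_num)) (by positivity)
  refine ⟨hw, hz1, ?_, ?_, ?_, ?_, ?_, ?_, ?_⟩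
  · show 7 * (n / a ^ 3) + (26 * C + 4) * (n / a ^ 3) ≤ n / a ^ 2
    calc 7 * (n / a ^ 3) + (26 * C + 4) * (n / a ^ 3) = (26 * C + 11) * (n / a ^ 3) := by ring
      _ ≤ _ := hz
  · show 3 * (n / a ^ 3) + (26 * C + 4) * (n / a ^ 3) ≤ (26 * C + 7) * (n / a ^ 3)
    exact le_of_eq (by ring)
  · show 3 * cc C + 2 ≤ 3 * cc C + 2
    exact le_rfl
  · show 2 * C + r0 C + 13 * (cc C + 2 * C) ≤ 2 * C + r0 C + 13 * (cc C + 2 * C)
    exact le_rfl
  · show 1 ≤ 22 * C + 1
    omega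
  · exact le_rfl
  · show n / (64 * a) + (49 * (2 * C) + 700) * (n / a ^ 2) ≤ n / (16 * a)
    have e1 : (49 * (2 * C) + 700) * (n / a ^ 2) ≤ n / (64 * a) := by
      rw [Nat.le_div_iff_mul_le (by positivity)]
      calc (49 * (2 * C) + 700) * (n / a ^ 2) * (64 * a)
          = (64 * (98 * C + 700)) * a * (n / a ^ 2) := by ring
        _ ≤ a * a * (n / a ^ 2) := Nat.mul_le_mul_right _ (Nat.mul_le_mul_right _ ha)
        _ = a ^ 2 * (n / a ^ 2) := by ring
        _ ≤ n := Nat.mul_div_le _ _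
    have e2 : 4 * (n / (64 * a)) ≤ n / (16 * a) := by
      have e : n / (64 * a) = n / (16 * a) / 4 := by
        rw [Nat.div_div_eq_div_mul]
        congr 1
        ring
      rw [e]
      exact Nat.mul_div_le _ _
    omega

end Pool.Agent.Work.MP_833881_lp
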