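import Pool.Agent.Work.MP_833881_lp.Interface
import Pool.Agent.Work.MP_833881_lb.RSN
import Pool.Agent.Work.MP_833881_lb.MGF

/-!
# Block P2: blocked pigeons with determined enablers
-/

namespace Pool.Agent.Work.MP_833881_lp

open Finset Pool.Agent.Work.MP_833881_lc Pool.Agent.Work.MP_833881_lb
open scoped Classical

theorem P2_greedy {ι : Type} (f : ι → ℝ) (h0 : ∀ i, 0 ≤ f i) (h1 : ∀ i, f i ≤ 1) (x : ℝ)
    (hx : 0 ≤ x) (S : Finset ι) : x ≤ ∑ i ∈ S, f i → ∃ R ⊆ S, x ≤ ∑ i ∈ R, f i ∧
      ∑ i ∈ R, f i ≤ x + 1 := by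
  induction S using Finset.induction_on with
  | empty =>
    intro h
    exact ⟨∅, Finset.Subset.refl _, h, by simp only [Finset.sum_empty]; linarith⟩
  | insert a S ha ih =>
    intro h
    by_cases hS : x ≤ ∑ i ∈ S, f i
    · obtain ⟨R, hR, h2, h3⟩ := ih hS
      exact ⟨R, hR.trans (Finset.subset_insert _ _), h2, h3⟩
    · refine ⟨insert a S, Finset.Subset.refl _, h, ?_⟩
      rw [Finset.sum_insert ha]
      push Not at hS
      have := h1 a
      linarith

/-- the expected size of a random set -/
theorem P2_card_avg {α V : Type} [Fintype α] [Fintype V] (E : α → Finset V) (B : α → Prop) (s : ℕ)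
    (h : ∀ y, (E y).card ≤ s) (h' : ∀ y, ¬ B y → E y = ∅) :
    ∑ v, pr (fun y => v ∈ E y) ≤ s * pr B := by
  have h1 : ∀ v, pr (fun y => v ∈ E y) = (∑ y, if v ∈ E y then (1 : ℝ) else 0) / Fintype.card α := by
    intro v
    rw [pr_eq (fun y => v ∈ E y), ← Finset.sum_filter]
    simp
  rw [Finset.sum_congr rfl (fun v _ => h1 v), ← Finset.sum_div, Finset.sum_comm, pr_eq B,
    ← mul_div_assoc]
  refine div_le_div_of_nonneg_right ?_ (Nat.cast_nonneg _)
  have h2 : ∀ y, (∑ v, if v ∈ E y then (1 : ℝ) else 0) ≤ s * (if B y then 1 else 0) := by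
    intro y
    rw [← Finset.sum_filter, Finset.sum_const, nsmul_eq_mul, mul_one]
    by_cases hB : B y
    · rw [if_pos hB, mul_one]
      have : (univ.filter (fun v => v ∈ E y)) = E y := by
        ext v
        simp
      rw [this]
      exact_mod_cast h y
    · rw [if_neg hB, mul_zero, h' y hB]
      simp
  refine (Finset.sum_le_sum fun y _ => h2 y).trans ?_
  rw [← Finset.mul_sum, Finset.sum_boole]

theorem stmt_P2 (hENB : Stmt_ENB) (hMK : Stmt_MK) (hLT : Stmt_LT) : Stmt_P2 := by
  intro m n h s hl P0 A φ k a w x hinj hh hs hk ha hx hw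
  have : Nonempty (Fin h × Bool) := ⟨(⟨0, hh⟩, true)⟩
  have hal : ∀ (ω : Fin m → Fin s → Fin h × Bool) (i : Fin m),
      alive hl A ω i = (MGFaux.Al (fun y => (i, hl y) ∉ A) (ω i)).card := by
    intro ω i
    unfold alive MGFaux.Al
    congr 1
    ext l
    simp only [mem_filter]
  set al : Fin m → (Fin s → Fin h × Bool) → ℕ := fun i y =>
    (MGFaux.Al (fun y => (i, hl y) ∉ A) y).card with hal'
  set p0 : Fin m → ℝ := fun i => pr (fun y : Fin s → Fin h × Bool => i ∉ P0 ∧ al i y = 0) with hp0
  have hhalf : (0 : ℝ) ≤ (1 / 2 : ℝ) ^ (w / 2) := by positivity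
  have h34 : (0 : ℝ) ≤ (3 / 4 : ℝ) ^ x := by positivity
  have hlast : (0 : ℝ) ≤ (150 * ((s : ℝ) / (2 * h)) * s + 3 / (a : ℝ)) ^ (x / 24) := by positivity
  rcases lt_or_ge (∑ i, p0 i) (x : ℝ) with hc | hc
  · -- few blocked pigeons
    refine ⟨∅, by simp, ?_⟩
    have hlt : ∀ i, pr (fun y : Fin s → Fin h × Bool => i ∉ P0 ∧ al i y < k) ≤ (s : ℝ) ^ k * p0 i := by
      intro i
      by_cases hi : i ∈ P0
      · rw [pr_false (fun y hy => hy.1 hi)]
        exact mul_nonneg (by positivity) (pr_nonneg _)
      · have e1 : ∀ q : (Fin s → Fin h × Bool) → Prop,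
            pr (fun y : Fin s → Fin h × Bool => i ∉ P0 ∧ q y) = pr q := by
          intro q
          congr 1
          ext y
          exact ⟨fun h => h.2, fun h => ⟨hi, h⟩⟩
        rw [hp0]
        simp only [e1]
        rw [pr_eq (fun y => al i y < k), pr_eq (fun y => al i y = 0), ← mul_div_assoc]
        refine div_le_div_of_nonneg_right ?_ (Nat.cast_nonneg _)
        have := MGFaux.card_lt (fun y => (i, hl y) ∉ A) hs k
        have e2 : (univ.filter (fun y : Fin s → Fin h × Bool => al i y < k)).card ≤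
            s ^ k * (univ.filter (fun y : Fin s → Fin h × Bool => al i y = 0)).card := this
        exact_mod_cast e2
    have hsum : ∑ i, pr (fun y : Fin s → Fin h × Bool => i ∉ P0 ∧ al i y < k) ≤ (w : ℝ) / 4 := by
      calc ∑ i, pr (fun y : Fin s → Fin h × Bool => i ∉ P0 ∧ al i y < k)
          ≤ ∑ i, (s : ℝ) ^ k * p0 i := Finset.sum_le_sum fun i _ => hlt i
        _ = (s : ℝ) ^ k * ∑ i, p0 i := by rw [Finset.mul_sum]
        _ ≤ (s : ℝ) ^ k * x := mul_le_mul_of_nonneg_left hc.le (by positivity)
        _ ≤ (w : ℝ) / 4 := by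
          have : (4 : ℝ) * s ^ k * x ≤ w := by exact_mod_cast hw
          linarith
    have h1 : pr (fun ω : Fin m → Fin s → Fin h × Bool =>
        w ≤ (univ.filter (fun i => i ∉ P0 ∧ al i (ω i) < k)).card) ≤ (1 / 2 : ℝ) ^ (w / 2) := by
      refine le_trans (pr_mono ?_)
        (hMK (Fin m) (Fin s → Fin h × Bool) (fun i y => i ∉ P0 ∧ al i y < k) w hsum)
      intro ω hω
      refine hω.trans (le_of_eq (congrArg Finset.card ?_))
      ext i
      simp only [Finset.mem_filter]
    have h2 : pr (fun ω : Fin m → Fin s → Fin h × Bool =>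
        w ≤ (univ.filter (fun i => i ∉ P0 ∧ alive hl A ω i < k)).card ∧
        (univ.filter (fun i => i ∉ P0 ∧ alive hl A ω i = 0 ∧ ∀ l, (ω i l).2 = true →
          ∀ v, φ (i, hl (ω i l).1) = some v → v ∈ E1 hl P0 ω →
            v ∈ (∅ : Finset (Edge m n)) ∨ v.1 = i)).card ≤ x / 8) ≤
        pr (fun ω : Fin m → Fin s → Fin h × Bool =>
          w ≤ (univ.filter (fun i => i ∉ P0 ∧ al i (ω i) < k)).card) := by
      refine pr_mono ?_
      rintro ω ⟨h3, -⟩
      refine h3.trans (le_of_eq ?_)
      congr 1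
      apply Finset.filter_congr
      intro i _
      rw [hal]
    linarith
  · -- many blocked pigeons
    obtain ⟨R0, -, hR1, hR2⟩ := P2_greedy p0 (fun i => pr_nonneg _) (fun i => pr_le_one _) (x : ℝ)
      (Nat.cast_nonneg _) univ hc
    set bl : Fin m → (Fin s → Fin h × Bool) → Prop := fun i y => i ∈ R0 ∧ i ∉ P0 ∧ al i y = 0 with hbl
    have hblsum : ∑ i, pr (bl i) = ∑ i ∈ R0, p0 i := by
      rw [← Finset.sum_filter_add_sum_filter_not univ (fun i => i ∈ R0)]
      have e1 : ∑ i ∈ univ.filter (fun i => ¬ i ∈ R0), pr (bl i) = 0 := by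
        apply Finset.sum_eq_zero
        intro i hi
        exact pr_false (fun y hy => (Finset.mem_filter.1 hi).2 hy.1)
      rw [e1, add_zero, Finset.filter_mem_eq_inter, Finset.univ_inter]
      apply Finset.sum_congr rfl
      intro i hi
      rw [hp0]
      simp only
      congr 1
      ext y
      exact ⟨fun h => h.2, fun h => ⟨hi, h⟩⟩
    set en0 : Fin m → (Fin s → Fin h × Bool) → Finset (Edge m n) := fun i y =>
      if bl i y then univ.filter (fun v => v.1 ≠ i ∧ ∃ l, (y l).2 = true ∧
        φ (i, hl (y l).1) = some v) else ∅ with hen0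
    have hencard : ∀ i y, (en0 i y).card ≤ s := by
      intro i y
      rw [hen0]
      simp only
      split_ifs
      · have hsub : (univ.filter (fun v : Edge m n => v.1 ≠ i ∧ ∃ l, (y l).2 = true ∧
            φ (i, hl (y l).1) = some v)) ⊆
            (univ : Finset (Fin s)).image (fun l => (φ (i, hl (y l).1)).getD (i, hl (y l).1)) := by
          intro v hv
          obtain ⟨-, l, -, hl2⟩ := (Finset.mem_filter.1 hv).2
          refine Finset.mem_image.2 ⟨l, Finset.mem_univ _, ?_⟩
          rw [hl2]
          rfl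
        refine (Finset.card_le_card hsub).trans (Finset.card_image_le.trans ?_)
        rw [Finset.card_univ, Fintype.card_fin]
      · simp
    have hYsum : ∑ i, ∑ v, pr (fun y => v ∈ en0 i y) ≤ s * ((x : ℝ) + 1) := by
      calc ∑ i, ∑ v, pr (fun y => v ∈ en0 i y) ≤ ∑ i, (s : ℝ) * pr (bl i) := by
            apply Finset.sum_le_sum
            intro i _
            apply P2_card_avg (en0 i) (bl i) s (hencard i)
            intro y hy
            rw [hen0]
            simp only
            rw [if_neg hy]
        _ = s * ∑ i ∈ R0, p0 i := by rw [← Finset.mul_sum, hblsum]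
        _ ≤ s * ((x : ℝ) + 1) := mul_le_mul_of_nonneg_left hR2 (Nat.cast_nonneg _)
    have ha0 : (0 : ℝ) < a := by exact_mod_cast ha
    set Hv : Finset (Edge m n) := univ.filter (fun v => 1 / (a : ℝ) < ∑ i, pr (fun y => v ∈ en0 i y))
      with hHv
    refine ⟨Hv, ?_, ?_⟩
    · have h1 : (Hv.card : ℝ) * (1 / a) ≤ s * ((x : ℝ) + 1) := by
        calc (Hv.card : ℝ) * (1 / a) = ∑ v ∈ Hv, 1 / (a : ℝ) := by
              rw [Finset.sum_const, nsmul_eq_mul]
          _ ≤ ∑ v ∈ Hv, ∑ i, pr (fun y => v ∈ en0 i y) :=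
              Finset.sum_le_sum fun v hv => (Finset.mem_filter.1 hv).2.le
          _ ≤ ∑ v, ∑ i, pr (fun y => v ∈ en0 i y) := by
              apply Finset.sum_le_sum_of_subset_of_nonneg (Finset.subset_univ _)
              intro v _ _
              exact Finset.sum_nonneg fun i _ => pr_nonneg _
          _ ≤ s * ((x : ℝ) + 1) := by
              rw [Finset.sum_comm]
              exact hYsum
      rw [mul_one_div, div_le_iff₀ ha0] at h1
      have h2 : (Hv.card : ℝ) ≤ ((a * s * (x + 1) : ℕ) : ℝ) := by
        push_cast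
        linarith
      exact_mod_cast h2
    · set en : Fin m → (Fin s → Fin h × Bool) → Finset (Edge m n) := fun i y => en0 i y \ Hv with hen
      set mem : Edge m n → (Fin s → Fin h × Bool) → Prop := fun v y =>
        v.1 ∉ P0 ∧ ∃ l, (y l).2 = true ∧ hl (y l).1 = v.2 with hmem
      set κ : ℕ := x / 24 with hκ
      have hκ1 : 1 ≤ κ := by omega
      have hmemE : ∀ (ω : Fin m → Fin s → Fin h × Bool) (v : Edge m n),
          mem v (ω v.1) ↔ v ∈ E1 hl P0 ω := by
        intro ω v
        rw [hmem]
        unfold E1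
        simp only [mem_filter, mem_univ, true_and]
      have hweak := hENB (Fin m) (Fin s → Fin h × Bool) (Edge m n) Prod.fst mem en
        ((s : ℝ) / (2 * h)) (1 / (a : ℝ)) (s * ((x : ℝ) + 1)) κ (by positivity) (by positivity)
        (by positivity) hκ1
        (by
          intro i y v hv
          have h3 := (Finset.mem_sdiff.1 hv).1
          rw [hen0] at h3
          simp only at h3
          split_ifs at h3
          · exact (Finset.mem_filter.1 h3).2.1
          · simp at h3)
        (by
          intro F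
          have h3 := stmt_RSN m n h s hl P0 F hinj hh
          refine le_trans (pr_mono ?_) h3
          intro ω hω v hv
          exact (hmemE ω v).1 (hω v hv))
        (by
          intro v
          by_cases hv : v ∈ Hv
          · have : ∀ i, pr (fun y => v ∈ en i y) = 0 := by
              intro i
              exact pr_false (fun y hy => (Finset.mem_sdiff.1 hy).2 hv)
            simp only [this, Finset.sum_const_zero]
            positivity
          · have h3 : ∑ i, pr (fun y => v ∈ en0 i y) ≤ 1 / (a : ℝ) := by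
              by_contra hcon
              push Not at hcon
              exact hv (Finset.mem_filter.2 ⟨Finset.mem_univ _, hcon⟩)
            refine le_trans (Finset.sum_le_sum fun i _ => pr_mono ?_) h3
            intro y hy
            exact (Finset.mem_sdiff.1 hy).1)
        (by
          refine le_trans (Finset.sum_le_sum fun i _ => Finset.sum_le_sum fun v _ => pr_mono ?_) hYsum
          intro y hy
          exact (Finset.mem_sdiff.1 hy).1)
      have hLTa : pr (fun ω : Fin m → Fin s → Fin h × Bool =>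
          (univ.filter (fun i => bl i (ω i))).card ≤ x / 4) ≤ (3 / 4 : ℝ) ^ x := by
        refine le_trans (pr_mono ?_)
          (hLT (Fin m) (Fin s → Fin h × Bool) bl x (by rw [hblsum]; exact hR1))
        intro ω hω
        refine le_trans (le_of_eq (congrArg Finset.card ?_)) hω
        ext i
        simp only [Finset.mem_filter]
      have hsub : pr (fun ω : Fin m → Fin s → Fin h × Bool =>
          w ≤ (univ.filter (fun i => i ∉ P0 ∧ alive hl A ω i < k)).card ∧
          (univ.filter (fun i => i ∉ P0 ∧ alive hl A ω i = 0 ∧ ∀ l, (ω i l).2 = true →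
            ∀ v, φ (i, hl (ω i l).1) = some v → v ∈ E1 hl P0 ω → v ∈ Hv ∨ v.1 = i)).card ≤ x / 8) ≤
          pr (fun ω : Fin m → Fin s → Fin h × Bool =>
            (univ.filter (fun i => bl i (ω i))).card ≤ x / 4 ∨
            3 * κ ≤ (univ.filter (fun i => ∃ v ∈ en i (ω i), mem v (ω v.1))).card) := by
        refine pr_mono ?_
        rintro ω ⟨-, h4⟩
        by_contra hcon
        push Not at hcon
        obtain ⟨h5, h6⟩ := hcon
        have h7 : (univ.filter (fun i => bl i (ω i))) \
            (univ.filter (fun i => ∃ v ∈ en i (ω i), mem v (ω v.1))) ⊆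
            univ.filter (fun i => i ∉ P0 ∧ alive hl A ω i = 0 ∧ ∀ l, (ω i l).2 = true →
            ∀ v, φ (i, hl (ω i l).1) = some v → v ∈ E1 hl P0 ω → v ∈ Hv ∨ v.1 = i) := by
          intro i hi
          obtain ⟨h8, h9⟩ := Finset.mem_sdiff.1 hi
          have h10 := (Finset.mem_filter.1 h8).2
          refine Finset.mem_filter.2 ⟨Finset.mem_univ _, h10.2.1, ?_, ?_⟩
          · rw [hal]
            exact h10.2.2
          · intro l hl1 v hv1 hv2
            by_contra hcon
            push Not at hcon
            apply h9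
            refine Finset.mem_filter.2 ⟨Finset.mem_univ _, v, Finset.mem_sdiff.2 ⟨?_, hcon.1⟩,
              (hmemE ω v).2 hv2⟩
            rw [hen0]
            simp only
            rw [if_pos h10]
            exact Finset.mem_filter.2 ⟨Finset.mem_univ _, hcon.2, l, hl1, hv1⟩
        have h11 := Finset.card_le_card h7
        have h12 := Finset.le_card_sdiff
          (univ.filter (fun i => ∃ v ∈ en i (ω i), mem v (ω v.1))) (univ.filter (fun i => bl i (ω i)))
        omega
      have hnum : 3 * (((s : ℝ) / (2 * h)) * (s * ((x : ℝ) + 1)) + κ * (1 / (a : ℝ))) / κ ≤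
          150 * ((s : ℝ) / (2 * h)) * s + 3 / (a : ℝ) := by
        have hκ0 : (0 : ℝ) < κ := by exact_mod_cast hκ1
        have hxκ : (x : ℝ) + 1 ≤ 48 * κ := by
          have : x + 1 ≤ 48 * κ := by omega
          exact_mod_cast this
        rw [div_le_iff₀ hκ0]
        have hqs : 0 ≤ ((s : ℝ) / (2 * h)) * s := by positivity
        have h13 : ((s : ℝ) / (2 * h)) * (s * ((x : ℝ) + 1)) ≤ ((s : ℝ) / (2 * h)) * s * (48 * κ) := by
          calc ((s : ℝ) / (2 * h)) * (s * ((x : ℝ) + 1)) = ((s : ℝ) / (2 * h)) * s * ((x : ℝ) + 1) := by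
                ring
            _ ≤ _ := mul_le_mul_of_nonneg_left hxκ hqs
        have h14 : 0 ≤ ((s : ℝ) / (2 * h)) * s * κ := mul_nonneg hqs hκ0.le
        have h15 : (150 * ((s : ℝ) / (2 * h)) * s + 3 / (a : ℝ)) * κ =
            150 * (((s : ℝ) / (2 * h)) * s * κ) + 3 * (κ * (1 / a)) := by ring
        rw [h15]
        have h16 : ((s : ℝ) / (2 * h)) * s * (48 * κ) = 48 * (((s : ℝ) / (2 * h)) * s * κ) := by ring
        linarith
      have hfin : (3 * (((s : ℝ) / (2 * h)) * (s * ((x : ℝ) + 1)) + κ * (1 / (a : ℝ))) / κ) ^ κ ≤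
          (150 * ((s : ℝ) / (2 * h)) * s + 3 / (a : ℝ)) ^ κ :=
        pow_le_pow_left₀ (by positivity) hnum κ
      have hweak' : pr (fun ω : Fin m → Fin s → Fin h × Bool =>
          3 * κ ≤ (univ.filter (fun i => ∃ v ∈ en i (ω i), mem v (ω v.1))).card) ≤
          (150 * ((s : ℝ) / (2 * h)) * s + 3 / (a : ℝ)) ^ κ := by
        refine le_trans (pr_mono ?_) (hweak.trans hfin)
        intro ω hω
        refine le_trans hω (le_of_eq (congrArg Finset.card ?_))
        ext i
        simp only [Finset.mem_filter]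
      have hor := hsub.trans (pr_or _ _)
      have hsum2 := hor.trans (add_le_add hLTa hweak')
      linarith

end Pool.Agent.Work.MP_833881_lp
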