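import Pool.Agent.Work.MP_833881_lp.Interface

/-!
# Block POT: closure and bad pigeons
-/

namespace Pool.Agent.Work.MP_833881_lp

open Finset Pool.Agent.Work.MP_833881_lc Pool.Agent.Work.MP_833881_lb
open scoped Classical

noncomputable section

namespace POT

variable {m n : ℕ}

/-- The free pigeons covered by `M`. -/
def RR (E0 M : Finset (Edge m n)) : Finset (Fin m) := (M \ E0).image Prod.fst

/-- The options of covered pigeons that are neighbours of `M`. -/
def NF (E0 E1 X M : Finset (Edge m n)) (D : Line (Edge m n)) : Finset (Edge m n) :=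
  E1.filter (fun e => e ∉ X ∧ e.1 ∈ RR E0 M ∧ ∃ f ∈ M \ E0, f ∉ X ∧ PP D e f)

theorem RR_mono {E0 M M' : Finset (Edge m n)} (h : M ⊆ M') : RR E0 M ⊆ RR E0 M' :=
  Finset.image_subset_image (Finset.sdiff_subset_sdiff h subset_rfl)

theorem RR_card (E0 M : Finset (Edge m n)) : (RR E0 M).card ≤ (M \ E0).card := Finset.card_image_le

theorem grow {α β : Type} [DecidableEq α] [DecidableEq β] (O : α → Finset β) (R R' : Finset α) (i : α)
    (h : R ⊆ R') (hi : i ∈ R') (hi' : i ∉ R) :
    (R'.biUnion O).card + (O i ∩ R.biUnion O).card + ∑ x ∈ R, (O x).card ≤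
      ∑ x ∈ R', (O x).card + (R.biUnion O).card := by
  have h1 : insert i R ⊆ R' := Finset.insert_subset hi h
  have h2 : R' = insert i R ∪ (R' \ insert i R) := by
    rw [Finset.union_sdiff_of_subset h1]
  have h3 : ∑ x ∈ R', (O x).card = ∑ x ∈ insert i R, (O x).card + ∑ x ∈ R' \ insert i R, (O x).card := by
    rw [add_comm, Finset.sum_sdiff h1]
  have h4 : (R'.biUnion O).card ≤ ((insert i R).biUnion O).card + ∑ x ∈ R' \ insert i R, (O x).card := by
    conv_lhs => rw [h2]
    rw [Finset.union_biUnion]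
    exact (Finset.card_union_le _ _).trans (Nat.add_le_add_left Finset.card_biUnion_le _)
  have h5 : ((insert i R).biUnion O).card + (O i ∩ R.biUnion O).card = (O i).card + (R.biUnion O).card := by
    rw [Finset.biUnion_insert]
    exact Finset.card_union_add_card_inter _ _
  rw [h3, Finset.sum_insert hi']
  omega

theorem NF_grow {E0 E1 X M M' : Finset (Edge m n)} {D : Line (Edge m n)} (h : M ⊆ M') {i : Fin m}
    (hi : i ∉ RR E0 M) (hi' : i ∈ RR E0 M') :
    (NF E0 E1 X M D).card + ((opts E1 i).filter (fun j => (i, j) ∉ X ∧ ∃ f ∈ M \ E0, f ∉ X ∧ PP D (i, j) f)).card ≤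
      (NF E0 E1 X M' D).card := by
  have h1 : (((opts E1 i).filter (fun j => (i, j) ∉ X ∧ ∃ f ∈ M \ E0, f ∉ X ∧ PP D (i, j) f)).image
      (fun j => ((i, j) : Edge m n))).card =
      ((opts E1 i).filter (fun j => (i, j) ∉ X ∧ ∃ f ∈ M \ E0, f ∉ X ∧ PP D (i, j) f)).card :=
    Finset.card_image_of_injective _ (fun a b hab => (Prod.mk.inj hab).2)
  rw [← h1, ← Finset.card_union_of_disjoint]
  · apply Finset.card_le_card
    intro e he
    have hsub : M \ E0 ⊆ M' \ E0 := Finset.sdiff_subset_sdiff h subset_rfl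
    rcases Finset.mem_union.1 he with he | he
    · obtain ⟨h2, h3, h4, f, hf, h5⟩ := Finset.mem_filter.1 he
      exact Finset.mem_filter.2 ⟨h2, h3, RR_mono h h4, f, hsub hf, h5⟩
    · obtain ⟨j, hj, rfl⟩ := Finset.mem_image.1 he
      obtain ⟨h2, h3, f, hf, h5⟩ := Finset.mem_filter.1 hj
      exact Finset.mem_filter.2 ⟨mem_opts.1 h2, h3, hi', f, hsub hf, h5⟩
  · rw [Finset.disjoint_left]
    intro e he he'
    obtain ⟨j, hj, rfl⟩ := Finset.mem_image.1 he'
    exact hi (Finset.mem_filter.1 he).2.2.1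

/-- The states of the process. -/
def PS (p : Prm) (X E0 E1 M0 : Finset (Edge m n)) (D : Line (Edge m n)) (q : ℕ) : Prop :=
  ∃ F M : Finset (Edge m n), GP E0 E1 D (88 * p.w + 2 * p.z + 1) M ∧ M0 ⊆ M ∧ E0 ∪ F ⊆ M ∧ Fo D M ⊆ M ∧
    (∀ S, E0 ∪ F ⊆ S → Fo D S ⊆ S → M ⊆ S) ∧ q ≤ 4 * p.w ∧ F.card ≤ 4 * p.w + q ∧
    (M \ E0).card ≤ F.card + (40 * p.w + p.z) ∧
    ((RR E0 M).biUnion (opts E1)).card + q * (13 * (p.c + p.c2)) ≤
      ∑ i ∈ RR E0 M, (opts E1 i).card + (NF E0 E1 X M D).card

theorem mem_Pos_of_PP {E0 : Finset (Edge m n)} {D : Line (Edge m n)} {ξ : Finset (Edge m n)} {e f : Edge m n}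
    (h : PP D e f) (hf : f ∈ E0 ∪ ξ) : e ∈ Pos D (E0 ∪ ξ) := by
  refine Finset.mem_filter.2 ⟨Finset.mem_univ _, _, h.2.2, Finset.mem_insert_self _ _, ?_⟩
  intro l hl hne
  rcases Finset.mem_insert.1 hl with h1 | h1
  · exact absurd h1 hne
  · rw [Finset.mem_singleton.1 h1]
    refine ⟨fun h2 => h.1 ?_, fun _ => hf, fun h2 => by simp at h2⟩
    have h3 : f = e := h2
    rw [h3]

end POT

open POT

theorem stmt_POT (hG : Stmt_GAME) (hC : Stmt_CLO) : Stmt_POT := by
  intro m n p L X E0 E1 hW hp D hD V Y M0 ξ hV hB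
  obtain ⟨g1, g2, g3, g4⟩ := hG
  have hw1 := hp.w1
  have hzw := hp.zw
  by_contra hcon
  push Not at hcon
  have hsup : ∀ M, GP E0 E1 D (88 * p.w + 2 * p.z + 1) M → E0 ⊆ M := fun M h => h.1.sup
  have key : ∀ q : ℕ, PS p (X D) E0 E1 M0 D q := by
    intro q
    induction q with
    | zero =>
      have hF : (M0 \ E0).card ≤ 4 * p.w := hB.card
      have hEF : E0 ∪ (M0 \ E0) = M0 := Finset.union_sdiff_of_subset (hsup M0 hB.gp)
      obtain ⟨M, h1, h2, h3, h4, h5⟩ := hC m n E0 E1 M0 (M0 \ E0) D (40 * p.w + p.z) (88 * p.w + 2 * p.z + 1)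
        hB.gp (by rw [hEF]) (fun S hS _ => by rwa [hEF] at hS) (by omega)
        (hW.runs D hD (M0 \ E0) (by omega))
      refine ⟨M0 \ E0, M, h1, h2, by rw [hEF]; exact h2, h3, h5, by omega, by omega, h4, ?_⟩
      rw [Nat.zero_mul, Nat.add_zero]
      exact Finset.card_biUnion_le.trans (Nat.le_add_right _ _)
    | succ q ih =>
      obtain ⟨F, M, h1, h2, h3, h4, h5, h6, h7, h8, h9⟩ := ih
      have hMB : (M \ E0).card ≤ 48 * p.w + p.z := by omega
      -- the bound for `q`
      have hq : q + 1 ≤ 4 * p.w := by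
        have e1 := hW.exp (RR E0 M) (by
          have := RR_card E0 M
          have := hp.S
          omega)
        have e2 : (NF E0 E1 (X D) M D).card ≤ p.c2 * (48 * p.w + p.z) := by
          refine le_trans (Finset.card_le_card ?_) (hW.nb D hD (M \ E0) hMB)
          intro e he
          obtain ⟨f1, f2, -, f3⟩ := Finset.mem_filter.1 he
          exact Finset.mem_filter.2 ⟨f1, f2, f3⟩
        have e3 : p.c * (RR E0 M).card ≤ p.c * (48 * p.w + p.z) :=
          Nat.mul_le_mul_left _ ((RR_card E0 M).trans hMB)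
        have e4 : q * (13 * (p.c + p.c2)) ≤ (p.c + p.c2) * (48 * p.w + p.z) := by
          rw [Nat.add_mul p.c p.c2 (48 * p.w + p.z)]
          omega
        have e5 : (p.c + p.c2) * (13 * q) ≤ (p.c + p.c2) * (48 * p.w + p.z) := by
          calc (p.c + p.c2) * (13 * q) = q * (13 * (p.c + p.c2)) := by ring
            _ ≤ _ := e4
        have e6 : 13 * q ≤ 48 * p.w + p.z :=
          Nat.le_of_mul_le_mul_left e5 (by have := hp.hc; omega)
        omega
      obtain ⟨i, hi1, hi2⟩ := hcon M h1 h2 h4 hMB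
      have hM := h1.1
      have hdet : ∀ e ∈ E1, e ∈ X D → e ∈ ξ ∨ ∃ f ∈ M, f ≠ e ∧ (f.1 = e.1 ∨ f.2 = e.2) := by
        intro e he heX
        rcases hB.det e he heX with h | ⟨f, hf, h⟩
        · exact Or.inl h
        · exact Or.inr ⟨f, h2 hf, h⟩
      -- the options of `i`
      have hiR : i ∉ RR E0 M := by
        intro h
        obtain ⟨e, he, hei⟩ := Finset.mem_image.1 h
        exact hi1 e (Finset.mem_sdiff.1 he).1 hei
      have hused : ∀ j, (i, j) ∈ E1 → (∃ e ∈ M, e.2 = j) → j ∈ (RR E0 M).biUnion (opts E1) := by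
        intro j hj hex
        obtain ⟨e, he, hej⟩ := hex
        have he0 : e ∉ E0 := fun h => (hW.sep e h (i, j) hj).2 hej
        have he1 : e ∈ E1 := (Finset.mem_union.1 (hM.sub he)).resolve_left he0
        refine Finset.mem_biUnion.2 ⟨e.1, Finset.mem_image.2 ⟨e, Finset.mem_sdiff.2 ⟨he, he0⟩, rfl⟩, ?_⟩
        rw [mem_opts, ← hej]
        exact he1
      have hrow := hB.rowP i (fun e he => hi1 e (h2 he))
      have hiY : i ∉ Y := by
        intro h
        obtain ⟨e, he, hei⟩ := hB.rowY i h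
        exact hi1 e (h2 he) hei
      have hVi : ((opts E1 i).filter (fun j => (i, j) ∈ V)).card ≤ p.kM := by
        refine le_trans ?_ (hV i hiY)
        refine Finset.card_le_card_of_injOn (fun j => ((i, j) : Edge m n)) ?_ ?_
        · intro j hj
          exact Finset.mem_filter.2 ⟨(Finset.mem_filter.1 hj).2, rfl⟩
        · intro a _ b _ hab
          exact (Prod.mk.inj hab).2
      have hincl : (opts E1 i).filter (fun j => (i, j) ∉ Pos D (E0 ∪ ξ)) ⊆
          ((opts E1 i).filter (fun j => (i, j) ∉ Pos D (E0 ∪ ξ) ∧ (i, j) ∉ V ∧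
            (∀ e ∈ M, e.2 ≠ j) ∧ ∀ f ∈ M, ¬ PP D (i, j) f) ∪ (opts E1 i).filter (fun j => (i, j) ∈ V)) ∪
          ((opts E1 i ∩ (RR E0 M).biUnion (opts E1)) ∪
            (opts E1 i).filter (fun j => (i, j) ∉ X D ∧ ∃ f ∈ M \ E0, f ∉ X D ∧ PP D (i, j) f)) := by
        intro j hj
        obtain ⟨hj1, hj2⟩ := Finset.mem_filter.1 hj
        have hjE : (i, j) ∈ E1 := mem_opts.1 hj1
        by_cases hjV : (i, j) ∈ V
        · exact Finset.mem_union_left _ (Finset.mem_union_right _ (Finset.mem_filter.2 ⟨hj1, hjV⟩))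
        by_cases hjU : ∃ e ∈ M, e.2 = j
        · exact Finset.mem_union_right _ (Finset.mem_union_left _
            (Finset.mem_inter.2 ⟨hj1, hused j hjE hjU⟩))
        by_cases hjP : ∃ f ∈ M, PP D (i, j) f
        · obtain ⟨f, hf, hPP⟩ := hjP
          have hf0 : f ∉ E0 ∪ ξ := fun h => hj2 (mem_Pos_of_PP hPP h)
          have hfE0 : f ∉ E0 := fun h => hf0 (Finset.mem_union_left _ h)
          have hfE1 : f ∈ E1 := (Finset.mem_union.1 (hM.sub hf)).resolve_left hfE0
          have hfX : f ∉ X D := by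
            intro h
            rcases hdet f hfE1 h with h' | ⟨g, hg, hgf, hgs⟩
            · exact hf0 (Finset.mem_union_right _ h')
            · exact hgf (hM.mat g hg f hf hgs)
          have hjX : (i, j) ∉ X D := by
            intro h
            rcases hdet (i, j) hjE h with h' | ⟨g, hg, hgf, hgs⟩
            · exact hi1 (i, j) (h2 (hB.xi h')) rfl
            · rcases hgs with h' | h'
              · exact hi1 g hg h'
              · exact hjU ⟨g, hg, h'⟩
          exact Finset.mem_union_right _ (Finset.mem_union_right _ (Finset.mem_filter.2 ⟨hj1, hjX, f,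
            Finset.mem_sdiff.2 ⟨hf, hfE0⟩, hfX, hPP⟩))
        · push Not at hjU hjP
          exact Finset.mem_union_left _ (Finset.mem_union_left _ (Finset.mem_filter.2 ⟨hj1, hj2, hjV, hjU, hjP⟩))
      have hgap : 13 * (p.c + p.c2) ≤ (opts E1 i ∩ (RR E0 M).biUnion (opts E1)).card +
          ((opts E1 i).filter (fun j => (i, j) ∉ X D ∧ ∃ f ∈ M \ E0, f ∉ X D ∧ PP D (i, j) f)).card := by
        have e1 := (Finset.card_le_card hincl).trans (Finset.card_union_le _ _)
        have e2 := Finset.card_union_le ((opts E1 i).filter (fun j => (i, j) ∉ Pos D (E0 ∪ ξ) ∧ (i, j) ∉ V ∧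
            (∀ e ∈ M, e.2 ≠ j) ∧ ∀ f ∈ M, ¬ PP D (i, j) f)) ((opts E1 i).filter (fun j => (i, j) ∈ V))
        have e3 := Finset.card_union_le (opts E1 i ∩ (RR E0 M).biUnion (opts E1))
            ((opts E1 i).filter (fun j => (i, j) ∉ X D ∧ ∃ f ∈ M \ E0, f ∉ X D ∧ PP D (i, j) f))
        have e4 := hp.gap
        omega
      -- the query
      obtain ⟨M1, q1, q2, q3, q4⟩ := g3 m n E0 E1 M D (88 * p.w + 2 * p.z + 1) {i} ∅ h1 (by
        rw [Finset.card_singleton, Finset.card_empty]
        omega)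
      rw [Finset.card_singleton, Finset.card_empty] at q4
      obtain ⟨e, he, hei⟩ := q3.1 i (Finset.mem_singleton_self _)
      have heM : e ∉ M := fun h => hi1 e h hei
      have he0 : e ∉ E0 := fun h => heM (hsup M h1 h)
      have hM1 : M1 = insert e M := by
        have f1 : insert e (M \ E0) ⊆ M1 \ E0 :=
          Finset.insert_subset (Finset.mem_sdiff.2 ⟨he, he0⟩) (Finset.sdiff_subset_sdiff q2 subset_rfl)
        have f2 : insert e (M \ E0) = M1 \ E0 := by
          apply Finset.eq_of_subset_of_card_le f1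
          rw [Finset.card_insert_of_notMem (fun h => heM (Finset.mem_sdiff.1 h).1)]
          omega
        apply Finset.Subset.antisymm
        · intro x hx
          by_cases hx0 : x ∈ E0
          · exact Finset.mem_insert_of_mem (hsup M h1 hx0)
          · have : x ∈ insert e (M \ E0) := by
              rw [f2]
              exact Finset.mem_sdiff.2 ⟨hx, hx0⟩
            rcases Finset.mem_insert.1 this with h | h
            · rw [h]; exact Finset.mem_insert_self _ _
            · exact Finset.mem_insert_of_mem (Finset.mem_sdiff.1 h).1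
        · exact Finset.insert_subset he q2
      have hFc : (insert e F).card ≤ F.card + 1 := Finset.card_insert_le _ _
      obtain ⟨M', r1, r2, r3, r4, r5⟩ := hC m n E0 E1 M1 (insert e F) D (40 * p.w + p.z)
        (88 * p.w + 2 * p.z + 1) q1 (by
          rw [hM1, Finset.union_insert]
          exact Finset.insert_subset_insert _ h3) (by
          intro S hS hS2
          rw [Finset.union_insert] at hS
          rw [hM1]
          refine Finset.insert_subset (hS (Finset.mem_insert_self _ _)) ?_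
          exact h5 S ((Finset.subset_insert _ _).trans hS) hS2) (by omega)
        (hW.runs D hD (insert e F) (by omega))
      have hMM' : M ⊆ M' := q2.trans r2
      have hiR' : i ∈ RR E0 M' :=
        Finset.mem_image.2 ⟨e, Finset.mem_sdiff.2 ⟨r2 he, he0⟩, hei⟩
      refine ⟨insert e F, M', r1, h2.trans hMM', ?_, r3, r5, hq, by omega, r4, ?_⟩
      · refine Finset.Subset.trans ?_ r2
        rw [hM1, Finset.union_insert]
        exact Finset.insert_subset_insert _ h3
      · have e1 := grow (opts E1) (RR E0 M) (RR E0 M') i (RR_mono hMM') hiR' hiR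
        have e2 := NF_grow (E1 := E1) (X := X D) (D := D) hMM' hiR hiR'
        rw [Nat.add_mul, Nat.one_mul]
        omega
  obtain ⟨F, M, -, -, -, -, -, h6, -⟩ := key (4 * p.w + 1)
  omega

end

end Pool.Agent.Work.MP_833881_lp
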