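import Pool.Agent.Work.MP_833881_lp.Interface
import Pool.Agent.Work.MP_833881_lb.WLD

/-!
# Block PPD: the covering set of the positive pairs (helper19)
-/

namespace Pool.Agent.Work.MP_833881_lp

open Finset Pool.Agent.Work.MP_833881_lc Pool.Agent.Work.MP_833881_lb
open scoped Classical

theorem PP_symm {m n : ℕ} {D : Line (Edge m n)} {e f : Edge m n} (h : PP D e f) : PP D f e :=
  ⟨h.1.symm, h.2.1.symm, by rw [Finset.pair_comm]; exact h.2.2⟩

theorem stmt_PPD : Stmt_PPD := by
  intro m n D X E1 z C T1 hz hT1 hrow hhole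
  obtain ⟨F, hF⟩ : ∃ F, F = (univ : Finset (Finset (Edge m n))).filter (fun A => A ⊆ E1 ∧
    ∃ e f, e ∉ X ∧ f ∉ X ∧ PP D e f ∧ A = {e, f}) := ⟨_, rfl⟩
  have mF : ∀ A, A ∈ F ↔ A ⊆ E1 ∧ ∃ e f, e ∉ X ∧ f ∉ X ∧ PP D e f ∧ A = {e, f} := by
    intro A
    rw [hF, Finset.mem_filter]
    simp
  have hne : ∀ A ∈ F, A.Nonempty := by
    intro A hA
    obtain ⟨_, e, f, _, _, _, rfl⟩ := (mF A).1 hA
    exact Finset.insert_nonempty _ _
  obtain ⟨R, hRF, hRd, hRm⟩ := WLD_max F hne
  -- members with an element in `S` are in `QP D X S`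
  have hQ : ∀ (S : Finset (Edge m n)), ∀ A ∈ R, (∃ x ∈ A, x ∈ S) → A ∈ QP D X S := by
    intro S A hA hx
    obtain ⟨_, e, f, he, hf, hP, rfl⟩ := (mF A).1 (hRF hA)
    obtain ⟨x, hx, hxS⟩ := hx
    unfold QP
    rcases Finset.mem_insert.1 hx with rfl | hx
    · exact Finset.mem_filter.2 ⟨Finset.mem_univ _, x, f, hxS, he, hf, hP, rfl⟩
    · rw [Finset.mem_singleton] at hx
      rw [hx] at hxS
      exact Finset.mem_filter.2 ⟨Finset.mem_univ _, f, e, hxS, hf, he, PP_symm hP, Finset.pair_comm _ _⟩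
  have hsub : ∀ A ∈ R, A ⊆ E1 := fun A hA => ((mF A).1 (hRF hA)).1
  -- counting
  have hcount : ∀ (S : Finset (Edge m n)) (b : ℕ), (∀ A ∈ R, (A ∩ S).card ≤ b) →
      ((R.biUnion id) ∩ S).card ≤ b * (R.filter (fun A => ∃ x ∈ A, x ∈ S)).card := by
    intro S b hb
    have h1 : (R.biUnion id) ∩ S ⊆ (R.filter (fun A => ∃ x ∈ A, x ∈ S)).biUnion (fun A => A ∩ S) := by
      intro x hx
      obtain ⟨h2, h3⟩ := Finset.mem_inter.1 hx
      obtain ⟨A, hA, hxA⟩ := Finset.mem_biUnion.1 h2
      exact Finset.mem_biUnion.2 ⟨A, Finset.mem_filter.2 ⟨hA, x, hxA, h3⟩, Finset.mem_inter.2 ⟨hxA, h3⟩⟩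
    refine (Finset.card_le_card h1).trans ?_
    rw [Nat.mul_comm]
    exact Finset.card_biUnion_le_card_mul _ _ _ (fun A hA => hb A (Finset.mem_filter.1 hA).1)
  have hA2 : ∀ A ∈ R, A.card ≤ 2 := by
    intro A hA
    obtain ⟨_, e, f, _, _, _, rfl⟩ := (mF A).1 (hRF hA)
    exact Finset.card_le_two
  refine ⟨R.biUnion id, univ.filter (fun i => 2 * C < ((R.biUnion id).filter (fun e => e.1 = i)).card),
    ?_, ?_, ?_, ?_⟩
  · by_contra hcon
    rw [not_le] at hcon
    obtain ⟨Y, hY, hYc⟩ := Finset.exists_subset_card_eq hcon.le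
    obtain ⟨S, hS⟩ : ∃ S, S = univ.filter (fun e : Edge m n => e.1 ∈ Y) := ⟨_, rfl⟩
    have h1 := hcount S 2 (fun A hA => (Finset.card_le_card Finset.inter_subset_left).trans (hA2 A hA))
    have h2 : (2 * C + 1) * z ≤ ((R.biUnion id) ∩ S).card := by
      have h3 : ((R.biUnion id) ∩ S).card = ∑ i ∈ Y, ((R.biUnion id).filter (fun e => e.1 = i)).card := by
        rw [Finset.card_eq_sum_card_fiberwise (f := Prod.fst) (t := Y)]
        · refine Finset.sum_congr rfl (fun i hi => ?_)
          congr 1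
          ext e
          simp only [Finset.mem_filter, Finset.mem_inter, hS, Finset.mem_univ, true_and]
          constructor
          · rintro ⟨⟨h4, _⟩, h5⟩
            exact ⟨h4, h5⟩
          · rintro ⟨h4, h5⟩
            exact ⟨⟨h4, by rw [h5]; exact hi⟩, h5⟩
        · intro e he
          have h4 := (Finset.mem_inter.1 he).2
          rw [hS] at h4
          exact (Finset.mem_filter.1 h4).2
      rw [h3]
      calc (2 * C + 1) * z = ∑ i ∈ Y, (2 * C + 1) := by
            rw [Finset.sum_const, smul_eq_mul, hYc, Nat.mul_comm]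
        _ ≤ _ := Finset.sum_le_sum (fun i hi => (Finset.mem_filter.1 (hY hi)).2)
    have h5 := WLD_disj (QP D X S) (R.filter (fun A => ∃ x ∈ A, x ∈ S)) (C * z) (fun A => A ⊆ E1)
      (by rw [hS]; exact hrow Y hYc)
      (fun A hA => hQ S A (Finset.mem_filter.1 hA).1 (Finset.mem_filter.1 hA).2)
      (fun A hA B hB => hRd A (Finset.mem_filter.1 hA).1 B (Finset.mem_filter.1 hB).1)
      (fun A hA => hsub A (Finset.mem_filter.1 hA).1)
    have h6 : (2 * C + 1) * z = 2 * (C * z) + z := by ring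
    omega
  · intro e he f hf heX hfX hP
    have hA : ({e, f} : Finset (Edge m n)) ∈ F := by
      rw [mF]
      refine ⟨?_, e, f, heX, hfX, hP, rfl⟩
      intro x hx
      rcases Finset.mem_insert.1 hx with rfl | hx
      · exact he
      · rw [Finset.mem_singleton.1 hx]; exact hf
    obtain ⟨x, hx1, hx2⟩ := Finset.not_disjoint_iff.1 (hRm _ hA)
    rcases Finset.mem_insert.1 hx1 with rfl | hx1
    · exact Or.inl hx2
    · rw [Finset.mem_singleton.1 hx1] at hx2
      exact Or.inr hx2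
  · intro i hi
    by_contra hcon
    rw [not_le] at hcon
    exact hi (Finset.mem_filter.2 ⟨Finset.mem_univ _, hcon⟩)
  · intro j
    obtain ⟨S, hS⟩ : ∃ S, S = univ.filter (fun e : Edge m n => e.2 = j) := ⟨_, rfl⟩
    have h1 := hcount S 1 (by
      intro A hA
      obtain ⟨_, e, f, _, _, hP, rfl⟩ := (mF A).1 (hRF hA)
      rw [Finset.card_le_one]
      intro x hx y hy
      obtain ⟨hx1, hx2⟩ := Finset.mem_inter.1 hx
      obtain ⟨hy1, hy2⟩ := Finset.mem_inter.1 hy
      rw [hS] at hx2 hy2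
      have hx3 := (Finset.mem_filter.1 hx2).2
      have hy3 := (Finset.mem_filter.1 hy2).2
      have hne2 := hP.2.1
      rcases Finset.mem_insert.1 hx1 with h | h <;> rcases Finset.mem_insert.1 hy1 with h' | h'
      · rw [h, h']
      · rw [Finset.mem_singleton] at h'
        exfalso
        rw [h] at hx3
        rw [h'] at hy3
        exact hne2 (hx3.trans hy3.symm)
      · rw [Finset.mem_singleton] at h
        exfalso
        rw [h] at hx3
        rw [h'] at hy3
        exact hne2 (hy3.trans hx3.symm)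
      · rw [Finset.mem_singleton] at h h'
        rw [h, h'])
    have h5 := WLD_disj (QP D X S) (R.filter (fun A => ∃ x ∈ A, x ∈ S)) T1 (fun A => A ⊆ E1)
      (by rw [hS]; exact hhole j)
      (fun A hA => hQ S A (Finset.mem_filter.1 hA).1 (Finset.mem_filter.1 hA).2)
      (fun A hA B hB => hRd A (Finset.mem_filter.1 hA).1 B (Finset.mem_filter.1 hB).1)
      (fun A hA => hsub A (Finset.mem_filter.1 hA).1)
    have h6 : (R.biUnion id).filter (fun e => e.2 = j) = (R.biUnion id) ∩ S := by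
      ext e
      simp [hS]
    rw [h6]
    omega

end Pool.Agent.Work.MP_833881_lp
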