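import Pool.Agent.Work.MP_833881_lp.PPR

/-!
# Block PPH: few disjoint positive pairs at a hole
-/

namespace Pool.Agent.Work.MP_833881_lp

open Finset Pool.Agent.Work.MP_833881_lc Pool.Agent.Work.MP_833881_lb
open scoped Classical

noncomputable section

namespace PPH

variable {C a n : ℕ}

theorem card_col {m n : ℕ} (j : Fin n) : (univ.filter (fun e : Edge m n => e.2 = j)).card = m := by
  have h1 : (univ.filter (fun e : Edge m n => e.2 = j)) = (univ : Finset (Fin m)) ×ˢ {j} := by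
    ext e
    rw [Finset.mem_filter, Finset.mem_product]
    simp
  rw [h1, Finset.card_product, Finset.card_univ, Fintype.card_fin, Finset.card_singleton, mul_one]

/-- facts on `T1 = n / (64 a)` -/
theorem T1_facts (hP : Par2 C a n) : 1 ≤ n / (64 * a) ∧ n / a ^ 3 ≤ n / (64 * a) ∧ sa C a ≤ n / (64 * a) ∧
    n ≤ 128 * a * (n / (64 * a)) := by
  have ha := hP.par.a_ge
  have hap := hP.a_pos
  have h1 : sa C a ≤ n / (64 * a) := by
    rw [Nat.le_div_iff_mul_le (by omega)]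
    have e1 := hP.par.a1
    calc sa C a * (64 * a) = (64 * sa C a) * a := by ring
      _ ≤ a * a := Nat.mul_le_mul_right _ (by omega)
      _ = a ^ 2 := by ring
      _ ≤ a ^ 6 := Nat.pow_le_pow_right hap (by norm_num)
      _ ≤ n := hP.par.h6
  have h2 := hP.par.s_ge
  refine ⟨by omega, ?_, h1, ?_⟩
  · apply Nat.div_le_div_left _ (by omega)
    calc 64 * a ≤ a * a := Nat.mul_le_mul_right _ (by omega)
      _ ≤ a * a * a := Nat.le_mul_of_pos_right _ hap
      _ = a ^ 3 := by ring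
  · have h3 := Nat.div_add_mod n (64 * a)
    have h4 : n % (64 * a) < 64 * a := Nat.mod_lt _ (by omega)
    have h5 : 64 * a ≤ 64 * a * (n / (64 * a)) := Nat.le_mul_of_pos_right _ (by omega)
    have h6 : 128 * a * (n / (64 * a)) = 64 * a * (n / (64 * a)) + 64 * a * (n / (64 * a)) := by ring
    omega

theorem num1 (hP : Par2 C a n) (h Q : ℕ) (hh : n ≤ 2 * h) (hQ : Q * a ^ 5 ≤ n ^ 2 * n) :
    3 * (Q : ℝ) / (n / (64 * a) : ℕ) * ((sa C a : ℝ) / (2 * h)) ^ 2 ≤ 1 / 128 := by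
  have hnp := hP.n_pos
  have hhn : 0 < 2 * h := by omega
  have hh0 : (0 : ℝ) < 2 * h := by exact_mod_cast hhn
  have hap := hP.a_pos
  obtain ⟨t1, t2, t3, t4⟩ := T1_facts hP
  set T := n / (64 * a) with hT
  have hT' : (0 : ℝ) < ((T : ℕ) : ℝ) := by exact_mod_cast t1
  rw [div_pow, div_mul_div_comm, div_le_div_iff₀ (by positivity) (by positivity)]
  have h1 : 3 * Q * sa C a ^ 2 * 128 ≤ 1 * (T * (2 * h) ^ 2) := by
    have h2 : 3 * Q * sa C a ^ 2 * 128 * a ^ 5 ≤ 1 * (T * (2 * h) ^ 2) * a ^ 5 := by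
      calc 3 * Q * sa C a ^ 2 * 128 * a ^ 5 = 384 * sa C a ^ 2 * (Q * a ^ 5) := by ring
        _ ≤ 384 * sa C a ^ 2 * (n ^ 2 * n) := Nat.mul_le_mul_left _ hQ
        _ ≤ 384 * sa C a ^ 2 * (n ^ 2 * (128 * a * T)) :=
            Nat.mul_le_mul_left _ (Nat.mul_le_mul_left _ t4)
        _ = 49152 * sa C a ^ 2 * (n ^ 2 * a * T) := by ring
        _ ≤ a ^ 4 * (n ^ 2 * a * T) := by
            apply Nat.mul_le_mul_right
            have e1 : 1000 * (sa C a + 2) ^ 2 ≤ a := hP.par.a2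
            have e2 : sa C a ^ 2 ≤ (sa C a + 2) ^ 2 := Nat.pow_le_pow_left (by omega) 2
            have e3 := hP.par.a_ge
            calc 49152 * sa C a ^ 2 ≤ 50 * (1000 * (sa C a + 2) ^ 2) := by nlinarith
              _ ≤ a * a := Nat.mul_le_mul (by omega) e1
              _ = a ^ 2 := by ring
              _ ≤ a ^ 4 := Nat.pow_le_pow_right hap (by norm_num)
        _ = (T * n ^ 2) * a ^ 5 := by ring
        _ ≤ 1 * (T * (2 * h) ^ 2) * a ^ 5 := by
            rw [one_mul]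
            exact Nat.mul_le_mul_right _ (Nat.mul_le_mul_left _ (Nat.pow_le_pow_left hh 2))
    exact Nat.le_of_mul_le_mul_right h2 (by positivity)
  exact_mod_cast h1

theorem num2 (hP : Par2 C a n) :
    (2 : ℝ) ^ (n / a ^ 3) * (n : ℝ) * (1 / 128 : ℝ) ^ (n / (64 * a)) ≤ 1 / 32 := by
  obtain ⟨t1, t2, t3, t4⟩ := T1_facts hP
  have h1 : (2 : ℝ) ^ (n / a ^ 3) ≤ 2 ^ (n / (64 * a)) := pow_le_pow_right₀ (by norm_num) t2
  have h2 : (n : ℝ) ≤ 2 ^ (n / (64 * a)) := by
    have : n ≤ 2 ^ (n / (64 * a)) := hP.par.n2s.trans (Nat.pow_le_pow_right (by norm_num) t3)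
    exact_mod_cast this
  calc (2 : ℝ) ^ (n / a ^ 3) * (n : ℝ) * (1 / 128 : ℝ) ^ (n / (64 * a))
      ≤ 2 ^ (n / (64 * a)) * 2 ^ (n / (64 * a)) * (1 / 128 : ℝ) ^ (n / (64 * a)) := by
        apply mul_le_mul_of_nonneg_right _ (by positivity)
        exact mul_le_mul h1 h2 (by positivity) (by positivity)
    _ = (1 / 32 : ℝ) ^ (n / (64 * a)) := by
        rw [← mul_pow, ← mul_pow]
        norm_num
    _ ≤ (1 / 32) ^ 1 := pow_le_pow_of_le_one (by norm_num) (by norm_num) t1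
    _ = 1 / 32 := pow_one _

end PPH

open PPH

theorem stmt_PPH : Stmt_PPH := by
  intro C
  obtain ⟨a0, ha0⟩ := par2_ex C
  refine ⟨a0, ?_⟩
  intro a n L U J h hl P0 E0 hS
  have hP := ha0 a n hS.rg
  have hh := hS.hh
  have hnp := hP.n_pos
  have hh1 : 1 ≤ h := by omega
  have hLR : ((L.card : ℕ) : ℝ) ≤ 2 ^ (n / a ^ 3) := by exact_mod_cast hS.hL
  obtain ⟨t1, t2, t3, t4⟩ := T1_facts hP
  refine (pr_mono (q := fun ω => ∃ p ∈ L ×ˢ (univ : Finset (Fin n)),
    HasDisj (QP p.1 (XX (U p.1) (J p.1)) (univ.filter (fun e => e.2 = p.2))) (n / (64 * a))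
      (fun A => A ⊆ E1 hl P0 ω)) ?_).trans ?_
  · rintro ω ⟨D, hD, j, h1⟩
    exact ⟨(D, j), Finset.mem_product.2 ⟨hD, Finset.mem_univ _⟩, h1⟩
  · refine (pr_exists_le_card _ _ ((1 / 128 : ℝ) ^ (n / (64 * a))) ?_).trans ?_
    · intro p hp
      obtain ⟨hp1, -⟩ := Finset.mem_product.1 hp
      refine (stmt_MUL (n ^ 2) n h (sa C a) hl P0 _ (n / (64 * a)) 2 hS.inj hh1 t1 PPR.QP_two).trans ?_
      apply pow_le_pow_left₀ (by positivity)
      refine num1 hP h _ hh ?_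
      refine (PPR.QP_card (hS.light.deg p.1 hp1) _).trans ?_
      rw [card_col]
    · refine le_trans ?_ (num2 hP)
      apply mul_le_mul_of_nonneg_right _ (by positivity)
      rw [Finset.card_product, Nat.cast_mul, Finset.card_univ, Fintype.card_fin]
      exact mul_le_mul_of_nonneg_right hLR (Nat.cast_nonneg _)

end

end Pool.Agent.Work.MP_833881_lp
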