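import Pool.Agent.Work.MP_833881_lp.A5a

/-!
# Block PPR: few disjoint positive pairs at a set of `z` pigeons
-/

namespace Pool.Agent.Work.MP_833881_lp

open Finset Pool.Agent.Work.MP_833881_lc Pool.Agent.Work.MP_833881_lb
open scoped Classical

noncomputable section

namespace PPR

variable {C a n : ℕ}

theorem QP_card {m n a : ℕ} {D : Line (Edge m n)} {X : Finset (Edge m n)}
    (hdeg : ∀ e, e ∉ X → (univ.filter (fun f => f ∉ X ∧ PP D e f)).card * a ^ 5 ≤ n) (S : Finset (Edge m n)) :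
    (QP D X S).card * a ^ 5 ≤ S.card * n := by
  have h1 : QP D X S ⊆ (S.filter (fun e => e ∉ X)).biUnion
      (fun e => (univ.filter (fun f => f ∉ X ∧ PP D e f)).image (fun f => ({e, f} : Finset (Edge m n)))) := by
    intro A hA
    obtain ⟨-, e, f, he, heX, hfX, hPP, rfl⟩ := Finset.mem_filter.1 hA
    exact Finset.mem_biUnion.2 ⟨e, Finset.mem_filter.2 ⟨he, heX⟩, Finset.mem_image.2 ⟨f,
      Finset.mem_filter.2 ⟨Finset.mem_univ _, hfX, hPP⟩, rfl⟩⟩
  calc (QP D X S).card * a ^ 5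
      ≤ (∑ e ∈ S.filter (fun e => e ∉ X), (univ.filter (fun f => f ∉ X ∧ PP D e f)).card) * a ^ 5 := by
        refine Nat.mul_le_mul_right _ ((Finset.card_le_card h1).trans (Finset.card_biUnion_le.trans ?_))
        exact Finset.sum_le_sum (fun e _ => Finset.card_image_le)
    _ = ∑ e ∈ S.filter (fun e => e ∉ X), (univ.filter (fun f => f ∉ X ∧ PP D e f)).card * a ^ 5 :=
        Finset.sum_mul _ _ _
    _ ≤ (S.filter (fun e => e ∉ X)).card * n := by
        rw [← smul_eq_mul]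
        exact Finset.sum_le_card_nsmul _ _ _ (fun f hf => hdeg f (Finset.mem_filter.1 hf).2)
    _ ≤ S.card * n := Nat.mul_le_mul_right _ (Finset.card_filter_le _ _)

theorem QP_two {m n : ℕ} {D : Line (Edge m n)} {X S : Finset (Edge m n)} : ∀ A ∈ QP D X S, A.card = 2 := by
  intro A hA
  obtain ⟨-, e, f, -, -, -, hPP, rfl⟩ := Finset.mem_filter.1 hA
  exact Finset.card_pair (fun h => hPP.1 (by rw [h]))

theorem card_rows {m n : ℕ} (Y : Finset (Fin m)) :
    (univ.filter (fun e : Edge m n => e.1 ∈ Y)).card = Y.card * n := by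
  have h1 : (univ.filter (fun e : Edge m n => e.1 ∈ Y)) = Y ×ˢ (univ : Finset (Fin n)) := by
    ext e
    rw [Finset.mem_filter, Finset.mem_product]
    simp
  rw [h1, Finset.card_product, Finset.card_univ, Fintype.card_fin]

theorem num1 (hP : Par2 C a n) (h Q : ℕ) (hh : n ≤ 2 * h) (hQ : Q * a ^ 5 ≤ n / a ^ 3 * n * n) :
    3 * (Q : ℝ) / (C * (n / a ^ 3) : ℕ) * ((sa C a : ℝ) / (2 * h)) ^ 2 ≤ 1 / (a : ℝ) ^ 4 := by
  have hC := hP.par.hC
  have hnp := hP.n_pos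
  have hz := hP.z_pos
  have hhn : 0 < 2 * h := by omega
  have hh0 : (0 : ℝ) < 2 * h := by exact_mod_cast hhn
  have hap : (0 : ℝ) < a := by exact_mod_cast hP.a_pos
  set Z := n / a ^ 3 with hZ
  have hCZ : 0 < C * Z := Nat.mul_pos (by omega) (by omega)
  have hCZ' : (0 : ℝ) < ((C * Z : ℕ) : ℝ) := by exact_mod_cast hCZ
  rw [div_pow, div_mul_div_comm, div_le_div_iff₀ (by positivity) (by positivity)]
  have h1 : 3 * Q * sa C a ^ 2 * a ^ 4 ≤ 1 * (C * Z * (2 * h) ^ 2) := by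
    have h2 : 3 * Q * sa C a ^ 2 * a ^ 4 * a ≤ 1 * (C * Z * (2 * h) ^ 2) * a := by
      calc 3 * Q * sa C a ^ 2 * a ^ 4 * a = 3 * sa C a ^ 2 * (Q * a ^ 5) := by ring
        _ ≤ 3 * sa C a ^ 2 * (Z * n * n) := Nat.mul_le_mul_left _ hQ
        _ ≤ a * (Z * n * n) := by
            apply Nat.mul_le_mul_right
            refine le_trans ?_ hP.par.a2
            nlinarith [Nat.zero_le (sa C a)]
        _ = a * (Z * n ^ 2) := by ring
        _ ≤ a * (Z * (2 * h) ^ 2) :=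
            Nat.mul_le_mul_left _ (Nat.mul_le_mul_left _ (Nat.pow_le_pow_left hh 2))
        _ = 1 * (1 * Z * (2 * h) ^ 2) * a := by ring
        _ ≤ 1 * (C * Z * (2 * h) ^ 2) * a := by
            apply Nat.mul_le_mul_right
            apply Nat.mul_le_mul_left
            apply Nat.mul_le_mul_right
            apply Nat.mul_le_mul_right
            omega
    exact Nat.le_of_mul_le_mul_right h2 hP.a_pos
  exact_mod_cast h1

theorem num2 (hP : Par2 C a n) :
    (2 : ℝ) ^ (n / a ^ 3) * ((n ^ 2 : ℕ) : ℝ) ^ (n / a ^ 3) * (1 / (a : ℝ) ^ 4) ^ (C * (n / a ^ 3)) ≤ 1 / 32 := by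
  have hap : (0 : ℝ) < a := by exact_mod_cast hP.a_pos
  have ha := hP.par.a_ge
  have har : (64 : ℝ) ≤ a := by exact_mod_cast (by omega : 64 ≤ a)
  have hC := hP.par.hC
  have hz := hP.z_pos
  set Z := n / a ^ 3 with hZ
  have h1 : ((n ^ 2 : ℕ) : ℝ) ≤ (a : ℝ) ^ (2 * C) := by
    have : n ^ 2 ≤ a ^ (2 * C) := by
      rw [Nat.mul_comm, pow_mul]
      exact Nat.pow_le_pow_left hP.par.hn 2
    exact_mod_cast this
  have h2 : 2 * ((n ^ 2 : ℕ) : ℝ) * (1 / (a : ℝ) ^ 4) ^ C ≤ 1 / 32 := by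
    have h3 : (1 / (a : ℝ) ^ 4) ^ C = (1 / a) ^ (2 * C) * (1 / a) ^ (2 * C) := by
      rw [← pow_add, one_div, one_div, inv_pow, inv_pow, ← pow_mul]
      congr 2
      ring
    have h4 : ((n ^ 2 : ℕ) : ℝ) * (1 / (a : ℝ)) ^ (2 * C) ≤ 1 := by
      calc ((n ^ 2 : ℕ) : ℝ) * (1 / (a : ℝ)) ^ (2 * C) ≤ (a : ℝ) ^ (2 * C) * (1 / (a : ℝ)) ^ (2 * C) :=
            mul_le_mul_of_nonneg_right h1 (by positivity)
        _ = 1 := by rw [← mul_pow, mul_one_div_cancel hap.ne', one_pow]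
    have h5 : (1 / (a : ℝ)) ^ (2 * C) ≤ 1 / a := by
      calc (1 / (a : ℝ)) ^ (2 * C) ≤ (1 / (a : ℝ)) ^ 1 := by
            apply pow_le_pow_of_le_one (by positivity)
            · rw [div_le_one hap]
              linarith
            · omega
        _ = 1 / a := pow_one _
    have h6 : (1 : ℝ) / a ≤ 1 / 64 := one_div_le_one_div_of_le (by norm_num) har
    rw [h3]
    calc 2 * ((n ^ 2 : ℕ) : ℝ) * ((1 / (a : ℝ)) ^ (2 * C) * (1 / (a : ℝ)) ^ (2 * C))
        = 2 * (((n ^ 2 : ℕ) : ℝ) * (1 / (a : ℝ)) ^ (2 * C)) * (1 / (a : ℝ)) ^ (2 * C) := by ring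
      _ ≤ 2 * 1 * (1 / 64) := by
          apply mul_le_mul _ (h5.trans h6) (by positivity) (by norm_num)
          linarith
      _ = 1 / 32 := by norm_num
  rw [pow_mul, ← mul_pow, ← mul_pow]
  calc (2 * ((n ^ 2 : ℕ) : ℝ) * (1 / (a : ℝ) ^ 4) ^ C) ^ Z ≤ (1 / 32) ^ Z :=
        pow_le_pow_left₀ (by positivity) h2 _
    _ ≤ (1 / 32) ^ 1 := pow_le_pow_of_le_one (by norm_num) (by norm_num) hz
    _ = 1 / 32 := pow_one _

end PPR

open PPR

theorem stmt_PPR : Stmt_PPR := by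
  intro C
  obtain ⟨a0, ha0⟩ := par2_ex C
  refine ⟨a0, ?_⟩
  intro a n L U J h hl P0 E0 hS
  have hP := ha0 a n hS.rg
  have hh := hS.hh
  have hnp := hP.n_pos
  have hh1 : 1 ≤ h := by omega
  have hLR : ((L.card : ℕ) : ℝ) ≤ 2 ^ (n / a ^ 3) := by exact_mod_cast hS.hL
  have hz1 := hP.z_pos
  have hC := hP.par.hC
  refine (pr_mono (q := fun ω => ∃ p ∈ L ×ˢ ((univ : Finset (Fin (n ^ 2))).powersetCard (n / a ^ 3)),
    HasDisj (QP p.1 (XX (U p.1) (J p.1)) (univ.filter (fun e => e.1 ∈ p.2))) (C * (n / a ^ 3))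
      (fun A => A ⊆ E1 hl P0 ω)) ?_).trans ?_
  · rintro ω ⟨D, hD, Y, hY, h1⟩
    exact ⟨(D, Y), Finset.mem_product.2 ⟨hD, Finset.mem_powersetCard.2 ⟨Finset.subset_univ _, hY⟩⟩, h1⟩
  · refine (pr_exists_le_card _ _ ((1 / (a : ℝ) ^ 4) ^ (C * (n / a ^ 3))) ?_).trans ?_
    · intro p hp
      obtain ⟨hp1, hp2⟩ := Finset.mem_product.1 hp
      refine (stmt_MUL (n ^ 2) n h (sa C a) hl P0 _ (C * (n / a ^ 3)) 2 hS.inj hh1
        (Nat.mul_pos (by omega) (by omega)) QP_two).trans ?_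
      apply pow_le_pow_left₀ (by positivity)
      refine num1 hP h _ hh ?_
      refine (QP_card (hS.light.deg p.1 hp1) _).trans ?_
      rw [card_rows, (Finset.mem_powersetCard.1 hp2).2]
    · refine le_trans ?_ (num2 hP)
      apply mul_le_mul_of_nonneg_right _ (by positivity)
      rw [Finset.card_product, Nat.cast_mul]
      refine mul_le_mul hLR ?_ (Nat.cast_nonneg _) (by positivity)
      rw [Finset.card_powersetCard, Finset.card_univ, Fintype.card_fin]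
      exact_mod_cast Nat.choose_le_pow (n ^ 2) (n / a ^ 3)

end

end Pool.Agent.Work.MP_833881_lp
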