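import Pool.Agent.Work.MP_833881_lp.Interface

/-!
# PRE: phases A, B, C, D
-/

namespace Pool.Agent.Work.MP_833881_lp

open Finset Pool.Agent.Work.MP_833881_lc Pool.Agent.Work.MP_833881_lb
open scoped Classical

noncomputable section

namespace PRE

variable {m n : ℕ}

theorem tr_of_sat {E0 E1 M : Finset (Edge m n)} {D : Line (Edge m n)} (h : satD (E0 ∪ E1) M D) (k : ℕ) :
    Tr E0 E1 D k M := by
  cases k with
  | zero => exact h
  | succ k => exact Or.inl h

theorem notsat {E0 E1 M : Finset (Edge m n)} {D : Line (Edge m n)} {K : ℕ} (h : GP E0 E1 D K M) :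
    ¬ satD (E0 ∪ E1) M D := fun h1 => h.2.2 (tr_of_sat h1 _)

theorem false_of {E M : Finset (Edge m n)} {v g : Edge m n} (hg : g ∈ M) (hne : g ≠ v)
    (h : g.1 = v.1 ∨ g.2 = v.2) : satL E M (v, false) :=
  ⟨fun h1 => by simp at h1, fun _ => Or.inr ⟨g, hg, hne, h⟩⟩

theorem false_of' {E M : Finset (Edge m n)} {v : Edge m n} (h : v ∉ E) : satL E M (v, false) :=
  ⟨fun h1 => by simp at h1, fun _ => Or.inl h⟩

theorem true_of {E M : Finset (Edge m n)} {v : Edge m n} (h : v ∈ M) : satL E M (v, true) :=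
  ⟨fun _ => h, fun h1 => by simp at h1⟩

theorem phaseB (hG : Stmt_GAME) {E0 E1 : Finset (Edge m n)} {D : Line (Edge m n)} {K : ℕ}
    (Hv : Finset (Edge m n) → Finset (Edge m n)) : ∀ (j : ℕ) (M ξ Z : Finset (Edge m n)),
    GP E0 E1 D K M → ξ ⊆ M → (∀ v ∈ Z, v ∈ ξ ∨ ∃ f ∈ M, f ≠ v ∧ f.1 = v.1) →
    ¬ IsCh Hv E1 j ξ Z → (M \ E0).card + j ≤ K →
    ∃ M' ξ' Z' : Finset (Edge m n), GP E0 E1 D K M' ∧ M ⊆ M' ∧ ξ ⊆ ξ' ∧ ξ' ⊆ M' ∧
      (∀ v ∈ Z', v ∈ ξ' ∨ ∃ f ∈ M', f ≠ v ∧ f.1 = v.1) ∧ (M' \ E0).card ≤ (M \ E0).card + j ∧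
      ξ'.card ≤ ξ.card + j ∧ ∀ f ∈ Hv ξ', f ∈ E1 → f ∈ Z' := by
  intro j
  induction j with
  | zero =>
    intro M ξ Z _ _ _ h4 _
    exact absurd trivial h4
  | succ j ih =>
    intro M ξ Z h1 h2 h3 h4 h5
    by_cases h : ∃ f ∈ Hv ξ, f ∈ E1 ∧ f ∉ Z
    · obtain ⟨f, hf1, hf2, hf3⟩ := h
      have hc1 : ¬ IsCh Hv E1 j ξ (insert f Z) := fun hc => h4 ⟨f, hf1, hf2, hf3, Or.inl hc⟩
      have hc2 : ¬ IsCh Hv E1 j (insert f ξ) (insert f Z) :=
        fun hc => h4 ⟨f, hf1, hf2, hf3, Or.inr hc⟩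
      obtain ⟨M1, g1, g2, g3, g4⟩ := hG.2.2.1 m n E0 E1 M D K {f.1} ∅ h1 (by simp; omega)
      have g4' : (M1 \ E0).card ≤ (M \ E0).card + 1 := by simpa using g4
      obtain ⟨e, he, hef⟩ := g3.1 f.1 (Finset.mem_singleton_self _)
      by_cases hee : e = f
      · subst hee
        obtain ⟨M', ξ', Z', a1, a2, a3, a4, a5, a6, a7, a8⟩ := ih M1 (insert e ξ) (insert e Z) g1
          (Finset.insert_subset he (h2.trans g2)) (by
            intro v hv
            rcases Finset.mem_insert.1 hv with rfl | hv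
            · exact Or.inl (Finset.mem_insert_self _ _)
            · rcases h3 v hv with h | ⟨g, hg, hgv⟩
              · exact Or.inl (Finset.mem_insert_of_mem h)
              · exact Or.inr ⟨g, g2 hg, hgv⟩) hc2 (by omega)
        have hins := Finset.card_insert_le e ξ
        exact ⟨M', ξ', Z', a1, g2.trans a2, (Finset.subset_insert _ _).trans a3, a4, a5, by omega,
          by omega, a8⟩
      · obtain ⟨M', ξ', Z', a1, a2, a3, a4, a5, a6, a7, a8⟩ := ih M1 ξ (insert f Z) g1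
          (h2.trans g2) (by
            intro v hv
            rcases Finset.mem_insert.1 hv with rfl | hv
            · exact Or.inr ⟨e, he, hee, hef⟩
            · rcases h3 v hv with h | ⟨g, hg, hgv⟩
              · exact Or.inl h
              · exact Or.inr ⟨g, g2 hg, hgv⟩) hc1 (by omega)
        exact ⟨M', ξ', Z', a1, g2.trans a2, a3, a4, a5, by omega, by omega, a8⟩
    · refine ⟨M, ξ, Z, h1, Finset.Subset.refl _, Finset.Subset.refl _, h2, h3, by omega, by omega,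
        fun f hf hf1 => ?_⟩
      by_contra hf2
      exact h ⟨f, hf, hf1, hf2⟩

/-- phase A -/
theorem phaseA (hG : Stmt_GAME) {p : Prm} {L : Finset (Line (Edge m n))}
    {X : Line (Edge m n) → Finset (Edge m n)} {E0 E1 : Finset (Edge m n)} (W : World2 p L X E0 E1)
    {D : Line (Edge m n)} (hD : D ∈ L) {K : ℕ} (hK : 3 * p.z ≤ K) (hgp : GP E0 E1 D K E0) :
    ∃ MA : Finset (Edge m n), GP E0 E1 D K MA ∧ (MA \ E0).card ≤ 3 * p.z ∧ Fo D E0 ⊆ E0 ∪ E1 ∧
      (∀ e ∈ E1, e ∈ X D → ∃ g ∈ MA, g.1 = e.1 ∨ g.2 = e.2) ∧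
      (∀ v ∈ Fo D E0, v ∉ E0 → ∃ g ∈ MA, g.1 = v.1) := by
  obtain ⟨KP, KH, hKK, hX⟩ := W.exc D hD
  have hFo : Fo D E0 ⊆ E0 ∪ E1 := by
    intro v hv
    by_contra hvE
    unfold Fo at hv
    obtain ⟨t, ht, ht1, ht2⟩ := (Finset.mem_filter.1 hv).2
    refine notsat hgp ⟨t, ht, fun l hl => ?_⟩
    by_cases hl2 : l = (v, false)
    · rw [hl2]
      exact false_of' hvE
    · obtain ⟨a, b⟩ := l
      obtain ⟨h1, h2⟩ := ht2 _ hl hl2
      simp only at h1 h2
      subst h1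
      exact true_of h2
  have hz := W.fo D hD hFo
  have hzi : ((Fo D E0 \ E0).image Prod.fst).card ≤ p.z := Finset.card_image_le.trans hz
  have hE0 : (E0 \ E0).card = 0 := by rw [Finset.sdiff_self, Finset.card_empty]
  have hun := Finset.card_union_le KP ((Fo D E0 \ E0).image Prod.fst)
  obtain ⟨MA, g1, g2, g3, g4⟩ := hG.2.2.1 m n E0 E1 E0 D K (KP ∪ (Fo D E0 \ E0).image Prod.fst) KH
    hgp (by omega)
  refine ⟨MA, g1, by omega, hFo, ?_, ?_⟩
  · intro e he heX
    rcases hX e he heX with h | h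
    · obtain ⟨g, hg, hge⟩ := g3.1 e.1 (Finset.mem_union_left _ h)
      exact ⟨g, hg, Or.inl hge⟩
    · obtain ⟨g, hg, hge⟩ := g3.2 e.2 h
      exact ⟨g, hg, Or.inr hge⟩
  · intro v hv hv0
    exact g3.1 v.1 (Finset.mem_union_right _ (Finset.mem_image_of_mem _
      (Finset.mem_sdiff.2 ⟨hv, hv0⟩)))

/-- a position with budget left has no blocked uncovered pigeon -/
theorem not_blocked {E0 E1 : Finset (Edge m n)} {D : Line (Edge m n)} {K : ℕ}
    {MB ξ Z H : Finset (Edge m n)} (hgp : GP E0 E1 D K MB) (hK : (MB \ E0).card + 1 ≤ K)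
    (hξ : ξ ⊆ MB) (hZ : ∀ v ∈ Z, v ∈ ξ ∨ ∃ f ∈ MB, f ≠ v ∧ f.1 = v.1)
    (hH : ∀ f ∈ H, f ∈ E1 → f ∈ Z) (i : Fin m) (hi : i ∉ E0.image Prod.fst)
    (hb : ∀ j ∈ opts E1 i, SPos D (E0 ∪ ξ) E1 H (i, j)) : False := by
  apply hgp.2.2
  obtain ⟨k, hk⟩ : ∃ k, K - (MB \ E0).card = k + 1 := ⟨K - (MB \ E0).card - 1, by omega⟩
  rw [hk]
  refine Or.inr (Or.inl ⟨i, fun e hei hM => tr_of_sat ?_ k⟩)
  have hsub : E0 ∪ ξ ⊆ insert e MB :=
    (Finset.union_subset hgp.1.sup hξ).trans (Finset.subset_insert _ _)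
  have heE : e ∈ E1 := by
    rcases Finset.mem_union.1 (hM.sub (Finset.mem_insert_self e MB)) with h | h
    · exact absurd (Finset.mem_image.2 ⟨e, h, hei⟩) hi
    · exact h
  have hee : e = (i, e.2) := by rw [← hei]
  have hopt : e.2 ∈ opts E1 i := by
    rw [mem_opts, ← hee]
    exact heE
  have hs := hb e.2 hopt
  rw [← hee] at hs
  obtain ⟨t, ht, ht1, ht2⟩ := hs
  refine ⟨t, ht, fun l hl => ?_⟩
  by_cases hl2 : l = (e, true)
  · rw [hl2]
    exact true_of (Finset.mem_insert_self _ _)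
  · obtain ⟨h1, h2, h3⟩ := ht2 l hl hl2
    obtain ⟨v, b⟩ := l
    cases b with
    | true => exact true_of (hsub (h2 rfl))
    | false =>
      obtain ⟨h4, h5⟩ := h3 rfl
      simp only at h1 h4 h5
      by_cases hv : v ∈ E0 ∪ E1
      · have hvE : v ∈ E1 := by
          rcases Finset.mem_union.1 hv with h | h
          · exact absurd (Finset.mem_union_left _ h) h4
          · exact h
        rcases h5 hvE with h | h
        · rcases hZ v (hH v h hvE) with h6 | ⟨f, hf, hf1, hf2⟩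
          · exact absurd (Finset.mem_union_right _ h6) h4
          · exact false_of (Finset.mem_insert_of_mem hf) hf1 (Or.inl hf2)
        · exact false_of (Finset.mem_insert_self _ _) (fun h6 => h1 h6.symm) (Or.inl h.symm)
      · exact false_of' hv

/-- no edge of `E0` is an effective positive literal -/
theorem not_pos {E0 E1 : Finset (Edge m n)} {D : Line (Edge m n)} {K : ℕ}
    {MA MB ξ : Finset (Edge m n)} (hgp : GP E0 E1 D K MB) (hAB : MA ⊆ MB) (hξ : ξ ⊆ MB)
    (hAξ : MA \ E0 ⊆ ξ) (hFo : Fo D E0 ⊆ E0 ∪ E1)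
    (hA : ∀ v ∈ Fo D E0, v ∉ E0 → ∃ g ∈ MA, g.1 = v.1) (h2 : ∀ t ∈ D, t.card ≤ 2)
    {e : Edge m n} (he : e ∈ E0) (hp : e ∈ Pos D (E0 ∪ ξ)) : False := by
  unfold Pos at hp
  obtain ⟨t, ht, ht1, ht2⟩ := (Finset.mem_filter.1 hp).2
  refine notsat hgp ⟨t, ht, fun l hl => ?_⟩
  by_cases hl2 : l = (e, true)
  · rw [hl2]
    exact true_of (hgp.1.sup he)
  · obtain ⟨h3, h4, h5⟩ := ht2 l hl hl2
    obtain ⟨v, b⟩ := l
    cases b with
    | true => exact true_of ((Finset.union_subset hgp.1.sup hξ) (h4 rfl))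
    | false =>
      have h6 : v ∉ E0 ∪ ξ := h5 rfl
      have h7 : v ∉ E0 := fun h => h6 (Finset.mem_union_left _ h)
      have hvF : v ∈ Fo D E0 := by
        unfold Fo
        refine Finset.mem_filter.2 ⟨Finset.mem_univ _, t, ht, hl, fun l' hl' hne => ?_⟩
        have h8 : l' = (e, true) := by
          by_contra hne'
          have h9 : ({(e, true), (v, false), l'} : Finset (Edge m n × Bool)).card = 3 := by
            rw [Finset.card_eq_three]
            exact ⟨_, _, _, fun h => hl2 h.symm, fun h => hne' h.symm, fun h => hne h.symm, rfl⟩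
          have h10 : ({(e, true), (v, false), l'} : Finset (Edge m n × Bool)) ⊆ t := by
            intro x hx
            simp only [Finset.mem_insert, Finset.mem_singleton] at hx
            rcases hx with rfl | rfl | rfl
            · exact ht1
            · exact hl
            · exact hl'
          have h11 := Finset.card_le_card h10
          have h12 := h2 t ht
          omega
        rw [h8]
        exact ⟨rfl, he⟩
      obtain ⟨g, hg, hgv⟩ := hA v hvF h7
      by_cases hgv' : g = v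
      · subst hgv'
        exact absurd (Finset.mem_union_right _ (hAξ (Finset.mem_sdiff.2 ⟨hg, h7⟩))) h6
      · exact false_of (hAB hg) hgv' (Or.inl hgv)

/-- phase C -/
theorem phaseC (hG : Stmt_GAME) {p : Prm} {L : Finset (Line (Edge m n))}
    {X : Line (Edge m n) → Finset (Edge m n)} {E0 E1 : Finset (Edge m n)} (W : World2 p L X E0 E1)
    {D : Line (Edge m n)} (hD : D ∈ L) {K : ℕ} {MB : Finset (Edge m n)} (hgp0 : GP E0 E1 D K E0)
    (hgp : GP E0 E1 D K MB) (hK : (MB \ E0).card + 3 * p.z ≤ K) :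
    ∃ MC : Finset (Edge m n), GP E0 E1 D K MC ∧ MB ⊆ MC ∧
      (MC \ E0).card ≤ (MB \ E0).card + 3 * p.z ∧ ∀ e f, NN D e f → e ∈ MC ∨ f ∈ MC := by
  rcases W.neg D hD with ⟨t, ht, ht1⟩ | ⟨W0, hW1, hW2, hW3⟩
  · exfalso
    refine notsat hgp0 ⟨t, ht, fun l hl => ?_⟩
    obtain ⟨v, b⟩ := l
    obtain ⟨h1, h2⟩ := ht1 _ hl
    simp only at h1 h2
    subst h1
    exact false_of' h2
  · have hW1' : (W0.image Prod.fst).card ≤ 2 * p.z := Finset.card_image_le.trans hW1
    obtain ⟨M1, g1, g2, g3, g4⟩ := hG.2.2.1 m n E0 E1 MB D K (W0.image Prod.fst) ∅ hgp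
      (by rw [Finset.card_empty]; omega)
    rw [Finset.card_empty] at g4
    -- the elements of W0 outside M1 are false
    have hfalse : ∀ w ∈ W0 \ M1, satL (E0 ∪ E1) M1 (w, false) := by
      intro w hw
      obtain ⟨hw1, hw2⟩ := Finset.mem_sdiff.1 hw
      obtain ⟨g, hg, hgw⟩ := g3.1 w.1 (Finset.mem_image_of_mem _ hw1)
      exact false_of hg (fun h => hw2 (h ▸ hg)) (Or.inl hgw)
    have hterm : ∀ (M : Finset (Edge m n)), ¬ satD (E0 ∪ E1) M D → ∀ w v, NN D w v →
        satL (E0 ∪ E1) M (w, false) → satL (E0 ∪ E1) M (v, false) → False := by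
      intro M hM w v hwv h1 h2
      refine hM ⟨_, hwv.2, fun l hl => ?_⟩
      rcases Finset.mem_insert.1 hl with rfl | hl
      · exact h1
      · rw [Finset.mem_singleton.1 hl]
        exact h2
    have hPt : PtN D E0 (W0 \ M1) ⊆ E1 := by
      intro v hv
      unfold PtN at hv
      obtain ⟨hv0, w, hw, hw0, hwv⟩ := (Finset.mem_filter.1 hv).2
      by_contra hvE
      refine hterm M1 (notsat g1) w v hwv (hfalse w hw) (false_of' ?_)
      rw [Finset.mem_union]
      exact fun h => h.elim hv0 hvE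
    have hPc := hW3 (W0 \ M1) Finset.sdiff_subset hPt
    have hPc' : ((PtN D E0 (W0 \ M1)).image Prod.fst).card ≤ p.z := Finset.card_image_le.trans hPc
    obtain ⟨M2, k1, k2, k3, k4⟩ := hG.2.2.1 m n E0 E1 M1 D K ((PtN D E0 (W0 \ M1)).image Prod.fst) ∅
      g1 (by rw [Finset.card_empty]; omega)
    rw [Finset.card_empty] at k4
    have hPM : ∀ v ∈ PtN D E0 (W0 \ M1), v ∈ M2 := by
      intro v hv
      by_contra hvM
      obtain ⟨g, hg, hgv⟩ := k3.1 v.1 (Finset.mem_image_of_mem _ hv)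
      have h1 : satL (E0 ∪ E1) M2 (v, false) :=
        false_of hg (fun h => hvM (h ▸ hg)) (Or.inl hgv)
      unfold PtN at hv
      obtain ⟨hv0, w, hw, hw0, hwv⟩ := (Finset.mem_filter.1 hv).2
      exact hterm M2 (notsat k1) w v hwv (satL_mono k2 (hfalse w hw)) h1
    refine ⟨M2, k1, g2.trans k2, by omega, ?_⟩
    have key : ∀ e f, NN D e f → e ∉ E0 → f ∉ E0 → e ∈ W0 → e ∈ M2 ∨ f ∈ M2 := by
      intro e f hef he hf heW
      by_cases heM : e ∈ M1
      · exact Or.inl (k2 heM)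
      · refine Or.inr (hPM f ?_)
        unfold PtN
        exact Finset.mem_filter.2 ⟨Finset.mem_univ _, hf, e, Finset.mem_sdiff.2 ⟨heW, heM⟩, he, hef⟩
    intro e f hef
    by_cases he : e ∈ E0
    · exact Or.inl (k1.1.sup he)
    by_cases hf : f ∈ E0
    · exact Or.inr (k1.1.sup hf)
    rcases hW2 e f hef he hf with h | h
    · exact key e f hef he hf h
    · refine (key f e ⟨hef.1.symm, ?_⟩ hf he h).symm
      rw [Finset.pair_comm]
      exact hef.2

end PRE

open PRE in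
theorem stmt_PRE (hG : Stmt_GAME) : Stmt_PRE := by
  intro m n p L X E0 E1 W hp D hD hTr Y hY
  have h1 := hp.w1
  have h2 := hp.zw
  have h3 := hp.zu
  have h4 := hp.xu
  have hE0 : IsM E0 E1 E0 := ⟨Finset.subset_union_left, Finset.Subset.refl _, W.mat⟩
  have hc0 : (E0 \ E0).card = 0 := by rw [Finset.sdiff_self, Finset.card_empty]
  have hgp0 : GP E0 E1 D (88 * p.w + 2 * p.z + 1) E0 :=
    ⟨hE0, by omega, by rw [hc0, Nat.sub_zero]; exact hTr⟩
  obtain ⟨MA, a1, a2, hFo, a3, a4⟩ := phaseA hG W hD (by omega) hgp0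
  obtain ⟨Hv, hch, hpp⟩ := W.posP D hD
  obtain ⟨MB, ξ, Z, b1, b2, b3, b4, b5, b6, b7, b8⟩ := phaseB hG Hv p.u MA (MA \ E0) ∅ a1
    Finset.sdiff_subset (fun v hv => absurd hv (Finset.notMem_empty v)) (hch _ a2) (by omega)
  have hξ : ξ.card ≤ p.x0 := by omega
  -- blocked pigeons
  have hXP : (univ.filter (fun i => i ∉ E0.image Prod.fst ∧
      ((opts E1 i).filter (fun j => (i, j) ∉ Pos D (E0 ∪ ξ))).card < p.rp)).card < p.w := by
    rcases hpp ξ hξ with h | h
    · exact h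
    · exfalso
      have h5 : ((MB \ E0).image Prod.fst).card ≤ p.x0 := by
        have := Finset.card_image_le (s := MB \ E0) (f := Prod.fst)
        omega
      obtain ⟨i, hi1, hi2⟩ := Finset.exists_mem_notMem_of_card_lt_card (h5.trans_lt h)
      obtain ⟨hi3, hi4⟩ := (Finset.mem_filter.1 hi1).2
      exact not_blocked b1 (by omega) b4 b5 b8 i hi3 hi4
  obtain ⟨XH, hXH1, hXH2⟩ : ∃ XH : Finset (Fin n), XH.card ≤ 2 * p.w ∧
      ∀ j, j ∉ E0.image Prod.snd → j ∉ XH →
        p.T ≤ (E1.filter (fun e => e.2 = j ∧ e ∉ Pos D (E0 ∪ ξ))).card := by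
    rcases W.posH D hD ξ hξ with h | ⟨e, he, hpos⟩
    · exact h
    · exact absurd (not_pos b1 b2 b4 b3 hFo a4 (W.two D hD) he hpos) not_false
  obtain ⟨MC, c1, c2, c3, c4⟩ := phaseC hG W hD hgp0 b1 (by omega)
  set XPs := univ.filter (fun i => i ∉ E0.image Prod.fst ∧
      ((opts E1 i).filter (fun j => (i, j) ∉ Pos D (E0 ∪ ξ))).card < p.rp) with hXPs
  have hun := Finset.card_union_le XPs Y
  obtain ⟨M, d1, d2, d3, d4⟩ := hG.2.2.1 m n E0 E1 MC D (88 * p.w + 2 * p.z + 1) (XPs ∪ Y) XH c1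
    (by omega)
  refine ⟨M, ξ, ?_⟩
  constructor
  · exact d1
  · omega
  · exact b4.trans (c2.trans d2)
  · intro e he heX
    obtain ⟨g, hg, hge⟩ := a3 e he heX
    by_cases hge' : g = e
    · subst hge'
      left
      exact b3 (Finset.mem_sdiff.2 ⟨hg, fun h => (W.sep g h g he).1 rfl⟩)
    · exact Or.inr ⟨g, d2 (c2 (b2 hg)), hge', hge⟩
  · intro e f hef
    rcases c4 e f hef with h | h
    · exact Or.inl (d2 h)
    · exact Or.inr (d2 h)
  · intro i hi
    exact d3.1 i (Finset.mem_union_right _ hi)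
  · intro i hi
    by_contra hcon
    push Not at hcon
    have h5 : i ∈ XPs := by
      rw [hXPs]
      refine Finset.mem_filter.2 ⟨Finset.mem_univ _, ?_, hcon⟩
      intro h6
      obtain ⟨e, he, hei⟩ := Finset.mem_image.1 h6
      exact hi e (d1.1.sup he) hei
    obtain ⟨e, he, hei⟩ := d3.1 i (Finset.mem_union_left _ h5)
    exact hi e he hei
  · intro j hj
    refine hXH2 j ?_ ?_
    · intro h6
      obtain ⟨e, he, hei⟩ := Finset.mem_image.1 h6
      exact hj e (d1.1.sup he) hei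
    · intro h6
      obtain ⟨e, he, hei⟩ := d3.2 j h6
      exact hj e he hei

end

end Pool.Agent.Work.MP_833881_lp
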