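import Pool.Agent.Work.MP_833881_lp.Interface
import Pool.Agent.Work.MP_833881_lb.S1M
import Pool.Agent.Work.MP_833881_lb.S1K

/-!
# Block S1W (helper63): a forced edge in `A` whose enabler is determined
-/

set_option autoImplicit false

namespace Pool.Agent.Work.MP_833881_lp

open Finset Pool.Agent.Work.MP_833881_lc Pool.Agent.Work.MP_833881_lb
open scoped Classical

noncomputable section

namespace S1W

/-- the probabilities of the values of a function -/
theorem sum_pr_le_one {α V : Type} [Fintype α] [Fintype V] (ψ : α → Option V) :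
    ∑ v, pr (fun x : α => ψ x = some v) ≤ 1 := by
  have h1 : ∀ v, pr (fun x : α => ψ x = some v) =
      (∑ x : α, if ψ x = some v then (1 : ℝ) else 0) / Fintype.card α := by
    intro v
    rw [pr_eq (fun x : α => ψ x = some v), ← Finset.sum_filter]
    simp
  rw [Finset.sum_congr rfl (fun v _ => h1 v), ← Finset.sum_div, Finset.sum_comm]
  apply div_le_one_of_le₀ _ (Nat.cast_nonneg _)
  have h2 : ∀ x : α, ∑ v, (if ψ x = some v then (1 : ℝ) else 0) ≤ 1 := by
    intro x
    cases h : ψ x with
    | none => simp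
    | some u =>
      rw [Finset.sum_eq_single u]
      · simp
      · intro v _ hv
        rw [if_neg]
        intro h'
        exact hv (Option.some.inj h').symm
      · intro h'
        exact absurd (Finset.mem_univ u) h'
  refine (Finset.sum_le_sum fun x _ => h2 x).trans ?_
  simp

end S1W

open S1W in
theorem stmt_S1W (hENB : Stmt_ENB) : Stmt_S1W := by
  intro m n A φ a w hm ha hw hφ hX
  have hm0 : (0 : ℝ) < m := by exact_mod_cast hm
  have ha0 : (0 : ℝ) < a := by
    have : 0 < a := by omega
    exact_mod_cast this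
  obtain ⟨R0, hR0X, hR0w⟩ := Finset.exists_subset_card_eq hX
  -- the weights
  obtain ⟨P, hP⟩ : ∃ P : Fin n → Edge m n → ℝ, P = fun j v =>
    pr (fun x : Bool × Fin m => (x.2, j) ∈ A ∧ φ (x.2, j) = some v) := ⟨_, rfl⟩
  have hP0 : ∀ j v, 0 ≤ P j v := fun j v => by rw [hP]; exact pr_nonneg _
  have hP1 : ∀ j, ∑ v, P j v ≤ 1 := by
    intro j
    refine le_trans ?_ (sum_pr_le_one (fun x : Bool × Fin m =>
      if (x.2, j) ∈ A then φ (x.2, j) else none))
    refine Finset.sum_le_sum fun v _ => ?_
    rw [hP]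
    apply pr_mono
    rintro x ⟨h1, h2⟩
    rw [if_pos h1]
    exact h2
  obtain ⟨Hv, hHv⟩ : ∃ Hv : Finset (Edge m n), Hv =
    univ.filter (fun v => 1 / (a : ℝ) < ∑ j ∈ R0, P j v) := ⟨_, rfl⟩
  have hHvm : ∀ v, v ∈ Hv ↔ 1 / (a : ℝ) < ∑ j ∈ R0, P j v := by
    intro v; rw [hHv, mem_filter]; simp
  refine ⟨Hv, ?_, ?_⟩
  · have h1 : (Hv.card : ℝ) * (1 / a) ≤ w := by
      calc (Hv.card : ℝ) * (1 / a) = ∑ v ∈ Hv, (1 / (a : ℝ)) := by
            rw [Finset.sum_const, nsmul_eq_mul]
        _ ≤ ∑ v ∈ Hv, ∑ j ∈ R0, P j v :=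
            Finset.sum_le_sum fun v hv => ((hHvm v).1 hv).le
        _ ≤ ∑ v, ∑ j ∈ R0, P j v :=
            Finset.sum_le_sum_of_subset_of_nonneg (Finset.subset_univ _)
              (fun v _ _ => Finset.sum_nonneg fun j _ => hP0 j v)
        _ = ∑ j ∈ R0, ∑ v, P j v := Finset.sum_comm
        _ ≤ ∑ j ∈ R0, (1 : ℝ) := Finset.sum_le_sum fun j _ => hP1 j
        _ = w := by rw [Finset.sum_const, nsmul_eq_mul, mul_one, hR0w]
    have h2 : (Hv.card : ℝ) ≤ a * w := by
      rw [mul_one_div, div_le_iff₀ ha0] at h1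
      linarith
    exact_mod_cast h2
  · obtain ⟨A', hA'⟩ : ∃ A' : Finset (Edge m n), A' = A.filter (fun e => e.2 ∈ R0) := ⟨_, rfl⟩
    have hA'm : ∀ e, e ∈ A' ↔ e ∈ A ∧ e.2 ∈ R0 := by
      intro e; rw [hA', mem_filter]
    obtain ⟨en, hen⟩ : ∃ en : Fin n → Bool × Fin m → Finset (Edge m n), en = fun j x =>
      univ.filter (fun v => j ∈ R0 ∧ (x.2, j) ∈ A ∧ v ∉ Hv ∧ v.2 ≠ j ∧ φ (x.2, j) = some v) :=
        ⟨_, rfl⟩
    have henm : ∀ j x v, v ∈ en j x ↔
        j ∈ R0 ∧ (x.2, j) ∈ A ∧ v ∉ Hv ∧ v.2 ≠ j ∧ φ (x.2, j) = some v := by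
      intro j x v
      rw [hen]
      simp only [mem_filter, mem_univ, true_and]
    obtain ⟨κ, hκ⟩ : ∃ κ : ℕ, κ = w / 24 := ⟨_, rfl⟩
    have hκ1 : 1 ≤ κ := by omega
    have : Nonempty (Bool × Fin m) := ⟨(true, ⟨0, hm⟩)⟩
    have hW := hENB (Fin n) (Bool × Fin m) (Edge m n) (fun v => v.2) (fun v y => y.2 = v.1) en
      (1 / m) (1 / a) w κ (by positivity) (by positivity) (Nat.cast_nonneg _) hκ1
      (fun i x v hv => ((henm i x v).1 hv).2.2.2.1)
      (fun F => by
        refine le_trans (pr_mono ?_) (S1M.pr_subset_Mt (n := n) hm F)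
        intro ω h v hv
        exact (S1M.mem_Mt ω v).2 (h v hv))
      (fun v => by
        by_cases hv : v ∈ Hv
        · have : ∑ i : Fin n, pr (fun x : Bool × Fin m => v ∈ en i x) = 0 := by
            refine Finset.sum_eq_zero fun i _ => pr_false fun x hx => ?_
            exact ((henm i x v).1 hx).2.2.1 hv
          rw [this]; positivity
        · have h1 : ∑ i : Fin n, pr (fun x : Bool × Fin m => v ∈ en i x) ≤ ∑ j ∈ R0, P j v := by
            rw [← Finset.sum_subset (Finset.subset_univ R0)]
            · refine Finset.sum_le_sum fun i _ => ?_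
              rw [hP]
              apply pr_mono
              intro x hx
              have := (henm i x v).1 hx
              exact ⟨this.2.1, this.2.2.2.2⟩
            · intro i _ hi
              exact pr_false fun x hx => hi ((henm i x v).1 hx).1
          refine h1.trans ?_
          by_contra hcon
          exact hv ((hHvm v).2 (not_le.1 hcon)))
      (by
        calc ∑ i : Fin n, ∑ v, pr (fun x : Bool × Fin m => v ∈ en i x)
            = ∑ i ∈ R0, ∑ v, pr (fun x : Bool × Fin m => v ∈ en i x) := by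
              rw [← Finset.sum_subset (Finset.subset_univ R0)]
              intro i _ hi
              exact Finset.sum_eq_zero fun v _ => pr_false fun x hx => hi ((henm i x v).1 hx).1
          _ ≤ ∑ i ∈ R0, (1 : ℝ) := by
              refine Finset.sum_le_sum fun i _ => le_trans (Finset.sum_le_sum fun v _ => ?_) (hP1 i)
              rw [hP]
              apply pr_mono
              intro x hx
              have := (henm i x v).1 hx
              exact ⟨this.2.1, this.2.2.2.2⟩
          _ = w := by rw [Finset.sum_const, nsmul_eq_mul, mul_one, hR0w])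
    have hK := stmt_S1K m n A' a w (w / 8) hm ha
    -- the union
    have hsub : pr (fun ω : Fin n → Bool × Fin m => ¬ ∃ j : Fin n, (ω j).1 = false ∧
        ((ω j).2, j) ∈ A ∧ ∀ v, φ ((ω j).2, j) = some v → v ∈ Mt ω → v ∈ Hv) ≤
        pr (fun ω : Fin n → Bool × Fin m =>
          (w ≤ (univ.filter (fun j : Fin n =>
            a * (univ.filter (fun i : Fin m => (i, j) ∉ A')).card < m)).card ∧
          (univ.filter (fun j : Fin n => (ω j).1 = false ∧ ((ω j).2, j) ∈ A')).card ≤ w / 8) ∨
          3 * κ ≤ (univ.filter (fun i => ∃ v ∈ en i (ω i), (ω v.2).2 = v.1)).card) := by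
      apply pr_mono
      intro ω hω
      by_contra hcon
      rw [not_or] at hcon
      obtain ⟨h1, h2⟩ := hcon
      have h3 : w ≤ (univ.filter (fun j : Fin n =>
            a * (univ.filter (fun i : Fin m => (i, j) ∉ A')).card < m)).card := by
        rw [← hR0w]
        apply Finset.card_le_card
        intro j hj
        have h4 := (mem_filter.1 (hR0X hj)).2
        rw [mem_filter]
        refine ⟨mem_univ _, ?_⟩
        have h5 : (univ.filter (fun i : Fin m => (i, j) ∉ A')) =
            (univ.filter (fun i : Fin m => (i, j) ∉ A)) := by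
          apply Finset.filter_congr
          intro i _
          rw [hA'm]
          constructor
          · intro h6 h7; exact h6 ⟨h7, hj⟩
          · intro h6 h7; exact h6 h7.1
        rw [h5]
        exact h4
      have h4 : w / 8 < (univ.filter (fun j : Fin n =>
          (ω j).1 = false ∧ ((ω j).2, j) ∈ A')).card := by
        by_contra h5
        exact h1 ⟨h3, not_lt.1 h5⟩
      have h5 : (univ.filter (fun i => ∃ v ∈ en i (ω i), (ω v.2).2 = v.1)).card <
          (univ.filter (fun j : Fin n => (ω j).1 = false ∧ ((ω j).2, j) ∈ A')).card := by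
        have : 3 * κ ≤ w / 8 := by omega
        omega
      obtain ⟨j, hj1, hj2⟩ : ∃ j ∈ univ.filter (fun j : Fin n =>
          (ω j).1 = false ∧ ((ω j).2, j) ∈ A'),
          j ∉ univ.filter (fun i => ∃ v ∈ en i (ω i), (ω v.2).2 = v.1) := by
        by_contra h6
        push Not at h6
        exact absurd (Finset.card_le_card (fun j hj => h6 j hj)) (not_le.2 h5)
      rw [mem_filter, hA'm] at hj1
      obtain ⟨-, hj3, hj4, hj5⟩ := hj1
      have hj5' : j ∈ R0 := hj5
      apply hω
      refine ⟨j, hj3, hj4, fun v hv hvM => ?_⟩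
      by_contra hvH
      apply hj2
      rw [mem_filter]
      refine ⟨mem_univ _, v, ?_, (S1M.mem_Mt ω v).1 hvM⟩
      rw [henm]
      refine ⟨hj5', hj4, hvH, ?_, hv⟩
      intro hvj
      have h6 := (S1M.mem_Mt ω v).1 hvM
      have h7 : v = ((ω j).2, j) := by
        rw [← hvj, h6]
      rw [← h7] at hv
      exact hφ v hv
    have hW' : pr (fun ω : Fin n → Bool × Fin m =>
        3 * κ ≤ (univ.filter (fun i => ∃ v ∈ en i (ω i), (ω v.2).2 = v.1)).card) ≤
        (3 * (1 / (m : ℝ) * w + κ * (1 / a)) / κ) ^ κ := by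
      refine le_trans (pr_mono fun ω h => ?_) hW
      exact le_trans h (le_of_eq (S1K.card_filter_inst _ _ _ _))
    refine hsub.trans ((pr_or _ _).trans (add_le_add hK (hW'.trans ?_)))
    rw [← hκ]
    apply pow_le_pow_left₀ (by positivity)
    have hκ0 : (0 : ℝ) < κ := by exact_mod_cast hκ1
    have hwκ : (w : ℝ) ≤ 48 * κ := by
      have : w ≤ 48 * κ := by omega
      exact_mod_cast this
    have e1 : 3 * (1 / (m : ℝ) * w + κ * (1 / a)) / κ = 3 * w / (m * κ) + 3 / a := by
      field_simp
    rw [e1]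
    apply add_le_add _ le_rfl
    rw [div_le_div_iff₀ (by positivity) hm0]
    nlinarith [mul_le_mul_of_nonneg_right hwκ hm0.le]

end

end Pool.Agent.Work.MP_833881_lp
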