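import Pool.Agent.Work.MP_833881_lp.Interface
import Pool.Agent.Work.MP_833881_lp.Num
import Pool.Agent.Work.MP_833881_lb.ST1
import Pool.Agent.Work.MP_833881_lb.S1A
import Pool.Agent.Work.MP_833881_lb.S1B
import Pool.Agent.Work.MP_833881_lb.S1M

/-!
# Block ST1 (helper79): the choice of the holes and of the forced edges
-/

set_option autoImplicit false

namespace Pool.Agent.Work.MP_833881_lp

open Finset Pool.Agent.Work.MP_833881_lc Pool.Agent.Work.MP_833881_lb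
open scoped Classical

noncomputable section

namespace ST1x

/-- the number of the nearly full holes -/
def nf (a : ℕ) {n : ℕ} (D : Line (Edge (n ^ 2) n)) (T : Finset (Edge (n ^ 2) n)) : ℕ :=
  (univ.filter (fun j : Fin n =>
    a * (univ.filter (fun i : Fin (n ^ 2) => (i, j) ∉ Pos D T)).card < n ^ 2)).card

/-- the good event of S1W -/
def Gd {n : ℕ} (D : Line (Edge (n ^ 2) n)) (T Hv : Finset (Edge (n ^ 2) n))
    (ω : Fin n → Bool × Fin (n ^ 2)) : Prop :=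
  ∃ j : Fin n, (ω j).1 = false ∧ ((ω j).2, j) ∈ Pos D T ∧
    ∀ v, enab D T ((ω j).2, j) = some v → v ∈ Mt ω → v ∈ Hv

/-- the number bounding the probability in S1W -/
def bd (a n : ℕ) : ℝ :=
  4 ^ (n / a ^ 2 / 8) * (3 / 4 : ℝ) ^ (n / a ^ 2) +
    (144 / ((n ^ 2 : ℕ) : ℝ) + 3 / (a : ℝ)) ^ (n / a ^ 2 / 24)

theorem bd_nonneg (a n : ℕ) : 0 ≤ bd a n := by
  unfold bd
  positivity

theorem M0_sub {m n : ℕ} (ω : Fin n → Bool × Fin m) : M0 ω ⊆ Mt ω := by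
  unfold M0 Mt
  exact image_subset_image (filter_subset _ _)

theorem mem_M0 {m n : ℕ} (ω : Fin n → Bool × Fin m) (j : Fin n) (h : (ω j).1 = false) :
    ((ω j).2, j) ∈ M0 ω := by
  unfold M0
  exact mem_image.2 ⟨j, mem_filter.2 ⟨mem_univ _, h⟩, rfl⟩

end ST1x

open ST1x in
theorem stmt_ST1 (hS1W : Stmt_S1W) (hCHN : Stmt_CHN) (hCHD : Stmt_CHD) (hENAB : Stmt_ENAB)
    (hN1 : Stmt_N1) : Stmt_ST1 := by
  intro C
  obtain ⟨a0, hN1C⟩ := hN1 C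
  refine ⟨max a0 (C + 24), ?_⟩
  intro a n L U J hRg hL hLt
  have hRg0 : Rg C a0 a n := ⟨hRg.hC, le_trans (le_max_left _ _) hRg.ha, hRg.h6, hRg.hn⟩
  obtain ⟨hw24, hawn, hnumW, hnumC⟩ := hN1C a n hRg0
  have haC : C + 24 ≤ a := le_trans (le_max_right _ _) hRg.ha
  have han : a ^ 6 ≤ n := hRg.h6
  have hna : n ≤ a ^ C := hRg.hn
  have ha1 : 1 ≤ a := by omega
  have hnpos : 1 ≤ n := le_trans (Nat.one_le_pow _ _ ha1) han
  have hn2 : 2 ≤ n := by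
    have : 2 ^ 6 ≤ a ^ 6 := Nat.pow_le_pow_left (by omega) 6
    omega
  obtain ⟨z, hz⟩ : ∃ z : ℕ, z = n / a ^ 3 := ⟨_, rfl⟩
  obtain ⟨w, hw⟩ : ∃ w : ℕ, w = n / a ^ 2 := ⟨_, rfl⟩
  obtain ⟨k, hk⟩ : ∃ k : ℕ, k = k1 C a n := ⟨_, rfl⟩
  obtain ⟨u, hu⟩ : ∃ u : ℕ, u = u1 C a n := ⟨_, rfl⟩
  have hbd : bd a n = 4 ^ (n / a ^ 2 / 8) * (3 / 4 : ℝ) ^ (n / a ^ 2) +
    (144 / ((n ^ 2 : ℕ) : ℝ) + 3 / (a : ℝ)) ^ (n / a ^ 2 / 24) := rfl
  rw [← hbd, ← hz, ← hk, ← hu] at hnumW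
  rw [← hz, ← hk, ← hu] at hnumC
  rw [← hz] at hL
  have hz3 : a ^ 3 ≤ z := by
    rw [hz, Nat.le_div_iff_mul_le (by positivity)]
    calc a ^ 3 * a ^ 3 = a ^ 6 := by ring
      _ ≤ n := han
  have hza : a ≤ z := le_trans (Nat.le_self_pow (by norm_num) a) hz3
  have hzC : C + 1 ≤ z := by omega
  have hz1 : 1 ≤ z := by omega
  have hz2 : n ≤ 2 * (z * a ^ 3) := by
    have h1 := Nat.lt_div_mul_add (a := n) (b := a ^ 3) (by positivity)
    have h2 : a ^ 3 ≤ z * a ^ 3 := Nat.le_mul_of_pos_left _ (by omega)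
    rw [← hz] at h1
    omega
  have hm1 : 1 ≤ n ^ 2 := Nat.one_le_pow _ _ hnpos
  -- real versions
  have har : (24 : ℝ) ≤ a := by exact_mod_cast (by omega : 24 ≤ a)
  have hap : (0 : ℝ) < a := by linarith
  have hnr : (2 : ℝ) ≤ n := by exact_mod_cast hn2
  have hnp : (0 : ℝ) < n := by linarith
  have hzr : (1 : ℝ) ≤ z := by exact_mod_cast hz1
  have hLr : (L.card : ℝ) ≤ 2 ^ z := by exact_mod_cast hL
  -- the basic bound
  have hbase : ((1 : ℝ) / a) ^ z ≤ 1 / (8 * n) := by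
    rw [div_pow, one_pow]
    apply one_div_le_one_div_of_le (by positivity)
    have h1 : (a : ℝ) ^ (C + 1) ≤ (a : ℝ) ^ z := pow_le_pow_right₀ (by linarith) hzC
    have h2 : (n : ℝ) ≤ (a : ℝ) ^ C := by exact_mod_cast hna
    calc (8 : ℝ) * n ≤ a * (a : ℝ) ^ C :=
          mul_le_mul (by linarith) h2 hnp.le hap.le
      _ = (a : ℝ) ^ (C + 1) := by ring
      _ ≤ (a : ℝ) ^ z := h1
  -- the heavy sets
  have hex : ∀ (D : Line (Edge (n ^ 2) n)) (T : Finset (Edge (n ^ 2) n)),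
      ∃ Hv : Finset (Edge (n ^ 2) n), Hv.card ≤ n ∧ (D ∈ L → w ≤ nf a D T →
        pr (fun ω : Fin n → Bool × Fin (n ^ 2) => ¬ Gd D T Hv ω) ≤ bd a n) := by
    intro D T
    by_cases h : D ∈ L ∧ w ≤ nf a D T
    · obtain ⟨Hv, h1, h2⟩ := hS1W (n ^ 2) n (Pos D T) (enab D T) a w hm1 (by omega)
        (by rw [hw]; exact hw24) (fun e => (hENAB (n ^ 2) n D (hLt.two D h.1)).1 T e) h.2
      refine ⟨Hv, h1.trans (by rw [hw]; exact hawn), fun _ _ => ?_⟩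
      rw [hbd, ← hw]
      exact h2
    · exact ⟨∅, by simp, fun h1 h2 => absurd ⟨h1, h2⟩ h⟩
  choose Hv hHv1 hHv2 using hex
  -- event of S1W
  have hEW : pr (fun ω : Fin n → Bool × Fin (n ^ 2) => ∃ D ∈ L,
      ∃ T ∈ univ.filter (fun T : Finset (Edge (n ^ 2) n) => T.card ≤ k + u),
        w ≤ nf a D T ∧ ¬ Gd D T (Hv D T) ω) ≤ 1 / (8 * n) := by
    have h1 := pr_exists_le_card L (fun D (ω : Fin n → Bool × Fin (n ^ 2)) =>
      ∃ T ∈ univ.filter (fun T : Finset (Edge (n ^ 2) n) => T.card ≤ k + u),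
        w ≤ nf a D T ∧ ¬ Gd D T (Hv D T) ω)
      ((univ.filter (fun T : Finset (Edge (n ^ 2) n) => T.card ≤ k + u)).card * bd a n)
      (fun D hD => pr_exists_le_card _ _ _ (fun T _ => by
        by_cases h2 : w ≤ nf a D T
        · exact (pr_mono (fun ω h => h.2)).trans (hHv2 D T hD h2)
        · have h3 : pr (fun ω : Fin n → Bool × Fin (n ^ 2) =>
              w ≤ nf a D T ∧ ¬ Gd D T (Hv D T) ω) = 0 :=
            pr_false (fun ω h => h2 h.1)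
          rw [h3]
          exact bd_nonneg a n))
    refine h1.trans (le_trans ?_ hnumW)
    have h2 := count_le n (k + u)
    have h3 := bd_nonneg a n
    calc (L.card : ℝ) * ((univ.filter (fun T : Finset (Edge (n ^ 2) n) =>
          T.card ≤ k + u)).card * bd a n)
        ≤ 2 ^ z * (((n ^ 2 * n + 1 : ℕ) : ℝ) ^ (k + u) * bd a n) := by
          gcongr
      _ = _ := by ring
  -- chains
  have hEC : pr (fun ω : Fin n → Bool × Fin (n ^ 2) => ∃ D ∈ L,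
      ∃ ξ ∈ univ.filter (fun ξ : Finset (Edge (n ^ 2) n) => ξ.card ≤ k),
        IsCh (Hv D) (Mt ω) u ξ ∅) ≤ 1 / (8 * n) := by
    have h1 := pr_exists_le_card L (fun D (ω : Fin n → Bool × Fin (n ^ 2)) =>
      ∃ ξ ∈ univ.filter (fun ξ : Finset (Edge (n ^ 2) n) => ξ.card ≤ k),
        IsCh (Hv D) (Mt ω) u ξ ∅)
      ((univ.filter (fun ξ : Finset (Edge (n ^ 2) n) => ξ.card ≤ k)).card *
        (2 * (n : ℝ) * (1 / ((n ^ 2 : ℕ) : ℝ))) ^ u)
      (fun D _ => pr_exists_le_card _ _ _ (fun ξ _ =>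
        hCHN (Fin n → Bool × Fin (n ^ 2)) (Edge (n ^ 2) n) (fun ω => Mt ω) (Hv D)
          (1 / ((n ^ 2 : ℕ) : ℝ)) n u ξ (by positivity)
          (fun F => S1M.pr_subset_Mt hm1 F) (fun ξ' => hHv1 D ξ')))
    refine h1.trans (le_trans ?_ hnumC)
    have h2 := count_le n k
    have h3 : (0 : ℝ) ≤ (2 * (n : ℝ) * (1 / ((n ^ 2 : ℕ) : ℝ))) ^ u := by positivity
    calc (L.card : ℝ) * ((univ.filter (fun ξ : Finset (Edge (n ^ 2) n) =>
          ξ.card ≤ k)).card * (2 * (n : ℝ) * (1 / ((n ^ 2 : ℕ) : ℝ))) ^ u)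
        ≤ 2 ^ z * (((n ^ 2 * n + 1 : ℕ) : ℝ) ^ k *
          (2 * (n : ℝ) * (1 / ((n ^ 2 : ℕ) : ℝ))) ^ u) := by
          gcongr
      _ = _ := by ring
  -- exceptional edges
  have hQ : ∀ (Q : Finset (Finset (Edge (n ^ 2) n))), Q.card * a ^ 5 ≤ n ^ 3 →
      (6 * (Q.card : ℝ) / (z * (n ^ 2 : ℕ))) ^ z ≤ (12 / (a : ℝ) ^ 2) ^ z := by
    intro Q hQ
    apply pow_le_pow_left₀ (by positivity)
    rw [div_le_div_iff₀ (by positivity) (by positivity)]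
    have h1 : (Q.card : ℝ) * (a : ℝ) ^ 5 ≤ (n : ℝ) ^ 3 := by exact_mod_cast hQ
    have h2 : (n : ℝ) ≤ 2 * (z * (a : ℝ) ^ 3) := by exact_mod_cast hz2
    push_cast
    have h3 : (Q.card : ℝ) * (a : ℝ) ^ 5 ≤ 2 * (z * (a : ℝ) ^ 3) * (n : ℝ) ^ 2 := by
      calc (Q.card : ℝ) * (a : ℝ) ^ 5 ≤ (n : ℝ) ^ 3 := h1
        _ = n * (n : ℝ) ^ 2 := by ring
        _ ≤ _ := by gcongr
    have h4 : 0 ≤ (2 * (z : ℝ) * (n : ℝ) ^ 2 - Q.card * (a : ℝ) ^ 2) * (a : ℝ) ^ 3 := by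
      nlinarith
    have h5 : 0 ≤ 2 * (z : ℝ) * (n : ℝ) ^ 2 - Q.card * (a : ℝ) ^ 2 :=
      nonneg_of_mul_nonneg_left h4 (by positivity)
    nlinarith
  have hfin : (2 : ℝ) ^ z * (12 / (a : ℝ) ^ 2) ^ z ≤ 1 / (8 * n) := by
    refine le_trans ?_ hbase
    rw [← mul_pow]
    apply pow_le_pow_left₀ (by positivity)
    rw [← mul_div_assoc, div_le_div_iff₀ (by positivity) hap]
    nlinarith
  have hE4 : pr (fun ω : Fin n → Bool × Fin (n ^ 2) => ∃ D ∈ L,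
      z ≤ (U D ∩ Mt ω).card) ≤ 1 / (8 * n) := by
    have h1 := pr_exists_le_card L (fun D (ω : Fin n → Bool × Fin (n ^ 2)) =>
      z ≤ (U D ∩ Mt ω).card) ((12 / (a : ℝ) ^ 2) ^ z) (fun D hD => by
        refine (pr_mono (fun ω h => ST1.disj_of_card (U D) (Mt ω) z h)).trans
          ((stmt_S1M (n ^ 2) n _ z hm1 hz1 ?_).trans (hQ _ ?_))
        · intro A hA
          obtain ⟨e, he, rfl⟩ := mem_image.1 hA
          rw [card_singleton]; omega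
        · have h2 := hLt.hU D hD
          have h3 : ((U D).image (fun e => ({e} : Finset (Edge (n ^ 2) n)))).card ≤ (U D).card :=
            card_image_le
          calc _ ≤ (U D).card * a ^ 5 := Nat.mul_le_mul_right _ h3
            _ ≤ n ^ 2 := h2
            _ ≤ n ^ 3 := Nat.pow_le_pow_right hnpos (by norm_num))
    refine h1.trans (le_trans ?_ hfin)
    gcongr
  have hE0 := stmt_S1A (n ^ 2) n hm1
  have hE1 := stmt_S1B (n ^ 2) n hm1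
  have hE1' : ((n : ℝ) * (n - 1)) / (2 * (n ^ 2 : ℕ)) = 1 / 2 - 1 / (2 * n) := by
    push_cast
    field_simp
  rw [hE1'] at hE1
  have : Nonempty (Fin n → Bool × Fin (n ^ 2)) := ⟨fun _ => (true, ⟨0, by omega⟩)⟩
  obtain ⟨ω, hω⟩ := exists_of_pr_lt_one (p := fun ω : Fin n → Bool × Fin (n ^ 2) =>
      (2 * (univ.filter (fun j => (ω j).1 = true)).card < n) ∨
      ((¬ Function.Injective (fun j => (ω j).2)) ∨
      ((∃ D ∈ L, ∃ T ∈ univ.filter (fun T : Finset (Edge (n ^ 2) n) => T.card ≤ k + u),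
        w ≤ nf a D T ∧ ¬ Gd D T (Hv D T) ω) ∨
      ((∃ D ∈ L, ∃ ξ ∈ univ.filter (fun ξ : Finset (Edge (n ^ 2) n) => ξ.card ≤ k),
        IsCh (Hv D) (Mt ω) u ξ ∅) ∨
      (∃ D ∈ L, z ≤ (U D ∩ Mt ω).card))))) (by
    have h1 := pr_or (fun ω : Fin n → Bool × Fin (n ^ 2) => ∃ D ∈ L,
        ∃ ξ ∈ univ.filter (fun ξ : Finset (Edge (n ^ 2) n) => ξ.card ≤ k),
          IsCh (Hv D) (Mt ω) u ξ ∅)
      (fun ω => ∃ D ∈ L, z ≤ (U D ∩ Mt ω).card)
    have h2 := (pr_or (fun ω : Fin n → Bool × Fin (n ^ 2) => ∃ D ∈ L,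
        ∃ T ∈ univ.filter (fun T : Finset (Edge (n ^ 2) n) => T.card ≤ k + u),
        w ≤ nf a D T ∧ ¬ Gd D T (Hv D T) ω) _).trans
      (add_le_add_right h1 _)
    have h3 := (pr_or (fun ω : Fin n → Bool × Fin (n ^ 2) =>
      ¬ Function.Injective (fun j => (ω j).2)) _).trans (add_le_add_right h2 _)
    have h4 := (pr_or (fun ω : Fin n → Bool × Fin (n ^ 2) =>
      2 * (univ.filter (fun j => (ω j).1 = true)).card < n) _).trans (add_le_add_right h3 _)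
    refine h4.trans_lt ?_
    have h5 : (1 : ℝ) / (2 * n) = 4 * (1 / (8 * n)) := by
      field_simp
      norm_num
    have h6 : (0 : ℝ) < 1 / (8 * n) := by positivity
    linarith)
  simp only [not_or, not_exists, not_and, not_lt, not_not, not_le] at hω
  obtain ⟨w0, w1, w2, w3, w4⟩ := hω
  refine ⟨ω, w0, w1, fun D hD => ?_, ?_⟩
  · rw [← hz]
    exact w4 D hD
  intro D hD ξ hξ
  rw [← hk] at hξ
  have h1 : ¬ IsCh (Hv D) (Mt ω) u ξ ∅ := w3 D hD ξ (mem_filter.2 ⟨mem_univ _, hξ⟩)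
  have h2 : ¬ IsCh (Hv D) (M0 ω) u ξ ∅ := fun h =>
    h1 ((hCHD (Edge (n ^ 2) n) (Mt ω) (Hv D) u ξ).1 (M0 ω) ξ ∅ (M0_sub ω) h)
  obtain ⟨ξ0, hξ0, hξ0c, hξ0H⟩ := (hCHD (Edge (n ^ 2) n) (M0 ω) (Hv D) u ξ).2 h2
  by_cases hnf : nf a D (ξ ∪ ξ0) < n / a ^ 2
  · exact Or.inl ⟨ξ0, hξ0, hnf⟩
  · right
    push Not at hnf
    rw [← hw] at hnf
    have h3 : (ξ ∪ ξ0).card ≤ k + u := (card_union_le _ _).trans (by omega)
    obtain ⟨j, hj1, hj2, hj3⟩ := w2 D hD (ξ ∪ ξ0) (mem_filter.2 ⟨mem_univ _, h3⟩) hnf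
    obtain ⟨_, hen2, _, hen4⟩ := hENAB (n ^ 2) n D (hLt.two D hD)
    refine ⟨((ω j).2, j), mem_M0 ω j hj1, ?_⟩
    refine hen4 (M0 ω) (ξ ∪ ξ0) _ hj2 ?_ (M0 ω ∪ ξ) ?_ ?_
    · intro v hv hvM
      have h4 := hξ0H v (hj3 v hv (M0_sub ω hvM)) hvM
      exact hen2 _ _ _ hv (mem_union_right _ h4)
    · intro e he
      rcases mem_union.1 he with h | h
      · exact mem_union_right _ h
      · exact mem_union_left _ (hξ0 h)
    · intro e he
      rcases mem_union.1 he with h | h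
      · exact mem_union_left _ h
      · exact mem_union_right _ (mem_union_left _ h)

end

end Pool.Agent.Work.MP_833881_lp
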