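import Pool.Agent.Work.MP_833881_lp.Interface

/-!
# Block WLD: existence of a world
-/

namespace Pool.Agent.Work.MP_833881_lp

open Finset Pool.Agent.Work.MP_833881_lc Pool.Agent.Work.MP_833881_lb
open scoped Classical

noncomputable section

namespace WLD

/-- the number of forced edges in the exceptional set -/
theorem exc_card {m n : ℕ} (ω1 : Fin n → Bool × Fin m) (U : Finset (Edge m n)) (J : Finset (Fin n))
    {z : ℕ} (h1 : (U ∩ Mt ω1).card < z) (h2 : J.card ≤ z) : (M0 ω1 ∩ XX U J).card ≤ 2 * z := by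
  have hsub : M0 ω1 ∩ XX U J ⊆ (U ∩ Mt ω1) ∪ J.image (fun j => ((ω1 j).2, j)) := by
    intro e he
    obtain ⟨he1, he2⟩ := Finset.mem_inter.1 he
    obtain ⟨j, hj, hje⟩ := Finset.mem_image.1 he1
    unfold XX at he2
    rcases Finset.mem_union.1 he2 with h | h
    · exact Finset.mem_union_left _ (Finset.mem_inter.2 ⟨h, Finset.mem_image.2
        ⟨j, Finset.mem_univ _, hje⟩⟩)
    · refine Finset.mem_union_right _ (Finset.mem_image.2 ⟨j, ?_, hje⟩)
      have h3 := (Finset.mem_filter.1 h).2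
      rw [← hje] at h3
      exact h3
  have h3 := (Finset.card_le_card hsub).trans (Finset.card_union_le _ _)
  have h4 : (J.image (fun j => ((ω1 j).2, j))).card ≤ J.card := Finset.card_image_le
  omega

end WLD

open WLD in
theorem stmt_WLD (hST1 : Stmt_ST1) (hA1 : Stmt_A1) (hA2 : Stmt_A2) (hA3 : Stmt_A3) (hA4a : Stmt_A4a)
    (hA4b : Stmt_A4b) (hA5a : Stmt_A5a) (hPPR : Stmt_PPR) (hPPH : Stmt_PPH) (hPPD : Stmt_PPD)
    (hHD : Stmt_HD) (hWP : Stmt_WP) : Stmt_WLD := by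
  intro C
  obtain ⟨b0, hb0⟩ := hST1 C
  obtain ⟨b1, hb1⟩ := hA1 C
  obtain ⟨b2, hb2⟩ := hA2 C
  obtain ⟨b3, hb3⟩ := hA3 C
  obtain ⟨b4, hb4⟩ := hA4a C
  obtain ⟨b5, hb5⟩ := hA4b C
  obtain ⟨b6, hb6⟩ := hA5a C
  obtain ⟨b7, hb7⟩ := hPPR C
  obtain ⟨b8, hb8⟩ := hPPH C
  refine ⟨b0 + b1 + b2 + b3 + b4 + b5 + b6 + b7 + b8 + 100, fun a n L U J hR hL hLi => ?_⟩
  have hge := hR.ha
  have hR' : ∀ b, b ≤ b0 + b1 + b2 + b3 + b4 + b5 + b6 + b7 + b8 + 100 → Rg C b a n :=
    fun b hb => ⟨hR.hC, hb.trans hge, hR.h6, hR.hn⟩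
  have haT : 100 ≤ a := by omega
  obtain ⟨ω1, hA, hB, hCC, hDD⟩ := hb0 a n L U J (hR' b0 (by omega)) hL hLi
  -- sizes
  have h6 := hR.h6
  have ha0 : 0 < a := by omega
  have hn3 : a ^ 3 ≤ n := (Nat.pow_le_pow_right ha0 (by norm_num)).trans h6
  have hn2 : a ^ 2 ≤ n := (Nat.pow_le_pow_right ha0 (by norm_num)).trans h6
  have hz1 : 1 ≤ n / a ^ 3 := (Nat.one_le_div_iff (by positivity)).2 hn3
  have hw1 : 1 ≤ n / a ^ 2 := (Nat.one_le_div_iff (by positivity)).2 hn2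
  have hzw : n / a ^ 3 ≤ n / a ^ 2 :=
    Nat.div_le_div_left (Nat.pow_le_pow_right ha0 (by norm_num)) (by positivity)
  have hT1 : 1 ≤ n / (64 * a) := by
    refine (Nat.one_le_div_iff (by positivity)).2 ?_
    nlinarith
  have hn0 : 0 < n := by
    have : 0 < a ^ 2 := by positivity
    omega
  -- the free holes
  let H1 : Finset (Fin n) := univ.filter (fun j => (ω1 j).1 = true)
  let h : ℕ := H1.card
  let hl : Fin h → Fin n := fun x => H1.orderEmbOfFin rfl x
  have hlinj : Function.Injective hl := (H1.orderEmbOfFin rfl).injective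
  have hlmem : ∀ x, hl x ∈ H1 := fun x => Finset.orderEmbOfFin_mem H1 rfl x
  have hlsurj : ∀ j ∈ H1, ∃ x, hl x = j := by
    intro j hj
    have h1 : j ∈ Set.range (H1.orderEmbOfFin rfl) := by
      rw [Finset.range_orderEmbOfFin]
      exact hj
    exact h1
  have hn2h : n ≤ 2 * h := hA
  let E0 : Finset (Edge (n ^ 2) n) := M0 ω1
  let P0 : Finset (Fin (n ^ 2)) := E0.image Prod.fst
  have hE0 : ∀ e, e ∈ E0 ↔ (ω1 e.2).1 = false ∧ (ω1 e.2).2 = e.1 := by
    intro e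
    constructor
    · intro he
      obtain ⟨j, hj, hje⟩ := Finset.mem_image.1 he
      rw [← hje]
      exact ⟨(Finset.mem_filter.1 hj).2, rfl⟩
    · intro he
      exact Finset.mem_image.2 ⟨e.2, Finset.mem_filter.2 ⟨Finset.mem_univ _, he.1⟩, Prod.ext he.2 rfl⟩
  have hE0c : E0.card ≤ n := by
    refine Finset.card_image_le.trans ((Finset.card_filter_le _ _).trans ?_)
    rw [Finset.card_univ, Fintype.card_fin]
  have hP0c : P0.card ≤ n := Finset.card_image_le.trans hE0c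
  have hP0 : ∀ e ∈ E0, e.1 ∈ P0 := fun e he => Finset.mem_image_of_mem _ he
  have hH1 : ∀ j, j ∉ E0.image Prod.snd → ∃ x, hl x = j := by
    intro j hj
    apply hlsurj
    refine Finset.mem_filter.2 ⟨Finset.mem_univ _, ?_⟩
    by_contra hcon
    have h1 : (ω1 j).1 = false := by simpa using hcon
    exact hj (Finset.mem_image.2 ⟨((ω1 j).2, j), (hE0 _).2 ⟨h1, rfl⟩, rfl⟩)
  have hS : ∀ b, b ≤ b0 + b1 + b2 + b3 + b4 + b5 + b6 + b7 + b8 + 100 →
      Stg C b a n L U J h hl P0 E0 :=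
    fun b hb => ⟨hR' b hb, hL, hLi, hlinj, hn2h, hP0c, hP0⟩
  -- the second stage
  have p1 := hb1 a n L U J h hl P0 E0 (hS b1 (by omega))
  have p2 := hb2 a n L U J h hl P0 E0 (hS b2 (by omega))
  have p3 := hb3 a n L U J h hl P0 E0 (hS b3 (by omega))
  have p4 := hb4 a n L U J h hl P0 E0 (hS b4 (by omega))
  have p5 := hb5 a n L U J h hl P0 E0 (hS b5 (by omega))
  have p6 := hb6 a n L U J h hl P0 E0 (hS b6 (by omega))
  have p7 := hb7 a n L U J h hl P0 E0 (hS b7 (by omega))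
  have p8 := hb8 a n L U J h hl P0 E0 (hS b8 (by omega))
  have hall := (pr_or _ _).trans (add_le_add ((pr_or _ _).trans (add_le_add ((pr_or _ _).trans
    (add_le_add p1 p2)) ((pr_or _ _).trans (add_le_add p3 p4)))) ((pr_or _ _).trans (add_le_add
    ((pr_or _ _).trans (add_le_add p5 p6)) ((pr_or _ _).trans (add_le_add p7 p8)))))
  have hh0 : 0 < h := by omega
  have hne : Nonempty (Fin (n ^ 2) → Fin (sa C a) → Fin h × Bool) :=
    ⟨fun _ _ => (⟨0, hh0⟩, true)⟩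
  obtain ⟨ω2, hω⟩ := exists_of_pr_lt_one (lt_of_le_of_lt hall (by norm_num))
  push Not at hω
  obtain ⟨⟨⟨h1, h2⟩, ⟨h3, h4⟩⟩, ⟨⟨h5, h6'⟩, ⟨h7, h8⟩⟩⟩ := hω
  obtain ⟨h11, h12⟩ := h1
  obtain ⟨h21, h22⟩ := h2
  obtain ⟨h41, h42⟩ := h4
  obtain ⟨h61, h62⟩ := h6'
  -- options and samples
  have hopt : ∀ i j, j ∈ opts (E1 hl P0 ω2) i ↔ i ∉ P0 ∧ ∃ l, (ω2 i l).2 = true ∧ hl (ω2 i l).1 = j := by
    intro i j
    unfold opts E1
    simp only [Finset.mem_filter, Finset.mem_univ, true_and]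
  have hoptle : ∀ i, (opts (E1 hl P0 ω2) i).card ≤ alive hl (∅ : Finset (Edge (n ^ 2) n)) ω2 i := by
    intro i
    have h1 : opts (E1 hl P0 ω2) i ⊆ (univ.filter (fun l => (ω2 i l).2 = true ∧
        (i, hl (ω2 i l).1) ∉ (∅ : Finset (Edge (n ^ 2) n)))).image (fun l => hl (ω2 i l).1) := by
      intro j hj
      obtain ⟨_, l, hl1, hl2⟩ := (hopt i j).1 hj
      exact Finset.mem_image.2 ⟨l, Finset.mem_filter.2 ⟨Finset.mem_univ _, hl1, Finset.notMem_empty _⟩, hl2⟩
    exact (Finset.card_le_card h1).trans Finset.card_image_le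
  have hrep : ∀ i, i ∉ P0 → alive hl (∅ : Finset (Edge (n ^ 2) n)) ω2 i ≤
      (opts (E1 hl P0 ω2) i).card + cc C := by
    intro i hi
    have h1 := h12 {i} (by rw [Finset.card_singleton]; omega)
    rw [Finset.sum_singleton, Finset.card_singleton, mul_one] at h1
    refine h1.trans (Nat.add_le_add_right (Finset.card_le_card ?_) _)
    intro j hj
    obtain ⟨_, i', hi', l, hl1, hl2⟩ := Finset.mem_filter.1 hj
    rw [Finset.mem_singleton] at hi'
    subst hi'
    exact (hopt i' j).2 ⟨hi, l, hl1, hl2⟩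
  have hJz : ∀ D ∈ L, (J D).card ≤ n / a ^ 3 := by
    intro D hD
    rw [Nat.le_div_iff_mul_le (by positivity)]
    refine le_trans ?_ (hLi.hJ D hD)
    exact Nat.mul_le_mul_left _ (Nat.pow_le_pow_right ha0 (by norm_num))
  refine ⟨E0, E1 hl P0 ω2, ?_⟩
  refine ⟨?_, ?_, ?_, ?_, ?_, hLi.two, h61, h41, h42, h5, ?_, ?_, ?_, h62⟩
  · -- mat
    intro e he f hf hef
    obtain ⟨he1, he2⟩ := (hE0 e).1 he
    obtain ⟨hf1, hf2⟩ := (hE0 f).1 hf
    rcases hef with h1 | h1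
    · have h2 : e.2 = f.2 := hB (by
        change (ω1 e.2).2 = (ω1 f.2).2
        rw [he2, hf2, h1])
      exact Prod.ext h1 h2
    · refine Prod.ext ?_ h1
      rw [← he2, ← hf2, h1]
  · -- sep
    intro e he f hf
    obtain ⟨_, hf1, l, hf2, hf3⟩ := Finset.mem_filter.1 hf
    refine ⟨fun h1 => hf1 (by rw [← h1]; exact hP0 e he), fun h1 => ?_⟩
    have h2 := hlmem (ω2 f.1 l).1
    rw [hf3, ← h1] at h2
    have h3 := (Finset.mem_filter.1 h2).2
    rw [((hE0 e).1 he).1] at h3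
    exact absurd h3 (by decide)
  · -- deg_ge
    intro i hi
    have h1 := hrep i hi
    have h2 := h11 i
    change r0 C ≤ _
    omega
  · -- hole_ge
    intro j hj
    obtain ⟨x, rfl⟩ := hH1 j hj
    exact h21 x
  · -- exp
    intro A hA'
    have h1 : ∑ i ∈ A, (opts (E1 hl P0 ω2) i).card = ∑ i ∈ A.filter (fun i => i ∉ P0),
        (opts (E1 hl P0 ω2) i).card := by
      rw [Finset.sum_filter]
      refine Finset.sum_congr rfl (fun i _ => ?_)
      by_cases hi : i ∈ P0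
      · rw [if_neg (not_not.2 hi), Finset.card_eq_zero, Finset.eq_empty_iff_forall_notMem]
        intro j hj
        exact ((hopt i j).1 hj).1 hi
      · rw [if_pos hi]
    have h2 := h12 (A.filter (fun i => i ∉ P0)) ((Finset.card_filter_le _ _).trans hA')
    have h3 : ∑ i ∈ A.filter (fun i => i ∉ P0), (opts (E1 hl P0 ω2) i).card ≤
        ∑ i ∈ A.filter (fun i => i ∉ P0), alive hl (∅ : Finset (Edge (n ^ 2) n)) ω2 i :=
      Finset.sum_le_sum (fun i _ => hoptle i)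
    have h4 : (univ.filter (fun j => ∃ i ∈ A.filter (fun i => i ∉ P0), ∃ l, (ω2 i l).2 = true ∧
        hl (ω2 i l).1 = j)).card ≤ (A.biUnion (opts (E1 hl P0 ω2))).card := by
      refine Finset.card_le_card ?_
      intro j hj
      obtain ⟨_, i, hi, l, hl1, hl2⟩ := Finset.mem_filter.1 hj
      obtain ⟨hi1, hi2⟩ := Finset.mem_filter.1 hi
      exact Finset.mem_biUnion.2 ⟨i, hi1, (hopt i j).2 ⟨hi2, l, hl1, hl2⟩⟩
    have h5 : cc C * (A.filter (fun i => i ∉ P0)).card ≤ cc C * A.card :=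
      Nat.mul_le_mul_left _ (Finset.card_filter_le _ _)
    rw [h1]
    change _ ≤ _ + cc C * A.card
    omega
  · -- posP
    exact hWP (n ^ 2) n h (sa C a) L (n / a ^ 3) (n / a ^ 2) (uu C a n) (x0 C a n) (rp C) (cc C) hl
      E0 ω2 hLi.two hrep h3
  · -- posH
    intro D hD ξ hξ
    have hD' : D ∈ L := hD
    have hξ' : ξ.card ≤ x0 C a n := hξ
    have hex := exc_card ω1 (U D) (J D) (hCC D hD') (hJz D hD')
    have hcard : (ξ ∪ (E0 ∩ XX (U D) (J D))).card ≤ k1 C a n := by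
      have h1 := Finset.card_union_le ξ (E0 ∩ XX (U D) (J D))
      have h2 : k1 C a n = x0 C a n + 2 * (n / a ^ 3) := by
        unfold k1 x0
        ring
      have h3 : (E0 ∩ XX (U D) (J D)).card ≤ 2 * (n / a ^ 3) := hex
      omega
    rcases hDD D hD' _ hcard with ⟨ξ0, hξ0, hlt⟩ | ⟨e, he, hpos⟩
    · left
      obtain ⟨XH, hXH1, hXH2⟩ := hHD a n D (U D) E0 ξ ξ0 (J D) (n / a ^ 2) (by omega) h6
        (hLi.two D hD') (hLi.hU D hD') (hLi.deg D hD') hE0c hξ0 hlt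
      refine ⟨XH, ?_, ?_⟩
      · have := hJz D hD'
        change XH.card ≤ 2 * (n / a ^ 2)
        omega
      · intro j hj1 hj2
        obtain ⟨x, rfl⟩ := hH1 j hj1
        exact h22 D hD' ξ hξ' x (hXH2 (hl x) hj1 hj2)
    · right
      refine ⟨e, he, ?_⟩
      have h1 : M0 ω1 ∪ (ξ ∪ (E0 ∩ XX (U D) (J D))) = E0 ∪ ξ := by
        ext x
        simp only [Finset.mem_union, Finset.mem_inter]
        constructor
        · rintro (h | h | h)
          · exact Or.inl h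
          · exact Or.inr h
          · exact Or.inl h.1
        · rintro (h | h)
          · exact Or.inl h
          · exact Or.inr (Or.inl h)
      rw [h1] at hpos
      exact hpos
  · -- pp
    intro D hD
    exact hPPD (n ^ 2) n D (XX (U D) (J D)) (E1 hl P0 ω2) (n / a ^ 3) C (n / (64 * a)) hz1 hT1
      (fun Y hY => h7 D hD Y hY) (fun j => h8 D hD j)

end

end Pool.Agent.Work.MP_833881_lp
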