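import Pool.Agent.Work.MP_833881_lp.Interface
import Pool.Agent.Work.MP_833881_lb.WLD

/-!
# Block WP: from samples to edges (helper19)
-/

namespace Pool.Agent.Work.MP_833881_lp

open Finset Pool.Agent.Work.MP_833881_lc Pool.Agent.Work.MP_833881_lb
open scoped Classical

theorem stmt_WP (hE : Stmt_ENAB) : Stmt_WP := by
  intro m n h s L z w u x0 rp c hl E0 ω h2 hal hFA D hD
  obtain ⟨Hv, hch, hx⟩ := hFA D hD
  refine ⟨Hv, hch, ?_⟩
  intro ξ hξ
  rcases hx ξ hξ with h1 | h1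
  · left
    refine lt_of_le_of_lt (Finset.card_le_card ?_) h1
    intro i hi
    obtain ⟨_, hi1, hi2⟩ := Finset.mem_filter.1 hi
    refine Finset.mem_filter.2 ⟨Finset.mem_univ _, hi1, ?_⟩
    have h3 := WLD_alive hl (E0.image Prod.fst) ω (Pos D (E0 ∪ ξ)) i c (hal i hi1)
    omega
  · right
    refine lt_of_lt_of_le h1 (Finset.card_le_card ?_)
    intro i hi
    obtain ⟨_, hi1, hi2, hi3⟩ := Finset.mem_filter.1 hi
    refine Finset.mem_filter.2 ⟨Finset.mem_univ _, hi1, ?_⟩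
    intro j hj
    obtain ⟨_, _, l, hl1, hl2⟩ : (i, j) ∈ univ ∧ i ∉ E0.image Prod.fst ∧
        ∃ l, (ω i l).2 = true ∧ hl (ω i l).1 = j := Finset.mem_filter.1 (Finset.mem_filter.1 hj).2
    have hpos : (i, j) ∈ Pos D (E0 ∪ ξ) := by
      by_contra hcon
      have h3 : l ∈ univ.filter (fun l => (ω i l).2 = true ∧ (i, hl (ω i l).1) ∉ Pos D (E0 ∪ ξ)) := by
        refine Finset.mem_filter.2 ⟨Finset.mem_univ _, hl1, ?_⟩
        rw [hl2]
        exact hcon
      have h4 := Finset.card_pos.2 ⟨l, h3⟩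
      unfold alive at hi2
      omega
    refine (hE m n D (h2 D hD)).2.2.1 _ _ _ _ hpos ?_
    intro v hv hvE
    refine hi3 l hl1 v ?_ hvE
    rw [hl2]
    exact hv

end Pool.Agent.Work.MP_833881_lp
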